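import Pool.Agent.J4H11.RC.Ht3

/-!
# From boxes to points of bounded height
-/

set_option autoImplicit false

namespace Pool.Agent.J4H11.RC

open Finset WeierstrassCurve Pool.Agent.H901R3.MS Module

theorem pt_balls (a b : ℤ) (hD : Disc (a : ℚ) (b : ℚ)) :
    ∃ (n : ℕ) (ψ : Pt (a : ℚ) (b : ℚ) →+ EuclideanSpace ℝ (Fin n)) (C C' : ℝ), 0 ≤ C ∧
      (∀ P, |‖ψ P‖ ^ 2 - hx P| ≤ C) ∧ 0 ≤ C' ∧ ∀ (T : ℝ) (v : EuclideanSpace ℝ (Fin n)), 1 ≤ T →
        {P | ‖ψ P - v‖ ≤ T}.Finite ∧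
        ({P | ‖ψ P - v‖ ≤ T}.ncard : ℝ) ≤ C' * T ^ (finrank ℤ (Pt (a : ℚ) (b : ℚ))) := by
  obtain ⟨n, ψ, C, hC0, hC⟩ := embE a b hD
  have hfin : ∀ T : ℝ, {z | ‖ψ z‖ ≤ T}.Finite := by
    intro T
    refine (northcott (a : ℚ) (b : ℚ) (T ^ 2 + C)).subset ?_
    intro P hP
    change ‖ψ P‖ ≤ T at hP
    change hx P ≤ T ^ 2 + C
    have h1 := (abs_le.1 (hC P)).1
    have h2 : ‖ψ P‖ ^ 2 ≤ T ^ 2 := pow_le_pow_left₀ (norm_nonneg _) hP 2
    linarith
  obtain ⟨C', hC'0, hC'⟩ := ball_count (t_M1 a b hD) ψ hfin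
  exact ⟨n, ψ, C, C', hC0, hC, hC'0, hC'⟩

open Classical in
theorem avg {r : ℕ} {a b : Fin r → ℤ} (hD : ∀ j, Disc (a j : ℚ) (b j : ℚ))
    {ι : Type} (Lf0 : ι → ((j : Fin r) → Pt (a j : ℚ) (b j : ℚ)) → Prop)
    (R : Fin 2 → (j : Fin r) → Pt (a j : ℚ) (b j : ℚ)) (Cb : ℝ) (hCb : 0 ≤ Cb) (L0 : ℕ)
    (hbox : ∀ L : ℕ, L0 ≤ L → ∃ s : Fin 2, ∀ (δ : ι) (c : (j : Fin r) → Pt (a j : ℚ) (b j : ℚ)),
      ((((Fintype.piFinset (fun _ : Fin r => range L)).filter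
        (fun n => Lf0 δ (fun j => c j + n j • R s j))).card : ℕ) : ℝ) ≤
        Cb * (L : ℝ) ^ r * (L : ℝ) ^ (-(1 / 8) : ℝ)) :
    ∃ C : ℝ, 0 ≤ C ∧ ∀ (δ : ι) (T : ℝ), 1 ≤ T → ∀ c : (j : Fin r) → Pt (a j : ℚ) (b j : ℚ),
      {P : (j : Fin r) → Pt (a j : ℚ) (b j : ℚ) | (∀ j, hx (P j - c j) ≤ T ^ 2) ∧ Lf0 δ P}.Finite ∧
      ({P : (j : Fin r) → Pt (a j : ℚ) (b j : ℚ) |
        (∀ j, hx (P j - c j) ≤ T ^ 2) ∧ Lf0 δ P}.ncard : ℝ) ≤
        C * T ^ (((∑ j, finrank ℤ (Pt (a j : ℚ) (b j : ℚ)) : ℕ) : ℝ) - 1 / 8) := by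
  have hb := fun j => pt_balls (a j) (b j) (hD j)
  choose m ψ C C' hC0 hC hC'0 hC' using hb
  set ρ : ℕ := ∑ j, finrank ℤ (Pt (a j : ℚ) (b j : ℚ)) with hρ
  set B : ℝ := 1 + ∑ j, C j with hB
  have hCs : 0 ≤ ∑ j, C j := sum_nonneg fun j _ => hC0 j
  have hB1 : 1 ≤ B := by linarith
  have hCB : ∀ j, 1 + C j ≤ B := fun j => by
    have := single_le_sum (f := C) (fun l _ => hC0 l) (mem_univ j)
    linarith
  set B' : ℝ := ∑ s, ∑ j, ‖ψ j (R s j)‖ with hB'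
  have hB'0 : 0 ≤ B' := sum_nonneg fun s _ => sum_nonneg fun j _ => norm_nonneg _
  have hRB' : ∀ s j, ‖ψ j (R s j)‖ ≤ B' := fun s j => by
    have h1 := single_le_sum (f := fun j => ‖ψ j (R s j)‖) (fun l _ => norm_nonneg _) (mem_univ j)
    have h2 := single_le_sum (f := fun s => ∑ j, ‖ψ j (R s j)‖)
      (fun s _ => sum_nonneg fun j _ => norm_nonneg _) (mem_univ s)
    exact h1.trans h2
  set B2 : ℝ := B + B' with hB2
  have hB21 : 1 ≤ B2 := by linarith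
  set K : ℝ := ∏ j, (C' j * B2 ^ (finrank ℤ (Pt (a j : ℚ) (b j : ℚ)))) with hK
  have hK0 : 0 ≤ K := prod_nonneg fun j _ => mul_nonneg (hC'0 j) (by positivity)
  -- the big ball
  have hbig : ∀ T : ℝ, 1 ≤ T → ∀ c : (j : Fin r) → Pt (a j : ℚ) (b j : ℚ),
      ∃ Bg : Finset ((j : Fin r) → Pt (a j : ℚ) (b j : ℚ)),
        (∀ Q : (j : Fin r) → Pt (a j : ℚ) (b j : ℚ), Q ∈ Bg ↔
          ∀ j, ‖ψ j (Q j) - ψ j (c j)‖ ≤ B2 * T) ∧ (Bg.card : ℝ) ≤ K * T ^ ρ := by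
    intro T hT c
    have hBT : 1 ≤ B2 * T := by nlinarith
    refine ⟨Fintype.piFinset (fun j => (hC' j (B2 * T) (ψ j (c j)) hBT).1.toFinset),
      fun Q => ?_, ?_⟩
    · rw [Fintype.mem_piFinset]
      simp only [Set.Finite.mem_toFinset, Set.mem_ofPred_eq]
    · rw [Fintype.card_piFinset]
      push_cast
      have h1 : ∀ j ∈ (univ : Finset (Fin r)),
          ((hC' j (B2 * T) (ψ j (c j)) hBT).1.toFinset.card : ℝ) ≤
          (C' j * B2 ^ (finrank ℤ (Pt (a j : ℚ) (b j : ℚ)))) *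
            T ^ (finrank ℤ (Pt (a j : ℚ) (b j : ℚ))) := by
        intro j _
        have h2 := (hC' j (B2 * T) (ψ j (c j)) hBT).2
        rw [Set.ncard_eq_toFinset_card _ (hC' j (B2 * T) (ψ j (c j)) hBT).1] at h2
        refine h2.trans (le_of_eq ?_)
        rw [mul_pow]
        ring
      refine (prod_le_prod (fun j _ => Nat.cast_nonneg _) h1).trans (le_of_eq ?_)
      rw [prod_mul_distrib, ← hK, hρ, prod_pow_eq_pow_sum]
  have hWsub : ∀ T : ℝ, 1 ≤ T → ∀ c : (j : Fin r) → Pt (a j : ℚ) (b j : ℚ),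
      ∀ P : (j : Fin r) → Pt (a j : ℚ) (b j : ℚ), (∀ j, hx (P j - c j) ≤ T ^ 2) →
      ∀ j, ‖ψ j (P j) - ψ j (c j)‖ ≤ B * T := by
    intro T hT c P hP j
    rw [← map_sub]
    have h1 := (abs_le.1 (hC j (P j - c j))).2
    have h2 : ‖ψ j (P j - c j)‖ ^ 2 ≤ (B * T) ^ 2 := by
      have h3 := hCB j
      have h4 := hP j
      have h5 : C j ≤ C j * T ^ 2 := by
        have : (1 : ℝ) ≤ T ^ 2 := one_le_pow₀ hT
        nlinarith [hC0 j]
      have h6 : (1 + C j) * T ^ 2 ≤ (B * T) ^ 2 := by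
        rw [mul_pow]
        apply mul_le_mul_of_nonneg_right _ (by positivity)
        nlinarith
      nlinarith
    exact (abs_le_of_sq_le_sq' h2 (by positivity)).2
  refine ⟨2 * K * Cb + K * (L0 + 1), by positivity, fun δ T hT c => ?_⟩
  set Lf := Lf0 δ with hLfdef
  have hT0 : 0 < T := by linarith
  set W := {P : (j : Fin r) → Pt (a j : ℚ) (b j : ℚ) | (∀ j, hx (P j - c j) ≤ T ^ 2) ∧ Lf P}
    with hW
  obtain ⟨Bg, hBg1, hBg2⟩ := hbig T hT c
  have hWB : W ⊆ (Bg : Set ((j : Fin r) → Pt (a j : ℚ) (b j : ℚ))) := by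
    rintro P ⟨hP1, -⟩
    rw [mem_coe, hBg1]
    intro j
    refine (hWsub T hT c P hP1 j).trans ?_
    apply mul_le_mul_of_nonneg_right _ hT0.le
    linarith
  have hWf : W.Finite := (finite_toSet Bg).subset hWB
  refine ⟨hWf, ?_⟩
  rw [Set.ncard_eq_toFinset_card W hWf]
  set Wf := hWf.toFinset with hWfdef
  have hWc : (Wf.card : ℝ) ≤ K * T ^ ρ := by
    refine le_trans ?_ hBg2
    have : Wf ⊆ Bg := by
      intro P hP
      rw [hWfdef, Set.Finite.mem_toFinset] at hP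
      exact hWB hP
    exact_mod_cast card_le_card this
  have hTρ : T ^ ((ρ : ℝ) - 1 / 8) = T ^ ρ * T ^ (-(1 / 8) : ℝ) := by
    rw [← Real.rpow_natCast, ← Real.rpow_add hT0]
    congr 1
  rw [hTρ]
  have hT8 : 0 < T ^ (-(1 / 8) : ℝ) := Real.rpow_pos_of_pos hT0 _
  have hTρ0 : 0 < T ^ ρ := by positivity
  by_cases hcase : T < L0 + 1
  · have h1 : 1 ≤ ((L0 : ℝ) + 1) * T ^ (-(1 / 8) : ℝ) := by
      have h2 : T ^ (1 / 8 : ℝ) ≤ (L0 : ℝ) + 1 := by
        calc T ^ (1 / 8 : ℝ) ≤ T ^ (1 : ℝ) :=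
              Real.rpow_le_rpow_of_exponent_le hT (by norm_num)
          _ = T := Real.rpow_one T
          _ ≤ _ := hcase.le
      have h3 : T ^ (1 / 8 : ℝ) * T ^ (-(1 / 8) : ℝ) = 1 := by
        rw [← Real.rpow_add hT0]
        norm_num
      calc (1 : ℝ) = T ^ (1 / 8 : ℝ) * T ^ (-(1 / 8) : ℝ) := h3.symm
        _ ≤ _ := mul_le_mul_of_nonneg_right h2 hT8.le
    have h4 : K * T ^ ρ ≤ K * ((L0 : ℝ) + 1) * (T ^ ρ * T ^ (-(1 / 8) : ℝ)) := by
      have h5 : 0 ≤ K * T ^ ρ := by positivity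
      nlinarith
    have h6 : 0 ≤ 2 * K * Cb * (T ^ ρ * T ^ (-(1 / 8) : ℝ)) := by positivity
    linarith
  · push Not at hcase
    set L := ⌊T⌋₊ with hL
    have hLT : (L : ℝ) ≤ T := Nat.floor_le hT0.le
    have hTL : T < (L : ℝ) + 1 := Nat.lt_floor_add_one T
    have hLL0 : L0 ≤ L := by
      rw [hL, Nat.le_floor_iff hT0.le]
      linarith
    have hL1 : 1 ≤ L := by
      rw [hL, Nat.one_le_floor_iff]
      exact hT
    have hL1R : (1 : ℝ) ≤ L := by exact_mod_cast hL1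
    have hL0R : (0 : ℝ) < L := by linarith
    obtain ⟨s, hs0⟩ := hbox L hLL0
    have hs := hs0 δ
    rw [← hLfdef] at hs
    set box := Fintype.piFinset (fun _ : Fin r => range L) with hboxd
    have hinj : (Wf ×ˢ box).card ≤ (Bg.sigma (fun Q => box.filter
        (fun n => Lf (fun j => Q j + n j • R s j)))).card := by
      refine card_le_card_of_injOn (fun z => ⟨fun j => z.1 j - z.2 j • R s j, z.2⟩) ?_ ?_
      · rintro ⟨P, n⟩ hz
        rw [mem_coe, mem_product] at hz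
        obtain ⟨hP, hn⟩ := hz
        simp only at hP hn
        rw [hWfdef, Set.Finite.mem_toFinset] at hP
        rw [mem_coe, mem_sigma]
        refine ⟨?_, ?_⟩
        · rw [hBg1]
          intro j
          simp only
          have h1 : ψ j (P j - n j • R s j) - ψ j (c j) =
              (ψ j (P j) - ψ j (c j)) - (n j : ℝ) • ψ j (R s j) := by
            rw [map_sub, map_nsmul, ← Nat.cast_smul_eq_nsmul ℝ]
            abel
          rw [h1]
          refine (norm_sub_le _ _).trans ?_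
          rw [norm_smul, Real.norm_natCast]
          have h2 := hWsub T hT c P hP.1 j
          have h3 : (n j : ℝ) ≤ T := by
            have h4 := Fintype.mem_piFinset.1 hn j
            rw [mem_range] at h4
            have h5 : (n j : ℝ) ≤ L := by exact_mod_cast h4.le
            linarith
          have h4 : (n j : ℝ) * ‖ψ j (R s j)‖ ≤ T * B' :=
            mul_le_mul h3 (hRB' s j) (norm_nonneg _) hT0.le
          rw [hB2]
          linarith
        · rw [mem_filter]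
          refine ⟨hn, ?_⟩
          have h1 : (fun j => (P j - n j • R s j) + n j • R s j) = P := by
            funext j
            abel
          simp only
          rw [h1]
          exact hP.2
      · rintro ⟨P, n⟩ _ ⟨P', n'⟩ _ h
        simp only [Sigma.mk.injEq] at h
        obtain ⟨h1, h2⟩ := h
        have h3 : n = n' := eq_of_heq h2
        subst h3
        rw [Prod.mk.injEq]
        refine ⟨?_, rfl⟩
        funext j
        have h4 := congrFun h1 j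
        exact sub_left_injective h4
    rw [card_product, card_sigma] at hinj
    have hbc : box.card = L ^ r := by
      rw [hboxd, Fintype.card_piFinset]
      simp
    rw [hbc] at hinj
    have h1 : (Wf.card : ℝ) * (L : ℝ) ^ r ≤
        ∑ Q ∈ Bg, ((box.filter (fun n => Lf (fun j => Q j + n j • R s j))).card : ℝ) := by
      exact_mod_cast hinj
    have h2 : ∑ Q ∈ Bg, ((box.filter (fun n => Lf (fun j => Q j + n j • R s j))).card : ℝ) ≤
        Bg.card * (Cb * (L : ℝ) ^ r * (L : ℝ) ^ (-(1 / 8) : ℝ)) := by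
      rw [← nsmul_eq_mul]
      exact sum_le_card_nsmul _ _ _ (fun Q _ => hs Q)
    have hLr : (0 : ℝ) < (L : ℝ) ^ r := by positivity
    have hL8 : 0 < (L : ℝ) ^ (-(1 / 8) : ℝ) := Real.rpow_pos_of_pos hL0R _
    have h3 : (Wf.card : ℝ) ≤ Bg.card * (Cb * (L : ℝ) ^ (-(1 / 8) : ℝ)) := by
      have h4 : (Wf.card : ℝ) * (L : ℝ) ^ r ≤
          (Bg.card * (Cb * (L : ℝ) ^ (-(1 / 8) : ℝ))) * (L : ℝ) ^ r := by
        refine (h1.trans h2).trans (le_of_eq ?_)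
        ring
      exact le_of_mul_le_mul_right h4 hLr
    have h5 : (L : ℝ) ^ (-(1 / 8) : ℝ) ≤ 2 * T ^ (-(1 / 8) : ℝ) := by
      have h6 : T ≤ 2 * L := by linarith
      have h7 : T ^ (1 / 8 : ℝ) ≤ 2 * (L : ℝ) ^ (1 / 8 : ℝ) := by
        calc T ^ (1 / 8 : ℝ) ≤ (2 * (L : ℝ)) ^ (1 / 8 : ℝ) :=
              Real.rpow_le_rpow hT0.le h6 (by norm_num)
          _ = (2 : ℝ) ^ (1 / 8 : ℝ) * (L : ℝ) ^ (1 / 8 : ℝ) :=
              Real.mul_rpow (by norm_num) hL0R.le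
          _ ≤ (2 : ℝ) ^ (1 : ℝ) * (L : ℝ) ^ (1 / 8 : ℝ) := by
              apply mul_le_mul_of_nonneg_right _ (by positivity)
              exact Real.rpow_le_rpow_of_exponent_le (by norm_num) (by norm_num)
          _ = _ := by rw [Real.rpow_one]
      rw [Real.rpow_neg hL0R.le, Real.rpow_neg hT0.le]
      have h8 : 0 < T ^ (1 / 8 : ℝ) := Real.rpow_pos_of_pos hT0 _
      have h9 : 0 < (L : ℝ) ^ (1 / 8 : ℝ) := Real.rpow_pos_of_pos hL0R _
      rw [← div_eq_mul_inv, inv_eq_one_div, div_le_div_iff₀ h9 h8]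
      linarith
    have h6 : (Bg.card : ℝ) * (Cb * (L : ℝ) ^ (-(1 / 8) : ℝ)) ≤
        (K * T ^ ρ) * (Cb * (2 * T ^ (-(1 / 8) : ℝ))) := by
      apply mul_le_mul hBg2 _ (by positivity) (by positivity)
      exact mul_le_mul_of_nonneg_left h5 hCb
    have h7 : 0 ≤ K * ((L0 : ℝ) + 1) * (T ^ ρ * T ^ (-(1 / 8) : ℝ)) := by positivity
    have h8 : (K * T ^ ρ) * (Cb * (2 * T ^ (-(1 / 8) : ℝ))) =
        2 * K * Cb * (T ^ ρ * T ^ (-(1 / 8) : ℝ)) := by ring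
    linarith

end Pool.Agent.J4H11.RC
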