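import Pool.Agent.J4H11.RC.Gen

/-!
# A simple zero along `E_i` at some point gives one at a generic point: the theorem
-/

set_option autoImplicit false

namespace Pool.Agent.J4H11.RC

open MvPolynomial

section
variable {r : ℕ} (i : Fin r)

/-- a generic point of the product of the curves -/
theorem exists_generic (a b : Fin r → ℤ) : ∃ (Ω : Type) (_ : Field Ω) (_ : CharZero Ω)
    (_ : Algebra ℚ Ω) (xg yg : Fin r → Ω), AlgebraicIndependent ℚ xg ∧
      ∀ j, yg j ^ 2 = xg j ^ 3 + (a j : Ω) * xg j + (b j : Ω) := by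
  let Ω := AlgebraicClosure (FractionRing (MvPolynomial (Fin r) ℚ))
  have hchar : CharZero Ω := algebraRat.charZero Ω
  let ι : MvPolynomial (Fin r) ℚ →ₐ[ℚ] Ω := IsScalarTower.toAlgHom ℚ (MvPolynomial (Fin r) ℚ) Ω
  have hι : Function.Injective ι := by
    change Function.Injective (algebraMap (MvPolynomial (Fin r) ℚ) Ω)
    rw [IsScalarTower.algebraMap_eq (MvPolynomial (Fin r) ℚ)
      (FractionRing (MvPolynomial (Fin r) ℚ)) Ω]
    exact (algebraMap (FractionRing (MvPolynomial (Fin r) ℚ)) Ω).injective.comp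
      (IsFractionRing.injective (MvPolynomial (Fin r) ℚ) (FractionRing (MvPolynomial (Fin r) ℚ)))
  have hx : AlgebraicIndependent ℚ (fun j : Fin r => ι (X j)) := by
    have h1 : AlgebraicIndependent ℚ (X : Fin r → MvPolynomial (Fin r) ℚ) :=
      MvPolynomial.algebraicIndependent_X (Fin r) ℚ
    exact h1.map' hι
  have hy : ∀ j : Fin r, ∃ y : Ω, y ^ 2 = (ι (X j)) ^ 3 + (a j : Ω) * ι (X j) + (b j : Ω) := by
    intro j
    exact IsAlgClosed.exists_pow_nat_eq _ (by norm_num)
  choose yg hyg using hy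
  exact ⟨Ω, inferInstance, hchar, inferInstance, fun j => ι (X j), yg, hx, hyg⟩

theorem krull_step {R' : Type} [CommRing R'] [IsDomain R'] [IsNoetherianRing R'] (pp : Ideal R')
    [pp.IsPrime] (f p : R') (hf : f ∈ pp)
    (h : ∀ n : ℕ, ∃ s h' : R', s ∉ pp ∧ s * p = f ^ (n + 1) * h') : p = 0 := by
  have hmem : ∀ n : ℕ, algebraMap R' (Localization.AtPrime pp) p ∈
      (IsLocalRing.maximalIdeal (Localization.AtPrime pp)) ^ (n + 1) := by
    intro n
    obtain ⟨s', h', hs', e1⟩ := h n
    have hu : IsUnit (algebraMap R' (Localization.AtPrime pp) s') :=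
      IsLocalization.map_units (Localization.AtPrime pp) (⟨s', hs'⟩ : pp.primeCompl)
    have hFm : algebraMap R' (Localization.AtPrime pp) f ∈
        IsLocalRing.maximalIdeal (Localization.AtPrime pp) :=
      (IsLocalization.AtPrime.to_map_mem_maximal_iff (Localization.AtPrime pp) pp f).2 hf
    have e2 := congrArg (algebraMap R' (Localization.AtPrime pp)) e1
    rw [map_mul, map_mul, map_pow] at e2
    have h1 : algebraMap R' (Localization.AtPrime pp) s' *
        algebraMap R' (Localization.AtPrime pp) p ∈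
        (IsLocalRing.maximalIdeal (Localization.AtPrime pp)) ^ (n + 1) := by
      rw [e2]
      exact Ideal.mul_mem_right _ _ (Ideal.pow_mem_pow hFm _)
    exact (Ideal.unit_mul_mem_iff_mem _ hu).1 h1
  have hOn : IsNoetherianRing (Localization.AtPrime pp) :=
    IsLocalization.isNoetherianRing pp.primeCompl (Localization.AtPrime pp) inferInstance
  have hkrull := Ideal.iInf_pow_eq_bot_of_isLocalRing (R := Localization.AtPrime pp)
    (IsLocalRing.maximalIdeal (Localization.AtPrime pp))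
    (Ideal.IsPrime.ne_top inferInstance)
  have h0' : algebraMap R' (Localization.AtPrime pp) p = 0 := by
    have h1 : algebraMap R' (Localization.AtPrime pp) p ∈
        (⨅ n : ℕ, (IsLocalRing.maximalIdeal (Localization.AtPrime pp)) ^ n) := by
      rw [Ideal.mem_iInf]
      intro n
      rcases n with _ | n
      · rw [pow_zero, Ideal.one_eq_top]
        exact Submodule.mem_top
      · exact hmem n
    rw [hkrull] at h1
    exact h1
  have hinj : Function.Injective (algebraMap R' (Localization.AtPrime pp)) :=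
    IsLocalization.injective (Localization.AtPrime pp) pp.primeCompl_le_nonZeroDivisors
  apply hinj
  rw [h0', map_zero]

theorem residue_step {R' : Type} [CommRing R'] (q : Ideal R') [q.IsPrime] :
    ∃ (Ω : Type) (_ : Field Ω) (τ : R' →+* Ω), ∀ z, τ z = 0 ↔ z ∈ q := by
  refine ⟨FractionRing (R' ⧸ q), inferInstance,
    (algebraMap (R' ⧸ q) (FractionRing (R' ⧸ q))).comp (Ideal.Quotient.mk q), fun z => ?_⟩
  change algebraMap (R' ⧸ q) (FractionRing (R' ⧸ q)) (Ideal.Quotient.mk q z) = 0 ↔ _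
  rw [map_eq_zero_iff _ (IsFractionRing.injective (R' ⧸ q) (FractionRing (R' ⧸ q))),
    Ideal.Quotient.eq_zero_iff_mem]

theorem generic_point {K : Type} [Field K] [CharZero K] (a b : Fin r → ℤ)
    (F : MvPolynomial (Fin r × Fin 2) ℤ) (x y : Fin r → K)
    (hyc : ∀ j, y j ^ 2 = x j ^ 3 + (a j : K) * x j + (b j : K))
    (hF : aeval (pv x y) F = 0) (hW : aeval (pv x y) (Wp i a F) ≠ 0) :
    ∃ (Ω : Type) (_ : Field Ω) (_ : CharZero Ω) (_ : Algebra ℚ Ω) (x' y' : Fin r → Ω),
      (∀ j, y' j ^ 2 = x' j ^ 3 + (a j : Ω) * x' j + (b j : Ω)) ∧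
      aeval (pv x' y') F = 0 ∧ aeval (pv x' y') (Wp i a F) ≠ 0 ∧
      AlgebraicIndependent ℚ (fun j : Bi i => x' j) := by
  classical
  obtain ⟨Ωg, _, _, _, xg, yg, hxg, hyg⟩ := exists_generic a b
  let R := MvPolynomial (Fin r × Fin 2) ℤ
  set evg : R →+* Ωg := (aeval (pv xg yg)).toRingHom with hevg
  set evV : R →+* K := (aeval (pv x y)).toRingHom with hevV
  have hevg' : ∀ H, evg H = aeval (pv xg yg) H := fun H => rfl
  have hevV' : ∀ H, evV H = aeval (pv x y) H := fun H => rfl
  set kk : Ideal R := RingHom.ker evg with hkk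
  have hkkp : kk.IsPrime := RingHom.ker_isPrime evg
  have hkV : ∀ H ∈ kk, evV H = 0 := by
    intro H hH
    rw [hkk, RingHom.mem_ker] at hH
    exact ker_lemma a b xg yg hxg hyg H hH x y hyc
  -- the ring of functions
  let R' := R ⧸ kk
  let mk : R →+* R' := Ideal.Quotient.mk kk
  let ev' : R' →+* K := Ideal.Quotient.lift kk evV hkV
  have hev' : ∀ H, ev' (mk H) = evV H := fun H => Ideal.Quotient.lift_mk kk evV hkV
  set pp : Ideal R' := RingHom.ker ev' with hpp
  have hppp : pp.IsPrime := RingHom.ker_isPrime ev'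
  have hmkS : Function.Surjective mk := Ideal.Quotient.mk_surjective
  have hmk0 : ∀ H, mk H = 0 ↔ evg H = 0 := by
    intro H
    rw [← RingHom.mem_ker]
    exact Ideal.Quotient.eq_zero_iff_mem
  have hnoeth : IsNoetherianRing R' := inferInstance
  have hxgZ : ∀ Ψ : MvPolynomial (Bi i) ℤ, evg (kap i Ψ) = 0 → Ψ = 0 := by
    intro Ψ h0
    have h1 : AlgebraicIndependent ℤ (fun j : Bi i => xg j) :=
      (hxg.comp (fun j : Bi i => (j : Fin r)) Subtype.val_injective).restrictScalars
        (algebraMap ℤ ℚ).injective_int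
    have h2 : (evg.comp (kap i)) =
        (aeval (fun j : Bi i => xg j) : MvPolynomial (Bi i) ℤ →ₐ[ℤ] Ωg).toRingHom := by
      apply MvPolynomial.ringHom_ext
      · intro n
        rw [RingHom.comp_apply, kap_C, hevg']
        simp
      · intro j
        rw [RingHom.comp_apply, kap_X, hevg']
        simp [pv]
    have h3 := congrArg (fun g : MvPolynomial (Bi i) ℤ →+* Ωg => g Ψ) h2
    change evg (kap i Ψ) = aeval (fun j : Bi i => xg j) Ψ at h3
    rw [h0] at h3
    exact (injective_iff_map_eq_zero _).1 h1 Ψ h3.symm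
  -- no nonzero function of the other coordinates is divisible by `F` in the local ring
  have claim : ∀ Ψ : MvPolynomial (Bi i) ℤ, Ψ ≠ 0 → ∀ s h : R, evV s ≠ 0 →
      evg (s * kap i Ψ - F * h) ≠ 0 := by
    intro Ψ hΨ s h hs h0
    apply hΨ
    apply hxgZ
    have hdiv := div_pow_step i a b xg yg hxg hyg F x y hyc hW Ψ s h hs h0
    have h2 : mk (kap i Ψ) = 0 := by
      refine krull_step pp (mk F) (mk (kap i Ψ)) ?_ ?_
      · rw [hpp, RingHom.mem_ker, hev']
        exact hF
      · intro n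
        obtain ⟨s', h', hs', hsh'⟩ := hdiv n
        refine ⟨mk s', mk h', ?_, ?_⟩
        · rw [hpp, RingHom.mem_ker, hev']
          exact hs'
        · rw [← map_mul, ← map_pow, ← map_mul, ← sub_eq_zero, ← map_sub, hmk0]
          exact hsh'
    exact (hmk0 _).1 h2
  -- the multiplicative set
  let κ' : MvPolynomial (Bi i) ℤ →+* R' := mk.comp (kap i)
  let t : Submonoid R' := (nonZeroDivisors (MvPolynomial (Bi i) ℤ)).map κ'
  let M : Submonoid R' := pp.primeCompl ⊔ t
  have hdisj : Disjoint ((Ideal.span {mk F} : Ideal R') : Set R') (M : Set R') := by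
    rw [Set.disjoint_left]
    intro z hz1 hz2
    rw [SetLike.mem_coe, Ideal.mem_span_singleton] at hz1
    obtain ⟨h', rfl⟩ := hz1
    rw [SetLike.mem_coe, Submonoid.mem_sup] at hz2
    obtain ⟨s', hs', t', ht', hst⟩ := hz2
    obtain ⟨Ψ, hΨ, rfl⟩ := ht'
    obtain ⟨s, rfl⟩ := hmkS s'
    obtain ⟨h, rfl⟩ := hmkS h'
    have hs : evV s ≠ 0 := by
      intro h0
      apply hs'
      change mk s ∈ pp
      rw [hpp, RingHom.mem_ker, hev', h0]
    apply claim Ψ (nonZeroDivisors.ne_zero hΨ) s h hs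
    rw [← hmk0, map_sub, map_mul, map_mul, sub_eq_zero]
    exact hst
  obtain ⟨q, hqp, hFq, hqd⟩ := Ideal.exists_le_prime_disjoint _ M hdisj
  have hFq' : mk F ∈ q := hFq (Ideal.mem_span_singleton_self _)
  have hWq : mk (Wp i a F) ∉ q := by
    intro h
    apply Set.disjoint_left.1 hqd h
    apply Submonoid.mem_sup_left
    change mk (Wp i a F) ∉ pp
    rw [hpp, RingHom.mem_ker, hev']
    exact hW
  have hΨq : ∀ Ψ : MvPolynomial (Bi i) ℤ, Ψ ≠ 0 → mk (kap i Ψ) ∉ q := by
    intro Ψ hΨ h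
    apply Set.disjoint_left.1 hqd h
    apply Submonoid.mem_sup_right
    exact ⟨Ψ, mem_nonZeroDivisors_of_ne_zero hΨ, rfl⟩
  obtain ⟨Ω, hΩ, τ', hτ'⟩ := residue_step q
  let τ : R →+* Ω := τ'.comp mk
  have hτ : ∀ H, τ H = 0 ↔ mk H ∈ q := fun H => hτ' (mk H)
  have hcharΩ : CharZero Ω := by
    apply charZero_of_inj_zero
    intro n hn
    by_contra hn0
    have h1 : (C (n : ℤ) : MvPolynomial (Bi i) ℤ) ≠ 0 := by
      rw [Ne, C_eq_zero]
      exact_mod_cast hn0
    have h2 := hΨq _ h1
    apply h2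
    rw [← hτ, kap_C]
    have h3 : τ (C (n : ℤ)) = ((n : ℤ) : Ω) := eq_intCast (τ.comp C) (n : ℤ)
    rw [h3]
    exact_mod_cast hn
  let _ : Algebra ℚ Ω := DivisionRing.toRatAlgebra
  set x' : Fin r → Ω := fun j => τ (X (j, 0)) with hx'
  set y' : Fin r → Ω := fun j => τ (X (j, 1)) with hy'
  have hτe : ∀ H, aeval (pv x' y') H = τ H := by
    intro H
    have h1 : (aeval (pv x' y') : MvPolynomial (Fin r × Fin 2) ℤ →ₐ[ℤ] Ω).toRingHom = τ := by
      apply MvPolynomial.ringHom_ext
      · intro n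
        have h3 : τ (C (n : ℤ)) = ((n : ℤ) : Ω) := eq_intCast (τ.comp C) (n : ℤ)
        rw [h3]
        simp
      · rintro ⟨j, e⟩
        rcases fin2 e with rfl | rfl
        · simp [hx', pv]
        · simp [hy', pv]
    exact congrArg (fun g : MvPolynomial (Fin r × Fin 2) ℤ →+* Ω => g H) h1
  refine ⟨Ω, inferInstance, hcharΩ, inferInstance, x', y', ?_, ?_, ?_, ?_⟩
  · intro j
    have h1 : mk (X (j, 1) ^ 2 - (X (j, 0) ^ 3 + C (a j) * X (j, 0) + C (b j))) = 0 := by
      rw [hmk0, hevg']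
      simp only [map_sub, map_add, map_mul, map_pow, aeval_X, aeval_C]
      rw [pv_zero, pv_one, hyg j]
      simp
    have h2 : τ (X (j, 1) ^ 2 - (X (j, 0) ^ 3 + C (a j) * X (j, 0) + C (b j))) = 0 := by
      rw [hτ, h1]
      exact q.zero_mem
    rw [← hτe] at h2
    simp only [map_sub, map_add, map_mul, map_pow, aeval_X, aeval_C] at h2
    rw [pv_zero, pv_one, sub_eq_zero] at h2
    rw [h2]
    simp
  · rw [hτe, hτ]
    exact hFq'
  · rw [hτe, Ne, hτ]
    exact hWq
  · have h1 : AlgebraicIndependent ℤ (fun j : Bi i => x' j) := by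
      rw [AlgebraicIndependent, injective_iff_map_eq_zero]
      intro Ψ hΨ
      by_contra hΨ0
      apply hΨq Ψ hΨ0
      rw [← hτ, ← hτe]
      have h2 : ((aeval (pv x' y') : MvPolynomial (Fin r × Fin 2) ℤ →ₐ[ℤ] Ω).toRingHom.comp
          (kap i)) = (aeval (fun j : Bi i => x' j) : MvPolynomial (Bi i) ℤ →ₐ[ℤ] Ω).toRingHom := by
        apply MvPolynomial.ringHom_ext
        · intro n
          rw [RingHom.comp_apply, kap_C]
          simp
        · intro j
          rw [RingHom.comp_apply, kap_X]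
          simp [pv]
      have h3 := congrArg (fun g : MvPolynomial (Bi i) ℤ →+* Ω => g Ψ) h2
      exact h3.trans hΨ
    have h4 : Algebra.IsAlgebraic ℤ ℚ := IsLocalization.isAlgebraic ℚ (nonZeroDivisors ℤ)
    exact h1.extendScalars ℚ

end

end Pool.Agent.J4H11.RC
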