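import Pool.Agent.J4H11.RC.Avg

/-!
# The number of rational points of bounded height (lower bound)
-/

set_option autoImplicit false

namespace Pool.Agent.J4H11.RC

open Finset WeierstrassCurve Pool.Agent.H901R3.MS Module

theorem low_one (a b : ℤ) (hD : Disc (a : ℚ) (b : ℚ)) : ∃ κ : ℝ, 0 < κ ∧ ∀ T : ℝ, 1 ≤ T →
    κ * T ^ (finrank ℤ (Pt (a : ℚ) (b : ℚ))) ≤
      ({P : Pt (a : ℚ) (b : ℚ) | hx P ≤ T ^ 2}.ncard : ℝ) := by
  classical
  obtain ⟨m, ψ, C, hC0, hC⟩ := embE a b hD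
  have hFG := t_M1 a b hD
  obtain ⟨n, H, _, _, ⟨e⟩⟩ := @fg_structure (Pt (a : ℚ) (b : ℚ)) _ hFG
  have hn : finrank ℤ (Pt (a : ℚ) (b : ℚ)) = n := by
    rw [LinearEquiv.finrank_eq (e.toIntLinearEquiv), finrank_prod_fin]
  rw [hn]
  let ι : (Fin n → ℤ) →+ Pt (a : ℚ) (b : ℚ) :=
    e.symm.toAddMonoidHom.comp (AddMonoidHom.inl (Fin n → ℤ) H)
  have hι : Function.Injective ι := by
    intro z z' h
    have h1 := e.symm.injective h
    exact congrArg Prod.fst h1
  set M : ℝ := 1 + ∑ k, ‖ψ (ι (Pi.single k 1))‖ with hM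
  have hM1 : 1 ≤ M := by
    have : 0 ≤ ∑ k, ‖ψ (ι (Pi.single k 1))‖ := sum_nonneg fun _ _ => norm_nonneg _
    linarith
  have hψz : ∀ (z : Fin n → ℤ) (B : ℝ), 0 ≤ B → (∀ k, |(z k : ℝ)| ≤ B) → ‖ψ (ι z)‖ ≤ B * M := by
    intro z B hB hz
    have h1 : z = ∑ k, z k • (Pi.single k (1 : ℤ) : Fin n → ℤ) := by
      funext l
      rw [Finset.sum_apply, Finset.sum_eq_single l]
      · simp
      · intro k _ hk
        simp [Pi.single_apply, hk.symm]
      · intro h
        exact absurd (mem_univ _) h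
    have h2 : ψ (ι z) = ∑ k, (z k : ℝ) • ψ (ι (Pi.single k 1)) := by
      conv_lhs => rw [h1]
      rw [map_sum, map_sum]
      refine sum_congr rfl fun k _ => ?_
      rw [map_zsmul, map_zsmul, Int.cast_smul_eq_zsmul]
    rw [h2]
    refine (norm_sum_le _ _).trans ?_
    have h3 : ∀ k ∈ (univ : Finset (Fin n)), ‖(z k : ℝ) • ψ (ι (Pi.single k 1))‖ ≤
        B * ‖ψ (ι (Pi.single k 1))‖ := by
      intro k _
      rw [norm_smul, Real.norm_eq_abs]
      exact mul_le_mul_of_nonneg_right (hz k) (norm_nonneg _)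
    refine (sum_le_sum h3).trans ?_
    rw [← mul_sum]
    apply mul_le_mul_of_nonneg_left _ hB
    rw [hM]
    linarith
  set T0 : ℝ := 1 + 2 * C with hT0
  refine ⟨min ((1 / (2 * M)) ^ n) ((1 / T0) ^ n), by positivity, fun T hT => ?_⟩
  have hTpos : 0 < T := by linarith
  have hfin : {P : Pt (a : ℚ) (b : ℚ) | hx P ≤ T ^ 2}.Finite := northcott _ _ _
  by_cases hcase : T0 ≤ T
  · have h1 : min ((1 / (2 * M)) ^ n) ((1 / T0) ^ n) * T ^ n ≤ (T / (2 * M)) ^ n := by
      have h2 : min ((1 / (2 * M)) ^ n) ((1 / T0) ^ n) * T ^ n ≤ (1 / (2 * M)) ^ n * T ^ n :=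
        mul_le_mul_of_nonneg_right (min_le_left _ _) (by positivity)
      refine h2.trans (le_of_eq ?_)
      rw [← mul_pow]
      congr 1
      ring
    refine h1.trans ?_
    set N : ℕ := ⌊T / (2 * M)⌋₊ with hN
    have hN1 : T / (2 * M) ≤ (N : ℝ) + 1 := (Nat.lt_floor_add_one _).le
    have hN2 : (N : ℝ) ≤ T / (2 * M) := Nat.floor_le (by positivity)
    have h2 : (T / (2 * M)) ^ n ≤ (((2 * N + 1) ^ n : ℕ) : ℝ) := by
      push_cast
      apply pow_le_pow_left₀ (by positivity)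
      have : (0 : ℝ) ≤ N := Nat.cast_nonneg _
      linarith
    refine h2.trans ?_
    have h3 : (2 * N + 1) ^ n ≤ {P : Pt (a : ℚ) (b : ℚ) | hx P ≤ T ^ 2}.ncard := by
      rw [Set.ncard_eq_toFinset_card _ hfin]
      have h4 : (Fintype.piFinset (fun _ : Fin n => Icc (-(N : ℤ)) N)).card = (2 * N + 1) ^ n := by
        rw [Fintype.card_piFinset]
        have h5 : (Icc (-(N : ℤ)) N).card = 2 * N + 1 := by
          rw [Int.card_Icc]
          omega
        rw [prod_const, h5, card_univ, Fintype.card_fin]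
      rw [← h4]
      refine card_le_card_of_injOn ι ?_ hι.injOn
      intro z hz
      rw [mem_coe, Fintype.mem_piFinset] at hz
      rw [mem_coe, Set.Finite.mem_toFinset]
      change hx (ι z) ≤ T ^ 2
      have h5 := hψz z (T / (2 * M)) (by positivity) (fun k => by
        have h6 := mem_Icc.1 (hz k)
        refine le_trans ?_ hN2
        rw [abs_le]
        constructor
        · exact_mod_cast h6.1
        · exact_mod_cast h6.2)
      have h6 : T / (2 * M) * M = T / 2 := by field_simp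
      rw [h6] at h5
      have h7 := (abs_le.1 (hC (ι z))).1
      have h8 : ‖ψ (ι z)‖ ^ 2 ≤ (T / 2) ^ 2 := pow_le_pow_left₀ (norm_nonneg _) h5 2
      nlinarith
    exact_mod_cast h3
  · push Not at hcase
    have hT00 : 0 < T0 := by positivity
    have h1 : min ((1 / (2 * M)) ^ n) ((1 / T0) ^ n) * T ^ n ≤ 1 := by
      have h2 : min ((1 / (2 * M)) ^ n) ((1 / T0) ^ n) * T ^ n ≤ (1 / T0) ^ n * T ^ n :=
        mul_le_mul_of_nonneg_right (min_le_right _ _) (by positivity)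
      refine h2.trans ?_
      rw [← mul_pow]
      apply pow_le_one₀ (by positivity)
      rw [one_div, inv_mul_le_iff₀ hT00]
      linarith
    refine h1.trans ?_
    have h2 : 1 ≤ {P : Pt (a : ℚ) (b : ℚ) | hx P ≤ T ^ 2}.ncard := by
      rw [Nat.one_le_iff_ne_zero, Ne, Set.ncard_eq_zero hfin, ← Ne, ← Set.nonempty_iff_ne_empty]
      refine ⟨0, ?_⟩
      change (0 : ℝ) ≤ T ^ 2
      positivity
    exact_mod_cast h2

theorem low_all {r : ℕ} {a b : Fin r → ℤ} (hD : ∀ j, Disc (a j : ℚ) (b j : ℚ)) :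
    ∃ κ : ℝ, 0 < κ ∧ ∀ T : ℝ, 1 ≤ T →
      {P : (j : Fin r) → Pt (a j : ℚ) (b j : ℚ) | ∀ j, hx (P j) ≤ T ^ 2}.Finite ∧
      κ * T ^ (∑ j, finrank ℤ (Pt (a j : ℚ) (b j : ℚ))) ≤
      ({P : (j : Fin r) → Pt (a j : ℚ) (b j : ℚ) | ∀ j, hx (P j) ≤ T ^ 2}.ncard : ℝ) := by
  classical
  choose κ hκ0 hκ using fun j => low_one (a j) (b j) (hD j)
  refine ⟨∏ j, κ j, prod_pos fun j _ => hκ0 j, fun T hT => ?_⟩
  have hf := fun j => northcott (a j : ℚ) (b j : ℚ) (T ^ 2)
  have hset : {P : (j : Fin r) → Pt (a j : ℚ) (b j : ℚ) | ∀ j, hx (P j) ≤ T ^ 2} =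
      (Fintype.piFinset (fun j => (hf j).toFinset) :
        Set ((j : Fin r) → Pt (a j : ℚ) (b j : ℚ))) := by
    ext P
    simp [Fintype.mem_piFinset]
  rw [hset]
  refine ⟨finite_toSet _, ?_⟩
  rw [Set.ncard_coe_finset, Fintype.card_piFinset, ← prod_pow_eq_pow_sum, ← prod_mul_distrib]
  push_cast
  refine prod_le_prod (fun j _ => by have := hκ0 j; positivity) fun j _ => ?_
  have h1 := hκ j T hT
  rwa [Set.ncard_eq_toFinset_card _ (hf j)] at h1

end Pool.Agent.J4H11.RC
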