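import Pool.Agent.J4H11.RC.Core3
import Pool.Agent.J4H11.RC.Low
import Pool.Agent.J4H11.RC.Gen2

/-!
# Rational points on ramified cyclic covers of products of elliptic curves: assembly
-/

set_option autoImplicit false

namespace Pool.Agent.J4H11.RC

open Finset MvPolynomial WeierstrassCurve Pool.Agent.H901R3.MS Module

section
variable {r : ℕ} (i : Fin r) {a b : Fin r → ℤ}

/-- clearing denominators -/
theorem clear_den {σ : Type} (F : MvPolynomial σ ℚ) : ∃ (N : ℤ) (F0 : MvPolynomial σ ℤ), N ≠ 0 ∧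
    MvPolynomial.map (algebraMap ℤ ℚ) F0 = C (N : ℚ) * F := by
  induction F using MvPolynomial.induction_on with
  | C q =>
    refine ⟨q.den, C q.num, by exact_mod_cast q.den_pos.ne', ?_⟩
    rw [map_C, ← C_mul]
    congr 1
    have h := Rat.den_mul_eq_num q
    push_cast
    rw [h]
    simp
  | add p q hp hq =>
    obtain ⟨N1, F1, h1, e1⟩ := hp
    obtain ⟨N2, F2, h2, e2⟩ := hq
    refine ⟨N1 * N2, C N2 * F1 + C N1 * F2, mul_ne_zero h1 h2, ?_⟩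
    rw [map_add, map_mul, map_mul, e1, e2, map_C, map_C]
    push_cast
    rw [C_mul]
    simp only [eq_intCast]
    ring
  | mul_X p v hp =>
    obtain ⟨N1, F1, h1, e1⟩ := hp
    refine ⟨N1, F1 * X v, h1, ?_⟩
    rw [map_mul, e1, map_X]
    ring

theorem wp_map (a : Fin r → ℤ) (F : MvPolynomial (Fin r × Fin 2) ℤ) :
    MvPolynomial.map (algebraMap ℤ ℚ) (Wp i a F) =
      Wp i (fun j => (a j : ℚ)) (MvPolynomial.map (algebraMap ℤ ℚ) F) := by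
  unfold Wp
  simp only [map_add, map_mul, map_pow, map_X, map_C, pderiv_map]
  simp

/-- the main estimate for `δ w ^ ℓ = F`, `F` with integral coefficients -/
theorem main_int (hD : ∀ j, Disc (a j : ℚ) (b j : ℚ)) (hinf : ∀ j, Infinite (Pt (a j : ℚ) (b j : ℚ)))
    (hCM : CMt (a i) (b i)) (hrk : 2 ≤ finrank ℤ (Pt (a i : ℚ) (b i : ℚ))) (ℓ : ℕ)
    (hℓ : ℓ.Prime) (h3 : ℓ = 3 → a i ≠ 0) (F : MvPolynomial (Fin r × Fin 2) ℤ)
    {K : Type} [Field K] [CharZero K] (x y : Fin r → K)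
    (hyc : ∀ j, y j ^ 2 = x j ^ 3 + (a j : K) * x j + (b j : K))
    (hF : aeval (pv x y) F = 0) (hW : aeval (pv x y) (Wp i a F) ≠ 0) :
    ∃ C : ℝ, 0 ≤ C ∧ ∀ (δ : ℚ) (T : ℝ), 1 ≤ T → ∀ c : (j : Fin r) → Pt (a j : ℚ) (b j : ℚ),
      {P : (j : Fin r) → Pt (a j : ℚ) (b j : ℚ) | (∀ j, hx (P j - c j) ≤ T ^ 2) ∧
        Lft ℓ F δ P}.Finite ∧
      ({P : (j : Fin r) → Pt (a j : ℚ) (b j : ℚ) |
        (∀ j, hx (P j - c j) ≤ T ^ 2) ∧ Lft ℓ F δ P}.ncard : ℝ) ≤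
        C * T ^ (((∑ j, finrank ℤ (Pt (a j : ℚ) (b j : ℚ)) : ℕ) : ℝ) - 1 / 8) := by
  classical
  -- points
  have hinfpt : ∀ j, ∃ R : Pt (a j : ℚ) (b j : ℚ), ∀ n : ℕ, 0 < n → n • R ≠ 0 := by
    intro j
    by_contra hcon
    push Not at hcon
    have hfg : AddGroup.FG (Pt (a j : ℚ) (b j : ℚ)) := t_M1 _ _ (hD j)
    have htor : IsAddTorsion (Pt (a j : ℚ) (b j : ℚ)) := by
      intro R
      obtain ⟨n, hn, h0⟩ := hcon R
      exact isOfFinAddOrder_iff_nsmul_eq_zero.2 ⟨n, hn, h0⟩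
    have hfin := AddCommGroup.finite_of_fg_isAddTorsion (Pt (a j : ℚ) (b j : ℚ)) htor
    exact (hinf j).not_finite hfin
  choose R0 hR0 using hinfpt
  obtain ⟨f, hf⟩ := exists_linearIndependent_of_le_finrank hrk
  have hf0 : ∀ s, ∀ n : ℕ, 0 < n → n • f s ≠ 0 := by
    intro s n hn h0
    rw [linearIndependent_iff'] at hf
    have h1 := hf {s} (fun _ => (n : ℤ)) (by
      rw [Finset.sum_singleton, natCast_zsmul]
      exact h0) s (mem_singleton_self s)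
    have h2 : n = 0 := by exact_mod_cast h1
    omega
  have hind : ∀ m n : ℤ, (m, n) ≠ (0, 0) → m • f 0 + n • f 1 ≠ 0 := by
    intro m n hmn h0
    rw [linearIndependent_iff'] at hf
    have h1 := hf univ ![m, n] (by
      rw [Fin.sum_univ_two]
      exact h0)
    apply hmn
    rw [Prod.mk.injEq]
    exact ⟨h1 0 (mem_univ _), h1 1 (mem_univ _)⟩
  set R : Fin 2 → (j : Fin r) → Pt (a j : ℚ) (b j : ℚ) := fun s => Function.update R0 i (f s)
    with hR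
  have hRi : ∀ s, R s i = f s := fun s => Function.update_self _ _ _
  have hRne : ∀ s j, ∀ n : ℕ, 0 < n → n • R s j ≠ 0 := by
    intro s j n hn
    by_cases hj : j = i
    · subst hj
      rw [hRi]
      exact hf0 s n hn
    · have : R s j = R0 j := Function.update_of_ne hj _ _
      rw [this]
      exact hR0 j n hn
  -- elimination
  obtain ⟨Ω, _, _, _, x', y', g1, g2, g3, g4⟩ := generic_point i a b F x y hyc hF hW
  obtain ⟨Ψ, hΨ0, hΨ⟩ := elim i a b F x' y' g1 g2 g3 g4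
  obtain ⟨Cb, hCb, L0, hbox⟩ := box_count i hD hCM ℓ hℓ h3 R hRne
    (by rw [hRi, hRi]; exact hind) F Ψ hΨ0 hΨ
  exact avg hD (Lft ℓ F) R Cb hCb L0 hbox

/-- an equation `δ w ^ n = G ^ m H` of which one passes to `δ' w ^ ℓ = G H ^ s` -/
theorem kummer_red (ℓ n m s k : ℕ) (hℓ : ℓ ≠ 0) (hn : ℓ ∣ n) (hs : m * s = ℓ * k + 1)
    (δ w g h : ℚ) (hw : δ * w ^ n = g ^ m * h) : ∃ w' : ℚ, δ ^ s * w' ^ ℓ = g * h ^ s := by
  obtain ⟨e, rfl⟩ := hn
  by_cases hg : g = 0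
  · exact ⟨0, by rw [hg, zero_pow hℓ]; ring⟩
  · refine ⟨(w ^ e) ^ s / g ^ k, ?_⟩
    have h1 : δ ^ s * ((w ^ e) ^ s) ^ ℓ = g ^ (m * s) * h ^ s := by
      have h2 := congrArg (fun t => t ^ s) hw
      simp only [mul_pow] at h2
      rw [pow_mul g m s, ← h2]
      congr 1
      rw [← pow_mul, ← pow_mul, ← pow_mul]
      congr 1
      ring
    rw [hs] at h1
    rw [div_pow, mul_div_assoc', h1, ← pow_mul, pow_succ, mul_comm k ℓ]
    field_simp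

theorem main_rat (hD : ∀ j, Disc (a j : ℚ) (b j : ℚ)) (hinf : ∀ j, Infinite (Pt (a j : ℚ) (b j : ℚ)))
    (hCM : CMt (a i) (b i)) (hrk : 2 ≤ finrank ℤ (Pt (a i : ℚ) (b i : ℚ))) (ℓ : ℕ)
    (hℓ : ℓ.Prime) (h3 : ℓ = 3 → a i ≠ 0) (n m : ℕ) (hn : ℓ ∣ n) (hm : ¬ ℓ ∣ m)
    (G H : MvPolynomial (Fin r × Fin 2) ℚ)
    {K : Type} [Field K] [CharZero K] [Algebra ℚ K] (x y : Fin r → K)
    (hyc : ∀ j, y j ^ 2 = x j ^ 3 + (a j : K) * x j + (b j : K))
    (hG : aeval (pv x y) G = 0) (hH : aeval (pv x y) H ≠ 0)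
    (hW : aeval (pv x y) (Wp i (fun j => (a j : ℚ)) G) ≠ 0) :
    ∃ C : ℝ, 0 ≤ C ∧ ∀ (δ : ℚ) (T : ℝ), 1 ≤ T → ∀ c : (j : Fin r) → Pt (a j : ℚ) (b j : ℚ),
      {P : (j : Fin r) → Pt (a j : ℚ) (b j : ℚ) | (∀ j, hx (P j - c j) ≤ T ^ 2) ∧
        ((∀ j, P j ≠ 0) → ∃ w : ℚ, δ * w ^ n =
          aeval (pv (fun j => (crd (P j)).1) (fun j => (crd (P j)).2)) G ^ m *
          aeval (pv (fun j => (crd (P j)).1) (fun j => (crd (P j)).2)) H)}.Finite ∧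
      ({P : (j : Fin r) → Pt (a j : ℚ) (b j : ℚ) | (∀ j, hx (P j - c j) ≤ T ^ 2) ∧
        ((∀ j, P j ≠ 0) → ∃ w : ℚ, δ * w ^ n =
          aeval (pv (fun j => (crd (P j)).1) (fun j => (crd (P j)).2)) G ^ m *
          aeval (pv (fun j => (crd (P j)).1) (fun j => (crd (P j)).2)) H)}.ncard : ℝ) ≤
        C * T ^ (((∑ j, finrank ℤ (Pt (a j : ℚ) (b j : ℚ)) : ℕ) : ℝ) - 1 / 8) := by
  classical
  obtain ⟨s, k, hs⟩ : ∃ s k : ℕ, m * s = ℓ * k + 1 := by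
    have hcop : Nat.Coprime m ℓ := ((Nat.Prime.coprime_iff_not_dvd hℓ).2 hm).symm
    obtain ⟨s, -, hs⟩ := Nat.exists_mul_mod_eq_one_of_coprime hcop hℓ.one_lt
    refine ⟨s, m * s / ℓ, ?_⟩
    have := Nat.div_add_mod (m * s) ℓ
    rw [hs] at this
    exact this.symm
  obtain ⟨N, F, hN, hF⟩ := clear_den (G * H ^ s)
  have hae : ∀ (z : Fin r × Fin 2 → K), aeval z F = (N : K) * (aeval z G * aeval z H ^ s) := by
    intro z
    have h1 := congrArg (aeval z) hF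
    rw [aeval_map_algebraMap] at h1
    rw [h1]
    simp
  have haeQ : ∀ (z : Fin r × Fin 2 → ℚ), aeval z F = (N : ℚ) * (aeval z G * aeval z H ^ s) := by
    intro z
    have h1 := congrArg (aeval z) hF
    rw [aeval_map_algebraMap] at h1
    rw [h1]
    simp
  have hF0 : aeval (pv x y) F = 0 := by rw [hae, hG]; ring
  have hFW : aeval (pv x y) (Wp i a F) ≠ 0 := by
    have h1 : aeval (pv x y) (Wp i a F) =
        aeval (pv x y) (MvPolynomial.map (algebraMap ℤ ℚ) (Wp i a F)) :=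
      (aeval_map_algebraMap ℚ (pv x y) _).symm
    rw [h1, wp_map, hF, wp_mul, wp_C, wp_mul]
    simp only [zero_mul, zero_add, map_mul, map_add, hG, add_zero, aeval_C, map_pow]
    have hN' : algebraMap ℚ K (N : ℚ) ≠ 0 := by
      rw [Ne, map_eq_zero]
      exact_mod_cast hN
    exact mul_ne_zero hN' (mul_ne_zero hW (pow_ne_zero _ hH))
  obtain ⟨C, hC0, hC⟩ := main_int i hD hinf hCM hrk ℓ hℓ h3 F x y hyc hF0 hFW
  refine ⟨C, hC0, fun δ T hT c => ?_⟩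
  obtain ⟨h1, h2⟩ := hC (N * δ ^ s) T hT c
  have hsub : {P : (j : Fin r) → Pt (a j : ℚ) (b j : ℚ) | (∀ j, hx (P j - c j) ≤ T ^ 2) ∧
        ((∀ j, P j ≠ 0) → ∃ w : ℚ, δ * w ^ n =
          aeval (pv (fun j => (crd (P j)).1) (fun j => (crd (P j)).2)) G ^ m *
          aeval (pv (fun j => (crd (P j)).1) (fun j => (crd (P j)).2)) H)} ⊆
      {P : (j : Fin r) → Pt (a j : ℚ) (b j : ℚ) | (∀ j, hx (P j - c j) ≤ T ^ 2) ∧
        Lft ℓ F (N * δ ^ s) P} := by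
    rintro P ⟨hP, hl⟩
    refine ⟨hP, fun h0 => ?_⟩
    obtain ⟨w, hw⟩ := hl h0
    obtain ⟨w', hw'⟩ := kummer_red ℓ n m s k hℓ.ne_zero hn hs δ w _ _ hw
    refine ⟨w', ?_⟩
    rw [haeQ, ← hw']
    ring
  refine ⟨h1.subset hsub, le_trans ?_ h2⟩
  exact_mod_cast Set.ncard_le_ncard hsub h1

end

end Pool.Agent.J4H11.RC
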