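import Pool.Agent.J4H11.RC.Core1

/-!
# Many good primes
-/

set_option autoImplicit false

namespace Pool.Agent.J4H11.RC

open Finset MvPolynomial WeierstrassCurve Pool.Agent.H901R3.MS

theorem asyA (A c ν : ℝ) (hc : 0 < c) (hν : 0 < ν) : ∃ Y : ℕ, ∀ y : ℕ, Y ≤ y →
    A * (y : ℝ) ^ (1 - ν) ≤ c * (y / Real.log y) := by
  have h1 := (isLittleO_log_rpow_atTop hν).comp_tendsto tendsto_natCast_atTop_atTop
  have h2 := h1.def (show (0 : ℝ) < c / (|A| + 1) by positivity)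
  obtain ⟨Y, hY⟩ := Filter.eventually_atTop.1 h2
  refine ⟨max Y 3, fun y hy => ?_⟩
  have h3 := hY y ((le_max_left _ _).trans hy)
  have hy3 : 3 ≤ y := (le_max_right _ _).trans hy
  have hyR : (3 : ℝ) ≤ y := by exact_mod_cast hy3
  have hy0 : (0 : ℝ) < y := by linarith
  have hlog : 0 < Real.log y := Real.log_pos (by linarith)
  simp only [Function.comp] at h3
  rw [Real.norm_of_nonneg hlog.le, Real.norm_of_nonneg (Real.rpow_nonneg hy0.le _)] at h3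
  have h4 : |A| * Real.log y ≤ c * (y : ℝ) ^ ν := by
    have h5 : (|A| + 1) * Real.log y ≤ c * (y : ℝ) ^ ν := by
      calc (|A| + 1) * Real.log y ≤ (|A| + 1) * (c / (|A| + 1) * (y : ℝ) ^ ν) :=
            mul_le_mul_of_nonneg_left h3 (by positivity)
        _ = _ := by field_simp
    linarith
  rw [← mul_div_assoc, le_div_iff₀ hlog]
  have h6 : (y : ℝ) ^ (1 - ν) * (y : ℝ) ^ ν = y := by
    rw [← Real.rpow_add hy0]
    simp
  calc A * (y : ℝ) ^ (1 - ν) * Real.log y ≤ |A| * (y : ℝ) ^ (1 - ν) * Real.log y := by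
        apply mul_le_mul_of_nonneg_right _ hlog.le
        exact mul_le_mul_of_nonneg_right (le_abs_self A) (Real.rpow_nonneg hy0.le _)
    _ = (y : ℝ) ^ (1 - ν) * (|A| * Real.log y) := by ring
    _ ≤ (y : ℝ) ^ (1 - ν) * (c * (y : ℝ) ^ ν) :=
        mul_le_mul_of_nonneg_left h4 (Real.rpow_nonneg hy0.le _)
    _ = c * ((y : ℝ) ^ (1 - ν) * (y : ℝ) ^ ν) := by ring
    _ = c * y := by rw [h6]

section
variable {r : ℕ} (i : Fin r) {a b : Fin r → ℤ}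

/-- the properties of the good primes -/
def GoodP (a b : Fin r → ℤ) (R : (j : Fin r) → Pt (a j : ℚ) (b j : ℚ)) (ℓ N0 y z : ℕ) (κ : ℝ)
    (q p : ℕ) : Prop :=
  p ≤ y ∧ N0 < p ∧ q.Prime ∧ (y : ℝ) ^ (1 / 2 + κ) < q ∧ q ∣ p + 1 ∧ ¬ q ∣ (p + 1) / q ∧
    ℓ ∣ p - 1 ∧ ∃ _ : Fact p.Prime, Nat.card (Pt (a i : ZMod p) (b i : ZMod p)) = p + 1 ∧
      ∃ ld : LD a b p, q ∣ addOrderOf (ld.red i (R i)) ∧
        ∀ j, z < addOrderOf (ld.red j (R j))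

set_option maxHeartbeats 1000000 in
theorem good_set (hD : ∀ j, Disc (a j : ℚ) (b j : ℚ)) (hCM : CMt (a i) (b i)) (ℓ : ℕ)
    (hℓ : ℓ.Prime) (h3 : ℓ = 3 → a i ≠ 0) (R : Fin 2 → (j : Fin r) → Pt (a j : ℚ) (b j : ℚ))
    (hR : ∀ s j, ∀ n : ℕ, 0 < n → n • R s j ≠ 0)
    (hind : ∀ m n : ℤ, (m, n) ≠ (0, 0) → m • R 0 i + n • R 1 i ≠ 0)
    (Ψ : MvPolynomial (Bi i) ℤ) (m0 : Bi i →₀ ℕ) (N0 : ℕ)
    (hN0 : ∀ p : ℕ, N0 < p → LargeP i a b Ψ m0 p) :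
    ∃ κ c : ℝ, 0 < κ ∧ κ ≤ 1 / 4 ∧ 0 < c ∧ ∃ Y : ℕ, ∀ y : ℕ, Y ≤ y → ∃ (s : Fin 2)
      (PR : Finset ℕ) (qf : ℕ → ℕ), c * (y / Real.log y) ≤ (PR.card : ℝ) ∧
      ∀ p ∈ PR, GoodP i a b (R s) ℓ N0 y ⌈(y : ℝ) ^ (3 / 10 : ℝ)⌉₊ κ (qf p) p := by
  classical
  obtain ⟨Q, u, hQ, hu, hres⟩ := t_RES 1 (fun _ => a i) (fun _ => b i) (fun _ => hCM) ℓ hℓ
    (fun h _ => h3 h)
  obtain ⟨κ, c, hκ, hκ4, hc, T, hT⟩ := gold Q u hQ hu
  -- constants
  have hord := fun s j => primes_ord (a j) (b j) (hD j) (R s j) (hR s j)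
  choose C1 hC10 hC1 using hord
  obtain ⟨C2, hC20, hC2⟩ := primes_two (a i) (b i) (hD i) (R 0 i) (R 1 i) hind
  set A : ℝ := ((N0 : ℝ) + 1) + 8 * (∑ s, ∑ j, C1 s j) + 4 * C2 with hA
  have hS0 : 0 ≤ ∑ s, ∑ j, C1 s j := sum_nonneg fun s _ => sum_nonneg fun j _ => hC10 s j
  have hA0 : 0 ≤ A := by positivity
  set ν : ℝ := min (1 / 10) (2 * κ) with hν
  have hν0 : 0 < ν := lt_min (by norm_num) (by linarith)
  obtain ⟨Y1, hY1⟩ := asyA A (c / 2) ν (by linarith) hν0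
  refine ⟨κ, c / 4, hκ, hκ4, by linarith, max T (max Y1 ⌈(2 : ℝ) ^ (1 / (2 * κ))⌉₊ + 3),
    fun y hy => ?_⟩
  have hyT : T ≤ y := (le_max_left _ _).trans hy
  have hy' := (le_max_right _ _).trans hy
  have hyY1 : Y1 ≤ y := by
    have := le_max_left Y1 ⌈(2 : ℝ) ^ (1 / (2 * κ))⌉₊
    omega
  have hy3 : 3 ≤ y := by omega
  have hy2κ : (2 : ℝ) ^ (1 / (2 * κ)) ≤ y := by
    have h1 : ⌈(2 : ℝ) ^ (1 / (2 * κ))⌉₊ ≤ y := by
      have := le_max_right Y1 ⌈(2 : ℝ) ^ (1 / (2 * κ))⌉₊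
      omega
    exact (Nat.le_ceil _).trans (by exact_mod_cast h1)
  have hyR : (3 : ℝ) ≤ y := by exact_mod_cast hy3
  have hy1 : (1 : ℝ) ≤ y := by linarith
  have hy0 : (0 : ℝ) < y := by linarith
  have h2κ : (2 : ℝ) ≤ (y : ℝ) ^ (2 * κ) := by
    have h1 : ((2 : ℝ) ^ (1 / (2 * κ))) ^ (2 * κ) = 2 := by
      rw [← Real.rpow_mul (by norm_num)]
      have : 1 / (2 * κ) * (2 * κ) = 1 := by field_simp
      rw [this, Real.rpow_one]
    calc (2 : ℝ) = ((2 : ℝ) ^ (1 / (2 * κ))) ^ (2 * κ) := h1.symm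
      _ ≤ (y : ℝ) ^ (2 * κ) := by
        apply Real.rpow_le_rpow (by positivity) hy2κ (by linarith)
  -- `q² > p + 1`
  have hqq : ∀ q : ℕ, (y : ℝ) ^ (1 / 2 + κ) < q → ∀ p : ℕ, p ≤ y → (p : ℝ) + 1 < (q : ℝ) * q := by
    intro q hq p hp
    have h1 : (y : ℝ) ^ (1 / 2 + κ) * (y : ℝ) ^ (1 / 2 + κ) = y * (y : ℝ) ^ (2 * κ) := by
      rw [← Real.rpow_add hy0]
      have : (1 / 2 + κ + (1 / 2 + κ)) = 1 + 2 * κ := by ring
      rw [this, Real.rpow_add hy0, Real.rpow_one]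
    have h2 : (y : ℝ) * 2 ≤ y * (y : ℝ) ^ (2 * κ) := mul_le_mul_of_nonneg_left h2κ hy0.le
    have h4 : (y : ℝ) ^ (1 / 2 + κ) * (y : ℝ) ^ (1 / 2 + κ) < (q : ℝ) * q :=
      mul_self_lt_mul_self (Real.rpow_nonneg hy0.le _) hq
    have h5 : (p : ℝ) ≤ y := by exact_mod_cast hp
    linarith
  set PF0 := PF Q u y ((y : ℝ) ^ (1 / 2 + κ)) with hPF0
  have hcardPF := hT y hyT
  -- the large prime factor
  have hex : ∀ p : ℕ, ∃ q : ℕ, p ∈ PF0 → q.Prime ∧ (y : ℝ) ^ (1 / 2 + κ) < q ∧ q ∣ p + 1 := by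
    intro p
    by_cases hp : p ∈ PF0
    · obtain ⟨-, -, -, q, hq⟩ := mem_PF.1 hp
      exact ⟨q, fun _ => hq⟩
    · exact ⟨0, fun h => absurd h hp⟩
  choose qf hqf using hex
  have hqf2 : ∀ p ∈ PF0, ¬ qf p ∣ (p + 1) / qf p := by
    intro p hp hd
    obtain ⟨h1, h2, h4⟩ := hqf p hp
    have h5 : qf p * qf p ∣ p + 1 := by
      obtain ⟨e, he⟩ := hd
      refine ⟨e, ?_⟩
      rw [mul_assoc, ← he, Nat.mul_div_cancel' h4]
    have h6 := Nat.le_of_dvd (by omega) h5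
    have h7 := hqq (qf p) h2 p (mem_PF.1 hp).1
    have h8 : ((qf p : ℝ)) * qf p ≤ (p : ℝ) + 1 := by exact_mod_cast h6
    linarith
  set z : ℕ := ⌈(y : ℝ) ^ (3 / 10 : ℝ)⌉₊ with hz
  set w : ℝ := 2 * (y : ℝ) ^ (1 / 2 - κ) with hw
  set s0 : ℕ := ⌊√w⌋₊ with hs0
  have hypow1 : ∀ e : ℝ, 0 ≤ e → 1 ≤ (y : ℝ) ^ e := fun e he => Real.one_le_rpow hy1 he
  have hw2 : 2 ≤ w := by
    have := hypow1 (1 / 2 - κ) (by linarith)
    rw [hw]; linarith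
  have hw1 : 1 ≤ √w := by
    rw [Real.one_le_sqrt]; linarith
  have hs01 : 1 ≤ s0 := by
    rw [hs0, Nat.one_le_floor_iff]
    exact hw1
  have hs0le : (s0 : ℝ) ≤ √w := Nat.floor_le (Real.sqrt_nonneg _)
  have hs04 : (s0 : ℝ) ^ 4 ≤ 4 * (y : ℝ) ^ (1 - 2 * κ) := by
    have h1 : (s0 : ℝ) ^ 4 ≤ (√w) ^ 4 := pow_le_pow_left₀ (Nat.cast_nonneg _) hs0le 4
    have h2 : (√w) ^ 4 = w * w := by
      have : (√w) ^ 4 = (√w * √w) * (√w * √w) := by ring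
      rw [this, Real.mul_self_sqrt (by linarith)]
    have h4 : w * w = 4 * (y : ℝ) ^ (1 - 2 * κ) := by
      rw [hw]
      have : (y : ℝ) ^ (1 / 2 - κ) * (y : ℝ) ^ (1 / 2 - κ) = (y : ℝ) ^ (1 - 2 * κ) := by
        rw [← Real.rpow_add hy0]
        congr 1
        ring
      calc 2 * (y : ℝ) ^ (1 / 2 - κ) * (2 * (y : ℝ) ^ (1 / 2 - κ)) =
          4 * ((y : ℝ) ^ (1 / 2 - κ) * (y : ℝ) ^ (1 / 2 - κ)) := by ring
        _ = _ := by rw [this]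
    rw [← h4, ← h2]
    exact h1
  have hs0q : ∀ p ∈ PF0, (p + 1) / qf p < (s0 + 1) ^ 2 := by
    intro p hp
    obtain ⟨h1, h2, h4⟩ := hqf p hp
    have h5 : (((p + 1) / qf p : ℕ) : ℝ) ≤ w := by
      refine Nat.cast_div_le.trans ?_
      have hq0 : (0 : ℝ) < qf p := lt_of_le_of_lt (Real.rpow_nonneg hy0.le _) h2
      rw [div_le_iff₀ hq0]
      have h6 : w * (y : ℝ) ^ (1 / 2 + κ) = 2 * y := by
        rw [hw, mul_assoc, ← Real.rpow_add hy0]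
        have : (1 / 2 - κ + (1 / 2 + κ)) = 1 := by ring
        rw [this, Real.rpow_one]
      have h7 : w * (y : ℝ) ^ (1 / 2 + κ) ≤ w * qf p :=
        mul_le_mul_of_nonneg_left h2.le (by linarith)
      have h8 : (p : ℝ) ≤ y := by exact_mod_cast (mem_PF.1 hp).1
      push_cast
      linarith
    have h6 : w < ((s0 : ℝ) + 1) ^ 2 := by
      have h7 : √w < (s0 : ℝ) + 1 := Nat.lt_floor_add_one _
      have h8 : w = √w ^ 2 := (Real.sq_sqrt (by linarith)).symm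
      rw [h8]
      exact pow_lt_pow_left₀ h7 (Real.sqrt_nonneg _) (by norm_num)
    have h9 : (((p + 1) / qf p : ℕ) : ℝ) < (((s0 + 1) ^ 2 : ℕ) : ℝ) := by
      push_cast
      push_cast at h5
      linarith
    exact_mod_cast h9
  have hz1 : 1 ≤ z := by
    rw [hz, Nat.one_le_ceil_iff]
    exact Real.rpow_pos_of_pos hy0 _
  have hz3 : (z : ℝ) ^ 3 ≤ 8 * (y : ℝ) ^ (9 / 10 : ℝ) := by
    have h1 : (z : ℝ) ≤ 2 * (y : ℝ) ^ (3 / 10 : ℝ) := by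
      have h2 := (Nat.ceil_lt_add_one (Real.rpow_nonneg hy0.le (3 / 10 : ℝ))).le
      have h4 := hypow1 (3 / 10) (by norm_num)
      rw [← hz] at h2
      linarith
    have h2 : (z : ℝ) ^ 3 ≤ (2 * (y : ℝ) ^ (3 / 10 : ℝ)) ^ 3 :=
      pow_le_pow_left₀ (Nat.cast_nonneg _) h1 3
    have h4 : ((y : ℝ) ^ (3 / 10 : ℝ)) ^ 3 = (y : ℝ) ^ (9 / 10 : ℝ) := by
      rw [← Real.rpow_natCast, ← Real.rpow_mul hy0.le]
      norm_num
    calc (z : ℝ) ^ 3 ≤ (2 * (y : ℝ) ^ (3 / 10 : ℝ)) ^ 3 := h2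
      _ = 8 * ((y : ℝ) ^ (3 / 10 : ℝ)) ^ 3 := by ring
      _ = _ := by rw [h4]
  -- the exceptional primes
  set E0 := PF0.filter (fun p => p ≤ N0) with hE0
  set E1 : Fin 2 → Fin r → Finset ℕ := fun s j =>
    PF0.filter (fun p => ∃ n ∈ Icc 1 z, zr p (n • R s j)) with hE1
  set E2 := PF0.filter (fun p => ∃ m n : ℤ, |m| ≤ s0 ∧ |n| ≤ s0 ∧ (m, n) ≠ (0, 0) ∧
      zr p (m • R 0 i + n • R 1 i)) with hE2
  set PR : Fin 2 → Finset ℕ := fun s => PF0.filter (fun p =>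
    GoodP i a b (R s) ℓ N0 y z κ (qf p) p) with hPR
  have hcE0 : (E0.card : ℝ) ≤ N0 + 1 := by
    have h1 : E0.card ≤ (range (N0 + 1)).card := by
      apply card_le_card
      intro p hp
      rw [hE0, mem_filter] at hp
      rw [mem_range]
      omega
    rw [card_range] at h1
    exact_mod_cast h1
  have hcE1 : ∀ s j, ((E1 s j).card : ℝ) ≤ C1 s j * (8 * (y : ℝ) ^ (9 / 10 : ℝ)) := by
    intro s j
    refine (hC1 s j z hz1 (E1 s j) fun p hp => ?_).trans (mul_le_mul_of_nonneg_left hz3 (hC10 s j))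
    simp only [hE1, mem_filter] at hp
    exact ⟨(mem_PF.1 hp.1).2.1, hp.2⟩
  have hcE2 : (E2.card : ℝ) ≤ C2 * (4 * (y : ℝ) ^ (1 - 2 * κ)) := by
    refine (hC2 s0 hs01 E2 fun p hp => ?_).trans (mul_le_mul_of_nonneg_left hs04 hC20)
    rw [hE2, mem_filter] at hp
    exact ⟨(mem_PF.1 hp.1).2.1, hp.2⟩
  have hcover : PF0 ⊆ (E0 ∪ (univ.biUnion fun s => univ.biUnion fun j => E1 s j)) ∪
      (E2 ∪ (PR 0 ∪ PR 1)) := by
    intro p hp
    by_contra hcon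
    simp only [mem_union, mem_biUnion, mem_univ, true_and, not_or, not_exists] at hcon
    obtain ⟨⟨hc0, hc1⟩, hc2, hc3, hc4⟩ := hcon
    obtain ⟨hpy, hpp, hpr, -⟩ := mem_PF.1 hp
    have hpN : N0 < p := by
      by_contra h
      exact hc0 (mem_filter.2 ⟨hp, by omega⟩)
    have hfact : Fact p.Prime := ⟨hpp⟩
    obtain ⟨l1, l2, l3, l5, l6⟩ := hN0 p hpN
    obtain ⟨ld⟩ := exists_LD (a := a) (b := b) p l1
    obtain ⟨o1, o2, o3⟩ := hres p hpr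
    have hcard := card_cm (a i) (b i) hCM l2 (fun h => o1 0 h) (fun h => o2 0 h) l5 l6
    have hℓp : ℓ ∣ p - 1 := by
      rcases o3 with rfl | h
      · have := hpp.eq_two_or_odd
        omega
      · have := Nat.div_add_mod p ℓ
        rw [h] at this
        exact ⟨p / ℓ, by omega⟩
    obtain ⟨q1, q2, q3⟩ := hqf p hp
    have q4 := hqf2 p hp
    have hzz : ∀ s j, z < addOrderOf (ld.red j (R s j)) := fun s j =>
      ord_gt ld j (R s j) z (fun h => hc1 s j (by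
        simp only [hE1, mem_filter]
        exact ⟨hp, h⟩))
    have htwo := two_red i ld (qf p) s0 hcard q1 q3 q4 (hs0q p hp) (R 0 i) (R 1 i)
      (fun h => hc2 (mem_filter.2 ⟨hp, h⟩))
    rcases htwo with h | h
    · apply hc3
      simp only [hPR, mem_filter]
      exact ⟨hp, hpy, hpN, q1, q2, q3, q4, hℓp, hfact, hcard, ld, h, fun j => hzz 0 j⟩
    · apply hc4
      simp only [hPR, mem_filter]
      exact ⟨hp, hpy, hpN, q1, q2, q3, q4, hℓp, hfact, hcard, ld, h, fun j => hzz 1 j⟩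
  have hcount : (PF0.card : ℝ) ≤ (E0.card + ∑ s, ∑ j, ((E1 s j).card : ℝ)) +
      (E2.card + ((PR 0).card + (PR 1).card)) := by
    have h1 := card_le_card hcover
    have h2 := card_union_le (E0 ∪ (univ.biUnion fun s => univ.biUnion fun j => E1 s j))
      (E2 ∪ (PR 0 ∪ PR 1))
    have h4 := card_union_le E0 (univ.biUnion fun s => univ.biUnion fun j => E1 s j)
    have h5 := card_union_le E2 (PR 0 ∪ PR 1)
    have h6 := card_union_le (PR 0) (PR 1)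
    have h7 : (univ.biUnion fun s => univ.biUnion fun j => E1 s j).card ≤
        ∑ s, ∑ j, (E1 s j).card :=
      card_biUnion_le.trans (sum_le_sum fun s _ => card_biUnion_le)
    have h8 : PF0.card ≤ (E0.card + ∑ s, ∑ j, (E1 s j).card) +
      (E2.card + ((PR 0).card + (PR 1).card)) := by omega
    exact_mod_cast h8
  have hsum : ∑ s, ∑ j, ((E1 s j).card : ℝ) ≤
      (∑ s, ∑ j, C1 s j) * (8 * (y : ℝ) ^ (9 / 10 : ℝ)) := by
    rw [sum_mul]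
    refine sum_le_sum fun s _ => ?_
    rw [sum_mul]
    exact sum_le_sum fun j _ => hcE1 s j
  have hpw1 : (y : ℝ) ^ (9 / 10 : ℝ) ≤ (y : ℝ) ^ (1 - ν) := by
    apply Real.rpow_le_rpow_of_exponent_le hy1
    have := min_le_left (1 / 10 : ℝ) (2 * κ)
    rw [← hν] at this
    linarith
  have hpw2 : (y : ℝ) ^ (1 - 2 * κ) ≤ (y : ℝ) ^ (1 - ν) := by
    apply Real.rpow_le_rpow_of_exponent_le hy1
    have := min_le_right (1 / 10 : ℝ) (2 * κ)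
    rw [← hν] at this
    linarith
  have hpw3 : 1 ≤ (y : ℝ) ^ (1 - ν) := by
    apply hypow1
    have := min_le_left (1 / 10 : ℝ) (2 * κ)
    rw [← hν] at this
    linarith
  have hexc : (E0.card : ℝ) + ∑ s, ∑ j, ((E1 s j).card : ℝ) + E2.card ≤ A * (y : ℝ) ^ (1 - ν) := by
    have e0 : (E0.card : ℝ) ≤ ((N0 : ℝ) + 1) * (y : ℝ) ^ (1 - ν) := by
      refine hcE0.trans ?_
      have : (0 : ℝ) ≤ (N0 : ℝ) + 1 := by positivity
      nlinarith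
    have e1 : ∑ s, ∑ j, ((E1 s j).card : ℝ) ≤
        (8 * ∑ s, ∑ j, C1 s j) * (y : ℝ) ^ (1 - ν) := by
      refine hsum.trans ?_
      have := mul_le_mul_of_nonneg_left hpw1 (mul_nonneg (by norm_num : (0 : ℝ) ≤ 8) hS0)
      linarith
    have e2 : (E2.card : ℝ) ≤ (4 * C2) * (y : ℝ) ^ (1 - ν) := by
      refine hcE2.trans ?_
      have := mul_le_mul_of_nonneg_left hpw2 (mul_nonneg (by norm_num : (0 : ℝ) ≤ 4) hC20)
      linarith
    rw [hA]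
    have e3 : ((N0 : ℝ) + 1 + 8 * (∑ s, ∑ j, C1 s j) + 4 * C2) * (y : ℝ) ^ (1 - ν) =
        ((N0 : ℝ) + 1) * (y : ℝ) ^ (1 - ν) + (8 * ∑ s, ∑ j, C1 s j) * (y : ℝ) ^ (1 - ν) +
        (4 * C2) * (y : ℝ) ^ (1 - ν) := by ring
    rw [e3]
    linarith
  have hfin := hY1 y hyY1
  have htot : c / 2 * (y / Real.log y) ≤ ((PR 0).card : ℝ) + (PR 1).card := by linarith
  have hgood : ∀ s, ∀ p ∈ PR s, GoodP i a b (R s) ℓ N0 y z κ (qf p) p := by
    intro s p hp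
    simp only [hPR, mem_filter] at hp
    exact hp.2
  by_cases hcase : c / 4 * (y / Real.log y) ≤ ((PR 0).card : ℝ)
  · exact ⟨0, PR 0, qf, hcase, hgood 0⟩
  · refine ⟨1, PR 1, qf, ?_, hgood 1⟩
    push Not at hcase
    linarith

end

end Pool.Agent.J4H11.RC
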