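import Pool.Agent.J4H11.RC.Loc

/-!
# `ℓ`-th power values of a function along a large cyclic subgroup of `E(F_p)`: the count
-/

set_option autoImplicit false

namespace Pool.Agent.J4H11.RC

open Finset MvPolynomial WeierstrassCurve Pool.Agent.H901R3.MS

section
variable {p : ℕ} [Fact p.Prime] {a b : ZMod p}

/-- the exceptional translations -/
theorem bad_card [Fintype (Pt a b)] [DecidableEq (Pt a b)] {K : Type} [Field K]
    [Algebra (ZMod p) K] [DecidableEq K] (hD : Disc a b)
    (G : MvPolynomial (Fin 2) (ZMod p)) (D : ℕ) (hG : G.totalDegree ≤ D)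
    (xS yS : K) (hz : SimpleZero a b G xS yS)
    (S : Pt (algebraMap (ZMod p) K a) (algebraMap (ZMod p) K b))
    (H : Finset (Pt a b)) (hH : ∀ h ∈ H, ∀ h' ∈ H, h + h = h' + h' → h = h') :
    ((({0} : Finset (Pt a b)) ∪ univ.filter (fun h => gv G (S - emb K hD h) = 0)) ∪
      (univ.filter (fun h => gv G (emb K hD h - S) = 0) ∪
        H.filter (fun h => gv G (emb K hD h + emb K hD h - S) = 0))).card ≤
      3 * (8 * D + 7) + 1 := by
  classical
  obtain ⟨hfin, hcard⟩ := gv_zeros G xS yS hz D hG
  set Z : Set (Pt (algebraMap (ZMod p) K a) (algebraMap (ZMod p) K b)) := {P | gv G P = 0} with hZ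
  rw [Set.ncard_eq_toFinset_card Z hfin] at hcard
  have hinj := emb_inj (K := K) hD
  have c1 : (univ.filter (fun h => gv G (S - emb K hD h) = 0)).card ≤ 8 * D + 7 := by
    refine le_trans ?_ hcard
    refine card_le_card_of_injOn (fun h => S - emb K hD h) ?_ ?_
    · intro h hh
      rw [mem_coe, mem_filter] at hh
      rw [mem_coe, Set.Finite.mem_toFinset]
      exact hh.2
    · intro h _ h' _ he
      exact hinj (sub_right_injective he)
  have c2 : (univ.filter (fun h => gv G (emb K hD h - S) = 0)).card ≤ 8 * D + 7 := by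
    refine le_trans ?_ hcard
    refine card_le_card_of_injOn (fun h => emb K hD h - S) ?_ ?_
    · intro h hh
      rw [mem_coe, mem_filter] at hh
      rw [mem_coe, Set.Finite.mem_toFinset]
      exact hh.2
    · intro h _ h' _ he
      exact hinj (sub_left_injective he)
  have c3 : (H.filter (fun h => gv G (emb K hD h + emb K hD h - S) = 0)).card ≤ 8 * D + 7 := by
    refine le_trans ?_ hcard
    refine card_le_card_of_injOn (fun h => emb K hD h + emb K hD h - S) ?_ ?_
    · intro h hh
      rw [mem_coe, mem_filter] at hh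
      rw [mem_coe, Set.Finite.mem_toFinset]
      exact hh.2
    · intro h hh h' hh' he
      rw [mem_coe, mem_filter] at hh hh'
      have he2 : emb K hD h + emb K hD h = emb K hD h' + emb K hD h' := sub_left_injective he
      rw [← map_add, ← map_add] at he2
      exact hH h hh.1 h' hh'.1 (hinj he2)
  have c0 : ({0} : Finset (Pt a b)).card = 1 := card_singleton _
  have d1 := card_union_le ((({0} : Finset (Pt a b)) ∪
      univ.filter (fun h => gv G (S - emb K hD h) = 0)))
      (univ.filter (fun h => gv G (emb K hD h - S) = 0) ∪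
        H.filter (fun h => gv G (emb K hD h + emb K hD h - S) = 0))
  have d2 := card_union_le ({0} : Finset (Pt a b))
      (univ.filter (fun h => gv G (S - emb K hD h) = 0))
  have d3 := card_union_le (univ.filter (fun h => gv G (emb K hD h - S) = 0))
      (H.filter (fun h => gv G (emb K hD h + emb K hD h - S) = 0))
  omega

theorem loc_count {K : Type} [Field K] [IsAlgClosed K] [Algebra (ZMod p) K]
    [Algebra.IsAlgebraic (ZMod p) K] (hD : Disc a b) (hp2 : p ≠ 2)
    (hcard : Nat.card (Pt a b) = p + 1)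
    (G : MvPolynomial (Fin 2) (ZMod p)) (D ℓ : ℕ) (hG : G.totalDegree ≤ D) (hℓ : ℓ.Prime)
    (hℓp : ℓ ∣ p - 1) (xS yS : K) (hz : SimpleZero a b G xS yS)
    (g : Pt a b) (q : ℕ) (hq : Odd q) (hgo : addOrderOf g = q) (P0 : Pt a b) :
    ((((range q).filter (fun t => P0 + t • g = 0 ∨
      ∃ w : ZMod p, w ^ ℓ = gv (K := ZMod p) G (P0 + t • g))).card : ℕ) : ℝ) ≤
      (q : ℝ) / ℓ + Real.sqrt ((3 * (8 * D + 7) + 1) * ((p : ℝ) + 1) +
        q * (CW ℓ (8 * D * ℓ) * √(p : ℝ) + 2) + 2 * q * (8 * D + 7) / ℓ) + (8 * D + 7) := by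
  classical
  haveI : Finite (Pt a b) := Nat.finite_of_card_ne_zero (by rw [hcard]; omega)
  haveI := Fintype.ofFinite (Pt a b)
  have hp := (Fact.out : p.Prime)
  have hp1 : 0 < p - 1 := by have := hp.two_le; omega
  obtain ⟨m, hm⟩ := id hℓp
  have hmd : (p - 1) / ℓ = m := by rw [hm]; exact Nat.mul_div_cancel_left _ hℓ.pos
  have hm0 : m ≠ 0 := by
    rintro rfl
    omega
  have hD' := disc_map (K := K) hD
  have hS : (CV (algebraMap (ZMod p) K a) (algebraMap (ZMod p) K b)).toAffine.Nonsingular xS yS :=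
    (nonsingular_iff hD').2 hz.1
  set S : Pt (algebraMap (ZMod p) K a) (algebraMap (ZMod p) K b) := Affine.Point.some xS yS hS
    with hSdef
  set H : AddSubgroup (Pt a b) := AddSubgroup.zmultiples g with hHdef
  have hHcard : (univ.filter (· ∈ H)).card = q := by
    rw [← hgo, ← Nat.card_zmultiples, Nat.card_eq_fintype_card, Fintype.card_subtype]
  have hHt : ∀ h ∈ H, q • h = 0 := by
    intro h hh
    obtain ⟨n, rfl⟩ := AddSubgroup.mem_zmultiples_iff.1 hh
    rw [smul_comm, ← hgo, addOrderOf_nsmul_eq_zero, smul_zero]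
  have hH2 : ∀ h ∈ univ.filter (· ∈ H), ∀ h' ∈ univ.filter (· ∈ H), h + h = h' + h' → h = h' := by
    intro h hh h' hh' he
    rw [mem_filter] at hh hh'
    have h1 : (2 : ℕ) • (h - h') = 0 := by
      rw [two_nsmul]
      have : h - h' + (h - h') = (h + h) - (h' + h') := by abel
      rw [this, he, sub_self]
    have h2 : q • (h - h') = 0 := hHt _ (H.sub_mem hh.2 hh'.2)
    obtain ⟨c, hc⟩ := hq
    have h3 : (1 : ℕ) • (h - h') = 0 := by
      have h4 : q • (h - h') = c • ((2 : ℕ) • (h - h')) + (1 : ℕ) • (h - h') := by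
        rw [hc, add_smul, mul_comm, mul_smul]
      rw [h2, h1, smul_zero, zero_add] at h4
      exact h4.symm
    rw [one_smul] at h3
    exact sub_eq_zero.1 h3
  -- zeros over `F_p`
  have hzeros : (univ.filter (fun R : Pt a b => phi ℓ G R = 0)).card ≤ 8 * D + 7 := by
    obtain ⟨hfin, hc⟩ := gv_zeros G xS yS hz D hG
    rw [Set.ncard_eq_toFinset_card _ hfin] at hc
    refine le_trans ?_ hc
    refine card_le_card_of_injOn (fun h => emb K hD h) ?_ ?_
    · intro R hR
      rw [mem_coe, mem_filter] at hR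
      rw [mem_coe, Set.Finite.mem_toFinset]
      show gv G (emb K hD R) = 0
      have h1 : gv (K := ZMod p) G R = 0 := by
        have h2 := hR.2
        unfold phi at h2
        rw [hmd] at h2
        exact pow_eq_zero_iff hm0 |>.1 h2
      rw [gv_emb, h1, map_zero]
    · intro h _ h' _ he
      exact emb_inj hD he
  -- roots of unity
  set X : Finset (ZMod p) := univ.filter (fun z => z ^ ℓ = 1) with hX
  have hXc : X.card ≤ ℓ := by
    have h1 : X ⊆ (Polynomial.X ^ ℓ - Polynomial.C (1 : ZMod p)).roots.toFinset := by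
      intro z hz
      rw [hX, mem_filter] at hz
      rw [Multiset.mem_toFinset, Polynomial.mem_roots (Polynomial.X_pow_sub_C_ne_zero hℓ.pos _)]
      simp [hz.2]
    refine (card_le_card h1).trans ((Multiset.toFinset_card_le _).trans
      ((Polynomial.card_roots' _).trans ?_))
    rw [Polynomial.natDegree_X_pow_sub_C]
  have hX0 : (0 : ZMod p) ∉ X := by
    rw [hX, mem_filter]
    rintro ⟨-, h⟩
    rw [zero_pow hℓ.ne_zero] at h
    exact zero_ne_one h
  have hφX : ∀ R : Pt a b, phi ℓ G R = 0 ∨ phi ℓ G R ∈ X := by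
    intro R
    by_cases h : gv (K := ZMod p) G R = 0
    · left
      rw [phi, h, hmd, zero_pow hm0]
    · right
      rw [hX, mem_filter]
      refine ⟨mem_univ _, ?_⟩
      rw [phi, hmd, ← pow_mul, mul_comm, ← hm, ZMod.pow_card_sub_one_eq_one h]
  set Bad : Finset (Pt a b) := ((({0} : Finset (Pt a b)) ∪
      univ.filter (fun h => gv G (S - emb K hD h) = 0)) ∪
      (univ.filter (fun h => gv G (emb K hD h - S) = 0) ∪
        (univ.filter (· ∈ H)).filter (fun h => gv G (emb K hD h + emb K hD h - S) = 0))) with hBad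
  have hBadc : Bad.card ≤ 3 * (8 * D + 7) + 1 := bad_card hD G D hG xS yS hz S _ hH2
  have hcardA : (Fintype.card (Pt a b) : ℝ) = (p : ℝ) + 1 := by
    rw [← Nat.card_eq_fintype_card, hcard]
    push_cast
    rfl
  have h1X : (1 : ZMod p) ∈ X := by
    rw [hX, mem_filter]
    exact ⟨mem_univ _, one_pow _⟩
  have key := abs_lemma (phi ℓ G) X ℓ hℓ.pos hXc hX0 hφX H (3 * (8 * D + 7) + 1)
    (CW ℓ (8 * D * ℓ) * √(p : ℝ) + 2) (8 * D + 7) q (by rw [hHcard]) Bad
    (by exact_mod_cast hBadc) (by positivity)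
    (by
      intro h hh hhB
      rw [hcardA]
      have hhB' : h ≠ 0 ∧ gv G (S - emb K hD h) ≠ 0 ∧ gv G (emb K hD h - S) ≠ 0 ∧
          gv G (emb K hD h + emb K hD h - S) ≠ 0 := by
        refine ⟨?_, ?_, ?_, ?_⟩
        · intro h0
          apply hhB
          rw [hBad, mem_union, mem_union, mem_singleton]
          exact Or.inl (Or.inl h0)
        · intro h0
          apply hhB
          rw [hBad, mem_union, mem_union, mem_filter]
          exact Or.inl (Or.inr ⟨mem_univ _, h0⟩)
        · intro h0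
          apply hhB
          rw [hBad, mem_union, mem_union (s := filter (fun h => gv G (emb K hD h - S) = 0) univ),
            mem_filter]
          exact Or.inr (Or.inl ⟨mem_univ _, h0⟩)
        · intro h0
          apply hhB
          rw [hBad, mem_union, mem_union (s := filter (fun h => gv G (emb K hD h - S) = 0) univ),
            mem_filter (s := filter (· ∈ H) univ), mem_filter (s := univ) (p := (· ∈ H))]
          exact Or.inr (Or.inr ⟨⟨mem_univ _, hh⟩, h0⟩)
      exact corr_count hD hp2 G D ℓ hG hℓ hℓp xS yS hz hS h hhB'.1 hhB'.2.1 hhB'.2.2.1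
        hhB'.2.2.2)
    (by exact_mod_cast hzeros) P0 1 h1X
  rw [hcardA] at key
  -- from `range q` to `H`
  have hinjt : Set.InjOn (fun t : ℕ => t • g) (range q : Finset ℕ) := by
    intro t ht t' ht' he
    rw [mem_coe, mem_range] at ht ht'
    have h1 : t ≡ t' [MOD addOrderOf g] := (nsmul_eq_nsmul_iff_modEq).1 he
    rw [hgo] at h1
    exact Nat.ModEq.eq_of_lt_of_lt h1 ht ht'
  have hsplit : (range q).filter (fun t => P0 + t • g = 0 ∨
      ∃ w : ZMod p, w ^ ℓ = gv (K := ZMod p) G (P0 + t • g)) ⊆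
      ((range q).filter (fun t => phi ℓ G (P0 + t • g) = 1)) ∪
      ((range q).filter (fun t => phi ℓ G (P0 + t • g) = 0)) := by
    intro t ht
    rw [mem_filter] at ht
    rw [mem_union, mem_filter, mem_filter]
    rcases ht.2 with h0 | ⟨w, hw⟩
    · right
      refine ⟨ht.1, ?_⟩
      rw [h0, phi, hmd]
      show (0 : ZMod p) ^ m = 0
      rw [zero_pow hm0]
    · by_cases hw0 : w = 0
      · right
        refine ⟨ht.1, ?_⟩
        rw [phi, ← hw, hw0, zero_pow hℓ.ne_zero, hmd, zero_pow hm0]
      · left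
        refine ⟨ht.1, ?_⟩
        rw [phi, ← hw, hmd, ← pow_mul, ← hm, ZMod.pow_card_sub_one_eq_one hw0]
  have hc1 : ((range q).filter (fun t => phi ℓ G (P0 + t • g) = 1)).card ≤
      ((univ.filter (· ∈ H)).filter (fun h => phi ℓ G (P0 + h) = 1)).card := by
    refine card_le_card_of_injOn (fun t => t • g) ?_ ?_
    · intro t ht
      rw [mem_coe, mem_filter] at ht
      rw [mem_coe, mem_filter, mem_filter]
      exact ⟨⟨mem_univ _, AddSubgroup.nsmul_mem_zmultiples g t⟩, ht.2⟩
    · intro t ht t' ht' he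
      rw [mem_coe, mem_filter] at ht ht'
      exact hinjt (mem_coe.2 ht.1) (mem_coe.2 ht'.1) he
  have hc2 : ((range q).filter (fun t => phi ℓ G (P0 + t • g) = 0)).card ≤ 8 * D + 7 := by
    refine le_trans ?_ hzeros
    refine card_le_card_of_injOn (fun t => P0 + t • g) ?_ ?_
    · intro t ht
      rw [mem_coe, mem_filter] at ht
      rw [mem_coe, mem_filter]
      exact ⟨mem_univ _, ht.2⟩
    · intro t ht t' ht' he
      rw [mem_coe, mem_filter] at ht ht'
      exact hinjt (mem_coe.2 ht.1) (mem_coe.2 ht'.1) (add_left_cancel he)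
  have hc := (card_le_card hsplit).trans (card_union_le _ _)
  have hcr : ((((range q).filter (fun t => P0 + t • g = 0 ∨
      ∃ w : ZMod p, w ^ ℓ = gv (K := ZMod p) G (P0 + t • g))).card : ℕ) : ℝ) ≤
      (((univ.filter (· ∈ H)).filter (fun h => phi ℓ G (P0 + h) = 1)).card : ℝ) +
        (8 * D + 7) := by
    have := hc.trans (Nat.add_le_add hc1 hc2)
    exact_mod_cast this
  linarith

end

end Pool.Agent.J4H11.RC
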