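import Pool.Agent.J4H11.RC.Ht3

/-!
# Orders of points modulo `p`
-/

set_option autoImplicit false

namespace Pool.Agent.J4H11.RC

open WeierstrassCurve Pool.Agent.H901R3.MS Finset

/-- `y² = x³ + b` over `F_p`, `p ≡ 2 (mod 3)` -/
theorem card_pt2 (p : ℕ) [hp : Fact p.Prime] (h3 : p % 3 = 2) (hp2 : p ≠ 2) (a b : ZMod p)
    (ha : a = 0) (hb : b ≠ 0) : Nat.card (Pt a b) = p + 1 := by
  have hp3 : p ≠ 3 := by rintro rfl; omega
  subst ha
  have hdisc : Disc (0 : ZMod p) b := by
    unfold Disc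
    have h2 : (2 : ZMod p) ≠ 0 := by
      intro h
      have h' : ((2 : ℕ) : ZMod p) = 0 := by exact_mod_cast h
      rw [ZMod.natCast_eq_zero_iff] at h'
      exact hp2 ((Nat.prime_dvd_prime_iff_eq hp.out Nat.prime_two).1 h')
    have h3' : (3 : ZMod p) ≠ 0 := by
      intro h
      have h' : ((3 : ℕ) : ZMod p) = 0 := by exact_mod_cast h
      rw [ZMod.natCast_eq_zero_iff] at h'
      exact hp3 ((Nat.prime_dvd_prime_iff_eq hp.out Nat.prime_three).1 h')
    have e : (2 : ZMod p) * (4 * (0 : ZMod p) ^ 3 + 27 * b ^ 2) = 2 * (3 ^ 3 * b ^ 2) := by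
      ring
    rw [e]
    exact mul_ne_zero h2 (mul_ne_zero (pow_ne_zero _ h3') (pow_ne_zero _ hb))
  let f : Pt (0 : ZMod p) b → Option (ZMod p) := fun P =>
    match P with
    | Affine.Point.zero => none
    | Affine.Point.some _ y _ => some y
  have hinj : Function.Injective f := by
    rintro (_ | ⟨x, y, h⟩) (_ | ⟨x', y', h'⟩) he
    · rfl
    · simp [f] at he
    · simp [f] at he
    · simp only [f, Option.some.injEq] at he
      subst he
      have e1 := eqn_of h
      have e2 := eqn_of h'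
      unfold Eqn at e1 e2
      have hx : x = x' := by
        apply W_C2.cube_inj h3
        linear_combination e2 - e1
      subst hx
      rfl
  have hsurj : Function.Surjective f := by
    rintro (_ | y)
    · exact ⟨Affine.Point.zero, rfl⟩
    · obtain ⟨x, hx⟩ := W_C2.cube_surj h3 (y ^ 2 - b)
      have he : Eqn (0 : ZMod p) b x y := by
        unfold Eqn
        rw [hx]
        ring
      exact ⟨Affine.Point.some x y ((nonsingular_iff hdisc).2 he), rfl⟩
  rw [Nat.card_congr (Equiv.ofBijective f ⟨hinj, hsurj⟩), Finite.card_option, Nat.card_zmod]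

section
variable {G : Type} [AddCommGroup G]

/-- a multiple of a point has prime order -/
theorem order_mult (m q : ℕ) (hq : q.Prime) (hqm : q ∣ m) (hqm2 : ¬ q ∣ m / q) (g : G)
    (hg : m • g = 0) (hgq : q ∣ addOrderOf g) : addOrderOf ((m / q) • g) = q := by
  have h1 : q • ((m / q) • g) = 0 := by
    rw [← mul_smul, Nat.mul_div_cancel' hqm, hg]
  have h2 : addOrderOf ((m / q) • g) ∣ q := addOrderOf_dvd_of_nsmul_eq_zero h1
  rcases (Nat.dvd_prime hq).1 h2 with h3 | h3
  · exfalso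
    rw [AddMonoid.addOrderOf_eq_one_iff] at h3
    exact hqm2 (hgq.trans (addOrderOf_dvd_of_nsmul_eq_zero h3))
  · exact h3

/-- two points whose orders are prime to a large prime factor of the order of the group are
dependent with small coefficients -/
theorem two_points [Finite G] (m q s : ℕ) (hcard : Nat.card G = m) (hq : q.Prime) (hqm : q ∣ m)
    (hqm2 : ¬ q ∣ m / q) (hs : m / q < (s + 1) ^ 2) (g₁ g₂ : G) (h₁ : ¬ q ∣ addOrderOf g₁)
    (h₂ : ¬ q ∣ addOrderOf g₂) :
    ∃ c d : ℤ, |c| ≤ s ∧ |d| ≤ s ∧ (c, d) ≠ (0, 0) ∧ c • g₁ + d • g₂ = 0 := by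
  classical
  set m0 := m / q with hm0
  have hm : m = q * m0 := (Nat.mul_div_cancel' hqm).symm
  set H : AddSubgroup G := (nsmulAddMonoidHom m0 : G →+ G).ker with hH
  have hmem : ∀ g : G, ¬ q ∣ addOrderOf g → g ∈ H := by
    intro g hg
    rw [hH, AddMonoidHom.mem_ker, nsmulAddMonoidHom_apply]
    have h1 : addOrderOf g ∣ m := hcard ▸ addOrderOf_dvd_natCard g
    rw [hm] at h1
    have h2 : Nat.Coprime (addOrderOf g) q := ((Nat.Prime.coprime_iff_not_dvd hq).2 hg).symm
    have h3 : addOrderOf g ∣ m0 := h2.dvd_of_dvd_mul_left h1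
    exact addOrderOf_dvd_iff_nsmul_eq_zero.1 h3
  have hHc : Nat.card H ∣ m0 := by
    have h1 : Nat.card H ∣ m := hcard ▸ AddSubgroup.card_addSubgroup_dvd_card H
    have h2 : ¬ q ∣ Nat.card H := by
      intro h
      have : Fact q.Prime := ⟨hq⟩
      obtain ⟨g, hg⟩ := exists_prime_addOrderOf_dvd_card' q h
      have h3 : m0 • (g : G) = 0 := by
        have h5 : ∀ z ∈ H, m0 • z = 0 := fun z hz => by
          rw [hH, AddMonoidHom.mem_ker, nsmulAddMonoidHom_apply] at hz
          exact hz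
        exact h5 g g.2
      have h4 : m0 • g = 0 := by
        apply Subtype.ext
        push_cast
        exact h3
      rw [← addOrderOf_dvd_iff_nsmul_eq_zero, hg] at h4
      exact hqm2 h4
    rw [hm] at h1
    exact (((Nat.Prime.coprime_iff_not_dvd hq).2 h2).symm).dvd_of_dvd_mul_left h1
  have hm00 : 0 < m0 := by
    rcases Nat.eq_zero_or_pos m0 with h | h
    · exfalso
      apply hqm2
      rw [h]
      exact dvd_zero _
    · exact h
  have hHc2 : Nat.card H ≤ m0 := Nat.le_of_dvd hm00 hHc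
  have : Fintype H := Fintype.ofFinite H
  rw [Nat.card_eq_fintype_card] at hHc2
  let f : Fin (s + 1) × Fin (s + 1) → H := fun z =>
    (z.1 : ℕ) • ⟨g₁, hmem g₁ h₁⟩ + (z.2 : ℕ) • ⟨g₂, hmem g₂ h₂⟩
  have hcard2 : Fintype.card H < Fintype.card (Fin (s + 1) × Fin (s + 1)) := by
    rw [Fintype.card_prod, Fintype.card_fin]
    have : (s + 1) * (s + 1) = (s + 1) ^ 2 := by ring
    omega
  obtain ⟨⟨x, y⟩, ⟨x', y'⟩, hne, heq⟩ := Fintype.exists_ne_map_eq_of_card_lt f hcard2
  refine ⟨(x : ℤ) - (x' : ℤ), (y : ℤ) - (y' : ℤ), ?_, ?_, ?_, ?_⟩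
  · rw [abs_le]
    have := x.2
    have := x'.2
    omega
  · rw [abs_le]
    have := y.2
    have := y'.2
    omega
  · intro h
    rw [Prod.mk.injEq] at h
    apply hne
    have e1 : x = x' := Fin.ext (by omega)
    have e2 : y = y' := Fin.ext (by omega)
    rw [e1, e2]
  · have h1 := congrArg Subtype.val heq
    simp only [f] at h1
    push_cast at h1
    rw [sub_smul, sub_smul]
    simp only [natCast_zsmul]
    have h2 : (x : ℕ) • g₁ - (x' : ℕ) • g₁ + ((y : ℕ) • g₂ - (y' : ℕ) • g₂) =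
        ((x : ℕ) • g₁ + (y : ℕ) • g₂) - ((x' : ℕ) • g₁ + (y' : ℕ) • g₂) := by abel
    rw [h2, h1, sub_self]

end

end Pool.Agent.J4H11.RC
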