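import Pool.Agent.J4H11.RC.Spec
import Pool.Agent.J4H11.RC.Loc2
import Pool.Agent.J4H11.RC.Red

/-!
# The local count in a box
-/

set_option autoImplicit false

namespace Pool.Agent.J4H11.RC

open Finset MvPolynomial WeierstrassCurve Pool.Agent.H901R3.MS

section
variable {r : ℕ} (i : Fin r) {a b : Fin r → ℤ}

theorem gv_crd {k : Type} [Field k] {a' b' : k} (G : MvPolynomial (Fin 2) k) (P : Pt a' b')
    (hP : P ≠ 0) : gv (K := k) G P = aeval ![(crd P).1, (crd P).2] G := by
  rcases P with _ | ⟨x, y, h⟩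
  · exact absurd rfl hP
  · rfl

theorem crd_eqn {k : Type} [Field k] {a' b' : k} (P : Pt a' b')
    (hP : P ≠ 0) : (crd P).2 ^ 2 = (crd P).1 ^ 3 + a' * (crd P).1 + b' := by
  rcases P with _ | ⟨x, y, h⟩
  · exact absurd rfl hP
  · exact eqn_of h

/-- the property of `Ψ` given by `elim` -/
def ElimP (a b : Fin r → ℤ) (F : MvPolynomial (Fin r × Fin 2) ℤ) (Ψ : MvPolynomial (Bi i) ℤ) :
    Prop :=
  ∀ (K : Type) [Field K] [IsAlgClosed K] (x' y' : Bi i → K),
      (∀ j, y' j ^ 2 = x' j ^ 3 + (a j : K) * x' j + (b j : K)) → aeval x' Ψ ≠ 0 →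
      ∃ xS yS : K, yS ^ 2 = xS ^ 3 + (a i : K) * xS + (b i : K) ∧
        aeval (pv (ext i x' xS) (ext i y' yS)) F = 0 ∧
        aeval (pv (ext i x' xS) (ext i y' yS)) (Wp i a F) ≠ 0

/-- the bound of the local count -/
noncomputable def locBd (D ℓ p q : ℕ) : ℝ :=
  (q : ℝ) / ℓ + Real.sqrt ((3 * (8 * D + 7) + 1) * ((p : ℝ) + 1) +
        q * (CW ℓ (8 * D * ℓ) * √(p : ℝ) + 2) + 2 * q * (8 * D + 7) / ℓ) + (8 * D + 7)

open Classical in
theorem loc_box (F : MvPolynomial (Fin r × Fin 2) ℤ) (Ψ : MvPolynomial (Bi i) ℤ)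
    (hΨ : ElimP i a b F Ψ) (D ℓ : ℕ) (hFD : F.totalDegree ≤ D) (hℓ : ℓ.Prime)
    {p : ℕ} [Fact p.Prime] (K : Type) [Field K] [IsAlgClosed K] [Algebra (ZMod p) K]
    [Algebra.IsAlgebraic (ZMod p) K] (hp2 : p ≠ 2) (hℓp : ℓ ∣ p - 1)
    (hDp : Disc (a i : ZMod p) (b i : ZMod p))
    (hcard : Nat.card (Pt (a i : ZMod p) (b i : ZMod p)) = p + 1)
    (Lf : ((j : Fin r) → Pt (a j : ℚ) (b j : ℚ)) → Prop)
    (red : (j : Fin r) → Pt (a j : ℚ) (b j : ℚ) →+ Pt (a j : ZMod p) (b j : ZMod p))
    (dl : ZMod p) (hδ : dl ≠ 0)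
    (hLf : ∀ P : (j : Fin r) → Pt (a j : ℚ) (b j : ℚ), Lf P → (∀ j, red j (P j) ≠ 0) →
      ∃ w : ZMod p, dl * w ^ ℓ =
        aeval (pv (fun j => (crd (red j (P j))).1) (fun j => (crd (red j (P j))).2)) F) (q : ℕ) (hq : q.Prime) (hq2 : q ≠ 2)
    (hqp : q ∣ p + 1) (hqp2 : ¬ q ∣ (p + 1) / q)
    (c R : (j : Fin r) → Pt (a j : ℚ) (b j : ℚ)) (hqR : q ∣ addOrderOf (red i (R i)))
    (hasy : locBd D ℓ p q ≤ 2 / 3 * q) (L : ℕ) (n : Fin r → ℕ)
    (hn1 : ∀ j, j ≠ i → red j (c j + n j • R j) ≠ 0)
    (hn2 : aeval (fun j : Bi i => (crd (red j (c j + n j • R j))).1) Ψ ≠ 0) (a0 : ℕ) :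
    3 * ((((range L).filter (fun t => Lf (fun j => c j + (Function.update n i t) j • R j)
      )).filter (fun t => t % ((p + 1) / q) = a0)).image (fun t => t % (p + 1))).card ≤ 2 * q := by
  set d := (p + 1) / q with hd
  have hdq : d * q = p + 1 := Nat.div_mul_cancel hqp
  have hpR : (p + 1) • red i (R i) = 0 := by
    have : Finite (Pt (a i : ZMod p) (b i : ZMod p)) :=
      Nat.finite_of_card_ne_zero (by rw [hcard]; omega)
    rw [← hcard]
    exact card_nsmul_eq_zero'
  set xb : Bi i → ZMod p := fun j => (crd (red j (c j + n j • R j))).1 with hxb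
  set yb : Bi i → ZMod p := fun j => (crd (red j (c j + n j • R j))).2 with hyb
  have hcurve : ∀ j, yb j ^ 2 = xb j ^ 3 + (a j : ZMod p) * xb j + (b j : ZMod p) := fun j =>
    crd_eqn _ (hn1 j j.2)
  obtain ⟨xS, yS, h1, h2, h3⟩ := hΨ K (fun j => algebraMap (ZMod p) K (xb j))
    (fun j => algebraMap (ZMod p) K (yb j)) (fun j => by
      have h4 := congrArg (algebraMap (ZMod p) K) (hcurve j)
      simp only [map_add, map_mul, map_pow, map_intCast] at h4
      exact h4) (by
      have h4 : aeval (fun j => algebraMap (ZMod p) K (xb j)) Ψ =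
          algebraMap (ZMod p) K (aeval xb Ψ) := by
        have h5 : (aeval (fun j => algebraMap (ZMod p) K (xb j)) :
            MvPolynomial (Bi i) ℤ →ₐ[ℤ] K).toRingHom =
            (algebraMap (ZMod p) K).comp (aeval xb : MvPolynomial (Bi i) ℤ →ₐ[ℤ] _).toRingHom := by
          apply MvPolynomial.ringHom_ext
          · intro m
            simp
          · intro j
            simp
        exact congrArg (fun g : MvPolynomial (Bi i) ℤ →+* K => g Ψ) h5
      rw [h4]
      exact (map_ne_zero _).2 hn2)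
  set G := C dl⁻¹ * spec i F xb yb with hG
  have hz : SimpleZero ((a i : ℤ) : ZMod p) ((b i : ℤ) : ZMod p) G xS yS :=
    simpleZero_spec i a b F xb yb xS yS h1 h2 h3 dl⁻¹ (inv_ne_zero hδ)
  have hGD : G.totalDegree ≤ D := by
    refine (totalDegree_mul _ _).trans ?_
    rw [totalDegree_C, zero_add]
    exact (spec_deg i F xb yb).trans hFD
  have hgo : addOrderOf (d • red i (R i)) = q := order_mult (p + 1) q hq hqp hqp2 _ hpR hqR
  have hodd : Odd q := hq.odd_of_ne_two hq2
  have key := loc_count (K := K) hDp hp2 hcard G D ℓ hGD hℓ hℓp xS yS hz (d • red i (R i)) q hodd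
    hgo (red i (c i) + a0 • red i (R i))
  set T := (range q).filter (fun t => red i (c i) + a0 • red i (R i) + t • (d • red i (R i)) = 0 ∨
      ∃ w : ZMod p, w ^ ℓ = gv (K := ZMod p) G
        (red i (c i) + a0 • red i (R i) + t • (d • red i (R i)))) with hT
  have hTc : 3 * T.card ≤ 2 * q := by
    have h4 : (T.card : ℝ) ≤ 2 / 3 * q := key.trans hasy
    have h5 : (3 : ℝ) * T.card ≤ 2 * q := by linarith
    exact_mod_cast h5
  refine le_trans (Nat.mul_le_mul_left 3 ?_) hTc
  have hsub : ((((range L).filter (fun t => Lf (fun j => c j +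
      (Function.update n i t) j • R j))).filter (fun t => t % d = a0)).image
      (fun t => t % (p + 1))) ⊆ T.image (fun s => a0 + d * s) := by
    intro z hz
    rw [mem_image] at hz
    obtain ⟨t, ht, rfl⟩ := hz
    rw [mem_filter, mem_filter] at ht
    obtain ⟨⟨-, hlift⟩, hta⟩ := ht
    rw [mem_image]
    have hmod : t % (p + 1) = a0 + d * (t / d % q) := by
      rw [← hdq, Nat.mod_mul, hta]
    refine ⟨t / d % q, ?_, hmod.symm⟩
    rw [hT, mem_filter, mem_range]
    refine ⟨Nat.mod_lt _ hq.pos, ?_⟩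
    have hP : red i (c i) + a0 • red i (R i) + (t / d % q) • (d • red i (R i)) =
        red i (c i + t • R i) := by
      have e1 : t • red i (R i) = (t % (p + 1)) • red i (R i) := by
        conv_lhs => rw [← Nat.mod_add_div t (p + 1)]
        rw [add_smul, mul_comm (p + 1), mul_smul, hpR, smul_zero, add_zero]
      rw [map_add, map_nsmul, e1, hmod, add_smul, mul_comm d, mul_smul]
      abel
    rw [hP]
    by_cases h0 : red i (c i + t • R i) = 0
    · left
      exact h0
    · right
      have hupd : ∀ j, j ≠ i → (Function.update n i t) j = n j := fun j hj =>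
        Function.update_of_ne hj _ _
      have hne : ∀ j, red j (c j + (Function.update n i t) j • R j) ≠ 0 := by
        intro j
        by_cases hj : j = i
        · subst hj
          rw [Function.update_self]
          exact h0
        · rw [hupd j hj]
          exact hn1 j hj
      obtain ⟨w, hw⟩ := hLf _ hlift hne
      refine ⟨w, ?_⟩
      rw [gv_crd G _ h0, hG, map_mul, aeval_C, spec_eval]
      simp only [Algebra.algebraMap_self, RingHom.id_apply]
      have h6 : pv (ext i (fun j => xb j) (crd (red i (c i + t • R i))).1)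
          (ext i (fun j => yb j) (crd (red i (c i + t • R i))).2) =
          pv (fun j => (crd (red j (c j + (Function.update n i t) j • R j))).1)
            (fun j => (crd (red j (c j + (Function.update n i t) j • R j))).2) := by
        funext u
        obtain ⟨j, e⟩ := u
        by_cases hj : j = i
        · subst hj
          rcases fin2 e with rfl | rfl
          · rw [pv_zero, pv_zero, ext_self, Function.update_self]
          · rw [pv_one, pv_one, ext_self, Function.update_self]
        · rcases fin2 e with rfl | rfl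
          · rw [pv_zero, pv_zero, hupd j hj]
            exact ext_ne i (fun j => xb j) _ ⟨j, hj⟩
          · rw [pv_one, pv_one, hupd j hj]
            exact ext_ne i (fun j => yb j) _ ⟨j, hj⟩
      rw [h6, ← hw, ← mul_assoc, inv_mul_cancel₀ hδ, one_mul]
  exact (card_le_card hsub).trans card_image_le

end

end Pool.Agent.J4H11.RC
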