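import Pool.Agent.J4H11.RC.LocB
import Pool.Agent.N120.TC.Z

/-!
# The number of vectors which are bad for a prime
-/

set_option autoImplicit false

namespace Pool.Agent.J4H11.RC

open Finset MvPolynomial WeierstrassCurve Pool.Agent.H901R3.MS

theorem fib_card {G : Type} [AddCommGroup G] [DecidableEq G] (g P0 Q : G) (L z : ℕ) (hz : 1 ≤ z)
    (hzL : z ≤ L) (ho : z ≤ addOrderOf g) :
    (((range L).filter (fun e => P0 + e • g = Q)).card : ℝ) ≤ 2 * L / z := by
  set o := addOrderOf g with hodef
  have ho0 : 0 < o := by omega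
  have h1 : ((range L).filter (fun e => P0 + e • g = Q)).card ≤ (range (L / o + 1)).card := by
    refine card_le_card_of_injOn (fun e => e / o) ?_ ?_
    · intro e he
      rw [mem_coe, mem_filter, mem_range] at he
      rw [mem_coe, mem_range]
      exact Nat.lt_succ_of_le (Nat.div_le_div_right he.1.le)
    · intro e he e' he' h
      rw [mem_coe, mem_filter] at he he'
      have h2 : e • g = e' • g := add_left_cancel (he.2.trans he'.2.symm)
      have h3 : e ≡ e' [MOD o] := (nsmul_eq_nsmul_iff_modEq).1 h2
      simp only at h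
      have h4 := Nat.div_add_mod e o
      have h5 := Nat.div_add_mod e' o
      rw [← h4, ← h5, h, h3]
  rw [card_range] at h1
  have hzR : (0 : ℝ) < z := by exact_mod_cast hz
  have h2 : ((L / o : ℕ) : ℝ) ≤ L / z := by
    refine Nat.cast_div_le.trans ?_
    apply div_le_div_of_nonneg_left (Nat.cast_nonneg _) hzR
    exact_mod_cast ho
  have h3 : (1 : ℝ) ≤ L / z := by
    rw [le_div_iff₀ hzR, one_mul]
    exact_mod_cast hzL
  have h4 : (((range L).filter (fun e => P0 + e • g = Q)).card : ℝ) ≤ ((L / o : ℕ) : ℝ) + 1 := by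
    exact_mod_cast h1
  have h5 : 2 * (L : ℝ) / z = L / z + L / z := by ring
  rw [h5]
  linarith

theorem x_fib {k : Type} [Field k] [DecidableEq k] {a' b' : k} [Fintype (Pt a' b')] (ξ : k) :
    (univ.filter (fun Q : Pt a' b' => (crd Q).1 = ξ)).card ≤ 3 := by
  classical
  let f : Pt a' b' → Option k := fun P =>
    match P with
    | Affine.Point.zero => none
    | Affine.Point.some _ y _ => some y
  set Y : Finset k := (Polynomial.X ^ 2 - Polynomial.C (ξ ^ 3 + a' * ξ + b')).roots.toFinset with hY
  have hYc : Y.card ≤ 2 := by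
    refine (Multiset.toFinset_card_le _).trans ((Polynomial.card_roots' _).trans ?_)
    rw [Polynomial.natDegree_X_pow_sub_C]
  have h1 : (univ.filter (fun Q : Pt a' b' => (crd Q).1 = ξ)).card ≤
      (insert none (Y.image some)).card := by
    refine card_le_card_of_injOn f ?_ ?_
    · intro Q hQ
      rw [mem_coe, mem_filter] at hQ
      rw [mem_coe]
      rcases Q with _ | ⟨x, y, h⟩
      · exact mem_insert_self _ _
      · apply mem_insert_of_mem
        rw [mem_image]
        refine ⟨y, ?_, rfl⟩
        have hx : x = ξ := hQ.2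
        have he := eqn_of h
        unfold Eqn at he
        rw [hY, Multiset.mem_toFinset, Polynomial.mem_roots
          (Polynomial.X_pow_sub_C_ne_zero two_pos _), Polynomial.IsRoot.def]
        simp [he, hx]
    · intro Q hQ Q' hQ' he
      rw [mem_coe, mem_filter] at hQ hQ'
      rcases Q with _ | ⟨x, y, h⟩ <;> rcases Q' with _ | ⟨x', y', h'⟩
      · rfl
      · simp [f] at he
      · simp [f] at he
      · simp only [f, Option.some.injEq] at he
        have hx : x = ξ := hQ.2
        have hx' : x' = ξ := hQ'.2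
        subst he hx hx'
        rfl
  refine h1.trans ((card_insert_le _ _).trans ?_)
  have := card_image_le (s := Y) (f := some)
  omega

theorem xval_card {k : Type} [Field k] [DecidableEq k] {a' b' : k} [Finite (Pt a' b')]
    (g P0 : Pt a' b') (ξ : k) (L z : ℕ) (hz : 1 ≤ z) (hzL : z ≤ L) (ho : z ≤ addOrderOf g) :
    (((range L).filter (fun e => (crd (P0 + e • g)).1 = ξ)).card : ℝ) ≤ (6 / z : ℝ) * L := by
  classical
  have := Fintype.ofFinite (Pt a' b')
  have h1 : ∀ e ∈ (range L).filter (fun e => (crd (P0 + e • g)).1 = ξ),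
      P0 + e • g ∈ univ.filter (fun Q : Pt a' b' => (crd Q).1 = ξ) := by
    intro e he
    exact mem_filter.2 ⟨mem_univ _, (mem_filter.1 he).2⟩
  have h2 := card_eq_sum_card_fiberwise h1
  have hzR : (0 : ℝ) < z := by exact_mod_cast hz
  rw [h2]
  push_cast
  have h3 : ∀ Q ∈ univ.filter (fun Q : Pt a' b' => (crd Q).1 = ξ),
      ((((range L).filter (fun e => (crd (P0 + e • g)).1 = ξ)).filter
        (fun e => P0 + e • g = Q)).card : ℝ) ≤ 2 * L / z := by
    intro Q _
    refine le_trans ?_ (fib_card g P0 Q L z hz hzL ho)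
    exact_mod_cast card_le_card (filter_subset_filter _ (filter_subset _ _))
  refine (sum_le_card_nsmul _ _ _ h3).trans ?_
  rw [nsmul_eq_mul]
  have h4 : ((univ.filter (fun Q : Pt a' b' => (crd Q).1 = ξ)).card : ℝ) ≤ 3 := by
    exact_mod_cast x_fib (a' := a') (b' := b') ξ
  calc ((univ.filter (fun Q : Pt a' b' => (crd Q).1 = ξ)).card : ℝ) * (2 * L / z) ≤
      3 * (2 * L / z) := mul_le_mul_of_nonneg_right h4 (by positivity)
    _ = (6 / z : ℝ) * L := by ring

section
variable {r : ℕ} (i : Fin r) {a b : Fin r → ℤ}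

/-- the prime `p` is bad for `n` -/
def Bdp {p : ℕ} [Fact p.Prime] (Ψ : MvPolynomial (Bi i) ℤ)
    (red : (j : Fin r) → Pt (a j : ℚ) (b j : ℚ) →+ Pt (a j : ZMod p) (b j : ZMod p))
    (c R : (j : Fin r) → Pt (a j : ℚ) (b j : ℚ)) (n : Fin r → ℕ) : Prop :=
  (∃ j, j ≠ i ∧ red j (c j + n j • R j) = 0) ∨
    aeval (fun j : Bi i => (crd (red j (c j + n j • R j))).1) Ψ = 0

open Classical in
theorem bad_count {p : ℕ} [Fact p.Prime] (Ψ : MvPolynomial (Bi i) ℤ) (m0 : Bi i →₀ ℕ)
    (hm0 : ((Ψ.coeff m0 : ℤ) : ZMod p) ≠ 0)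
    (hfin : ∀ j, Finite (Pt (a j : ZMod p) (b j : ZMod p)))
    (red : (j : Fin r) → Pt (a j : ℚ) (b j : ℚ) →+ Pt (a j : ZMod p) (b j : ZMod p))
    (c R : (j : Fin r) → Pt (a j : ℚ) (b j : ℚ)) (L z : ℕ) (hz : 1 ≤ z) (hzL : z ≤ L)
    (ho : ∀ j, z ≤ addOrderOf (red j (R j))) :
    ((((Fintype.piFinset (fun _ : Fin r => range L)).filter
      (fun n => Bdp i Ψ red c R n)).card : ℕ) : ℝ) ≤
      ((2 * r + 6 * Ψ.totalDegree : ℕ) : ℝ) / z * (L : ℝ) ^ r := by
  set box := Fintype.piFinset (fun _ : Fin r => range L) with hbox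
  have hzR : (0 : ℝ) < z := by exact_mod_cast hz
  -- the polynomial
  set B : MvPolynomial (Fin r) (ZMod p) :=
    MvPolynomial.map (Int.castRingHom (ZMod p)) (rename Subtype.val Ψ) with hB
  have hinj : Function.Injective (Subtype.val : Bi i → Fin r) := Subtype.val_injective
  have hB0 : B ≠ 0 := by
    intro h0
    apply hm0
    have h1 := congrArg (coeff (m0.mapDomain Subtype.val)) h0
    rw [hB, coeff_map, coeff_rename_mapDomain _ hinj, coeff_zero] at h1
    exact h1
  have hBd : B.totalDegree ≤ Ψ.totalDegree := by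
    rw [hB]
    refine le_trans ?_ (totalDegree_rename_le Subtype.val Ψ)
    unfold totalDegree
    exact Finset.sup_mono (support_map_subset _ _)
  have hBe : ∀ x : Fin r → ZMod p, eval x B = aeval (fun j : Bi i => x j) Ψ := by
    intro x
    rw [hB, eval_map, eval₂_rename]
    rfl
  have hZ := Pool.Agent.N120.TC.t_Z (ZMod p) r B hB0 L
    (fun j e => (crd (red j (c j + e • R j))).1) (6 / z) (by
      intro j ξ
      have := hfin j
      have h1 := xval_card (red j (R j)) (red j (c j)) ξ L z hz hzL (ho j)
      simp only [map_add, map_nsmul]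
      convert h1)
  have hZ' : (((box.filter (fun n => aeval (fun j : Bi i =>
      (crd (red j (c j + n j • R j))).1) Ψ = 0)).card : ℕ) : ℝ) ≤
      Ψ.totalDegree * (6 / z) * (L : ℝ) ^ r := by
    refine le_trans ?_ (hZ.trans ?_)
    · apply le_of_eq
      congr 2
      ext n
      simp only [mem_filter]
      rw [hBe]
    · apply mul_le_mul_of_nonneg_right _ (by positivity)
      apply mul_le_mul_of_nonneg_right _ (by positivity)
      exact_mod_cast hBd
  -- the points at infinity
  have hI : ∀ j : Fin r, (((box.filter (fun n => red j (c j + n j • R j) = 0)).card : ℕ) : ℝ) ≤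
      2 / z * (L : ℝ) ^ r := by
    intro j
    have h1 : (box.filter (fun n => red j (c j + n j • R j) = 0)) ⊆
        Fintype.piFinset (fun l : Fin r => if l = j then
          (range L).filter (fun e => red j (c j) + e • red j (R j) = 0) else range L) := by
      intro n hn
      rw [mem_filter, Fintype.mem_piFinset] at hn
      rw [Fintype.mem_piFinset]
      intro l
      by_cases hl : l = j
      · subst hl
        rw [if_pos rfl, mem_filter]
        refine ⟨hn.1 l, ?_⟩
        have := hn.2
        rwa [map_add, map_nsmul] at this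
      · rw [if_neg hl]
        exact hn.1 l
    have h2 : (Fintype.piFinset (fun l : Fin r => if l = j then
          (range L).filter (fun e => red j (c j) + e • red j (R j) = 0) else range L)).card =
        ((range L).filter (fun e => red j (c j) + e • red j (R j) = 0)).card * L ^ (r - 1) := by
      rw [Fintype.card_piFinset, ← mul_prod_erase univ _ (mem_univ j), if_pos rfl]
      congr 1
      rw [prod_congr rfl (g := fun _ => L) (fun l hl => by
        rw [if_neg (ne_of_mem_erase hl), card_range]), prod_const,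
        card_erase_of_mem (mem_univ _), card_univ, Fintype.card_fin]
    have h3 := fib_card (red j (R j)) (red j (c j)) 0 L z hz hzL (ho j)
    have h4 : (((box.filter (fun n => red j (c j + n j • R j) = 0)).card : ℕ) : ℝ) ≤
        (((range L).filter (fun e => red j (c j) + e • red j (R j) = 0)).card : ℝ) *
          (L : ℝ) ^ (r - 1) := by
      exact_mod_cast (card_le_card h1).trans h2.le
    have hr : 0 < r := j.pos
    have h5 : (L : ℝ) * (L : ℝ) ^ (r - 1) = (L : ℝ) ^ r := by
      rw [← pow_succ']
      congr 1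
      omega
    calc (((box.filter (fun n => red j (c j + n j • R j) = 0)).card : ℕ) : ℝ) ≤ _ := h4
      _ ≤ (2 * L / z) * (L : ℝ) ^ (r - 1) := by
          apply mul_le_mul_of_nonneg_right _ (by positivity)
          convert h3
      _ = 2 / z * ((L : ℝ) * (L : ℝ) ^ (r - 1)) := by ring
      _ = _ := by rw [h5]
  have hsub : box.filter (fun n => Bdp i Ψ red c R n) ⊆
      (univ.biUnion (fun j => box.filter (fun n => red j (c j + n j • R j) = 0))) ∪
      (box.filter (fun n => aeval (fun j : Bi i =>
      (crd (red j (c j + n j • R j))).1) Ψ = 0)) := by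
    intro n hn
    rw [mem_filter] at hn
    rw [mem_union, mem_biUnion, mem_filter]
    rcases hn.2 with ⟨j, -, hj⟩ | h
    · left
      exact ⟨j, mem_univ _, mem_filter.2 ⟨hn.1, hj⟩⟩
    · right
      exact ⟨hn.1, h⟩
  have h6 : (((box.filter (fun n => Bdp i Ψ red c R n)).card : ℕ) : ℝ) ≤
      (∑ j : Fin r, (((box.filter (fun n => red j (c j + n j • R j) = 0)).card : ℕ) : ℝ)) +
      (((box.filter (fun n => aeval (fun j : Bi i =>
      (crd (red j (c j + n j • R j))).1) Ψ = 0)).card : ℕ) : ℝ) := by
    have h7 := (card_le_card hsub).trans ((card_union_le _ _).trans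
      (Nat.add_le_add_right card_biUnion_le _))
    exact_mod_cast h7
  have h8 : (∑ j : Fin r, (((box.filter (fun n => red j (c j + n j • R j) = 0)).card : ℕ) : ℝ)) ≤
      r * (2 / z * (L : ℝ) ^ r) := by
    refine (sum_le_card_nsmul _ _ _ (fun j _ => hI j)).trans ?_
    rw [nsmul_eq_mul, card_univ, Fintype.card_fin]
  refine h6.trans ((add_le_add h8 hZ').trans (le_of_eq ?_))
  push_cast
  ring

end

end Pool.Agent.J4H11.RC
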