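import Mathlib

/-!
# Extension of homomorphisms to algebraically closed fields (Chevalley)
-/

set_option autoImplicit false

open Topology TensorProduct

namespace Pool.Agent.J4H11.RC

theorem constructible_dichotomy {X : Type} [TopologicalSpace X] [IrreducibleSpace X] {s : Set X}
    (hs : IsConstructible s) :
    (∃ U : Set X, IsOpen U ∧ U.Nonempty ∧ U ⊆ s) ∨
      (∃ U : Set X, IsOpen U ∧ U.Nonempty ∧ U ⊆ sᶜ) := by
  induction hs using IsConstructible.empty_union_induction with
  | open_retrocompact U hUopen hUcomp =>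
    rcases U.eq_empty_or_nonempty with h | h
    · right
      refine ⟨Set.univ, isOpen_univ, Set.univ_nonempty, ?_⟩
      rw [h]; simp
    · exact Or.inl ⟨U, hUopen, h, subset_rfl⟩
  | union s hs t ht hs' ht' =>
    rcases hs' with ⟨U, h1, h2, h3⟩ | ⟨U, h1, h2, h3⟩
    · exact Or.inl ⟨U, h1, h2, h3.trans Set.subset_union_left⟩
    · rcases ht' with ⟨V, k1, k2, k3⟩ | ⟨V, k1, k2, k3⟩
      · exact Or.inl ⟨V, k1, k2, k3.trans Set.subset_union_right⟩
      · right
        refine ⟨U ∩ V, h1.inter k1, nonempty_preirreducible_inter h1 k1 h2 k2, ?_⟩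
        rw [Set.compl_union]
        exact Set.inter_subset_inter h3 k3
  | compl s hs hs' =>
    rcases hs' with h | h
    · right; rwa [compl_compl]
    · exact Or.inl h

theorem tens_nontrivial {R S K Z : Type} [CommRing R] [CommRing S] [CommRing K] [CommRing Z]
    [Nontrivial Z] [Algebra R K] [Algebra R S] (g1 : K →+* Z) (g2 : S →+* Z)
    (h : ∀ r, g1 (algebraMap R K r) = g2 (algebraMap R S r)) : Nontrivial (K ⊗[R] S) := by
  letI : Algebra R Z := (g1.comp (algebraMap R K)).toAlgebra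
  let a1 : K →ₐ[R] Z := { g1 with commutes' := fun r => rfl }
  let a2 : S →ₐ[R] Z := { g2 with commutes' := fun r => (h r).symm }
  exact (Algebra.TensorProduct.lift a1 a2 (fun _ _ => Commute.all _ _)).toRingHom.domain_nontrivial

theorem chev {R S : Type} [CommRing R] [IsDomain R] [IsNoetherianRing R] [CommRing S] [IsDomain S]
    [Algebra R S] [Algebra.FiniteType R S] (hinj : Function.Injective (algebraMap R S)) :
    ∃ s : R, s ≠ 0 ∧ ∀ (K : Type) [Field K] [IsAlgClosed K] (φ : R →+* K), φ s ≠ 0 →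
      ∃ ψ : S →+* K, ψ.comp (algebraMap R S) = φ := by
  classical
  set f : R →+* S := algebraMap R S with hf
  have hfp : f.FinitePresentation := RingHom.FinitePresentation.of_finiteType.mp
    ((RingHom.finiteType_algebraMap).2 inferInstance)
  set s : Set (PrimeSpectrum R) := PrimeSpectrum.comap f ''
    (Set.univ : Set (PrimeSpectrum S)) with hs
  have hsc : IsConstructible s := by
    refine PrimeSpectrum.isConstructible_comap_image hfp ?_
    exact IsConstructible.univ
  let η0 : PrimeSpectrum S := ⟨⊥, Ideal.isPrime_bot⟩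
  let η : PrimeSpectrum R := ⟨⊥, Ideal.isPrime_bot⟩
  have hη : η ∈ s := by
    refine ⟨η0, Set.mem_univ _, ?_⟩
    apply PrimeSpectrum.ext
    change Ideal.comap f ⊥ = ⊥
    rw [← RingHom.ker_eq_comap_bot]
    exact (RingHom.injective_iff_ker_eq_bot f).mp hinj
  have hgen : ∀ U : Set (PrimeSpectrum R), IsOpen U → U.Nonempty → η ∈ U := by
    intro U hU ⟨p, hp⟩
    obtain ⟨_, ⟨P, rfl⟩, h2, h3⟩ :=
      (PrimeSpectrum.isTopologicalBasis_basic_opens).exists_subset_of_mem_open hp hU
    apply h3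
    change P ∉ (⊥ : Ideal R)
    intro h4
    apply h2
    have : P = 0 := by simpa using h4
    rw [this]; exact Ideal.zero_mem _
  obtain ⟨U, hU1, hU2, hU3⟩ : ∃ U : Set (PrimeSpectrum R), IsOpen U ∧ U.Nonempty ∧ U ⊆ s := by
    rcases constructible_dichotomy hsc with h | ⟨U, h1, h2, h3⟩
    · exact h
    · exact absurd hη (h3 (hgen U h1 h2))
  obtain ⟨D, ⟨P, rfl⟩, hP2, hP3⟩ :=
    (PrimeSpectrum.isTopologicalBasis_basic_opens).exists_subset_of_mem_open (hgen U hU1 hU2) hU1
  have hP0 : P ≠ 0 := by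
    intro h0
    apply hP2
    rw [h0]; exact Ideal.zero_mem _
  refine ⟨P, hP0, fun K _ _ φ hφ => ?_⟩
  let p : PrimeSpectrum R := ⟨RingHom.ker φ, RingHom.ker_isPrime φ⟩
  have hp : p ∈ (PrimeSpectrum.basicOpen P : Set (PrimeSpectrum R)) := by
    change P ∉ RingHom.ker φ
    rw [RingHom.mem_ker]
    exact hφ
  obtain ⟨q, -, hq⟩ := hU3 (hP3 hp)
  -- the fibre is nonzero
  let _ : Algebra R K := φ.toAlgebra
  have hcomp : ∀ r, algebraMap R K r = φ r := fun r => rfl
  let κ := q.asIdeal.ResidueField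
  have hker : ∀ r : R, φ r = 0 ↔ algebraMap S κ (f r) = 0 := by
    intro r
    rw [← RingHom.mem_ker]
    have h1 : RingHom.ker φ = p.asIdeal := rfl
    rw [h1, ← hq]
    change f r ∈ q.asIdeal ↔ _
    exact (Ideal.algebraMap_residueField_eq_zero).symm
  let k0 := FractionRing (R ⧸ RingHom.ker φ)
  have : (RingHom.ker φ).IsPrime := RingHom.ker_isPrime φ
  -- both fields contain the fraction field of `R / ker φ`
  let i1 : R ⧸ RingHom.ker φ →+* K := Ideal.Quotient.lift _ φ (fun a ha => ha)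
  have hi1 : Function.Injective i1 := by
    rw [injective_iff_map_eq_zero]
    intro a ha
    obtain ⟨a, rfl⟩ := Ideal.Quotient.mk_surjective a
    rw [Ideal.Quotient.eq_zero_iff_mem, RingHom.mem_ker]
    exact ha
  let i2 : R ⧸ RingHom.ker φ →+* κ := Ideal.Quotient.lift _ ((algebraMap S κ).comp f)
    (fun a ha => (hker a).1 ha)
  have hi2 : Function.Injective i2 := by
    rw [injective_iff_map_eq_zero]
    intro a ha
    obtain ⟨a, rfl⟩ := Ideal.Quotient.mk_surjective a
    rw [Ideal.Quotient.eq_zero_iff_mem, RingHom.mem_ker]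
    exact (hker a).2 ha
  let j1 : k0 →+* K := IsFractionRing.lift hi1
  let j2 : k0 →+* κ := IsFractionRing.lift hi2
  letI : Algebra k0 K := j1.toAlgebra
  letI : Algebra k0 κ := j2.toAlgebra
  -- a maximal ideal of the tensor product
  have hnt : Nontrivial (K ⊗[k0] κ) := inferInstance
  let g1 : K →+* K ⊗[k0] κ := Algebra.TensorProduct.includeLeftRingHom
  let g2 : κ →+* K ⊗[k0] κ := (Algebra.TensorProduct.includeRight : κ →ₐ[k0] K ⊗[k0] κ).toRingHom
  have hg : ∀ r : R, g1 (φ r) = g2 (algebraMap S κ (f r)) := by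
    intro r
    have e1 : φ r = algebraMap k0 K (algebraMap _ k0 (Ideal.Quotient.mk (RingHom.ker φ) r)) := by
      change φ r = j1 (algebraMap _ k0 (Ideal.Quotient.mk (RingHom.ker φ) r))
      rw [IsFractionRing.lift_algebraMap]
      rfl
    have e2 : algebraMap S κ (f r) =
        algebraMap k0 κ (algebraMap _ k0 (Ideal.Quotient.mk (RingHom.ker φ) r)) := by
      change _ = j2 (algebraMap _ k0 (Ideal.Quotient.mk (RingHom.ker φ) r))
      rw [IsFractionRing.lift_algebraMap]
      rfl
    rw [e1, e2]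
    set c := algebraMap _ k0 (Ideal.Quotient.mk (RingHom.ker φ) r)
    change (algebraMap k0 K c) ⊗ₜ[k0] (1 : κ) = (1 : K) ⊗ₜ[k0] (algebraMap k0 κ c)
    rw [Algebra.algebraMap_eq_smul_one, Algebra.algebraMap_eq_smul_one, TensorProduct.smul_tmul]
  let T := K ⊗[R] S
  have hTn : Nontrivial T := tens_nontrivial g1 (g2.comp (algebraMap S κ)) hg
  obtain ⟨M, hM⟩ := Ideal.exists_maximal T
  letI : Field (T ⧸ M) := Ideal.Quotient.field M
  have : Algebra.FiniteType K T := inferInstance
  have : Algebra.FiniteType K (T ⧸ M) :=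
    Algebra.FiniteType.of_surjective (Ideal.Quotient.mkₐ K M) (Ideal.Quotient.mkₐ_surjective K M)
  have : Module.Finite K (T ⧸ M) := finite_of_finite_type_of_isJacobsonRing K (T ⧸ M)
  have hbij : Function.Bijective (algebraMap K (T ⧸ M)) :=
    IsAlgClosed.algebraMap_bijective_of_isIntegral
  let e : K ≃+* (T ⧸ M) := RingEquiv.ofBijective (algebraMap K (T ⧸ M)) hbij
  let ψ : S →+* K := (e.symm.toRingHom.comp (Ideal.Quotient.mk M)).comp
    (Algebra.TensorProduct.includeRight : S →ₐ[R] T).toRingHom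
  refine ⟨ψ, ?_⟩
  ext r
  change e.symm (Ideal.Quotient.mk M ((1 : K) ⊗ₜ[R] (algebraMap R S r))) = φ r
  rw [RingEquiv.symm_apply_eq]
  change _ = algebraMap K (T ⧸ M) (φ r)
  have e1 : (1 : K) ⊗ₜ[R] (algebraMap R S r) = (algebraMap K T (φ r)) := by
    change _ = (φ r) ⊗ₜ[R] (1 : S)
    rw [Algebra.algebraMap_eq_smul_one, TensorProduct.tmul_smul, TensorProduct.smul_tmul',
      Algebra.smul_def, mul_one]
    rfl
  rw [e1]
  rfl

end Pool.Agent.J4H11.RC
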