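import Mathlib

/-!
# Equidistribution in the cosets of a subgroup from correlations

A function `φ` on a finite abelian group `A` with at most `ℓ` nonzero values, for which
`φ(R) = φ(R + h) ≠ 0` has at most `|A|/ℓ + E` solutions `R` for most elements `h` of a
subgroup `H`, takes in every coset of `H` each value about `|H|/ℓ` times at most.
-/

set_option autoImplicit false

namespace Pool.Agent.J4H11.RC

open Finset

section
variable {A V : Type} [AddCommGroup A] [Fintype A] [DecidableEq V] [Zero V]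

theorem sum_shift (g : A → ℝ) (c : A) : ∑ R : A, g (R + c) = ∑ R : A, g R :=
  Equiv.sum_comp (Equiv.addRight c) g

theorem sum_sub_shift (H : AddSubgroup A) [DecidablePred (· ∈ H)] (g : A → ℝ) (h : A)
    (hh : h ∈ H) :
    ∑ h' ∈ univ.filter (· ∈ H), g (h' - h) = ∑ h' ∈ univ.filter (· ∈ H), g h' := by
  refine sum_nbij' (fun x => x - h) (fun x => x + h) ?_ ?_ ?_ ?_ ?_
  · intro x hx
    rw [mem_filter] at hx ⊢
    exact ⟨mem_univ _, H.sub_mem hx.2 hh⟩
  · intro x hx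
    rw [mem_filter] at hx ⊢
    exact ⟨mem_univ _, H.add_mem hx.2 hh⟩
  · intro x _; simp
  · intro x _; simp
  · intro x _; rfl

theorem sum_add_shift (H : AddSubgroup A) [DecidablePred (· ∈ H)] (g : A → ℝ) (h : A)
    (hh : h ∈ H) :
    ∑ h' ∈ univ.filter (· ∈ H), g (h + h') = ∑ h' ∈ univ.filter (· ∈ H), g h' := by
  refine sum_nbij' (fun x => h + x) (fun x => x - h) ?_ ?_ ?_ ?_ ?_
  · intro x hx
    rw [mem_filter] at hx ⊢
    exact ⟨mem_univ _, H.add_mem hh hx.2⟩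
  · intro x hx
    rw [mem_filter] at hx ⊢
    exact ⟨mem_univ _, H.sub_mem hx.2 hh⟩
  · intro x _; simp
  · intro x _; simp
  · intro x _; rfl

theorem abs_lemma [DecidableEq A] (φ : A → V) (X : Finset V) (ℓ : ℕ) (hℓ : 0 < ℓ) (hX : X.card ≤ ℓ)
    (h0 : (0 : V) ∉ X) (hφ : ∀ R, φ R = 0 ∨ φ R ∈ X) (H : AddSubgroup A) [DecidablePred (· ∈ H)]
    (β E ζ r : ℝ) (hr : ((univ.filter (· ∈ H)).card : ℝ) = r) (Bad : Finset A)
    (hβ : (Bad.card : ℝ) ≤ β) (hE : 0 ≤ E)
    (hN : ∀ h ∈ H, h ∉ Bad → ((univ.filter (fun R => φ R = φ (R + h) ∧ φ R ≠ 0)).card : ℝ) ≤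
      (Fintype.card A : ℝ) / ℓ + E)
    (hZ : ((univ.filter (fun R => φ R = 0)).card : ℝ) ≤ ζ) (R0 : A) (t : V) (ht : t ∈ X) :
    (((univ.filter (· ∈ H)).filter (fun h => φ (R0 + h) = t)).card : ℝ) ≤
      r / ℓ + Real.sqrt (β * Fintype.card A + r * E + 2 * r * ζ / ℓ) := by
  set HF := univ.filter (· ∈ H) with hHF
  set a : ℝ := (Fintype.card A : ℝ) with ha
  have ha0 : 0 ≤ a := Nat.cast_nonneg _
  have hr0 : 0 ≤ r := by rw [← hr]; exact Nat.cast_nonneg _
  have hβ0 : 0 ≤ β := le_trans (Nat.cast_nonneg _) hβ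
  have hζ0 : 0 ≤ ζ := le_trans (Nat.cast_nonneg _) hZ
  have hmem : ∀ h, h ∈ HF ↔ h ∈ H := by intro h; rw [hHF, mem_filter]; simp
  have hr1 : 0 < r := by
    rw [← hr]
    exact_mod_cast Finset.card_pos.2 ⟨0, (hmem 0).2 H.zero_mem⟩
  have hℓ' : (0 : ℝ) < ℓ := by exact_mod_cast hℓ
  -- the counting functions
  let n : V → A → ℝ := fun t R => ∑ h ∈ HF, if φ (R + h) = t then 1 else 0
  let N : A → ℝ := fun h => ∑ R : A, if φ R = φ (R + h) ∧ φ R ≠ 0 then 1 else 0
  let z : A → ℝ := fun R => ∑ h ∈ HF, if φ (R + h) = 0 then 1 else 0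
  let m : A → ℝ := fun R => ∑ t ∈ X, n t R
  have hn0 : ∀ t R, 0 ≤ n t R := fun t R => sum_nonneg fun _ _ => by split_ifs <;> norm_num
  have hz0 : ∀ R, 0 ≤ z R := fun R => sum_nonneg fun _ _ => by split_ifs <;> norm_num
  have hm : ∀ R, m R = r - z R := by
    intro R
    have h1 : m R = ∑ h ∈ HF, ∑ t ∈ X, if φ (R + h) = t then (1 : ℝ) else 0 := sum_comm
    have h2 : r = ∑ h ∈ HF, (1 : ℝ) := by rw [sum_const, nsmul_eq_mul, mul_one, hr]
    rw [h1, h2]
    simp only [z]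
    rw [← sum_sub_distrib]
    refine sum_congr rfl fun h _ => ?_
    rw [sum_ite_eq]
    rcases hφ (R + h) with h3 | h3
    · rw [h3, if_neg h0, if_pos rfl]; norm_num
    · have h4 : φ (R + h) ≠ 0 := fun h5 => h0 (h5 ▸ h3)
      rw [if_pos h3, if_neg h4]; norm_num
  have hS2 : ∀ R, ∑ t ∈ X, n t R ^ 2 =
      ∑ h ∈ HF, ∑ h' ∈ HF, if φ (R + h) = φ (R + h') ∧ φ (R + h) ≠ 0 then (1 : ℝ) else 0 := by
    intro R
    simp only [n, pow_two, sum_mul_sum]
    rw [sum_comm]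
    refine sum_congr rfl fun h _ => ?_
    rw [sum_comm]
    refine sum_congr rfl fun h' _ => ?_
    have h1 : ∀ t ∈ X, (if φ (R + h) = t then (1 : ℝ) else 0) *
        (if φ (R + h') = t then (1 : ℝ) else 0) =
        if φ (R + h) = t then (if φ (R + h') = φ (R + h) then (1 : ℝ) else 0) else 0 := by
      intro t _
      by_cases h2 : φ (R + h) = t
      · rw [if_pos h2, if_pos h2, h2, one_mul]
      · rw [if_neg h2, if_neg h2, zero_mul]
    rw [sum_congr rfl h1, sum_ite_eq]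
    rcases hφ (R + h) with h3 | h3
    · rw [h3, if_neg h0, if_neg (by simp)]
    · have h4 : φ (R + h) ≠ 0 := fun h5 => h0 (h5 ▸ h3)
      rw [if_pos h3]
      by_cases h5 : φ (R + h') = φ (R + h)
      · rw [if_pos h5, if_pos ⟨h5.symm, h4⟩]
      · rw [if_neg h5, if_neg (fun h6 => h5 h6.1.symm)]
  have hsum : ∑ R : A, ∑ t ∈ X, n t R ^ 2 = r * ∑ h ∈ HF, N h := by
    have h1 : ∑ R : A, ∑ t ∈ X, n t R ^ 2 = ∑ h ∈ HF, ∑ h' ∈ HF, N (h' - h) := by
      rw [sum_congr rfl fun R _ => hS2 R, sum_comm]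
      refine sum_congr rfl fun h _ => ?_
      rw [sum_comm]
      refine sum_congr rfl fun h' _ => ?_
      have hs := sum_shift (fun R => if φ R = φ (R + (h' - h)) ∧ φ R ≠ 0 then (1 : ℝ) else 0) h
      simp only [N]
      rw [← hs]
      refine sum_congr rfl fun R _ => ?_
      have : R + h + (h' - h) = R + h' := by abel
      rw [this]
    rw [h1]
    have h2 : ∀ h ∈ HF, ∑ h' ∈ HF, N (h' - h) = ∑ h' ∈ HF, N h' := fun h hh =>
      sum_sub_shift H N h ((hmem h).1 hh)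
    rw [sum_congr rfl h2, sum_const, nsmul_eq_mul, hr]
  have hNle : ∑ h ∈ HF, N h ≤ β * a + r * (a / ℓ + E) := by
    have h1 : ∀ h ∈ HF, N h ≤ (if h ∈ Bad then a else 0) + (a / ℓ + E) := by
      intro h hh
      have h2 : N h = ((univ.filter (fun R => φ R = φ (R + h) ∧ φ R ≠ 0)).card : ℝ) := by
        simp only [N]
        rw [sum_boole]
      by_cases h3 : h ∈ Bad
      · rw [if_pos h3, h2]
        have h4 : ((univ.filter (fun R => φ R = φ (R + h) ∧ φ R ≠ 0)).card : ℝ) ≤ a := by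
          rw [ha]
          exact_mod_cast Finset.card_le_univ _
        have h5 : 0 ≤ a / ℓ := by positivity
        linarith
      · rw [if_neg h3, zero_add, h2]
        exact hN h ((hmem h).1 hh) h3
    refine (sum_le_sum h1).trans ?_
    rw [sum_add_distrib, sum_const, nsmul_eq_mul, hr]
    have h2 : ∑ h ∈ HF, (if h ∈ Bad then a else 0) ≤ β * a := by
      rw [← sum_filter, sum_const, nsmul_eq_mul]
      apply mul_le_mul_of_nonneg_right _ ha0
      refine le_trans ?_ hβ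
      have : HF.filter (· ∈ Bad) ⊆ Bad := fun x hx => (mem_filter.1 hx).2
      exact_mod_cast Finset.card_le_card this
    linarith
  have hzsum : ∑ R : A, z R ≤ r * ζ := by
    have h1 : ∑ R : A, z R = ∑ h ∈ HF, ∑ R : A, (if φ (R + h) = 0 then (1 : ℝ) else 0) := sum_comm
    rw [h1]
    have h2 : ∀ h ∈ HF, ∑ R : A, (if φ (R + h) = 0 then (1 : ℝ) else 0) ≤ ζ := by
      intro h _
      rw [sum_shift (fun R => if φ R = 0 then (1 : ℝ) else 0) h, sum_boole]
      exact hZ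
    refine (sum_le_sum h2).trans ?_
    rw [sum_const, nsmul_eq_mul, hr]
  -- the variance
  let Δ : A → ℝ := fun R => ∑ t ∈ X, n t R ^ 2 - m R ^ 2 / ℓ
  have hΔt : ∀ R, ∀ t ∈ X, (n t R - m R / ℓ) ^ 2 ≤ Δ R := by
    intro R t ht
    have h1 : ∑ t ∈ X, (n t R - m R / ℓ) ^ 2 ≤ Δ R := by
      have h2 : ∑ t ∈ X, (n t R - m R / ℓ) ^ 2 =
          ∑ t ∈ X, n t R ^ 2 - 2 * (m R / ℓ) * m R + X.card * (m R / ℓ) ^ 2 := by
        have h3 : ∀ t ∈ X, (n t R - m R / ℓ) ^ 2 =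
            n t R ^ 2 - 2 * (m R / ℓ) * n t R + (m R / ℓ) ^ 2 := fun t _ => by ring
        rw [sum_congr rfl h3, sum_add_distrib, sum_sub_distrib, sum_const, nsmul_eq_mul,
          ← mul_sum]
      rw [h2]
      have h4 : (X.card : ℝ) * (m R / ℓ) ^ 2 ≤ ℓ * (m R / ℓ) ^ 2 := by
        apply mul_le_mul_of_nonneg_right _ (sq_nonneg _)
        exact_mod_cast hX
      have h5 : (ℓ : ℝ) * (m R / ℓ) ^ 2 = m R ^ 2 / ℓ := by field_simp
      have h6 : 2 * (m R / ℓ) * m R = 2 * (m R ^ 2 / ℓ) := by ring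
      simp only [Δ]
      linarith
    exact (single_le_sum (f := fun t => (n t R - m R / ℓ) ^ 2) (fun _ _ => sq_nonneg _) ht).trans h1
  have hΔ0 : ∀ R, 0 ≤ Δ R := fun R => by
    by_cases hXe : X.Nonempty
    · obtain ⟨t, ht⟩ := hXe
      exact (sq_nonneg _).trans (hΔt R t ht)
    · exact absurd ⟨_, ht⟩ hXe
  have hΔsum : ∑ R : A, Δ R ≤ r * (β * a + r * E + 2 * r * ζ / ℓ) := by
    have h1 : ∑ R : A, Δ R = r * ∑ h ∈ HF, N h - (∑ R : A, m R ^ 2) / ℓ := by
      simp only [Δ]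
      rw [sum_sub_distrib, hsum, sum_div]
    have h2 : r ^ 2 * a - 2 * r * (r * ζ) ≤ ∑ R : A, m R ^ 2 := by
      have h3 : ∀ R ∈ (univ : Finset A), r ^ 2 - 2 * r * z R ≤ m R ^ 2 := by
        intro R _
        rw [hm R]
        nlinarith [sq_nonneg (z R)]
      have h4 := sum_le_sum h3
      rw [sum_sub_distrib, sum_const, nsmul_eq_mul, ← mul_sum] at h4
      have h5 : 2 * r * ∑ R : A, z R ≤ 2 * r * (r * ζ) :=
        mul_le_mul_of_nonneg_left hzsum (by positivity)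
      have h6 : ((univ : Finset A).card : ℝ) = a := rfl
      rw [h6] at h4
      linarith
    rw [h1]
    have h3 : r * ∑ h ∈ HF, N h ≤ r * (β * a + r * (a / ℓ + E)) :=
      mul_le_mul_of_nonneg_left hNle hr0
    have h4 : (r ^ 2 * a - 2 * r * (r * ζ)) / ℓ ≤ (∑ R : A, m R ^ 2) / ℓ :=
      div_le_div_of_nonneg_right h2 hℓ'.le
    have h5 : r * (β * a + r * (a / ℓ + E)) - (r ^ 2 * a - 2 * r * (r * ζ)) / ℓ =
        r * (β * a + r * E + 2 * r * ζ / ℓ) := by
      field_simp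
      ring
    linarith
  -- the variance is constant on cosets
  have hnc : ∀ h ∈ HF, ∀ t, n t (R0 + h) = n t R0 := by
    intro h hh t
    simp only [n]
    have h1 := sum_add_shift H (fun h' => if φ (R0 + h') = t then (1 : ℝ) else 0) h ((hmem h).1 hh)
    rw [← hHF] at h1
    rw [← h1]
    refine sum_congr rfl fun h' _ => ?_
    rw [add_assoc]
  have hΔc : ∀ h ∈ HF, Δ (R0 + h) = Δ R0 := by
    intro h hh
    simp only [Δ, m]
    rw [sum_congr rfl fun t _ => by rw [hnc h hh t], sum_congr rfl fun t _ => hnc h hh t]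
  have hΔle : r * Δ R0 ≤ ∑ R : A, Δ R := by
    have h1 : r * Δ R0 = ∑ h ∈ HF, Δ (R0 + h) := by
      rw [sum_congr rfl hΔc, sum_const, nsmul_eq_mul, hr]
    rw [h1, ← sum_image (f := Δ) (g := fun h => R0 + h) (fun x _ y _ hxy => add_left_cancel hxy)]
    exact sum_le_sum_of_subset_of_nonneg (subset_univ _) (fun R _ _ => hΔ0 R)
  have hΔ : Δ R0 ≤ β * a + r * E + 2 * r * ζ / ℓ :=
    le_of_mul_le_mul_left (hΔle.trans hΔsum) hr1
  have hfin : n t R0 - m R0 / ℓ ≤ Real.sqrt (β * a + r * E + 2 * r * ζ / ℓ) :=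
    Real.le_sqrt_of_sq_le ((hΔt R0 t ht).trans hΔ)
  have hcard : ((HF.filter (fun h => φ (R0 + h) = t)).card : ℝ) = n t R0 := by
    simp only [n]
    rw [sum_boole]
  have hmr : m R0 / ℓ ≤ r / ℓ := by
    apply div_le_div_of_nonneg_right _ hℓ'.le
    rw [hm R0]
    linarith [hz0 R0]
  rw [hcard]
  linarith

end

end Pool.Agent.J4H11.RC
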