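import Mathlib

/-!
# The number of `ℓ`-th roots modulo `p`
-/

set_option autoImplicit false

namespace Pool.Agent.J4H11.RC

open Finset

theorem card_roots {p : ℕ} [Fact p.Prime] (ℓ : ℕ) (hℓ0 : 0 < ℓ) (hℓ : ℓ ∣ p - 1) (c : ZMod p)
    (hc : c ≠ 0) (hc1 : c ^ ((p - 1) / ℓ) = 1) :
    ℓ ≤ (univ.filter (fun w : ZMod p => w ^ ℓ = c)).card := by
  classical
  have hp1 : 0 < p - 1 := by have := (Fact.out : p.Prime).two_le; omega
  have hcu : Nat.card (ZMod p)ˣ = p - 1 := by rw [Nat.card_eq_fintype_card, ZMod.card_units]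
  set f : (ZMod p)ˣ →* (ZMod p)ˣ := powMonoidHom ℓ with hf
  set g : (ZMod p)ˣ →* (ZMod p)ˣ := powMonoidHom ((p - 1) / ℓ) with hg
  obtain ⟨m, hm⟩ := hℓ
  have hmd : (p - 1) / ℓ = m := by rw [hm]; exact Nat.mul_div_cancel_left _ hℓ0
  have hr : Nat.card f.range = m := by
    rw [hf, IsCyclic.card_powMonoidHom_range, hcu, hm, Nat.gcd_mul_right_left,
      Nat.mul_div_cancel_left _ hℓ0]
  have hk : Nat.card g.ker = m := by
    rw [hg, IsCyclic.card_powMonoidHom_ker, hcu, hmd, hm, Nat.gcd_mul_left_left]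
  have hle : f.range ≤ g.ker := by
    rintro _ ⟨v, rfl⟩
    rw [MonoidHom.mem_ker, hf, hg, powMonoidHom_apply, powMonoidHom_apply, ← pow_mul, hmd, ← hm,
      ← hcu, pow_card_eq_one']
  have heq : f.range = g.ker := Subgroup.eq_of_le_of_card_ge hle (by rw [hr, hk])
  have hu : Units.mk0 c hc ∈ g.ker := by
    rw [MonoidHom.mem_ker, hg, powMonoidHom_apply]
    ext
    simpa using hc1
  rw [← heq] at hu
  obtain ⟨v, hv⟩ := hu
  have hv' : (v : ZMod p) ^ ℓ = c := by
    have := congrArg Units.val hv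
    simpa [hf] using this
  have hkf : Nat.card f.ker = ℓ := by
    rw [hf, IsCyclic.card_powMonoidHom_ker, hcu, hm, Nat.gcd_mul_right_left]
  have hkf' : Fintype.card f.ker = ℓ := by rw [← Nat.card_eq_fintype_card]; exact hkf
  conv_lhs => rw [← hkf']
  rw [← Finset.card_univ]
  refine Finset.card_le_card_of_injOn (fun z : f.ker => (v : ZMod p) * ((z : (ZMod p)ˣ) : ZMod p))
    ?_ ?_
  · rintro ⟨z, hz⟩ _
    simp only [coe_filter, mem_univ, true_and, Set.mem_ofPred_eq]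
    rw [MonoidHom.mem_ker, hf, powMonoidHom_apply] at hz
    rw [mul_pow, hv', ← Units.val_pow_eq_pow_val, hz, Units.val_one, mul_one]
  · rintro ⟨z, hz⟩ _ ⟨z', hz'⟩ _ h
    have h1 : (z : ZMod p) = z' := mul_left_cancel₀ v.ne_zero h
    exact Subtype.ext (Units.ext h1)

end Pool.Agent.J4H11.RC
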