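import Pool.Agent.J4H11.RC.GH
import Pool.Agent.J4H11.RC.RT
import Pool.Agent.J4H11.RC.AL

/-!
# `ℓ`-th power values of a function along a large cyclic subgroup of `E(F_p)`
-/

set_option autoImplicit false

namespace Pool.Agent.J4H11.RC

open Finset MvPolynomial WeierstrassCurve Pool.Agent.H901R3.MS

section
variable {k K : Type} [Field k] [Field K] [Algebra k K] {a b : k} [DecidableEq k] [DecidableEq K]

theorem gv_emb (hD : Disc a b) (G : MvPolynomial (Fin 2) k) (R : Pt a b) :
    gv (K := K) G (emb K hD R) = algebraMap k K (gv (K := k) G R) := by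
  rcases R with _ | ⟨x, y, h⟩
  · show (0 : K) = algebraMap k K 0
    rw [map_zero]
  · rw [emb_some, gv_some, gv_some]
    have h3 : (![algebraMap k K x, algebraMap k K y] : Fin 2 → K) =
        fun i => algebraMap k K (![x, y] i) := by
      funext i
      fin_cases i <;> rfl
    rw [h3]
    exact (MvPolynomial.aeval_algebraMap_apply K ![x, y] G)

omit [DecidableEq k] in
theorem neg_nonsing (hD : Disc a b) {x y : k} (h : (CV a b).toAffine.Nonsingular x y) :
    (CV a b).toAffine.Nonsingular x (-y) := by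
  rw [nonsingular_iff hD] at h ⊢
  unfold Eqn at h ⊢
  rw [neg_sq]
  exact h

theorem x_ne (hD : Disc a b) {x y xh yh : k} (h : (CV a b).toAffine.Nonsingular x y)
    (hh : (CV a b).toAffine.Nonsingular xh yh)
    (h1 : (Affine.Point.some x y h : Pt a b) ≠ Affine.Point.some xh yh hh)
    (h2 : (Affine.Point.some x y h : Pt a b) ≠ -Affine.Point.some xh yh hh) : x ≠ xh := by
  intro he
  have e1 := eqn_of h
  have e2 := eqn_of hh
  unfold Eqn at e1 e2
  have e3 : (y - yh) * (y + yh) = 0 := by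
    rw [he] at e1
    linear_combination e1 - e2
  rcases mul_eq_zero.1 e3 with h3 | h3
  · have hy : y = yh := sub_eq_zero.1 h3
    apply h1
    subst he hy
    rfl
  · have hy : y = -yh := by linear_combination h3
    apply h2
    rw [neg_some' hh (neg_nonsing hD hh)]
    subst he hy
    rfl

/-- coordinates -/
def crd {a b : k} : Pt a b → k × k
  | Affine.Point.zero => (0, 0)
  | Affine.Point.some x y _ => (x, y)

end

section
variable {p : ℕ} [Fact p.Prime] {a b : ZMod p}

/-- the value of the character of order `ℓ` at `G(R)` -/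
noncomputable def phi (ℓ : ℕ) (G : MvPolynomial (Fin 2) (ZMod p)) (R : Pt a b) : ZMod p :=
  (gv (K := ZMod p) G R) ^ ((p - 1) / ℓ)

theorem corr_count [Fintype (Pt a b)] {K : Type} [Field K] [IsAlgClosed K] [Algebra (ZMod p) K]
    [Algebra.IsAlgebraic (ZMod p) K] [DecidableEq K] (hD : Disc a b) (hp2 : p ≠ 2)
    (G : MvPolynomial (Fin 2) (ZMod p)) (D ℓ : ℕ) (hG : G.totalDegree ≤ D) (hℓ : ℓ.Prime)
    (hℓp : ℓ ∣ p - 1) (xS yS : K) (hz : SimpleZero a b G xS yS)
    (hS : (CV (algebraMap (ZMod p) K a) (algebraMap (ZMod p) K b)).toAffine.Nonsingular xS yS)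
    (h : Pt a b) (h0 : h ≠ 0)
    (h1 : gv G (Affine.Point.some xS yS hS - emb K hD h) ≠ 0)
    (h2 : gv G (emb K hD h - Affine.Point.some xS yS hS) ≠ 0)
    (h3 : gv G (emb K hD h + emb K hD h - Affine.Point.some xS yS hS) ≠ 0) :
    ((univ.filter (fun R : Pt a b => phi ℓ G R = phi ℓ G (R + h) ∧ phi ℓ G R ≠ 0)).card : ℝ) ≤
      ((p : ℝ) + 1) / ℓ + (CW ℓ (8 * D * ℓ) * √(p : ℝ) + 2) := by
  classical
  have hp := (Fact.out : p.Prime)
  have hp1 : 0 < p - 1 := by have := hp.two_le; omega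
  rcases h with _ | ⟨xh, yh, hh⟩
  · exact absurd rfl h0
  have hℓk : ((2 * ℓ : ℕ) : ZMod p) ≠ 0 := by
    rw [Ne, ZMod.natCast_eq_zero_iff]
    intro hd
    rcases (Nat.Prime.dvd_mul hp).1 hd with hd | hd
    · exact hp2 ((Nat.prime_dvd_prime_iff_eq hp Nat.prime_two).1 hd)
    · have := Nat.le_of_dvd hℓ.pos hd
      have := Nat.le_of_dvd hp1 hℓp
      omega
  have key := good_h hD G D ℓ hG hℓ hℓk xS yS hz hS xh yh hh h1 h2 h3
  rw [ZMod.card] at key
  set h : Pt a b := Affine.Point.some xh yh hh with hhdef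
  set T : Set (ZMod p × ZMod p × ZMod p) := {z | z.2.1 ^ 2 = (cub a b).eval z.1 ∧
      z.2.2 ^ ℓ = aeval ![z.1, z.2.1] (Lh G D ℓ xh yh)} with hT
  set W := univ.filter (fun R : Pt a b => phi ℓ G R = phi ℓ G (R + h) ∧ phi ℓ G R ≠ 0) with hW
  set W' := W.filter (fun R => R ≠ h ∧ R ≠ -h) with hW'
  obtain ⟨m, hm⟩ := hℓp
  have hmd : (p - 1) / ℓ = m := by rw [hm]; exact Nat.mul_div_cancel_left _ hℓ.pos
  have hm0 : m ≠ 0 := by
    rintro rfl
    omega
  have hWW' : W.card ≤ W'.card + 2 := by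
    have hsub : W ⊆ W' ∪ {h, -h} := by
      intro R hR
      by_cases hR1 : R = h
      · simp [hR1]
      · by_cases hR2 : R = -h
        · simp [hR2]
        · rw [mem_union]
          left
          rw [hW', mem_filter]
          exact ⟨hR, hR1, hR2⟩
    refine (card_le_card hsub).trans ((card_union_le _ _).trans ?_)
    have := card_le_two (a := h) (b := -h)
    omega
  have hM : 3 * G.totalDegree ≤ 3 * D * ℓ := by have := hℓ.pos; nlinarith
  have hroot : ∀ R ∈ W', ℓ ≤ (univ.filter (fun w : ZMod p =>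
      w ^ ℓ = gv (Lh G D ℓ xh yh) R)).card := by
    intro R hR
    rw [hW', mem_filter, hW, mem_filter] at hR
    obtain ⟨⟨-, hR1, hR2⟩, hR3, hR4⟩ := hR
    rcases R with _ | ⟨x, y, hxy⟩
    · exact absurd (by rw [phi, gv, hmd, zero_pow hm0]) hR2
    have hne := x_ne hD hxy hh hR3 hR4
    obtain ⟨hs3, e3⟩ := add_ne hxy hh hne _ _ _ rfl rfl rfl
    rw [hhdef, e3] at hR1
    unfold phi at hR1 hR2
    rw [hmd] at hR1 hR2
    have ht := trans_at (K := ZMod p) xh yh x y _ _ hne rfl rfl (3 * D * ℓ) G hM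
    simp only [Algebra.algebraMap_self, RingHom.id_apply] at ht
    have hval : gv (K := ZMod p) (Lh G D ℓ xh yh) (Affine.Point.some x y hxy : Pt a b) =
        (gv (K := ZMod p) G (Affine.Point.some x y hxy : Pt a b)) ^ (ℓ - 1) *
        ((x - xh) ^ (3 * D * ℓ) * gv (K := ZMod p) G (Affine.Point.some _ _ hs3 : Pt a b)) := by
      rw [gv_some, gv_some, gv_some, Lh, map_mul, map_pow, ht]
    set g1 := gv (K := ZMod p) G (Affine.Point.some x y hxy : Pt a b) with hg1
    set g2 := gv (K := ZMod p) G (Affine.Point.some _ _ hs3 : Pt a b) with hg2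
    have hg10 : g1 ≠ 0 := fun h => hR2 (by rw [h, zero_pow hm0])
    have hg20 : g2 ≠ 0 := fun h => hR2 (by rw [hR1, h, zero_pow hm0])
    have hu0 : x - xh ≠ 0 := sub_ne_zero.2 hne
    apply card_roots ℓ hℓ.pos ⟨m, hm⟩
    · rw [hval]
      exact mul_ne_zero (pow_ne_zero _ hg10) (mul_ne_zero (pow_ne_zero _ hu0) hg20)
    · rw [hval, hmd, mul_pow, mul_pow, ← hR1]
      have e1 : ((x - xh) ^ (3 * D * ℓ)) ^ m = 1 := by
        have : 3 * D * ℓ * m = (p - 1) * (3 * D) := by rw [hm]; ring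
        rw [← pow_mul, this, pow_mul, ZMod.pow_card_sub_one_eq_one hu0, one_pow]
      rw [e1, one_mul]
      have e2 : (g1 ^ (ℓ - 1)) ^ m * g1 ^ m = g1 ^ (p - 1) := by
        rw [← mul_pow, ← pow_succ, Nat.sub_add_cancel hℓ.one_le, ← pow_mul, ← hm]
      rw [e2, ZMod.pow_card_sub_one_eq_one hg10]
  have hcount : ℓ * W'.card ≤ T.ncard := by
    have hTf : T.Finite := Set.toFinite _
    rw [Set.ncard_eq_toFinset_card T hTf]
    calc ℓ * W'.card = ∑ R ∈ W', ℓ := by rw [sum_const, smul_eq_mul, mul_comm]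
      _ ≤ ∑ R ∈ W', (univ.filter (fun w : ZMod p => w ^ ℓ = gv (Lh G D ℓ xh yh) R)).card :=
          sum_le_sum hroot
      _ = (W'.sigma (fun R => univ.filter (fun w : ZMod p =>
            w ^ ℓ = gv (Lh G D ℓ xh yh) R))).card := (card_sigma _ _).symm
      _ ≤ hTf.toFinset.card := by
          refine card_le_card_of_injOn (fun z => ((crd z.1).1, (crd z.1).2, z.2)) ?_ ?_
          · rintro ⟨R, w⟩ hz
            rw [mem_coe, mem_sigma] at hz
            obtain ⟨hz1, hz2⟩ := hz
            rw [mem_filter] at hz2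
            rw [mem_coe, Set.Finite.mem_toFinset]
            rw [hW', mem_filter, hW, mem_filter] at hz1
            obtain ⟨⟨-, hR1, hR2⟩, hR3, hR4⟩ := hz1
            rcases R with _ | ⟨x, y, hxy⟩
            · exact absurd (by rw [phi, gv, hmd, zero_pow hm0]) hR2
            refine ⟨?_, hz2.2⟩
            show y ^ 2 = (cub a b).eval x
            have := eqn_of hxy
            unfold Eqn at this
            rw [this, ← Polynomial.coe_aeval_eq_eval, aeval_cub]
            simp
          · rintro ⟨R, w⟩ hz ⟨R', w'⟩ hz' he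
            simp only [Prod.mk.injEq] at he
            obtain ⟨he1, he2, he3⟩ := he
            rw [mem_coe, mem_sigma] at hz hz'
            have hz1 := hz.1
            have hz1' := hz'.1
            rw [hW', mem_filter, hW, mem_filter] at hz1 hz1'
            obtain ⟨⟨-, hR1, hR2⟩, hR3, hR4⟩ := hz1
            obtain ⟨⟨-, hR1', hR2'⟩, hR3', hR4'⟩ := hz1'
            rcases R with _ | ⟨x, y, hxy⟩
            · exact absurd (by rw [phi, gv, hmd, zero_pow hm0]) hR2
            rcases R' with _ | ⟨x', y', hxy'⟩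
            · exact absurd (by rw [phi, gv, hmd, zero_pow hm0]) hR2'
            simp only [crd] at he1 he2
            subst he1 he2 he3
            rfl
  have hℓ0 : (0 : ℝ) < ℓ := by exact_mod_cast hℓ.pos
  have h5 : (ℓ : ℝ) * W'.card ≤ p + CW ℓ (8 * D * ℓ) * √(p : ℝ) := by
    have : ((ℓ * W'.card : ℕ) : ℝ) ≤ (T.ncard : ℝ) := by exact_mod_cast hcount
    push_cast at this
    exact this.trans key
  have h6 : (W.card : ℝ) ≤ W'.card + 2 := by exact_mod_cast hWW'
  have h7 : (W'.card : ℝ) ≤ (p + CW ℓ (8 * D * ℓ) * √(p : ℝ)) / ℓ := by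
    rw [le_div_iff₀ hℓ0]
    linarith
  have h8 : (CW ℓ (8 * D * ℓ) * √(p : ℝ)) / ℓ ≤ CW ℓ (8 * D * ℓ) * √(p : ℝ) := by
    apply div_le_self (by positivity)
    exact_mod_cast hℓ.one_le
  have h9 : ((p : ℝ) + CW ℓ (8 * D * ℓ) * √(p : ℝ)) / ℓ =
      (p : ℝ) / ℓ + (CW ℓ (8 * D * ℓ) * √(p : ℝ)) / ℓ := add_div _ _ _
  have h10 : (p : ℝ) / ℓ ≤ ((p : ℝ) + 1) / ℓ := by
    apply div_le_div_of_nonneg_right _ hℓ0.le
    linarith
  linarith

end

end Pool.Agent.J4H11.RC
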