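import Pool.Agent.J4H11.RC.V

/-!
# The sieve in a box
-/

set_option autoImplicit false

namespace Pool.Agent.J4H11.RC

open Finset

theorem sieve0 (N Q D : ℕ) (S MM : Finset ℕ) (q : ℕ → ℕ) (hD : 1 ≤ D) (hS : S ⊆ range N)
    (hMM : ∀ m ∈ MM, 1 ≤ m ∧ m ≤ Q ∧ (q m).Prime ∧ D ≤ q m ∧ q m ∣ m ∧ ¬ q m ∣ m / q m)
    (hcl : ∀ m ∈ MM, ∀ a : ℕ, 3 * ((S.filter (fun n => n % (m / q m) = a)).image
      (fun n => n % m)).card ≤ 2 * q m) :
    (MM.card : ℝ) * S.card * D ≤ 12 * Q * (N + (Q : ℝ) ^ 2) := by
  have hinj : Function.Injective (fun t : ℕ => t + 1) := add_left_injective 1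
  have h := sieve N Q D (S.image (fun t => t + 1)) MM q hD ?_ hMM ?_
  · rwa [card_image_of_injective _ hinj] at h
  · intro t ht
    rw [mem_image] at ht
    obtain ⟨t, ht, rfl⟩ := ht
    have := mem_range.1 (hS ht)
    rw [mem_Icc]
    omega
  · intro m hm a
    obtain ⟨hm1, -, -, -, -, -⟩ := hMM m hm
    set d := m / q m with hd
    by_cases hne : ((S.image (fun t => t + 1)).filter (fun n => n % d = a)).Nonempty
    · obtain ⟨u, hu⟩ := hne
      rw [mem_filter, mem_image] at hu
      obtain ⟨⟨t0, ht0, rfl⟩, hu2⟩ := hu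
      refine le_trans ?_ (hcl m hm (t0 % d))
      apply Nat.mul_le_mul_left
      have hsub : (((S.image (fun t => t + 1)).filter (fun n => n % d = a)).image
          (fun n => n % m)) ⊆ (((S.filter (fun n => n % d = t0 % d)).image
            (fun n => n % m)).image (fun n => (n + 1) % m)) := by
        intro z hz
        rw [mem_image] at hz
        obtain ⟨u, hu, rfl⟩ := hz
        rw [mem_filter, mem_image] at hu
        obtain ⟨⟨t, ht, rfl⟩, hu3⟩ := hu
        rw [mem_image]
        refine ⟨t % m, ?_, by simp⟩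
        rw [mem_image]
        refine ⟨t, ?_, rfl⟩
        rw [mem_filter]
        refine ⟨ht, ?_⟩
        have h1 : t + 1 ≡ t0 + 1 [MOD d] := by
          unfold Nat.ModEq
          rw [hu3, hu2]
        exact Nat.ModEq.add_right_cancel' 1 h1
      exact (card_le_card hsub).trans card_image_le
    · rw [not_nonempty_iff_eq_empty] at hne
      rw [hne]
      simp

theorem ab (r : ℕ) (i : Fin r) (L y D : ℕ) (PR : Finset ℕ) (qf : ℕ → ℕ)
    (S : Finset (Fin r → ℕ)) (hS : S ⊆ Fintype.piFinset (fun _ => range L))
    (bad : ℕ → (Fin r → ℕ) → Prop) [∀ p n, Decidable (bad p n)]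
    (hbad : ∀ p n t, bad p (Function.update n i t) ↔ bad p n)
    (μ : ℝ) (hμ : ∀ p ∈ PR, ((((Fintype.piFinset (fun _ : Fin r => range L)).filter
      (fun n => bad p n)).card : ℕ) : ℝ) ≤ μ * (L : ℝ) ^ r)
    (hPR : ∀ p ∈ PR, p ≤ y ∧ (qf p).Prime ∧ D ≤ qf p ∧ qf p ∣ p + 1 ∧ ¬ qf p ∣ (p + 1) / qf p)
    (hloc : ∀ p ∈ PR, ∀ n ∈ Fintype.piFinset (fun _ : Fin r => range L), ¬ bad p n →
      ∀ a : ℕ, 3 * ((((range L).filter (fun t => Function.update n i t ∈ S)).filter
        (fun t => t % ((p + 1) / qf p) = a)).image (fun t => t % (p + 1))).card ≤ 2 * qf p)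
    (hD : 1 ≤ D) (hP : PR.Nonempty) :
    (S.card : ℝ) ≤ 2 * μ * (L : ℝ) ^ r +
      (L : ℝ) ^ (r - 1) * (24 * (y + 1) * (L + (y + 1) ^ 2) / (PR.card * D)) := by
  classical
  set box := Fintype.piFinset (fun _ : Fin r => range L) with hbox
  have hPpos : (0 : ℝ) < PR.card := by exact_mod_cast hP.card_pos
  have hDpos : (0 : ℝ) < D := by exact_mod_cast hD
  -- bad vectors
  set Bd := box.filter (fun n => PR.card ≤ 2 * (PR.filter (fun p => bad p n)).card) with hBd
  have hBdc : (Bd.card : ℝ) ≤ 2 * μ * (L : ℝ) ^ r := by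
    have h1 : ∑ n ∈ box, (((PR.filter (fun p => bad p n)).card : ℕ) : ℝ) =
        ∑ p ∈ PR, (((box.filter (fun n => bad p n)).card : ℕ) : ℝ) := by
      have h2 : ∀ n ∈ box, (((PR.filter (fun p => bad p n)).card : ℕ) : ℝ) =
          ∑ p ∈ PR, if bad p n then (1 : ℝ) else 0 := fun n _ => by rw [sum_boole]
      have h3 : ∀ p ∈ PR, (((box.filter (fun n => bad p n)).card : ℕ) : ℝ) =
          ∑ n ∈ box, if bad p n then (1 : ℝ) else 0 := fun p _ => by rw [sum_boole]
      rw [sum_congr rfl h2, sum_congr rfl h3, sum_comm]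
    have h4 : ∑ p ∈ PR, (((box.filter (fun n => bad p n)).card : ℕ) : ℝ) ≤
        PR.card * (μ * (L : ℝ) ^ r) := by
      rw [← nsmul_eq_mul]
      exact sum_le_card_nsmul _ _ _ hμ
    have h5 : (Bd.card : ℝ) * (PR.card / 2) ≤
        ∑ n ∈ box, (((PR.filter (fun p => bad p n)).card : ℕ) : ℝ) := by
      calc (Bd.card : ℝ) * (PR.card / 2) = ∑ n ∈ Bd, ((PR.card : ℝ) / 2) := by
            rw [sum_const, nsmul_eq_mul]
        _ ≤ ∑ n ∈ Bd, (((PR.filter (fun p => bad p n)).card : ℕ) : ℝ) := by
            refine sum_le_sum fun n hn => ?_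
            have h6 := (mem_filter.1 hn).2
            have h7 : (PR.card : ℝ) ≤ 2 * ((PR.filter (fun p => bad p n)).card : ℝ) := by
              exact_mod_cast h6
            linarith
        _ ≤ _ := sum_le_sum_of_subset_of_nonneg (filter_subset _ _)
            (fun _ _ _ => Nat.cast_nonneg _)
    rw [h1] at h5
    have h6 := h5.trans h4
    have h7 : (Bd.card : ℝ) * PR.card ≤ (2 * μ * (L : ℝ) ^ r) * PR.card := by linarith
    exact le_of_mul_le_mul_right h7 hPpos
  -- the fibres
  set V : ℝ := 24 * (y + 1) * (L + (y + 1) ^ 2) / (PR.card * D) with hV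
  have hfib : ∀ n ∈ box, n ∉ Bd →
      (((range L).filter (fun t => Function.update n i t ∈ S)).card : ℝ) ≤ V := by
    intro n hn hnB
    set G := PR.filter (fun p => ¬ bad p n) with hG
    have hGc : PR.card ≤ 2 * G.card := by
      have h1 : ¬ PR.card ≤ 2 * (PR.filter (fun p => bad p n)).card := fun h =>
        hnB (mem_filter.2 ⟨hn, h⟩)
      have h2 := card_filter_add_card_filter_not (s := PR) (fun p => bad p n)
      rw [← hG] at h2
      omega
    set F := (range L).filter (fun t => Function.update n i t ∈ S) with hF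
    have hinj : Function.Injective (fun p : ℕ => p + 1) := add_left_injective 1
    have hs := sieve0 L (y + 1) D F (G.image (fun p => p + 1)) (fun m => qf (m - 1)) hD
      (filter_subset _ _) ?_ ?_
    · rw [card_image_of_injective _ hinj] at hs
      have h1 : (G.card : ℝ) * F.card * D ≤ 12 * (y + 1) * (L + (y + 1) ^ 2) := by
        push_cast at hs
        exact hs
      rw [hV, le_div_iff₀ (mul_pos hPpos hDpos)]
      have h2 : (PR.card : ℝ) ≤ 2 * G.card := by exact_mod_cast hGc
      have h3 : 0 ≤ (F.card : ℝ) * D := by positivity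
      nlinarith [mul_le_mul_of_nonneg_right h2 h3]
    · intro m hm
      rw [mem_image] at hm
      obtain ⟨p, hp, rfl⟩ := hm
      have hp' := (mem_filter.1 hp).1
      obtain ⟨h1, h2, h3, h4, h5⟩ := hPR p hp'
      simp only [Nat.add_sub_cancel]
      exact ⟨by omega, by omega, h2, h3, h4, h5⟩
    · intro m hm a
      rw [mem_image] at hm
      obtain ⟨p, hp, rfl⟩ := hm
      rw [mem_filter] at hp
      simp only [Nat.add_sub_cancel]
      exact hloc p hp.1 n hn hp.2 a
  -- assembling
  have hV0 : 0 ≤ V := by positivity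
  set S2 := S.filter (fun n => n ∉ Bd) with hS2
  have hS12 : S.card ≤ Bd.card + S2.card := by
    have h1 : S ⊆ Bd ∪ S2 := by
      intro n hn
      by_cases h : n ∈ Bd
      · exact mem_union_left _ h
      · exact mem_union_right _ (mem_filter.2 ⟨hn, h⟩)
    exact (card_le_card h1).trans (card_union_le _ _)
  set Z := Fintype.piFinset (fun j : Fin r => if j = i then ({0} : Finset ℕ) else range L) with hZ
  have hZc : Z.card = L ^ (r - 1) := by
    rw [hZ, Fintype.card_piFinset]
    have h1 : ∀ j : Fin r, (if j = i then ({0} : Finset ℕ) else range L).card =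
        if j = i then 1 else L := by
      intro j
      by_cases hj : j = i
      · rw [if_pos hj, if_pos hj, card_singleton]
      · rw [if_neg hj, if_neg hj, card_range]
    rw [prod_congr rfl fun j _ => h1 j, prod_ite]
    simp only [prod_const_one, one_mul, prod_const]
    congr 1
    have h2 : (univ.filter (fun j : Fin r => ¬ j = i)) = univ.erase i := by
      ext j
      simp
    rw [h2, card_erase_of_mem (mem_univ _), card_univ, Fintype.card_fin]
  have hS2c : (S2.card : ℝ) ≤ (L : ℝ) ^ (r - 1) * V := by
    have h1 : ∀ n ∈ S2, Function.update n i 0 ∈ Z := by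
      intro n hn
      rw [hZ, Fintype.mem_piFinset]
      intro j
      have hnb := Fintype.mem_piFinset.1 (hS (mem_filter.1 hn).1)
      by_cases hj : j = i
      · subst hj
        simp
      · rw [if_neg hj, Function.update_of_ne hj]
        exact hnb j
    have h2 : S2.card = ∑ m ∈ Z, (S2.filter (fun n => Function.update n i 0 = m)).card :=
      card_eq_sum_card_fiberwise h1
    have h3 : (S2.card : ℝ) = ∑ m ∈ Z, ((S2.filter (fun n =>
        Function.update n i 0 = m)).card : ℝ) := by
      rw [h2]
      push_cast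
      rfl
    rw [h3]
    have h4 : ∀ m ∈ Z, ((S2.filter (fun n => Function.update n i 0 = m)).card : ℝ) ≤ V := by
      intro m hm
      by_cases hne : (S2.filter (fun n => Function.update n i 0 = m)).Nonempty
      · obtain ⟨n0, hn0⟩ := hne
        rw [mem_filter, hS2, mem_filter] at hn0
        obtain ⟨⟨hn01, hn02⟩, hn03⟩ := hn0
        have hn0b := hS hn01
        have hsub : (S2.filter (fun n => Function.update n i 0 = m)).card ≤
            ((range L).filter (fun t => Function.update n0 i t ∈ S)).card := by
          refine card_le_card_of_injOn (fun n => n i) ?_ ?_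
          · intro n hn
            rw [mem_coe, mem_filter, hS2, mem_filter] at hn
            obtain ⟨⟨hn1, hn2⟩, hn3⟩ := hn
            rw [mem_coe, mem_filter]
            have h5 : Function.update n0 i (n i) = n := by
              funext j
              by_cases hj : j = i
              · subst hj
                simp
              · rw [Function.update_of_ne hj]
                have h6 := congrFun (hn03.trans hn3.symm) j
                rwa [Function.update_of_ne hj, Function.update_of_ne hj] at h6
            refine ⟨Fintype.mem_piFinset.1 (hS hn1) i, ?_⟩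
            rw [h5]
            exact hn1
          · intro n hn n' hn' he
            rw [mem_coe, mem_filter] at hn hn'
            funext j
            by_cases hj : j = i
            · subst hj
              exact he
            · have h6 := congrFun (hn.2.trans hn'.2.symm) j
              rwa [Function.update_of_ne hj, Function.update_of_ne hj] at h6
        have h7 : (((S2.filter (fun n => Function.update n i 0 = m)).card : ℕ) : ℝ) ≤
            (((range L).filter (fun t => Function.update n0 i t ∈ S)).card : ℝ) := by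
          exact_mod_cast hsub
        exact h7.trans (hfib n0 hn0b hn02)
      · rw [not_nonempty_iff_eq_empty] at hne
        rw [hne]
        simpa using hV0
    refine (sum_le_card_nsmul _ _ _ h4).trans ?_
    rw [nsmul_eq_mul, hZc]
    push_cast
    exact le_refl _
  have h8 : (S.card : ℝ) ≤ Bd.card + S2.card := by exact_mod_cast hS12
  linarith

end Pool.Agent.J4H11.RC
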