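import Pool.Agent.J4H11.RC.LocB

/-!
# The local count for large primes
-/

set_option autoImplicit false

namespace Pool.Agent.J4H11.RC

open Real

theorem locBd_le (D ℓ : ℕ) (hℓ : 2 ≤ ℓ) (κ : ℝ) (hκ : 0 < κ) : ∃ T0 : ℕ, ∀ t : ℕ, T0 ≤ t →
    ∀ p : ℕ, p ≤ t → ∀ q : ℕ, (t : ℝ) ^ (1 / 2 + κ) ≤ q → locBd D ℓ p q ≤ 2 / 3 * q := by
  set β : ℝ := 3 * (8 * D + 7) + 1 with hβ
  set W : ℝ := (CW ℓ (8 * D * ℓ) : ℝ) with hW
  set ζ : ℝ := 8 * D + 7 with hζ
  have hW0 : 0 ≤ W := Nat.cast_nonneg _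
  have hζ0 : 0 ≤ ζ := by positivity
  have hβ0 : 0 ≤ β := by positivity
  set M : ℝ := 2 * β + W + 2 + ζ with hM
  have hM0 : 0 < M := by positivity
  have h1 : Filter.Tendsto (fun t : ℕ => M * (t : ℝ) ^ (-κ)) Filter.atTop (nhds (M * 0)) :=
    ((tendsto_rpow_neg_atTop hκ).comp tendsto_natCast_atTop_atTop).const_mul M
  rw [mul_zero] at h1
  have h2 := h1.eventually (ge_mem_nhds (show (0 : ℝ) < 1 / 144 by norm_num))
  obtain ⟨T1, hT1⟩ := Filter.eventually_atTop.1 h2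
  refine ⟨max T1 (max 1 (⌈(12 * ζ) ^ 2⌉₊)), fun t ht p hp q hq => ?_⟩
  have ht1 : T1 ≤ t := (le_max_left _ _).trans ht
  have ht2 : 1 ≤ t := (le_max_left _ _).trans ((le_max_right _ _).trans ht)
  have ht3 : (12 * ζ) ^ 2 ≤ (t : ℝ) := by
    have := (le_max_right _ _).trans ((le_max_right _ _).trans ht)
    exact (Nat.le_ceil _).trans (by exact_mod_cast this)
  have htR : (1 : ℝ) ≤ t := by exact_mod_cast ht2
  have ht0 : (0 : ℝ) < t := by linarith
  have hpt : (p : ℝ) ≤ t := by exact_mod_cast hp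
  have hq0 : (0 : ℝ) ≤ q := Nat.cast_nonneg _
  set s : ℝ := √(t : ℝ) with hs
  have hs0 : 0 ≤ s := Real.sqrt_nonneg _
  have hs1 : 1 ≤ s := by rw [hs]; exact Real.one_le_sqrt.2 htR
  have hss : s * s = t := Real.mul_self_sqrt ht0.le
  set u : ℝ := (t : ℝ) ^ (-κ) with hu
  have hu0 : 0 < u := rpow_pos_of_pos ht0 _
  have hu1 : u ≤ 1 := by
    rw [hu]
    exact rpow_le_one_of_one_le_of_nonpos htR (by linarith)
  have hsq : s ≤ q * u := by
    have h3 : (t : ℝ) ^ (1 / 2 + κ) * u = s := by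
      rw [hu, hs, ← rpow_add ht0, sqrt_eq_rpow]
      congr 1
      ring
    rw [← h3]
    exact mul_le_mul_of_nonneg_right hq hu0.le
  have hsq' : s ≤ q := hsq.trans (by nlinarith)
  have hMu : M * u ≤ 1 / 144 := hT1 t ht1
  have hℓR : (2 : ℝ) ≤ ℓ := by exact_mod_cast hℓ
  have hinner : β * ((p : ℝ) + 1) + q * (W * √(p : ℝ) + 2) + 2 * q * ζ / ℓ ≤ ((q : ℝ) / 12) ^ 2 := by
    have e1 : β * ((p : ℝ) + 1) ≤ 2 * β * (q * q * u) := by
      have h3 : (t : ℝ) ≤ q * q * u := by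
        calc (t : ℝ) = s * s := hss.symm
          _ ≤ q * (q * u) := mul_le_mul hsq' hsq hs0 hq0
          _ = q * q * u := by ring
      have h4 : (p : ℝ) + 1 ≤ 2 * t := by linarith
      calc β * ((p : ℝ) + 1) ≤ β * (2 * t) := mul_le_mul_of_nonneg_left h4 hβ0
        _ ≤ β * (2 * (q * q * u)) := by
            apply mul_le_mul_of_nonneg_left _ hβ0
            linarith
        _ = _ := by ring
    have hqs : (q : ℝ) * s ≤ q * q * u := by
      calc (q : ℝ) * s ≤ q * (q * u) := mul_le_mul_of_nonneg_left hsq hq0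
        _ = _ := by ring
    have e2 : (q : ℝ) * (W * √(p : ℝ) + 2) ≤ (W + 2) * (q * q * u) := by
      have h3 : √(p : ℝ) ≤ s := Real.sqrt_le_sqrt hpt
      have h4 : W * √(p : ℝ) + 2 ≤ (W + 2) * s := by
        have := mul_le_mul_of_nonneg_left h3 hW0
        nlinarith
      calc (q : ℝ) * (W * √(p : ℝ) + 2) ≤ q * ((W + 2) * s) := mul_le_mul_of_nonneg_left h4 hq0
        _ = (W + 2) * (q * s) := by ring
        _ ≤ _ := mul_le_mul_of_nonneg_left hqs (by linarith)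
    have e3 : 2 * (q : ℝ) * ζ / ℓ ≤ ζ * (q * q * u) := by
      rw [div_le_iff₀ (by linarith)]
      have h3 : (q : ℝ) ≤ q * q * u := by
        calc (q : ℝ) = q * 1 := by ring
          _ ≤ q * s := mul_le_mul_of_nonneg_left hs1 hq0
          _ ≤ _ := hqs
      have h4 : ζ * q ≤ ζ * (q * q * u) := mul_le_mul_of_nonneg_left h3 hζ0
      have h5 : 0 ≤ ζ * (q * q * u) := by positivity
      nlinarith
    have e4 : 2 * β * (q * q * u) + (W + 2) * (q * q * u) + ζ * (q * q * u) =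
        (M * u) * (q * q) := by
      rw [hM]; ring
    have e5 : (M * u) * ((q : ℝ) * q) ≤ 1 / 144 * (q * q) :=
      mul_le_mul_of_nonneg_right hMu (by positivity)
    nlinarith
  have hsqrt : √(β * ((p : ℝ) + 1) + q * (W * √(p : ℝ) + 2) + 2 * q * ζ / ℓ) ≤ (q : ℝ) / 12 := by
    rw [Real.sqrt_le_left (by positivity)]
    exact hinner
  have hζq : ζ ≤ (q : ℝ) / 12 := by
    have h3 : 12 * ζ ≤ s := Real.le_sqrt_of_sq_le ht3
    linarith
  have hqℓ : (q : ℝ) / ℓ ≤ q / 2 := div_le_div_of_nonneg_left hq0 (by norm_num) hℓR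
  unfold locBd
  change (q : ℝ) / ℓ + √(β * ((p : ℝ) + 1) + q * (W * √(p : ℝ) + 2) + 2 * q * ζ / ℓ) + ζ ≤ _
  linarith

end Pool.Agent.J4H11.RC
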