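import Pool.Agent.J4H11.RC.P

set_option autoImplicit false

/-!
# Primes `p ≡ u mod Q` such that `p + 1` has a large prime factor: the theorem
-/

namespace Pool.Agent.J4H11.RC

open Finset Filter
open scoped ArithmeticFunction.vonMangoldt Topology
open Pool.Agent.TH76.LehP

set_option maxHeartbeats 2000000 in
/-- Goldfeld's theorem for `p + 1`, `p ≡ u mod Q` -/
theorem gold (Q u : ℕ) (hQ : 1 ≤ Q) (hu : Nat.Coprime u Q) :
    ∃ κ c : ℝ, 0 < κ ∧ κ ≤ 1 / 4 ∧ 0 < c ∧ ∃ T : ℕ, ∀ t : ℕ, T ≤ t →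
      c * (t / Real.log t) ≤ ((PF Q u t ((t : ℝ) ^ (1 / 2 + κ))).card : ℝ) := by
  obtain ⟨C1, hC1, hbv0⟩ := bv_partW Q u hQ hu
  obtain ⟨C2, hC2, hmid⟩ := mid_W Q u
  obtain ⟨T1, hT1⟩ := cheb_lower
  set φ : ℝ := (Nat.totient Q : ℝ) with hφdef
  have hφ1 : 1 ≤ φ := by
    have : 1 ≤ Nat.totient Q := Nat.totient_pos.2 hQ
    rw [hφdef]; exact_mod_cast this
  have hφ0 : 0 < φ := by linarith
  obtain ⟨D00, hD00⟩ := npf_tail (1 / (128 * φ)) (by positivity)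
  obtain ⟨D0, hD0M, hD0D⟩ : ∃ D0 : ℕ, Q ≤ D0 ∧ D00 ≤ D0 :=
    ⟨max Q D00, le_max_left _ _, le_max_right _ _⟩
  set C0 : ℝ := ∑ d ∈ Icc 1 D0, Λ d with hC0
  have hC00 : 0 ≤ C0 := Finset.sum_nonneg fun d _ => ArithmeticFunction.vonMangoldt_nonneg
  obtain ⟨κ, hκ⟩ : ∃ κ : ℝ, κ = min (1 / 4) (1 / (64 * φ * C2)) := ⟨_, rfl⟩
  have hκ0 : 0 < κ := by rw [hκ]; positivity
  have hκ4 : κ ≤ 1 / 4 := by rw [hκ]; exact min_le_left _ _
  have hκC : C2 * κ ≤ 1 / (64 * φ) := by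
    have h1 : κ ≤ 1 / (64 * φ * C2) := by rw [hκ]; exact min_le_right _ _
    calc C2 * κ ≤ C2 * (1 / (64 * φ * C2)) := mul_le_mul_of_nonneg_left h1 hC2.le
      _ = 1 / (64 * φ) := by field_simp
  obtain ⟨C', hC', hbv⟩ := hbv0 (1 / 2 - κ / 2) (by linarith)
  have hev : ∀ᶠ t : ℕ in atTop, T1 ≤ t ∧ 256 ≤ t ∧ 8 * (C1 + C0 * φ) ≤ Real.log t ∧
      64 * φ * (2 * C' + C2) ≤ Real.log t ∧ (2 : ℝ) ≤ (t : ℝ) ^ (2 * κ) ∧
      (Q : ℝ) ≤ (t : ℝ) ^ (κ / 2) ∧
      ((D0 : ℝ) + 1) ≤ (t : ℝ) ^ (1 / 2 - κ) ∧ Real.log t ^ 2 ≤ (t : ℝ) ^ (1 / 8 : ℝ) ∧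
      128 * φ ≤ Real.log t := by
    filter_upwards [eventually_ge_atTop T1, eventually_ge_atTop 256,
      ev_log (8 * (C1 + C0 * φ)), ev_log (64 * φ * (2 * C' + C2)), ev_rpow 2 (2 * κ) (by linarith),
      ev_rpow (Q : ℝ) (κ / 2) (by linarith),
      ev_rpow ((D0 : ℝ) + 1) (1 / 2 - κ) (by linarith), ev_logpow 2 (1 / 8) (by norm_num),
      ev_log (128 * φ)] with t h2 h3 h4 h5 h6 h7 h8 h9 h10
    exact ⟨h2, h3, h4, h5, h6, h7, h8, h9, h10⟩
  obtain ⟨T, hT⟩ := eventually_atTop.mp hev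
  refine ⟨κ, 1 / (32 * φ), hκ0, hκ4, by positivity, T, fun t htT => ?_⟩
  obtain ⟨ht1, ht2, hl1, hl2, hl3, hlM, hl4, hl5, hl6⟩ := hT t htT
  have ht' : (256 : ℝ) ≤ t := by exact_mod_cast ht2
  have htp : (0 : ℝ) < t := by linarith
  have hL : 0 < Real.log t := by
    apply Real.log_pos; linarith
  have hL1 : 1 ≤ Real.log t := by linarith [hl6, hφ1]
  set L := Real.log t with hLdef
  set Y : ℝ := (t : ℝ) ^ (1 / 2 + κ) with hYdef
  have hY0 : 0 ≤ Y := by positivity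
  set D : ℕ := ⌊(t : ℝ) ^ (1 / 2 - κ)⌋₊ with hD
  set y : ℕ := ⌊Y⌋₊ with hydef
  have hDD0 : D0 + 1 ≤ D := by
    apply Nat.le_floor
    push_cast
    exact hl4
  have hD1 : 1 ≤ D := by omega
  have hDle : (D : ℝ) ≤ (t : ℝ) ^ (1 / 2 - κ) := Nat.floor_le (by positivity)
  have hDge : (t : ℝ) ^ (1 / 2 - κ) ≤ 2 * (D : ℝ) := by
    have h1 : (t : ℝ) ^ (1 / 2 - κ) < (D : ℝ) + 1 := Nat.lt_floor_add_one _
    have h2 : (1 : ℝ) ≤ D := by exact_mod_cast hD1
    linarith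
  have hDD : (D : ℝ) ^ 2 ≤ (t : ℝ) ^ (1 - 2 * κ) := by
    calc (D : ℝ) ^ 2 ≤ ((t : ℝ) ^ (1 / 2 - κ)) ^ 2 := pow_le_pow_left₀ (by positivity) hDle 2
      _ = (t : ℝ) ^ (1 - 2 * κ) := by
          rw [← Real.rpow_natCast, ← Real.rpow_mul htp.le]
          congr 1
          push_cast
          ring
  have hDQ : Q * D ≤ ⌊(t : ℝ) ^ (1 / 2 - κ / 2)⌋₊ := by
    apply Nat.le_floor
    push_cast
    calc (Q : ℝ) * D ≤ (t : ℝ) ^ (κ / 2) * (t : ℝ) ^ (1 / 2 - κ) :=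
          mul_le_mul hlM hDle (by positivity) (by positivity)
      _ = (t : ℝ) ^ (1 / 2 - κ / 2) := by
          rw [← Real.rpow_add htp]
          congr 1
          ring
  have hDt2 : (D : ℝ) ^ 2 ≤ t := by
    refine hDD.trans ?_
    calc (t : ℝ) ^ (1 - 2 * κ) ≤ (t : ℝ) ^ (1 : ℝ) :=
          Real.rpow_le_rpow_of_exponent_le (by linarith) (by linarith)
      _ = t := Real.rpow_one _
  have hYt : ((t + 1 : ℕ) : ℝ) ≤ Y ^ 2 := by
    have h1 : Y ^ 2 = (t : ℝ) * (t : ℝ) ^ (2 * κ) := by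
      rw [hYdef, ← Real.rpow_natCast, ← Real.rpow_mul htp.le]
      conv_rhs => rw [← Real.rpow_one (t : ℝ), ← Real.rpow_mul htp.le, ← Real.rpow_add htp]
      congr 1
      push_cast
      ring
    rw [h1]
    push_cast
    nlinarith
  have hDy : D ≤ y := by
    apply Nat.le_floor
    refine hDle.trans ?_
    exact Real.rpow_le_rpow_of_exponent_le (by linarith) (by linarith)
  have hyle : (y : ℝ) ≤ Y := Nat.floor_le hY0
  have hyt0 : y ≤ t := by
    have : (y : ℝ) ≤ t := by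
      refine hyle.trans ?_
      calc (t : ℝ) ^ (1 / 2 + κ) ≤ (t : ℝ) ^ (1 : ℝ) :=
            Real.rpow_le_rpow_of_exponent_le (by linarith) (by linarith)
        _ = t := Real.rpow_one _
    exact_mod_cast this
  -- the pieces
  have e1 := sum_log_W_ge Q u t (by omega)
  rw [sum_log_W] at e1
  have e2 := split_sumW Q u t (t + 1) D0 D y rfl (by omega) hDy (by omega)
  obtain ⟨e3, e3'⟩ := hbv t (by omega) D0 D hD0M hD1 hDQ hDt2
  have e4 := hD00 D0 (t + 1) hD0D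
  have e5 := hmid κ hκ0 hκ4 t D y (by omega) hD1 hDy hDge hyle
  have e7 := hT1 t ht1
  have e6 := count_onceW Q u t (t + 1) y Y rfl hY0 hydef hYt
  rw [← hLdef] at e1 e3 e3' e5 e7
  rw [← hC0] at e2
  set π : ℝ := ((PP t).card : ℝ) with hπ
  have hπ0 : 0 ≤ π := Nat.cast_nonneg _
  set P : ℝ := π / φ with hP
  have hP0 : 0 ≤ P := by positivity
  have hPφ : π = P * φ := by rw [hP]; field_simp
  set X := ∑ q ∈ (Ioc y (t + 1)).filter (fun q => q.Prime),
    Real.log q * ((W Q u t q).card : ℝ) with hX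
  -- the small moduli
  have e0 : C0 * ((W Q u t 1).card : ℝ) ≤ C0 * φ * P := by
    have h1 : ((W Q u t 1).card : ℝ) ≤ π := by
      have : W Q u t 1 ⊆ PP t := by
        intro p hp
        rw [mem_W] at hp
        rw [mem_PP]
        exact ⟨hp.1, hp.2.1⟩
      rw [hπ]
      exact_mod_cast Finset.card_le_card this
    calc C0 * ((W Q u t 1).card : ℝ) ≤ C0 * π := mul_le_mul_of_nonneg_left h1 hC00
      _ = C0 * φ * P := by rw [hPφ]; ring
  have e8 : (C1 + C0 * φ) * P ≤ (1 / 8) * (P * L) := by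
    have h1 := mul_le_mul_of_nonneg_right hl1 hP0
    have h2 : 8 * (C1 + C0 * φ) * P = 8 * ((C1 + C0 * φ) * P) := by ring
    have h3 : L * P = P * L := by ring
    rw [h2, h3] at h1
    linarith only [h1]
  have e9 : (2 * C' + C2) * (t / L) ≤ t / (64 * φ) := by
    rw [← mul_div_assoc, div_le_div_iff₀ hL (by positivity)]
    have h1 := mul_le_mul_of_nonneg_right hl2 htp.le
    have h2 : 64 * φ * (2 * C' + C2) * (t : ℝ) = (2 * C' + C2) * t * (64 * φ) := by ring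
    have h3 : L * (t : ℝ) = t * L := by ring
    rw [h2, h3] at h1
    exact h1
  have e10 : (7 / 8) * L * ((t : ℝ) ^ (7 / 8 : ℝ) + 1) ≤ t / (64 * φ) := by
    have h1 : (1 : ℝ) ≤ (t : ℝ) ^ (7 / 8 : ℝ) := Real.one_le_rpow (by linarith) (by norm_num)
    have h2 : L * (t : ℝ) ^ (7 / 8 : ℝ) ≤ t / (128 * φ) := by
      rw [le_div_iff₀ (by positivity)]
      have h3 : 128 * φ * L ≤ (t : ℝ) ^ (1 / 8 : ℝ) := by
        refine le_trans ?_ hl5
        rw [pow_two]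
        exact mul_le_mul_of_nonneg_right hl6 hL.le
      have h4 : (t : ℝ) ^ (1 / 8 : ℝ) * (t : ℝ) ^ (7 / 8 : ℝ) = t := by
        rw [← Real.rpow_add htp]; norm_num
      have h5 := mul_le_mul_of_nonneg_right h3 (by positivity : (0 : ℝ) ≤ (t : ℝ) ^ (7 / 8 : ℝ))
      rw [h4] at h5
      linarith only [h5]
    have h7 : L ≤ L * (t : ℝ) ^ (7 / 8 : ℝ) := le_mul_of_one_le_right hL.le h1
    have h8 : (7 / 8) * L * ((t : ℝ) ^ (7 / 8 : ℝ) + 1) =
        (7 / 8) * (L * (t : ℝ) ^ (7 / 8 : ℝ)) + (7 / 8) * L := by ring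
    have h9 : t / (64 * φ) = 2 * (t / (128 * φ)) := by field_simp; ring
    have h10 : 0 ≤ t / (128 * φ) := by positivity
    rw [h8, h9]
    linarith only [h2, h7, h10]
  have e11 : ((t + 1 : ℕ) : ℝ) * ∑ d ∈ Ioc D0 (t + 1), npf d ≤ t / (64 * φ) := by
    have h0 : (0 : ℝ) ≤ ((t + 1 : ℕ) : ℝ) := Nat.cast_nonneg _
    have h1 := mul_le_mul_of_nonneg_left e4 h0
    refine h1.trans ?_
    rw [mul_one_div, div_le_div_iff₀ (by positivity) (by positivity)]
    push_cast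
    nlinarith
  have e12 : C2 * (κ * t) ≤ t / (64 * φ) := by
    have h1 := mul_le_mul_of_nonneg_right hκC htp.le
    have h2 : C2 * κ * (t : ℝ) = C2 * (κ * t) := by ring
    have h3 : 1 / (64 * φ) * (t : ℝ) = t / (64 * φ) := by ring
    rw [h2, h3] at h1
    exact h1
  have e13 : t / (2 * φ) ≤ P * L := by
    rw [hP, div_mul_eq_mul_div, div_le_div_iff₀ (by positivity) hφ0]
    have h1 := mul_le_mul_of_nonneg_right e7 (by positivity : (0 : ℝ) ≤ 2 * φ)
    have h2 : 1 / 2 * (t : ℝ) * (2 * φ) = t * φ := by ring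
    rw [h2] at h1
    exact h1
  have e14 : C' * (t / L ^ 2) ≤ C' * (t / L) := by
    apply mul_le_mul_of_nonneg_left _ hC'.le
    apply div_le_div_of_nonneg_left htp.le hL
    nlinarith
  have hXge : t / (16 * φ) ≤ X := by
    have h1 : P * (1 / 2 * L + C1) = (1 / 2) * (P * L) + C1 * P := by ring
    rw [h1] at e3
    have h2 : 7 / 8 * L * ((W Q u t 1).card - (t : ℝ) ^ (7 / 8 : ℝ) - 1) =
        (7 / 8) * (L * (W Q u t 1).card) - (7 / 8) * L * ((t : ℝ) ^ (7 / 8 : ℝ) + 1) := by ring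
    rw [h2] at e1
    have h3 : P * L - C' * (t / L ^ 2) ≤ L * (W Q u t 1).card := by
      have h4 := mul_le_mul_of_nonneg_left e3' hL.le
      have h50 : L * (C' * (t / L ^ 3)) = C' * (t / L ^ 2) := by
        clear_value L
        field_simp
      have h5 : L * (((W Q u t 1).card : ℝ) + C' * (t / L ^ 3)) =
          L * ((W Q u t 1).card : ℝ) + C' * (t / L ^ 2) := by
        rw [mul_add, h50]
      rw [h5] at h4
      have h6 : L * P = P * L := by ring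
      rw [h6] at h4
      linarith only [h4]
    have h4 : (C1 + C0 * φ) * P = C1 * P + C0 * φ * P := by ring
    rw [h4] at e8
    have h5 : C2 * (κ * t + t / L) = C2 * (κ * t) + C2 * (t / L) := by ring
    rw [h5] at e5
    have h6 : (2 * C' + C2) * (t / L) = 2 * (C' * (t / L)) + C2 * (t / L) := by ring
    rw [h6] at e9
    have h7 : t / (64 * φ) = (1 / 4) * (t / (16 * φ)) := by field_simp; ring
    have h8 : t / (2 * φ) = 8 * (t / (16 * φ)) := by field_simp; ring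
    rw [h7] at e9 e10 e11 e12
    rw [h8] at e13
    have h9 : 0 ≤ C' * (t / L) := by positivity
    linarith only [e0, e1, e2, e3, e5, e8, e9, e10, e11, e12, e13, e14, h3, h9]
  have hlog1 : Real.log ((t + 1 : ℕ) : ℝ) ≤ 2 * L := by
    rw [hLdef, ← Real.log_rpow htp]
    apply Real.log_le_log (by positivity)
    push_cast
    rw [Real.rpow_two]
    nlinarith
  have hXle : X ≤ (2 * L) * ∑ q ∈ (Ioc y (t + 1)).filter (fun q => q.Prime),
      ((W Q u t q).card : ℝ) := by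
    rw [hX, Finset.mul_sum]
    apply Finset.sum_le_sum
    intro q hq
    rw [mem_filter, mem_Ioc] at hq
    apply mul_le_mul_of_nonneg_right _ (Nat.cast_nonneg _)
    refine le_trans ?_ hlog1
    exact Real.log_le_log (by exact_mod_cast hq.2.pos) (by exact_mod_cast hq.1.2)
  refine le_trans ?_ e6
  have h20 : 1 / (32 * φ) * (t / L) = (t / (16 * φ)) / (2 * L) := by
    field_simp
    ring
  rw [h20, div_le_iff₀ (by positivity)]
  refine (hXge.trans hXle).trans (le_of_eq ?_)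
  rw [mul_comm]

end Pool.Agent.J4H11.RC
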