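import Pool.Agent.J4H11.RC.BadC
import Pool.Agent.J4H11.RC.AB
import Pool.Agent.J4H11.RC.P2
import Pool.Agent.J4H11.RC.Asy

/-!
# Local data and good primes
-/

set_option autoImplicit false

namespace Pool.Agent.J4H11.RC

open Finset MvPolynomial WeierstrassCurve Pool.Agent.H901R3.MS

section
variable {r : ℕ} (i : Fin r) {a b : Fin r → ℤ}

/-- a place at `p` and the reduction homomorphisms -/
structure LD (a b : Fin r → ℤ) (p : ℕ) [Fact p.Prime] where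
  v : Place ℚ (ZMod p)
  red : (j : Fin r) → Pt (a j : ℚ) (b j : ℚ) →+ Pt (a j : ZMod p) (b j : ZMod p)
  hred : ∀ j, IsRed v (a j) (b j) (red j)

theorem exists_LD (p : ℕ) [Fact p.Prime] (hD : ∀ j, Disc (a j : ZMod p) (b j : ZMod p)) :
    Nonempty (LD a b p) := by
  obtain ⟨v⟩ := t_PL p
  have h := fun j => t_R6 t_R1 t_R2 t_R3 t_R4 t_R5 ℚ (ZMod p) v (a j) (b j) (hD j)
  choose red hred using h
  exact ⟨⟨v, red, hred⟩⟩

theorem intCast_ne {p : ℕ} {n : ℤ} (hn : n ≠ 0) (hp : n.natAbs < p) : (n : ZMod p) ≠ 0 := by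
  rw [Ne, ZMod.intCast_zmod_eq_zero_iff_dvd]
  intro h
  have h1 := Int.natAbs_dvd_natAbs.2 h
  rw [Int.natAbs_natCast] at h1
  have := Nat.le_of_dvd (by omega) h1
  omega

theorem disc_int {p : ℕ} [Fact p.Prime] (a b : ℤ) (hD : Disc (a : ℚ) (b : ℚ))
    (hp : (2 * (4 * a ^ 3 + 27 * b ^ 2)).natAbs < p) : Disc (a : ZMod p) (b : ZMod p) := by
  have h0 : (2 * (4 * a ^ 3 + 27 * b ^ 2) : ℤ) ≠ 0 := by
    intro h
    apply hD
    have h1 : (2 : ℚ) * (4 * (a : ℚ) ^ 3 + 27 * (b : ℚ) ^ 2) =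
        ((2 * (4 * a ^ 3 + 27 * b ^ 2) : ℤ) : ℚ) := by push_cast; ring
    rw [h1, h]
    simp
  have h2 := intCast_ne h0 hp
  unfold Disc
  push_cast at h2
  exact h2

/-- conditions which hold for all large primes -/
def LargeP (a b : Fin r → ℤ) (Ψ : MvPolynomial (Bi i) ℤ) (m0 : Bi i →₀ ℕ) (p : ℕ) : Prop :=
  ∀ [Fact p.Prime], (∀ j, Disc (a j : ZMod p) (b j : ZMod p)) ∧ p ≠ 2 ∧
    ((Ψ.coeff m0 : ℤ) : ZMod p) ≠ 0 ∧
    (a i ≠ 0 → (a i : ZMod p) ≠ 0) ∧ (b i ≠ 0 → (b i : ZMod p) ≠ 0)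

theorem exists_large (hD : ∀ j, Disc (a j : ℚ) (b j : ℚ)) (Ψ : MvPolynomial (Bi i) ℤ)
    (m0 : Bi i →₀ ℕ) (hm0 : Ψ.coeff m0 ≠ 0) :
    ∃ N0 : ℕ, ∀ p : ℕ, N0 < p → LargeP i a b Ψ m0 p := by
  refine ⟨(∑ j, (2 * (4 * a j ^ 3 + 27 * b j ^ 2)).natAbs) + 2 + (Ψ.coeff m0).natAbs +
    (a i).natAbs + (b i).natAbs, fun p hp _ => ?_⟩
  refine ⟨fun j => disc_int (a j) (b j) (hD j) ?_, by omega, intCast_ne hm0 (by omega),
    fun h => intCast_ne h (by omega),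
    fun h => intCast_ne h (by omega)⟩
  have := single_le_sum (f := fun j => (2 * (4 * a j ^ 3 + 27 * b j ^ 2)).natAbs)
    (fun _ _ => Nat.zero_le _) (mem_univ j)
  omega

theorem finite_pt {p : ℕ} [Fact p.Prime] (a' b' : ZMod p) : Finite (Pt a' b') := by
  let f : Pt a' b' → Option (ZMod p × ZMod p) := fun P =>
    match P with
    | Affine.Point.zero => none
    | Affine.Point.some x y _ => some (x, y)
  apply Finite.of_injective f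
  rintro (_ | ⟨x, y, h⟩) (_ | ⟨x', y', h'⟩) he
  · rfl
  · simp [f] at he
  · simp [f] at he
  · simp only [f, Option.some.injEq, Prod.mk.injEq] at he
    obtain ⟨rfl, rfl⟩ := he
    rfl

theorem ord_gt {p : ℕ} [Fact p.Prime] (ld : LD a b p) (j : Fin r) (R : Pt (a j : ℚ) (b j : ℚ))
    (z : ℕ) (h : ¬ ∃ n ∈ Icc 1 z, zr p (n • R)) : z < addOrderOf (ld.red j R) := by
  have hfin := finite_pt (a j : ZMod p) (b j : ZMod p)
  have ho : 0 < addOrderOf (ld.red j R) := addOrderOf_pos _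
  by_contra hlt
  apply h
  refine ⟨addOrderOf (ld.red j R), mem_Icc.2 ⟨ho, by omega⟩, ?_⟩
  apply zr_of_red ld.v (a j) (b j) (ld.red j) (ld.hred j)
  rw [map_nsmul, addOrderOf_nsmul_eq_zero]

theorem two_red {p : ℕ} [Fact p.Prime] (ld : LD a b p) (q s : ℕ)
    (hcard : Nat.card (Pt (a i : ZMod p) (b i : ZMod p)) = p + 1) (hq : q.Prime) (hqm : q ∣ p + 1)
    (hqm2 : ¬ q ∣ (p + 1) / q) (hs : (p + 1) / q < (s + 1) ^ 2)
    (R₁ R₂ : Pt (a i : ℚ) (b i : ℚ))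
    (h : ¬ ∃ m n : ℤ, |m| ≤ s ∧ |n| ≤ s ∧ (m, n) ≠ (0, 0) ∧ zr p (m • R₁ + n • R₂)) :
    q ∣ addOrderOf (ld.red i R₁) ∨ q ∣ addOrderOf (ld.red i R₂) := by
  have hfin := finite_pt (a i : ZMod p) (b i : ZMod p)
  by_contra hcon
  push Not at hcon
  obtain ⟨m, n, hm, hn, hmn, h0⟩ := two_points (p + 1) q s hcard hq hqm hqm2 hs _ _ hcon.1 hcon.2
  apply h
  refine ⟨m, n, hm, hn, hmn, ?_⟩
  apply zr_of_red ld.v (a i) (b i) (ld.red i) (ld.hred i)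
  rw [map_add, map_zsmul, map_zsmul]
  exact h0

theorem card_cm {p : ℕ} [Fact p.Prime] (a' b' : ℤ) (hCM : CMt a' b') (hp2 : p ≠ 2)
    (h4 : b' = 0 → p % 4 = 3) (h3 : a' = 0 → p % 3 = 2) (ha : a' ≠ 0 → (a' : ZMod p) ≠ 0)
    (hb : b' ≠ 0 → (b' : ZMod p) ≠ 0) : Nat.card (Pt (a' : ZMod p) (b' : ZMod p)) = p + 1 := by
  rcases hCM with ⟨h1, h2⟩ | ⟨h1, h2⟩
  · exact W_C1.card_pt p (h4 h1) _ _ (by rw [h1]; simp) (ha h2)
  · exact card_pt2 p (h3 h1) hp2 _ _ (by rw [h1]; simp) (hb h2)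

end

end Pool.Agent.J4H11.RC
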