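import Pool.Agent.J4H11.RC.Core2

/-!
# The number of vectors in a box which lift
-/

set_option autoImplicit false

namespace Pool.Agent.J4H11.RC

open Finset MvPolynomial WeierstrassCurve Pool.Agent.H901R3.MS

section
variable {r : ℕ} (i : Fin r) {a b : Fin r → ℤ}

theorem bdp_update {p : ℕ} [Fact p.Prime] (Ψ : MvPolynomial (Bi i) ℤ)
    (red : (j : Fin r) → Pt (a j : ℚ) (b j : ℚ) →+ Pt (a j : ZMod p) (b j : ZMod p))
    (c R : (j : Fin r) → Pt (a j : ℚ) (b j : ℚ)) (n : Fin r → ℕ) (t : ℕ) :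
    Bdp i Ψ red c R (Function.update n i t) ↔ Bdp i Ψ red c R n := by
  have h : ∀ j, j ≠ i → Function.update n i t j = n j := fun j hj => Function.update_of_ne hj _ _
  unfold Bdp
  apply or_congr
  · constructor
    · rintro ⟨j, hj, h0⟩
      rw [h j hj] at h0
      exact ⟨j, hj, h0⟩
    · rintro ⟨j, hj, h0⟩
      refine ⟨j, hj, ?_⟩
      rw [h j hj]
      exact h0
  · have h2 : (fun j : Bi i => (crd (red j (c j + Function.update n i t j • R j))).1) =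
        (fun j : Bi i => (crd (red j (c j + n j • R j))).1) := by
      funext j
      rw [h j j.2]
    rw [h2]

theorem numeric (r : ℕ) (hr : 1 ≤ r) (L y D z P : ℕ) (c κ M : ℝ) (hc : 0 < c) (hκ : 0 < κ)
    (hM : 0 ≤ M) (hy : 3 ≤ y) (hyL : y * y ≤ L) (hLy : L < (y + 1) * (y + 1))
    (hz : (y : ℝ) ^ (3 / 10 : ℝ) ≤ z) (hD : (y : ℝ) ^ (1 / 2 + κ) ≤ D)
    (hP : c * (y / Real.log y) ≤ (P : ℝ)) :
    2 * (M / z) * (L : ℝ) ^ r + (L : ℝ) ^ (r - 1) * (24 * (y + 1) * (L + (y + 1) ^ 2) / (P * D)) ≤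
      (4 * M + 480 / (c * κ)) * (L : ℝ) ^ r * (L : ℝ) ^ (-(1 / 8) : ℝ) := by
  have hyR : (3 : ℝ) ≤ y := by exact_mod_cast hy
  have hy0 : (0 : ℝ) < y := by linarith
  have hyLR : (y : ℝ) * y ≤ L := by exact_mod_cast hyL
  have hLyR : (L : ℝ) < (y + 1) * (y + 1) := by exact_mod_cast hLy
  have hL9 : (9 : ℝ) ≤ L := by nlinarith
  have hL0 : (0 : ℝ) < L := by linarith
  have hL1 : (1 : ℝ) ≤ L := by linarith
  set X : ℝ := (L : ℝ) ^ (1 / 8 : ℝ) with hX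
  have hX0 : 0 < X := Real.rpow_pos_of_pos hL0 _
  have hXi : (L : ℝ) ^ (-(1 / 8) : ℝ) = X⁻¹ := by
    rw [hX, Real.rpow_neg hL0.le]
  -- `√L ≤ 2 y`
  have hsq : (L : ℝ) ^ (1 / 2 : ℝ) ≤ 2 * y := by
    rw [← Real.sqrt_eq_rpow, Real.sqrt_le_left (by positivity)]
    nlinarith
  have hhalf : ∀ e : ℝ, 0 < e → e ≤ 1 → 1 / 4 ≤ e → X ≤ 2 * (y : ℝ) ^ e := by
    intro e he he1 he4
    have h1 : X ≤ ((L : ℝ) ^ (1 / 2 : ℝ)) ^ e := by
      rw [hX, ← Real.rpow_mul hL0.le]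
      apply Real.rpow_le_rpow_of_exponent_le hL1
      linarith
    have h2 : ((L : ℝ) ^ (1 / 2 : ℝ)) ^ e ≤ (2 * y) ^ e :=
      Real.rpow_le_rpow (by positivity) hsq he.le
    have h3 : (2 * (y : ℝ)) ^ e = (2 : ℝ) ^ e * (y : ℝ) ^ e := Real.mul_rpow (by norm_num) hy0.le
    have h4 : (2 : ℝ) ^ e ≤ 2 := by
      calc (2 : ℝ) ^ e ≤ (2 : ℝ) ^ (1 : ℝ) :=
            Real.rpow_le_rpow_of_exponent_le (by norm_num) he1
        _ = 2 := Real.rpow_one 2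
    have h5 := mul_le_mul_of_nonneg_right h4 (Real.rpow_nonneg hy0.le e)
    linarith
  have hz0 : (0 : ℝ) < z := lt_of_lt_of_le (Real.rpow_pos_of_pos hy0 _) hz
  have hX1 : X ≤ 2 * z := (hhalf (3 / 10) (by norm_num) (by norm_num) (by norm_num)).trans
    (by linarith)
  have hX2 : X ≤ 2 * (y : ℝ) ^ (1 / 2 : ℝ) := hhalf (1 / 2) (by norm_num) (by norm_num)
    (by norm_num)
  -- first term
  have t1 : 2 * (M / z) * (L : ℝ) ^ r ≤ 4 * M * (L : ℝ) ^ r * X⁻¹ := by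
    have h1 : M / z ≤ 2 * M * X⁻¹ := by
      rw [div_le_iff₀ hz0]
      have h2 : X⁻¹ * X = 1 := inv_mul_cancel₀ hX0.ne'
      have h3 : 2 * M * X⁻¹ * z = M * X⁻¹ * (2 * z) := by ring
      rw [h3]
      have h4 : M * X⁻¹ * X ≤ M * X⁻¹ * (2 * z) :=
        mul_le_mul_of_nonneg_left hX1 (by positivity)
      have h5 : M * X⁻¹ * X = M := by rw [mul_assoc, h2, mul_one]
      linarith
    have h6 : 0 ≤ (L : ℝ) ^ r := by positivity
    nlinarith [mul_le_mul_of_nonneg_right h1 h6]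
  -- second term
  have hlog : 0 < Real.log y := Real.log_pos (by linarith)
  have hP0 : (0 : ℝ) < P := lt_of_lt_of_le (by positivity) hP
  have hD0 : (0 : ℝ) < D := lt_of_lt_of_le (Real.rpow_pos_of_pos hy0 _) hD
  have hnum : 24 * ((y : ℝ) + 1) * (L + (y + 1) ^ 2) ≤ 240 * (y * L) := by
    have h1 : (y : ℝ) + 1 ≤ 2 * y := by linarith
    have h2 : (L : ℝ) + (y + 1) ^ 2 ≤ 5 * L := by nlinarith
    calc 24 * ((y : ℝ) + 1) * (L + (y + 1) ^ 2) ≤ 24 * (2 * y) * (5 * L) := by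
          apply mul_le_mul _ h2 (by positivity) (by positivity)
          linarith
      _ = _ := by ring
  have hlogκ : Real.log y ≤ (y : ℝ) ^ κ / κ := Real.log_le_rpow_div hy0.le hκ
  have hden : (c * κ) * (y * (y : ℝ) ^ (1 / 2 : ℝ)) ≤ (P : ℝ) * D := by
    have h1 : c * (y / Real.log y) * (y : ℝ) ^ (1 / 2 + κ) ≤ (P : ℝ) * D :=
      mul_le_mul hP hD (by positivity) hP0.le
    refine le_trans ?_ h1
    have h2 : (y : ℝ) ^ (1 / 2 + κ) = (y : ℝ) ^ (1 / 2 : ℝ) * (y : ℝ) ^ κ :=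
      Real.rpow_add hy0 _ _
    rw [h2]
    have h3 : κ ≤ (y : ℝ) ^ κ / Real.log y := by
      rw [le_div_iff₀ hlog]
      rw [le_div_iff₀ hκ] at hlogκ
      linarith
    have h4 : c * (y / Real.log y) * ((y : ℝ) ^ (1 / 2 : ℝ) * (y : ℝ) ^ κ) =
        c * y * (y : ℝ) ^ (1 / 2 : ℝ) * ((y : ℝ) ^ κ / Real.log y) := by
      field_simp
    rw [h4]
    have h5 : c * κ * (y * (y : ℝ) ^ (1 / 2 : ℝ)) = c * y * (y : ℝ) ^ (1 / 2 : ℝ) * κ := by ring
    rw [h5]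
    exact mul_le_mul_of_nonneg_left h3 (by positivity)
  have t2 : 24 * ((y : ℝ) + 1) * (L + (y + 1) ^ 2) / (P * D) ≤ 480 / (c * κ) * L * X⁻¹ := by
    rw [div_le_iff₀ (mul_pos hP0 hD0)]
    refine hnum.trans ?_
    have h1 : 480 / (c * κ) * L * X⁻¹ * ((c * κ) * (y * (y : ℝ) ^ (1 / 2 : ℝ))) ≤
        480 / (c * κ) * L * X⁻¹ * ((P : ℝ) * D) :=
      mul_le_mul_of_nonneg_left hden (by positivity)
    refine le_trans ?_ h1
    have h2 : 480 / (c * κ) * L * X⁻¹ * ((c * κ) * (y * (y : ℝ) ^ (1 / 2 : ℝ))) =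
        240 * (y * L) * (X⁻¹ * (2 * (y : ℝ) ^ (1 / 2 : ℝ))) := by
      field_simp
      ring
    rw [h2]
    have h3 : 1 ≤ X⁻¹ * (2 * (y : ℝ) ^ (1 / 2 : ℝ)) := by
      have h4 : X⁻¹ * X ≤ X⁻¹ * (2 * (y : ℝ) ^ (1 / 2 : ℝ)) :=
        mul_le_mul_of_nonneg_left hX2 (by positivity)
      rwa [inv_mul_cancel₀ hX0.ne'] at h4
    have h5 : 0 ≤ 240 * ((y : ℝ) * L) := by positivity
    nlinarith
  have t3 : (L : ℝ) ^ (r - 1) * (24 * (y + 1) * (L + (y + 1) ^ 2) / (P * D)) ≤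
      480 / (c * κ) * (L : ℝ) ^ r * X⁻¹ := by
    have h1 := mul_le_mul_of_nonneg_left t2 (by positivity : (0 : ℝ) ≤ (L : ℝ) ^ (r - 1))
    refine h1.trans (le_of_eq ?_)
    have h2 : (L : ℝ) ^ r = (L : ℝ) ^ (r - 1) * L := by
      rw [← pow_succ]
      congr 1
      omega
    rw [h2]
    ring
  rw [hXi]
  have h7 : (4 * M + 480 / (c * κ)) * (L : ℝ) ^ r * X⁻¹ =
      4 * M * (L : ℝ) ^ r * X⁻¹ + 480 / (c * κ) * (L : ℝ) ^ r * X⁻¹ := by ring
  rw [h7]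
  exact add_le_add t1 t3

set_option maxHeartbeats 1000000 in
open Classical in
theorem box_count (hD : ∀ j, Disc (a j : ℚ) (b j : ℚ)) (hCM : CMt (a i) (b i)) (ℓ : ℕ)
    (hℓ : ℓ.Prime) (h3 : ℓ = 3 → a i ≠ 0) (R : Fin 2 → (j : Fin r) → Pt (a j : ℚ) (b j : ℚ))
    (hR : ∀ s j, ∀ n : ℕ, 0 < n → n • R s j ≠ 0)
    (hind : ∀ m n : ℤ, (m, n) ≠ (0, 0) → m • R 0 i + n • R 1 i ≠ 0)
    (F : MvPolynomial (Fin r × Fin 2) ℤ) (Ψ : MvPolynomial (Bi i) ℤ) (hΨ0 : Ψ ≠ 0)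
    (hΨ : ElimP i a b F Ψ) :
    ∃ C : ℝ, 0 ≤ C ∧ ∃ L0 : ℕ, ∀ L : ℕ, L0 ≤ L → ∃ s : Fin 2,
      ∀ (δ : ℚ) (c : (j : Fin r) → Pt (a j : ℚ) (b j : ℚ)),
      ((((Fintype.piFinset (fun _ : Fin r => range L)).filter
        (fun n => Lft ℓ F δ (fun j => c j + n j • R s j))).card : ℕ) : ℝ) ≤
        C * (L : ℝ) ^ r * (L : ℝ) ^ (-(1 / 8) : ℝ) := by
  obtain ⟨m0, hm0⟩ := MvPolynomial.ne_zero_iff.1 hΨ0
  obtain ⟨N0, hN0⟩ := exists_large i hD Ψ m0 hm0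
  obtain ⟨κ, c, hκ, hκ4, hc, Y, hY⟩ := good_set i hD hCM ℓ hℓ h3 R hR hind Ψ m0 N0 hN0
  obtain ⟨T0, hT0⟩ := locBd_le F.totalDegree ℓ hℓ.two_le κ hκ
  set M : ℝ := ((2 * r + 6 * Ψ.totalDegree : ℕ) : ℝ) with hM
  set y0 := max Y (max T0 9) with hy0
  refine ⟨4 * M + 480 / (c * κ), by positivity, y0 * y0, fun L hL => ?_⟩
  set y := Nat.sqrt L with hy
  have hyL : y * y ≤ L := Nat.sqrt_le L
  have hLy : L < (y + 1) * (y + 1) := Nat.lt_succ_sqrt L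
  have hy0y : y0 ≤ y := by
    rw [hy, Nat.le_sqrt]
    exact hL
  have hYy : Y ≤ y := (le_max_left _ _).trans hy0y
  have hT0y : T0 ≤ y := (le_max_left _ _).trans ((le_max_right _ _).trans hy0y)
  have hy9 : 9 ≤ y := (le_max_right _ _).trans ((le_max_right _ _).trans hy0y)
  have hy3 : 3 ≤ y := by omega
  have hyR : (3 : ℝ) ≤ y := by exact_mod_cast hy3
  have hyp : (0 : ℝ) < y := by linarith
  obtain ⟨s, PR, qf, hPRc, hPR⟩ := hY y hYy
  set z := ⌈(y : ℝ) ^ (3 / 10 : ℝ)⌉₊ with hz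
  have hzge : (y : ℝ) ^ (3 / 10 : ℝ) ≤ z := Nat.le_ceil _
  have hz1 : 1 ≤ z := by
    rw [hz, Nat.one_le_ceil_iff]
    exact Real.rpow_pos_of_pos hyp _
  have hzy : z ≤ y := by
    rw [hz, Nat.ceil_le]
    calc (y : ℝ) ^ (3 / 10 : ℝ) ≤ (y : ℝ) ^ (1 : ℝ) :=
          Real.rpow_le_rpow_of_exponent_le (by linarith) (by norm_num)
      _ = y := Real.rpow_one _
  have hzL : z ≤ L := by nlinarith
  set D := ⌈(y : ℝ) ^ (1 / 2 + κ)⌉₊ with hDdef
  have hDge : (y : ℝ) ^ (1 / 2 + κ) ≤ D := Nat.le_ceil _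
  have hD1 : 1 ≤ D := by
    rw [hDdef, Nat.one_le_ceil_iff]
    exact Real.rpow_pos_of_pos hyp _
  refine ⟨s, fun δ cc => ?_⟩
  set box := Fintype.piFinset (fun _ : Fin r => range L) with hbox
  set S := box.filter (fun n => Lft ℓ F δ (fun j => cc j + n j • R s j)) with hS
  set bad : ℕ → (Fin r → ℕ) → Prop := fun p n => ∀ (_ : Fact p.Prime) (ld : LD a b p),
    qf p ∣ addOrderOf (ld.red i (R s i)) → (∀ j, z < addOrderOf (ld.red j (R s j))) →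
      Bdp i Ψ ld.red cc (R s) n with hbad
  have hPRne : PR.Nonempty := by
    rw [← card_pos]
    have hlog : 0 < Real.log y := Real.log_pos (by linarith)
    have : (0 : ℝ) < PR.card := lt_of_lt_of_le (by positivity) hPRc
    exact_mod_cast this
  have key := ab r i L y D PR qf S (filter_subset _ _) bad ?_ (M / z) ?_ ?_ ?_ hD1 hPRne
  · refine key.trans ?_
    exact numeric r i.pos L y D z PR.card c κ M hc hκ (by positivity) hy3 hyL hLy hzge hDge hPRc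
  · intro p n t
    simp only [hbad]
    constructor
    · intro h hp ld h1 h2
      exact (bdp_update i Ψ ld.red cc (R s) n t).1 (h hp ld h1 h2)
    · intro h hp ld h1 h2
      exact (bdp_update i Ψ ld.red cc (R s) n t).2 (h hp ld h1 h2)
  · intro p hp
    obtain ⟨g1, g2, g3, g4, g5, g6, g7, hfact, g8, ld, g9, g10⟩ := hPR p hp
    have h1 := bad_count i Ψ m0 (hN0 p g2).2.2.1
      (fun j => finite_pt _ _) ld.red cc (R s) L z hz1 hzL (fun j => (g10 j).le)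
    refine le_trans ?_ h1
    have h2 : (box.filter (fun n => bad p n)) ⊆
        (box.filter (fun n => Bdp i Ψ ld.red cc (R s) n)) := by
      intro n hn
      rw [mem_filter] at hn ⊢
      exact ⟨hn.1, hn.2 hfact ld g9 g10⟩
    exact_mod_cast card_le_card h2
  · intro p hp
    obtain ⟨g1, g2, g3, g4, g5, g6, -⟩ := hPR p hp
    refine ⟨g1, g3, ?_, g5, g6⟩
    rw [hDdef, Nat.ceil_le]
    exact g4.le
  · intro p hp n hn hnb a0
    obtain ⟨g1, g2, g3, g4, g5, g6, g7, -⟩ := hPR p hp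
    have hnb' : ∃ (_ : Fact p.Prime) (ld : LD a b p),
        qf p ∣ addOrderOf (ld.red i (R s i)) ∧ (∀ j, z < addOrderOf (ld.red j (R s j))) ∧
        ¬ Bdp i Ψ ld.red cc (R s) n := by
      by_contra hcon
      apply hnb
      intro hf ld h1 h2
      by_contra h5
      exact hcon ⟨hf, ld, h1, h2, h5⟩
    obtain ⟨hfact, ld, h1, h2, h5⟩ := hnb'
    obtain ⟨l1, l2, l3, l5, l6⟩ := hN0 p g2
    obtain ⟨dl, hdl, hLf⟩ := lft_red ℓ hℓ.one_le F δ ld.v (fun j => ld.red j) ld.hred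
    obtain ⟨-, -, -, -, -, -, -, hf', g8, -⟩ := hPR p hp
    have hq2 : qf p ≠ 2 := by
      intro h
      rw [h] at g4
      have h6 : (3 : ℝ) ≤ (y : ℝ) ^ (1 / 2 : ℝ) := by
        rw [← Real.sqrt_eq_rpow]
        apply Real.le_sqrt_of_sq_le
        have : (9 : ℝ) ≤ y := by exact_mod_cast hy9
        linarith
      have h7 : (y : ℝ) ^ (1 / 2 : ℝ) ≤ (y : ℝ) ^ (1 / 2 + κ) :=
        Real.rpow_le_rpow_of_exponent_le (by linarith) (by linarith)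
      push_cast at g4
      linarith
    have hb : (∀ j, j ≠ i → ld.red j (cc j + n j • R s j) ≠ 0) ∧
        aeval (fun j : Bi i => (crd (ld.red j (cc j + n j • R s j))).1) Ψ ≠ 0 := by
      unfold Bdp at h5
      push Not at h5
      exact h5
    have h6 := loc_box i F Ψ hΨ F.totalDegree ℓ le_rfl hℓ (AlgebraicClosure (ZMod p)) l2 g7
      (l1 i) g8 (Lft ℓ F δ) ld.red dl hdl hLf (qf p) g3 hq2 g5 g6 cc (R s) h1
      (hT0 y hT0y p g1 (qf p) g4.le) L n hb.1 hb.2 a0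
    refine le_trans (Nat.mul_le_mul_left 3 (card_le_card ?_)) h6
    apply image_subset_image
    apply filter_subset_filter
    intro t ht
    rw [mem_filter] at ht ⊢
    refine ⟨ht.1, ?_⟩
    have := ht.2
    rw [hS, mem_filter] at this
    exact this.2

end

end Pool.Agent.J4H11.RC
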