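import Pool.Agent.J4H11.RC.Ker
import Pool.Agent.J4H11.RC.Chev

/-!
# Spreading out a simple zero
-/

set_option autoImplicit false

namespace Pool.Agent.J4H11.RC

open MvPolynomial

section
variable {r : ℕ} (i : Fin r)

/-- the indices different from `i` -/
abbrev Bi {r : ℕ} (i : Fin r) : Type := {j : Fin r // j ≠ i}

/-- put `z` at the index `i` -/
def ext {S : Type} (x : Bi i → S) (z : S) (j : Fin r) : S := if h : j = i then z else x ⟨j, h⟩

theorem ext_self {S : Type} (x : Bi i → S) (z : S) : ext i x z i = z := by simp [ext]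

theorem ext_ne {S : Type} (x : Bi i → S) (z : S) (j : Bi i) : ext i x z j = x j := by
  unfold ext
  rw [dif_neg j.2]

/-- the derivative of `F` along the invariant tangent field of the curve `E_i` -/
noncomputable def Wp {R : Type} [CommRing R] (a : Fin r → R)
    (F : MvPolynomial (Fin r × Fin 2) R) : MvPolynomial (Fin r × Fin 2) R :=
  C 2 * X (i, 1) * pderiv (i, 0) F + (C 3 * X (i, 0) ^ 2 + C (a i)) * pderiv (i, 1) F

theorem elim {Ω : Type} [Field Ω] [CharZero Ω] [Algebra ℚ Ω] (a b : Fin r → ℤ)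
    (F : MvPolynomial (Fin r × Fin 2) ℤ) (x y : Fin r → Ω)
    (hy : ∀ j, y j ^ 2 = x j ^ 3 + (a j : Ω) * x j + (b j : Ω))
    (hF : aeval (pv x y) F = 0) (hW : aeval (pv x y) (Wp i a F) ≠ 0)
    (hx : AlgebraicIndependent ℚ (fun j : Bi i => x j)) :
    ∃ Ψ : MvPolynomial (Bi i) ℤ, Ψ ≠ 0 ∧ ∀ (K : Type) [Field K] [IsAlgClosed K] (x' y' : Bi i → K),
      (∀ j, y' j ^ 2 = x' j ^ 3 + (a j : K) * x' j + (b j : K)) → aeval x' Ψ ≠ 0 →
      ∃ xS yS : K, yS ^ 2 = xS ^ 3 + (a i : K) * xS + (b i : K) ∧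
        aeval (pv (ext i x' xS) (ext i y' yS)) F = 0 ∧
        aeval (pv (ext i x' xS) (ext i y' yS)) (Wp i a F) ≠ 0 := by
  classical
  set xB : Bi i → Ω := fun j => x j with hxB
  set yB : Bi i → Ω := fun j => y j with hyB
  set θ : MvPolynomial (Bi i × Fin 2) ℤ →+* Ω := (aeval (pv xB yB)).toRingHom with hθ
  set ℛ : Subring Ω := θ.range with hℛ
  set u : Ω := (aeval (pv x y) (Wp i a F))⁻¹ with hu
  have hnoeth : IsNoetherianRing ℛ :=
    isNoetherianRing_of_surjective (MvPolynomial (Bi i × Fin 2) ℤ) ℛ θ.rangeRestrict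
      θ.rangeRestrict_surjective
  set 𝒮 : Subalgebra ℛ Ω := Algebra.adjoin ℛ ({x i, y i, u} : Set Ω) with h𝒮
  have hft : Algebra.FiniteType ℛ 𝒮 := by
    rw [← Subalgebra.fg_iff_finiteType]
    exact ⟨{x i, y i, u}, by simp [h𝒮]⟩
  have hinj : Function.Injective (algebraMap ℛ 𝒮) := by
    intro z w h
    have := congrArg Subtype.val h
    exact Subtype.ext this
  obtain ⟨s, hs0, hs⟩ := chev (R := ℛ) (S := 𝒮) hinj
  -- the base polynomial ring
  have hxZ : AlgebraicIndependent ℤ xB := hx.restrictScalars (algebraMap ℤ ℚ).injective_int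
  set κ : MvPolynomial (Bi i) ℤ →+* MvPolynomial (Bi i × Fin 2) ℤ :=
    (aeval (fun j => X (j, 0))).toRingHom with hκ
  set φP : MvPolynomial (Bi i) ℤ →+* ℛ := θ.rangeRestrict.comp κ with hφP
  have hφPv : ∀ Q, ((φP Q : ℛ) : Ω) = aeval xB Q := by
    intro Q
    have h1 : (ℛ.subtype.comp φP) = (aeval xB : MvPolynomial (Bi i) ℤ →ₐ[ℤ] Ω).toRingHom := by
      apply MvPolynomial.ringHom_ext
      · intro n
        simp
      · intro j
        simp [hφP, hκ, hθ, pv]
    exact congrArg (fun g : MvPolynomial (Bi i) ℤ →+* Ω => g Q) h1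
  let _ : Algebra (MvPolynomial (Bi i) ℤ) ℛ := φP.toAlgebra
  have hsint : IsIntegral (MvPolynomial (Bi i) ℤ) s := by
    obtain ⟨Q, hQ⟩ := θ.rangeRestrict_surjective s
    rw [← hQ]
    clear hQ
    induction Q using MvPolynomial.induction_on with
    | C n =>
      have : θ.rangeRestrict (C n) = algebraMap (MvPolynomial (Bi i) ℤ) ℛ (C n) := by
        change _ = φP (C n)
        rw [hφP, RingHom.comp_apply, hκ]
        simp
      rw [this]
      exact isIntegral_algebraMap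
    | add p q hp hq => rw [map_add]; exact hp.add hq
    | mul_X p v hp =>
      rw [map_mul]
      refine hp.mul ?_
      obtain ⟨j, e⟩ := v
      fin_cases e
      · have : θ.rangeRestrict (X (j, 0)) = algebraMap (MvPolynomial (Bi i) ℤ) ℛ (X j) := by
          change _ = φP (X j)
          rw [hφP, RingHom.comp_apply, hκ]
          simp
        change IsIntegral _ (θ.rangeRestrict (X (j, 0)))
        rw [this]
        exact isIntegral_algebraMap
      · change IsIntegral _ (θ.rangeRestrict (X (j, 1)))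
        refine IsIntegral.of_pow (n := 2) (by norm_num) ?_
        have : (θ.rangeRestrict (X (j, 1))) ^ 2 = algebraMap (MvPolynomial (Bi i) ℤ) ℛ
            (cubj (fun j : Bi i => a j) (fun j => b j) j) := by
          apply Subtype.ext
          change (θ (X (j, 1))) ^ 2 = ((φP _ : ℛ) : Ω)
          rw [hφPv, cubj]
          have h1 : θ (X (j, 1)) = y j := by simp [hθ, pv, hyB]
          rw [h1, hy j]
          simp [hxB]
        rw [this]
        exact isIntegral_algebraMap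
  obtain ⟨Ψ, hΨ0, t, hΨ⟩ : ∃ Ψ : MvPolynomial (Bi i) ℤ, Ψ ≠ 0 ∧ ∃ t : ℛ, φP Ψ = s * t := by
    have h1 := Ideal.comap_ne_bot_of_integral_mem (I := Ideal.span {s}) hs0
      (Ideal.mem_span_singleton_self s) hsint
    obtain ⟨Ψ, hΨ1, hΨ2⟩ := Submodule.exists_mem_ne_zero_of_ne_bot h1
    rw [Ideal.mem_comap, Ideal.mem_span_singleton] at hΨ1
    obtain ⟨t, ht⟩ := hΨ1
    exact ⟨Ψ, hΨ2, t, ht⟩
  refine ⟨Ψ, hΨ0, fun K _ _ x' y' hy' hΨK => ?_⟩
  -- the specialization
  set θ' : MvPolynomial (Bi i × Fin 2) ℤ →+* K := (aeval (pv x' y')).toRingHom with hθ'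
  have hker : RingHom.ker θ.rangeRestrict ≤ RingHom.ker θ' := by
    intro H hH
    rw [RingHom.mem_ker] at hH ⊢
    have h1 : aeval (pv xB yB) H = 0 := by
      have := congrArg Subtype.val hH
      exact this
    exact ker_lemma (fun j : Bi i => a j) (fun j => b j) xB yB hx (fun j => hy j) H h1 x' y' hy'
  obtain ⟨φ, hφ⟩ : ∃ φ : ℛ →+* K, φ.comp θ.rangeRestrict = θ' :=
    ⟨RingHom.liftOfSurjective θ.rangeRestrict θ.rangeRestrict_surjective ⟨θ', hker⟩,
      RingHom.liftOfRightInverse_comp _ _ _ _⟩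
  have hφ2 : ∀ H, φ (θ.rangeRestrict H) = aeval (pv x' y') H := fun H =>
    congrArg (fun g : MvPolynomial (Bi i × Fin 2) ℤ →+* K => g H) hφ
  have hφs : φ s ≠ 0 := by
    intro h0
    apply hΨK
    have h1 : φ (φP Ψ) = 0 := by rw [hΨ, map_mul, h0, zero_mul]
    have h2 : φ.comp φP = (aeval x' : MvPolynomial (Bi i) ℤ →ₐ[ℤ] K).toRingHom := by
      apply MvPolynomial.ringHom_ext
      · intro n
        simp
      · intro j
        change φ (θ.rangeRestrict (κ (X j))) = _
        rw [hφ2, hκ]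
        simp [pv]
    have h3 := congrArg (fun g : MvPolynomial (Bi i) ℤ →+* K => g Ψ) h2
    change φ (φP Ψ) = aeval x' Ψ at h3
    rw [← h3, h1]
  obtain ⟨ψ, hψ⟩ := hs K φ hφs
  have hxi : x i ∈ 𝒮 := Algebra.subset_adjoin (by simp)
  have hyi : y i ∈ 𝒮 := Algebra.subset_adjoin (by simp)
  have hui : u ∈ 𝒮 := Algebra.subset_adjoin (by simp)
  have hxm : ∀ j : Bi i, θ.rangeRestrict (X (j, 0)) = ⟨x j, ⟨X (j, 0), by simp [hθ, pv, hxB]⟩⟩ := by
    intro j
    apply Subtype.ext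
    change θ (X (j, 0)) = x j
    simp [hθ, pv, hxB]
  have hym : ∀ j : Bi i, θ.rangeRestrict (X (j, 1)) = ⟨y j, ⟨X (j, 1), by simp [hθ, pv, hyB]⟩⟩ := by
    intro j
    apply Subtype.ext
    change θ (X (j, 1)) = y j
    simp [hθ, pv, hyB]
  have hmem : ∀ v, pv x y v ∈ 𝒮 := by
    rintro ⟨j, e⟩
    by_cases hj : j = i
    · subst hj
      fin_cases e
      · exact hxi
      · exact hyi
    · fin_cases e
      · exact 𝒮.algebraMap_mem (θ.rangeRestrict (X (⟨j, hj⟩, 0))) |> fun h => by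
          rw [hxm ⟨j, hj⟩] at h
          exact h
      · exact 𝒮.algebraMap_mem (θ.rangeRestrict (X (⟨j, hj⟩, 1))) |> fun h => by
          rw [hym ⟨j, hj⟩] at h
          exact h
  set Θ : MvPolynomial (Fin r × Fin 2) ℤ →+* 𝒮 :=
    (aeval (fun v => (⟨pv x y v, hmem v⟩ : 𝒮)) : MvPolynomial (Fin r × Fin 2) ℤ →ₐ[ℤ] 𝒮).toRingHom
    with hΘ
  have hΘv : ∀ H, ((Θ H : 𝒮) : Ω) = aeval (pv x y) H := by
    intro H
    have h1 : ((𝒮.val : 𝒮 →ₐ[ℛ] Ω).toRingHom.comp Θ) =
        (aeval (pv x y) : MvPolynomial (Fin r × Fin 2) ℤ →ₐ[ℤ] Ω).toRingHom := by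
      apply MvPolynomial.ringHom_ext
      · intro n
        simp
      · intro v
        change ((Θ (X v) : 𝒮) : Ω) = aeval (pv x y) (X v)
        rw [hΘ]
        simp
    exact congrArg (fun g : MvPolynomial (Fin r × Fin 2) ℤ →+* Ω => g H) h1
  refine ⟨ψ ⟨x i, hxi⟩, ψ ⟨y i, hyi⟩, ?_, ?_, ?_⟩
  · rw [← map_pow, ← map_pow]
    have h1 : (⟨y i, hyi⟩ : 𝒮) ^ 2 = (⟨x i, hxi⟩ : 𝒮) ^ 3 + ((a i : ℤ) : 𝒮) * ⟨x i, hxi⟩ +
        ((b i : ℤ) : 𝒮) := by
      apply Subtype.ext
      push_cast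
      exact hy i
    rw [h1]
    simp only [map_add, map_mul, map_intCast]
  all_goals
    have hcomp : ψ.comp Θ = (aeval (pv (ext i x' (ψ ⟨x i, hxi⟩)) (ext i y' (ψ ⟨y i, hyi⟩))) :
        MvPolynomial (Fin r × Fin 2) ℤ →ₐ[ℤ] K).toRingHom := by
      apply MvPolynomial.ringHom_ext
      · intro n
        simp
      · rintro ⟨j, e⟩
        change ψ (Θ (X (j, e))) = aeval _ (X (j, e))
        have h1 : Θ (X (j, e)) = ⟨pv x y (j, e), hmem (j, e)⟩ := by rw [hΘ]; simp
        rw [h1, aeval_X]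
        by_cases hj : j = i
        · subst hj
          fin_cases e
          · change ψ ⟨x j, _⟩ = ext j x' _ j
            rw [ext_self]
          · change ψ ⟨y j, _⟩ = ext j y' _ j
            rw [ext_self]
        · fin_cases e
          · change ψ ⟨x j, _⟩ = ext i x' _ j
            have h2 := ext_ne i x' (ψ ⟨x i, hxi⟩) ⟨j, hj⟩
            rw [h2]
            have h3 := congrArg (fun g : ℛ →+* K => g (θ.rangeRestrict (X (⟨j, hj⟩, 0)))) hψ
            change ψ (algebraMap ℛ 𝒮 _) = φ _ at h3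
            rw [hφ2, aeval_X] at h3
            change _ = x' ⟨j, hj⟩ at h3
            rw [← h3]
            congr 1
            apply Subtype.ext
            change x j = ((θ.rangeRestrict (X (⟨j, hj⟩, 0)) : ℛ) : Ω)
            rw [hxm]
          · change ψ ⟨y j, _⟩ = ext i y' _ j
            have h2 := ext_ne i y' (ψ ⟨y i, hyi⟩) ⟨j, hj⟩
            rw [h2]
            have h3 := congrArg (fun g : ℛ →+* K => g (θ.rangeRestrict (X (⟨j, hj⟩, 1)))) hψ
            change ψ (algebraMap ℛ 𝒮 _) = φ _ at h3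
            rw [hφ2, aeval_X] at h3
            change _ = y' ⟨j, hj⟩ at h3
            rw [← h3]
            congr 1
            apply Subtype.ext
            change y j = ((θ.rangeRestrict (X (⟨j, hj⟩, 1)) : ℛ) : Ω)
            rw [hym]
    have hcomp2 : ∀ H, aeval (pv (ext i x' (ψ ⟨x i, hxi⟩)) (ext i y' (ψ ⟨y i, hyi⟩))) H =
        ψ (Θ H) := fun H =>
      (congrArg (fun g : MvPolynomial (Fin r × Fin 2) ℤ →+* K => g H) hcomp).symm
  · rw [hcomp2]
    have h1 : Θ F = 0 := by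
      apply Subtype.ext
      rw [hΘv]
      exact hF
    rw [h1, map_zero]
  · rw [hcomp2]
    have h1 : Θ (Wp i a F) * ⟨u, hui⟩ = 1 := by
      apply Subtype.ext
      change ((Θ (Wp i a F) : 𝒮) : Ω) * u = 1
      rw [hΘv, hu, mul_inv_cancel₀ hW]
    intro h0
    have h2 := congrArg ψ h1
    rw [map_mul, h0, zero_mul, map_one] at h2
    exact zero_ne_one h2

end

end Pool.Agent.J4H11.RC
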