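import Mathlib

/-!
# Absolute irreducibility of the plane model of a ramified cyclic cover of an elliptic curve

The cover `w ^ ℓ = A(x) + B(x) y` of `y² = f(x)`, `deg f = 3`; the plane model is
`(w ^ ℓ - A)² = B² f`. It is irreducible when the norm `A² - B² f` has a simple root.
-/

set_option autoImplicit false

namespace Pool.Agent.J4H11.RC

open Polynomial IntermediateField

theorem cubic_not_sq {k K : Type} [Field k] [Field K] [Algebra k[X] K] [IsFractionRing k[X] K]
    (f : k[X]) (hf : f.natDegree = 3) (r : K) : r ^ 2 ≠ algebraMap k[X] K f := by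
  intro h
  obtain ⟨g, hg⟩ := IsIntegrallyClosed.exists_algebraMap_eq_of_isIntegral_pow (R := k[X]) (x := r)
    (n := 2) two_pos (by rw [h]; exact isIntegral_algebraMap)
  have h1 : g ^ 2 = f := by
    apply IsFractionRing.injective k[X] K
    rw [map_pow, hg, h]
  have h2 := congrArg natDegree h1
  rw [natDegree_pow, hf] at h2
  omega

theorem rootMultiplicity_pow' {k : Type} [Field k] (P : k[X]) (n : ℕ) (x : k) :
    (P ^ n).rootMultiplicity x = n * P.rootMultiplicity x := by
  classical
  rw [← count_roots, ← count_roots, roots_pow, Multiset.count_nsmul]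

theorem qa_omega {K : Type} [Field K] (a c d : K) (hd : d ≠ 0) :
    (⟨0, 1⟩ : QuadraticAlgebra K a 0) =
      (⟨c, d⟩ - algebraMap K (QuadraticAlgebra K a 0) c) *
        algebraMap K (QuadraticAlgebra K a 0) d⁻¹ := by
  ext
  · simp
  · simp [hd]

theorem qa_eta {K : Type} [Field K] (a : K) (z : QuadraticAlgebra K a 0) :
    z = algebraMap K (QuadraticAlgebra K a 0) z.re +
      algebraMap K (QuadraticAlgebra K a 0) z.im * (⟨0, 1⟩ : QuadraticAlgebra K a 0) := by
  ext <;> simp

theorem qa_ev {K : Type} [Field K] (a c d : K) :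
    ((⟨c, d⟩ : QuadraticAlgebra K a 0) - algebraMap K (QuadraticAlgebra K a 0) c) ^ 2 -
      algebraMap K (QuadraticAlgebra K a 0) (d ^ 2 * a) = 0 := by
  ext
  · simp [pow_two]
    ring
  · simp [pow_two]

/-- the plane model -/
noncomputable def plane {k : Type} [CommRing k] (A B f : k[X]) (ℓ : ℕ) : k[X][X] :=
  (X ^ ℓ - C A) ^ 2 - C (B ^ 2 * f)

theorem plane_monic {k : Type} [CommRing k] [Nontrivial k] (A B f : k[X]) {ℓ : ℕ} (hℓ : 0 < ℓ) :
    (plane A B f ℓ).Monic ∧ (plane A B f ℓ).natDegree = 2 * ℓ := by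
  have h1 : (X ^ ℓ - C A : k[X][X]).Monic := monic_X_pow_sub_C A (by omega)
  have h2 : ((X ^ ℓ - C A : k[X][X]) ^ 2).Monic := h1.pow 2
  have h3 : ((X ^ ℓ - C A : k[X][X]) ^ 2).natDegree = 2 * ℓ := by
    rw [h1.natDegree_pow, natDegree_X_pow_sub_C]
  have h4 : (C (B ^ 2 * f) : k[X][X]).degree < ((X ^ ℓ - C A : k[X][X]) ^ 2).degree := by
    refine degree_C_le.trans_lt ?_
    rw [degree_eq_natDegree h2.ne_zero, h3]
    exact_mod_cast (by omega : 0 < 2 * ℓ)
  refine ⟨h2.sub_of_left h4, ?_⟩
  unfold plane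
  rw [← h3]
  exact natDegree_eq_of_degree_eq (degree_sub_eq_left_of_degree_lt h4)

theorem plane_map {k k' : Type} [CommRing k] [CommRing k'] (φ : k →+* k') (A B f : k[X]) (ℓ : ℕ) :
    (plane A B f ℓ).map (mapRingHom φ) = plane (A.map φ) (B.map φ) (f.map φ) ℓ := by
  unfold plane
  simp

theorem irr_plane {k : Type} [Field k] (A B f : k[X]) (hf : f.natDegree = 3) (ℓ : ℕ)
    (hℓ : ℓ.Prime) (x1 : k) (hN : (A ^ 2 - B ^ 2 * f).rootMultiplicity x1 = 1) :
    Irreducible (plane A B f ℓ) := by
  classical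
  set N := A ^ 2 - B ^ 2 * f with hNdef
  have hN0 : N ≠ 0 := by
    intro h
    rw [h, rootMultiplicity_zero] at hN
    exact absurd hN (by norm_num)
  have hB : B ≠ 0 := by
    intro h
    have h1 : N = A ^ 2 := by rw [hNdef, h]; ring
    have h2 : A ≠ 0 := by
      intro h3
      rw [h1, h3] at hN0
      exact hN0 (by ring)
    rw [h1, rootMultiplicity_pow'] at hN
    omega
  obtain ⟨hPm, hPd⟩ := plane_monic A B f hℓ.pos
  let K := FractionRing k[X]
  let φ : k[X] →+* K := algebraMap k[X] K
  have hφ : Function.Injective φ := IsFractionRing.injective k[X] K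
  have hfact : Fact (∀ r : K, r ^ 2 ≠ φ f + 0 * r) := ⟨fun r => by
    rw [zero_mul, add_zero]
    exact cubic_not_sq f hf r⟩
  let L := QuadraticAlgebra K (φ f) 0
  let g : L := ⟨φ A, φ B⟩
  have hg : ∀ u : L, u ^ ℓ ≠ g := by
    intro u hu
    have h1 : QuadraticAlgebra.norm u ^ ℓ = φ N := by
      rw [← map_pow, hu, QuadraticAlgebra.norm_def]
      simp only [g, hNdef, map_sub, map_mul, map_pow]
      ring
    obtain ⟨n, hn⟩ := IsIntegrallyClosed.exists_algebraMap_eq_of_isIntegral_pow (R := k[X])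
      (x := QuadraticAlgebra.norm u) (n := ℓ) hℓ.pos (by rw [h1]; exact isIntegral_algebraMap)
    have h2 : n ^ ℓ = N := by
      apply hφ
      rw [map_pow]
      exact (congrArg (· ^ ℓ) hn).trans h1
    have h3 : n ≠ 0 := by
      intro h4
      rw [h4, zero_pow hℓ.pos.ne'] at h2
      exact hN0 h2.symm
    rw [← h2, rootMultiplicity_pow'] at hN
    exact hℓ.one_lt.ne' (Nat.eq_one_of_mul_eq_one_right hN)
  have hirr : Irreducible (X ^ ℓ - C g : L[X]) := X_pow_sub_C_irreducible_of_prime hℓ hg
  have : Fact (Irreducible (X ^ ℓ - C g : L[X])) := ⟨hirr⟩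
  let M := AdjoinRoot (X ^ ℓ - C g : L[X])
  let w : M := AdjoinRoot.root (X ^ ℓ - C g : L[X])
  have hw : w ^ ℓ = algebraMap L M g := by
    have h1 := AdjoinRoot.eval₂_root (X ^ ℓ - C g : L[X])
    rw [eval₂_sub, eval₂_X_pow, eval₂_C, sub_eq_zero] at h1
    exact h1
  have hLM : Module.finrank L M = ℓ := by
    have h1 := (AdjoinRoot.powerBasis hirr.ne_zero).finrank
    rw [AdjoinRoot.powerBasis_dim, natDegree_X_pow_sub_C] at h1
    exact h1
  have hKL : Module.finrank K L = 2 := QuadraticAlgebra.finrank_eq_two _ _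
  have : Module.Finite L M := (AdjoinRoot.powerBasis hirr.ne_zero).finite
  have : Module.Finite K M := Module.Finite.trans L M
  have hKM : Module.finrank K M = 2 * ℓ := by
    rw [← Module.finrank_mul_finrank K L M, hLM, hKL]
  -- `w` generates `M` over `K`
  have htop : (K⟮w⟯ : IntermediateField K M) = ⊤ := by
    have h0 : algebraMap L M g ∈ K⟮w⟯ := by
      rw [← hw]
      exact pow_mem (mem_adjoin_simple_self K w) ℓ
    have h1 : ∀ c : K, algebraMap L M (algebraMap K L c) ∈ K⟮w⟯ := by
      intro c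
      rw [← IsScalarTower.algebraMap_apply K L M]
      exact K⟮w⟯.algebraMap_mem c
    have hω : algebraMap L M (⟨0, 1⟩ : L) ∈ K⟮w⟯ := by
      have h2 : (⟨0, 1⟩ : L) = (g - algebraMap K L (φ A)) * algebraMap K L (φ B)⁻¹ := by
        have hB' : φ B ≠ 0 := by
          rw [Ne, map_eq_zero_iff φ hφ]
          exact hB
        exact qa_omega (φ f) (φ A) (φ B) hB'
      rw [h2, map_mul, map_sub]
      exact mul_mem (sub_mem h0 (h1 _)) (h1 _)
    have h2 : ∀ z : L, algebraMap L M z ∈ K⟮w⟯ := by
      intro z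
      have h3 : z = algebraMap K L z.re + algebraMap K L z.im * (⟨0, 1⟩ : L) := qa_eta (φ f) z
      rw [h3, map_add, map_mul]
      exact add_mem (h1 _) (mul_mem (h1 _) hω)
    rw [eq_top_iff]
    intro z _
    have h3 : z ∈ Algebra.adjoin L ({w} : Set M) := by
      have := AdjoinRoot.adjoinRoot_eq_top (f := (X ^ ℓ - C g : L[X]))
      rw [show Algebra.adjoin L ({w} : Set M) = ⊤ from this]
      exact Algebra.mem_top
    refine Algebra.adjoin_induction ?_ ?_ ?_ ?_ h3
    · intro x hx
      rw [Set.mem_singleton_iff] at hx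
      rw [hx]
      exact mem_adjoin_simple_self K w
    · exact h2
    · intro x y _ _ hx hy
      exact add_mem hx hy
    · intro x y _ _ hx hy
      exact mul_mem hx hy
  have hint : IsIntegral K w := IsIntegral.of_finite K w
  have hmd : (minpoly K w).natDegree = 2 * ℓ := by
    rw [← adjoin.finrank hint, htop, IntermediateField.finrank_top', hKM]
  have hPK : ((plane A B f ℓ).map φ).Monic := hPm.map φ
  have hev : aeval w ((plane A B f ℓ).map φ) = 0 := by
    unfold plane
    simp only [Polynomial.map_sub, Polynomial.map_pow, map_X, map_C, map_sub, map_pow, aeval_X,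
      aeval_C, hw]
    rw [IsScalarTower.algebraMap_apply K L M, IsScalarTower.algebraMap_apply K L M, ← map_sub,
      ← map_pow, ← map_sub]
    convert map_zero (algebraMap L M)
    rw [map_mul, map_pow]
    exact qa_ev (φ f) (φ A) (φ B)
  have hmin : minpoly K w = (plane A B f ℓ).map φ := by
    have h1 : minpoly K w ∣ (plane A B f ℓ).map φ := minpoly.dvd K w hev
    refine (eq_of_monic_of_dvd_of_natDegree_le (minpoly.monic hint) hPK h1 ?_).symm
    rw [hPm.natDegree_map, hPd, hmd]
  have h5 : Irreducible ((plane A B f ℓ).map φ) := hmin ▸ minpoly.irreducible hint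
  exact (hPm.irreducible_iff_irreducible_map_fraction_map (K := K)).2 h5

end Pool.Agent.J4H11.RC
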