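import Pool.Agent.R410.PW.Weil
import Pool.Agent.J4H11.RC.Irr

/-!
# Weil's bound for ramified cyclic covers of elliptic curves
-/

set_option autoImplicit false

namespace Pool.Agent.J4H11.RC

open Polynomial

theorem det_natDegree' {A : Type} [CommRing A] {n B : ℕ} (M : Matrix (Fin n) (Fin n) A[X])
    (hM : ∀ i j, (M i j).natDegree ≤ B) : M.det.natDegree ≤ n * B := by
  rw [Matrix.det_apply]
  refine natDegree_sum_le_of_forall_le _ _ fun σ _ => ?_
  refine (natDegree_smul_le _ _).trans ?_
  refine (natDegree_prod_le _ _).trans ?_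
  refine (Finset.sum_le_card_nsmul _ _ B fun i _ => hM _ _).trans ?_
  simp

/-- Weil's bound for plane curves, the constant depending only on the degrees
(after `Pool.Agent.N861.HX.WB`) -/
theorem weilU {k : Type} [Field k] [Fintype k] (K : Type) [Field K] [IsAlgClosed K] [Algebra k K]
    [Algebra.IsAlgebraic k K] (f : k[X][X]) (hfm : f.Monic) (D B : ℕ) (hfd : f.natDegree = D)
    (hD : 0 < D) (hd : ∀ i, (f.coeff i).natDegree ≤ B) (hDk : (D : k) ≠ 0)
    (hirr : Irreducible (f.map (mapRingHom (algebraMap k K)))) :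
    |({z : k × k | evalEval z.1 z.2 f = 0}.ncard : ℝ) - Fintype.card k| ≤
      R410.PW.WC D B (2 * D * B) * √(Fintype.card k : ℝ) := by
  classical
  have hirrk : Irreducible f := hfm.irreducible_of_irreducible_map _ _ hirr
  set φ := algebraMap k[X] (RatFunc k) with hφ
  have hφi : Function.Injective φ := IsFractionRing.injective k[X] (RatFunc k)
  have hirrK : Irreducible (f.map φ) :=
    (hfm.irreducible_iff_irreducible_map_fraction_map (K := RatFunc k)).1 hirrk
  have hder : derivative f ≠ 0 := by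
    intro h0
    have h1 := congrArg (fun p => coeff p (D - 1)) h0
    simp only [coeff_derivative, coeff_zero] at h1
    rw [show D - 1 + 1 = D by omega, ← hfd, coeff_natDegree, hfm.leadingCoeff, one_mul, hfd] at h1
    have h2 : ((D : ℕ) : k[X]) = 0 := by
      rw [← h1]
      push_cast [Nat.cast_sub hD]
      ring
    rw [← C_eq_natCast, C_eq_zero] at h2
    exact hDk h2
  have hsep : (f.map φ).Separable := by
    rw [separable_iff_derivative_ne_zero hirrK, derivative_map]
    rw [Ne, Polynomial.map_eq_zero_iff hφi]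
    exact hder
  set m := (derivative f).natDegree with hm
  have hmD : m ≤ D := (natDegree_derivative_le f).trans (by omega)
  obtain ⟨δ, hδ⟩ : ∃ δ, δ = resultant f (derivative f) D m := ⟨_, rfl⟩
  have hδ0 : δ ≠ 0 := by
    intro h0
    have h1 := resultant_ne_zero (f.map φ) ((derivative f).map φ) (by
      rw [← derivative_map]; exact hsep)
    rw [natDegree_map_eq_of_injective hφi, natDegree_map_eq_of_injective hφi, hfd, ← hm,
      resultant_map_map, ← hδ, h0, map_zero] at h1
    exact h1 rfl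
  obtain ⟨p, q, -, -, hpq⟩ := exists_mul_add_mul_eq_C_resultant (m := D) (n := m) f (derivative f)
    hfd.le le_rfl (Or.inl (by omega))
  rw [← hδ] at hpq
  have hco : ∀ j, ((derivative f).coeff j).natDegree ≤ B := by
    intro j
    rw [coeff_derivative]
    have : ((j : k[X]) + 1) = C ((j : k) + 1) := by simp
    rw [this]
    exact (natDegree_mul_C_le _ _).trans (hd _)
  have hδd : δ.natDegree ≤ 2 * D * B := by
    rw [hδ, resultant]
    refine (det_natDegree' (B := B) _ ?_).trans ?_
    · intro i j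
      rw [sylvester, Matrix.of_apply]
      refine Fin.addCases (fun j => ?_) (fun j => ?_) j
      · rw [Fin.addCases_left]
        split_ifs
        · exact hco _
        · simp
      · rw [Fin.addCases_right]
        split_ifs
        · exact hd _
        · simp
    · exact Nat.mul_le_mul_right _ (by omega)
  have hAB : p * f + q * derivative f = C δ := by rw [← hpq]; ring
  have hw := R410.PW.weil K hfm (by omega) hAB hδ0 hδd (d := B) hd hirr
  rw [hfd, Nat.card_eq_fintype_card] at hw
  exact hw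

theorem plane_eq {k : Type} [CommRing k] (A B f : k[X]) (ℓ : ℕ) :
    plane A B f ℓ = X ^ (2 * ℓ) - C (2 * A) * X ^ ℓ + C (A ^ 2 - B ^ 2 * f) := by
  unfold plane
  have h2 : (C 2 : k[X][X]) = 2 := C_ofNat 2
  simp only [C_mul, h2, C_sub, C_pow]
  ring

theorem plane_coeff {k : Type} [Field k] (A B f : k[X]) (ℓ D : ℕ) (hA : A.natDegree ≤ D)
    (hB : B.natDegree ≤ D) (hf : f.natDegree = 3) (i : ℕ) :
    ((plane A B f ℓ).coeff i).natDegree ≤ 2 * D + 3 := by
  rw [plane_eq, coeff_add, coeff_sub, coeff_X_pow, coeff_C_mul, coeff_X_pow, coeff_C]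
  refine (natDegree_add_le _ _).trans (max_le ?_ ?_)
  · refine (natDegree_sub_le _ _).trans (max_le ?_ ?_)
    · split_ifs <;> simp
    · split_ifs
      · rw [mul_one, show (2 : k[X]) = C (2 : k) from (C_ofNat (R := k) 2).symm]
        refine (natDegree_C_mul_le _ _).trans ?_
        omega
      · simp
  · split_ifs
    · refine (natDegree_sub_le _ _).trans (max_le ?_ ?_)
      · refine natDegree_pow_le.trans ?_
        have := Nat.mul_le_mul_left 2 hA
        omega
      · refine natDegree_mul_le.trans ?_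
        have h1 : (B ^ 2).natDegree ≤ 2 * D := natDegree_pow_le.trans (Nat.mul_le_mul_left 2 hB)
        omega
    · simp

theorem evalEval_plane {k : Type} [CommRing k] (A B f : k[X]) (ℓ : ℕ) (x w : k) :
    evalEval x w (plane A B f ℓ) = (w ^ ℓ - A.eval x) ^ 2 - (B.eval x) ^ 2 * f.eval x := by
  unfold plane
  simp [evalEval]

/-- the constant -/
def CW (ℓ D : ℕ) : ℕ := R410.PW.WC (2 * ℓ) (2 * D + 3) (2 * (2 * ℓ) * (2 * D + 3)) + 2 * ℓ * D

/-- Weil's bound for the number of points of `y² = f(x)`, `w ^ ℓ = A(x) + B(x) y` -/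
theorem weil_cover {k : Type} [Field k] [Fintype k] (K : Type) [Field K] [IsAlgClosed K]
    [Algebra k K] [Algebra.IsAlgebraic k K] (A B f : k[X]) (D ℓ : ℕ) (hℓ : ℓ.Prime)
    (hA : A.natDegree ≤ D) (hB : B.natDegree ≤ D) (hf : f.natDegree = 3)
    (hℓk : ((2 * ℓ : ℕ) : k) ≠ 0) (x1 : K)
    (hN : ((A ^ 2 - B ^ 2 * f).map (algebraMap k K)).rootMultiplicity x1 = 1) :
    ({z : k × k × k | z.2.1 ^ 2 = f.eval z.1 ∧
      z.2.2 ^ ℓ = A.eval z.1 + B.eval z.1 * z.2.1}.ncard : ℝ) ≤
      Fintype.card k + CW ℓ D * √(Fintype.card k : ℝ) := by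
  classical
  have hB0 : B ≠ 0 := by
    intro h
    have h1 : A ^ 2 - B ^ 2 * f = A ^ 2 := by rw [h]; ring
    rw [h1, Polynomial.map_pow, rootMultiplicity_pow'] at hN
    omega
  have hirr : Irreducible ((plane A B f ℓ).map (mapRingHom (algebraMap k K))) := by
    rw [plane_map]
    refine irr_plane _ _ _ (by rw [natDegree_map, hf]) ℓ hℓ x1 ?_
    rw [← Polynomial.map_pow, ← Polynomial.map_pow, ← Polynomial.map_mul, ← Polynomial.map_sub]
    exact hN
  obtain ⟨hPm, hPd⟩ := plane_monic A B f hℓ.pos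
  have hw := weilU K (plane A B f ℓ) hPm (2 * ℓ) (2 * D + 3) hPd (by have := hℓ.pos; omega)
    (plane_coeff A B f ℓ D hA hB hf) hℓk hirr
  set Pl : Set (k × k) := {z : k × k | evalEval z.1 z.2 (plane A B f ℓ) = 0} with hPl
  set T : Set (k × k × k) := {z : k × k × k | z.2.1 ^ 2 = f.eval z.1 ∧
      z.2.2 ^ ℓ = A.eval z.1 + B.eval z.1 * z.2.1} with hT
  have hTfin : T.Finite := Set.toFinite _
  -- the part with `B(x) ≠ 0`
  have h1 : {z ∈ T | B.eval z.1 ≠ 0}.ncard ≤ Pl.ncard := by
    refine Set.ncard_le_ncard_of_injOn (fun z => (z.1, z.2.2)) ?_ ?_ (Set.toFinite _)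
    · rintro ⟨x, y, w⟩ ⟨⟨h1, h2⟩, h3⟩
      simp only at h1 h2 h3
      show evalEval x w (plane A B f ℓ) = 0
      rw [evalEval_plane, h2]
      linear_combination (B.eval x) ^ 2 * h1
    · rintro ⟨x, y, w⟩ ⟨⟨h1, h2⟩, h3⟩ ⟨x', y', w'⟩ ⟨⟨h1', h2'⟩, h3'⟩ h
      simp only [Prod.mk.injEq] at h h1 h2 h3 h1' h2' h3'
      obtain ⟨rfl, rfl⟩ := h
      have h4 : B.eval x * y = B.eval x * y' := by linear_combination h2' - h2
      have h5 : y = y' := mul_left_cancel₀ h3 h4
      subst h5
      rfl
  -- the part with `B(x) = 0`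
  have h2 : {z ∈ T | B.eval z.1 = 0}.ncard ≤ 2 * ℓ * D := by
    let S : Finset (k × k × k) := B.roots.toFinset.biUnion (fun x =>
      ((X ^ 2 - C (f.eval x) : k[X]).roots.toFinset).biUnion (fun y =>
        ((X ^ ℓ - C (A.eval x) : k[X]).roots.toFinset).image (fun w => (x, y, w))))
    have hS : {z ∈ T | B.eval z.1 = 0} ⊆ (S : Set (k × k × k)) := by
      rintro ⟨x, y, w⟩ ⟨⟨h1, h2⟩, h3⟩
      simp only at h1 h2 h3
      rw [h3, zero_mul, add_zero] at h2
      simp only [S, Finset.coe_biUnion, Set.mem_iUnion, Finset.mem_coe, Multiset.mem_toFinset,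
        exists_prop, Finset.coe_image, Set.mem_image]
      refine ⟨x, (mem_roots hB0).2 h3, y, ?_, w, ?_, rfl⟩
      · rw [mem_roots (X_pow_sub_C_ne_zero two_pos _), IsRoot.def]
        simp [h1]
      · rw [mem_roots (X_pow_sub_C_ne_zero hℓ.pos _), IsRoot.def]
        simp [h2]
    have hS2 : S.card ≤ 2 * ℓ * D := by
      refine Finset.card_biUnion_le.trans ?_
      refine (Finset.sum_le_card_nsmul _ _ (2 * ℓ) fun x _ => ?_).trans ?_
      · refine Finset.card_biUnion_le.trans ?_
        refine (Finset.sum_le_card_nsmul _ _ ℓ fun y _ => ?_).trans ?_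
        · refine Finset.card_image_le.trans ?_
          refine (Multiset.toFinset_card_le _).trans ((card_roots' _).trans ?_)
          rw [natDegree_X_pow_sub_C]
        · rw [smul_eq_mul]
          apply Nat.mul_le_mul_right
          refine (Multiset.toFinset_card_le _).trans ((card_roots' _).trans ?_)
          rw [natDegree_X_pow_sub_C]
      · rw [smul_eq_mul, mul_comm]
        apply Nat.mul_le_mul_left
        exact (Multiset.toFinset_card_le _).trans ((card_roots' _).trans hB)
    calc _ ≤ (S : Set (k × k × k)).ncard := Set.ncard_le_ncard hS (Finset.finite_toSet _)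
      _ = S.card := Set.ncard_coe_finset _
      _ ≤ _ := hS2
  have h3 : T.ncard ≤ Pl.ncard + 2 * ℓ * D := by
    have h4 : T ⊆ {z ∈ T | B.eval z.1 ≠ 0} ∪ {z ∈ T | B.eval z.1 = 0} := by
      intro z hz
      by_cases h : B.eval z.1 = 0
      · exact Or.inr ⟨hz, h⟩
      · exact Or.inl ⟨hz, h⟩
    refine (Set.ncard_le_ncard h4 (Set.toFinite _)).trans ((Set.ncard_union_le _ _).trans ?_)
    omega
  have h4 : (T.ncard : ℝ) ≤ Pl.ncard + 2 * ℓ * D := by exact_mod_cast h3
  have h5 := (abs_le.1 hw).2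
  have h6 : (1 : ℝ) ≤ √(Fintype.card k : ℝ) := by
    rw [Real.one_le_sqrt]
    exact_mod_cast Fintype.card_pos
  have h7 : (2 * ℓ * D : ℝ) ≤ 2 * ℓ * D * √(Fintype.card k : ℝ) :=
    le_mul_of_one_le_right (by positivity) h6
  unfold CW
  push_cast
  linarith

end Pool.Agent.J4H11.RC
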