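import Pool.Agent.J4H11.RC.TrZ
import Pool.Agent.J4H11.RC.Wl

/-!
# Points of an elliptic curve over an extension field
-/

set_option autoImplicit false

namespace Pool.Agent.J4H11.RC

open MvPolynomial WeierstrassCurve Pool.Agent.H901R3.MS

section
variable {k K : Type} [Field k] [Field K] [Algebra k K] {a b : k}

theorem eqn_map {x y : k} (h : Eqn a b x y) :
    Eqn (algebraMap k K a) (algebraMap k K b) (algebraMap k K x) (algebraMap k K y) := by
  unfold Eqn at h ⊢
  rw [← map_pow, h]
  simp only [map_add, map_mul, map_pow]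

theorem disc_map (h : Disc a b) : Disc (algebraMap k K a) (algebraMap k K b) := by
  unfold Disc at h ⊢
  have h1 : (2 : K) * (4 * algebraMap k K a ^ 3 + 27 * algebraMap k K b ^ 2) =
      algebraMap k K (2 * (4 * a ^ 3 + 27 * b ^ 2)) := by
    simp only [map_add, map_mul, map_pow, map_ofNat]
  rw [h1]
  exact (map_ne_zero _).2 h

/-- the point of the curve over the extension -/
noncomputable def emb0 (hD : Disc a b) : Pt a b → Pt (algebraMap k K a) (algebraMap k K b)
  | Affine.Point.zero => Affine.Point.zero
  | Affine.Point.some x y h => Affine.Point.some (algebraMap k K x) (algebraMap k K y)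
      ((nonsingular_iff (disc_map hD)).2 (eqn_map (eqn_of h)))

/-- the homomorphism `E(k) → E(K)` -/
noncomputable def emb (K : Type) [Field K] [Algebra k K] [DecidableEq k] [DecidableEq K]
    (hD : Disc a b) : Pt a b →+ Pt (algebraMap k K a) (algebraMap k K b) where
  toFun := emb0 hD
  map_zero' := rfl
  map_add' := by
    rintro (_ | ⟨x₁, y₁, h₁⟩) Q
    · show emb0 hD (0 + Q) = 0 + emb0 hD Q
      rw [zero_add, zero_add]
    · rcases Q with _ | ⟨x₂, y₂, h₂⟩
      · show emb0 hD (_ + 0) = _ + 0
        rw [add_zero, add_zero]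
      · have h₁' := (nonsingular_iff (disc_map (K := K) hD)).2 (eqn_map (K := K) (eqn_of h₁))
        have h₂' := (nonsingular_iff (disc_map (K := K) hD)).2 (eqn_map (K := K) (eqn_of h₂))
        show emb0 hD (_ + _) = Affine.Point.some _ _ h₁' + Affine.Point.some _ _ h₂'
        by_cases hx : x₁ = x₂
        · by_cases hy : y₁ = -y₂
          · rw [add_opp h₁ h₂ hx hy, add_opp h₁' h₂' (by rw [hx]) (by rw [hy, map_neg])]
            rfl
          · obtain ⟨h₃, e⟩ := add_dbl h₁ h₂ hx hy _ _ _ rfl rfl rfl
            obtain ⟨h₃', e'⟩ := add_dbl h₁' h₂' (by rw [hx])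
              (by rw [← map_neg]; exact fun h => hy ((algebraMap k K).injective h)) _ _ _ rfl rfl rfl
            rw [e, e']
            show Affine.Point.some _ _ _ = _
            congr 1 <;> simp only [map_sub, map_neg, map_add, map_mul, map_div₀, map_pow, map_ofNat]
        · obtain ⟨h₃, e⟩ := add_ne h₁ h₂ hx _ _ _ rfl rfl rfl
          obtain ⟨h₃', e'⟩ := add_ne h₁' h₂'
            (fun h => hx ((algebraMap k K).injective h)) _ _ _ rfl rfl rfl
          rw [e, e']
          show Affine.Point.some _ _ _ = _
          congr 1 <;> simp only [map_sub, map_neg, map_add, map_mul, map_div₀, map_pow, map_ofNat]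

variable [DecidableEq k] [DecidableEq K]

theorem emb_some (hD : Disc a b) (x y : k) (h : (CV a b).toAffine.Nonsingular x y) :
    emb K hD (Affine.Point.some x y h) = Affine.Point.some (algebraMap k K x) (algebraMap k K y)
      ((nonsingular_iff (disc_map hD)).2 (eqn_map (eqn_of h))) := rfl

theorem emb_inj (hD : Disc a b) : Function.Injective (emb K hD) := by
  rw [injective_iff_map_eq_zero]
  rintro (_ | ⟨x₁, y₁, h₁⟩) h
  · rfl
  · rw [emb_some] at h
    exact absurd h (by intro h; cases h)

/-- the value of a polynomial at a point (`0` at infinity) -/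
noncomputable def gv {a' b' : K} (G : MvPolynomial (Fin 2) k) : Pt a' b' → K
  | Affine.Point.zero => 0
  | Affine.Point.some x y _ => aeval ![x, y] G

omit [DecidableEq k] [DecidableEq K] in
theorem gv_some {a' b' : K} (G : MvPolynomial (Fin 2) k) (x y : K)
    (h : (CV a' b').toAffine.Nonsingular x y) : gv G (Affine.Point.some x y h) = aeval ![x, y] G :=
  rfl

omit [DecidableEq k] [DecidableEq K] in
theorem gv_zeros (G : MvPolynomial (Fin 2) k) (x y : K) (hz : SimpleZero a b G x y)
    (D : ℕ) (hD : G.totalDegree ≤ D) :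
    {P : Pt (algebraMap k K a) (algebraMap k K b) | gv G P = 0}.Finite ∧
    {P : Pt (algebraMap k K a) (algebraMap k K b) | gv G P = 0}.ncard ≤ 8 * D + 7 := by
  classical
  obtain ⟨h1, h2⟩ := ZZ_card a b G x y hz D hD
  let f : Pt (algebraMap k K a) (algebraMap k K b) → Option (K × K) := fun P =>
    match P with
    | Affine.Point.zero => none
    | Affine.Point.some x y _ => some (x, y)
  have hinj : Function.Injective f := by
    rintro (_ | ⟨x, y, h⟩) (_ | ⟨x', y', h'⟩) he
    · rfl
    · simp [f] at he
    · simp [f] at he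
    · simp only [f, Option.some.injEq, Prod.mk.injEq] at he
      obtain ⟨rfl, rfl⟩ := he
      rfl
  have himg : f '' {P | gv G P = 0} ⊆ insert none (some '' ZZ a b G K) := by
    rintro _ ⟨P, hP, rfl⟩
    rcases P with _ | ⟨x, y, h⟩
    · exact Set.mem_insert _ _
    · right
      exact ⟨(x, y), ⟨eqn_of h, hP⟩, rfl⟩
  have hfin : (insert none (some '' ZZ a b G K) : Set (Option (K × K))).Finite :=
    (h1.image _).insert _
  have hf2 : (f '' {P | gv G P = 0}).Finite := hfin.subset himg
  refine ⟨hf2.of_finite_image hinj.injOn, ?_⟩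
  rw [← Set.ncard_image_of_injective _ hinj]
  refine (Set.ncard_le_ncard himg hfin).trans ?_
  refine (Set.ncard_insert_le _ _).trans ?_
  have := Set.ncard_image_le (f := some) h1
  omega

end

end Pool.Agent.J4H11.RC
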