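import Pool.Agent.J4H11.RC.Emb

/-!
# The correlation of a function with its translate

For a function `G` with a simple zero on the elliptic curve and all but few translations `h`, the
function `G ^ (ℓ - 1) G(· + h)` has a simple zero whose negative is not a zero, so that the cover
`w ^ ℓ = G ^ (ℓ - 1) G(· + h)` is absolutely irreducible.
-/

set_option autoImplicit false

namespace Pool.Agent.J4H11.RC

open MvPolynomial WeierstrassCurve Pool.Agent.H901R3.MS

section
variable {k K : Type} [Field k] [Field K] [Algebra k K] {a b : k}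

/-- the function `G ^ (ℓ - 1) G(· + h)`, up to an `ℓ`-th power -/
noncomputable def Lh (G : MvPolynomial (Fin 2) k) (D ℓ : ℕ) (xh yh : k) : MvPolynomial (Fin 2) k :=
  G ^ (ℓ - 1) * trans xh yh (3 * D * ℓ) G

theorem Lh_deg (G : MvPolynomial (Fin 2) k) (D ℓ : ℕ) (hG : G.totalDegree ≤ D) (hℓ : 1 ≤ ℓ)
    (xh yh : k) : (Lh G D ℓ xh yh).totalDegree ≤ 4 * D * ℓ := by
  unfold Lh
  refine (totalDegree_mul _ _).trans ?_
  have h1 := totalDegree_pow G (ℓ - 1)
  have h2 := totalDegree_trans xh yh (3 * D * ℓ) G (by nlinarith)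
  obtain ⟨m, rfl⟩ : ∃ m, ℓ = m + 1 := ⟨ℓ - 1, by omega⟩
  simp only [Nat.add_sub_cancel] at h1 ⊢
  have h3 : m * G.totalDegree ≤ m * D := Nat.mul_le_mul_left _ hG
  nlinarith

theorem good_h [Fintype k] [DecidableEq k] [IsAlgClosed K] [Algebra.IsAlgebraic k K]
    [DecidableEq K] (hD : Disc a b) (G : MvPolynomial (Fin 2) k) (D ℓ : ℕ)
    (hG : G.totalDegree ≤ D) (hℓ : ℓ.Prime) (hℓk : ((2 * ℓ : ℕ) : k) ≠ 0) (xS yS : K)
    (hz : SimpleZero a b G xS yS)
    (hS : (CV (algebraMap k K a) (algebraMap k K b)).toAffine.Nonsingular xS yS) (xh yh : k)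
    (hh : (CV a b).toAffine.Nonsingular xh yh)
    (h1 : gv G (Affine.Point.some xS yS hS - emb K hD (Affine.Point.some xh yh hh)) ≠ 0)
    (h2 : gv G (emb K hD (Affine.Point.some xh yh hh) - Affine.Point.some xS yS hS) ≠ 0)
    (h3 : gv G (emb K hD (Affine.Point.some xh yh hh) + emb K hD (Affine.Point.some xh yh hh) -
      Affine.Point.some xS yS hS) ≠ 0) :
    ({z : k × k × k | z.2.1 ^ 2 = (cub a b).eval z.1 ∧
      z.2.2 ^ ℓ = aeval ![z.1, z.2.1] (Lh G D ℓ xh yh)}.ncard : ℝ) ≤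
      Fintype.card k + CW ℓ (8 * D * ℓ) * √(Fintype.card k : ℝ) := by
  have hM : 3 * G.totalDegree ≤ 3 * D * ℓ := by have := hℓ.pos; nlinarith
  have hD' := disc_map (K := K) hD
  rw [emb_some] at h1 h2 h3
  have hh' := (nonsingular_iff hD').2 (eqn_map (K := K) (eqn_of hh))
  change gv G (_ - Affine.Point.some _ _ hh') ≠ 0 at h1
  change gv G (Affine.Point.some _ _ hh' - _) ≠ 0 at h2
  change gv G (Affine.Point.some _ _ hh' + Affine.Point.some _ _ hh' - _) ≠ 0 at h3
  set xh' := algebraMap k K xh with hxh'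
  set yh' := algebraMap k K yh with hyh'
  set S : Pt (algebraMap k K a) (algebraMap k K b) := Affine.Point.some xS yS hS with hSdef
  set H : Pt (algebraMap k K a) (algebraMap k K b) := Affine.Point.some xh' yh' hh' with hHdef
  obtain ⟨S1, hS1⟩ : ∃ S1, S1 = S - H := ⟨_, rfl⟩
  rw [← hS1] at h1
  rcases S1 with _ | ⟨x1, y1, hs1⟩
  · exact absurd rfl h1
  rw [gv_some] at h1
  have hns1 : (CV (algebraMap k K a) (algebraMap k K b)).toAffine.Nonsingular x1 (-y1) := by
    rw [nonsingular_iff hD']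
    have := eqn_of hs1
    unfold Eqn at this ⊢
    rw [neg_sq]
    exact this
  have hneg : H - S = Affine.Point.some x1 (-y1) hns1 := by
    rw [← neg_some' hs1 hns1, hS1]
    abel
  have hne : x1 ≠ xh' := by
    intro he
    have e1 := eqn_of hs1
    have e2 := eqn_of hh'
    unfold Eqn at e1 e2
    have e3 : (y1 - yh') * (y1 + yh') = 0 := by
      rw [he] at e1
      linear_combination e1 - e2
    rcases mul_eq_zero.1 e3 with h | h
    · have hy : y1 = yh' := sub_eq_zero.1 h
      have h4 : (Affine.Point.some x1 y1 hs1 : Pt (algebraMap k K a) (algebraMap k K b)) = H := by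
        rw [hHdef]
        congr 1
      rw [h4] at hS1
      have h5 : H + H - S = 0 := by
        have h6 : S = H + H := by rw [eq_sub_iff_add_eq] at hS1; exact hS1.symm
        rw [h6]; abel
      rw [h5] at h3
      exact h3 rfl
    · have hy : -y1 = yh' := by linear_combination -h
      have h4 : (Affine.Point.some x1 (-y1) hns1 : Pt (algebraMap k K a) (algebraMap k K b)) =
          H := by
        rw [hHdef]
        congr 1
      rw [h4] at hneg
      have h5 : S = 0 := by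
        have h6 : H = S + H := by rw [← sub_eq_iff_eq_add']; exact hneg
        exact left_eq_add.1 (by rw [add_comm]; exact h6)
      rw [hSdef] at h5
      cases h5
  obtain ⟨hs3, e3⟩ := add_ne hs1 hh' hne _ _ _ rfl rfl rfl
  have e4 : (Affine.Point.some x1 y1 hs1 : Pt (algebraMap k K a) (algebraMap k K b)) +
      Affine.Point.some xh' yh' hh' = S := by
    rw [hS1, ← hHdef]
    abel
  rw [e4, hSdef] at e3
  have e5 : xS = ((y1 - yh') / (x1 - xh')) ^ 2 - x1 - xh' ∧
      yS = -((y1 - yh') / (x1 - xh') * (((y1 - yh') / (x1 - xh')) ^ 2 - x1 - xh' - x1) + y1) := by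
    injection e3 with h5 h6
    exact ⟨h5, h6⟩
  have hz1 : SimpleZero a b (trans xh yh (3 * D * ℓ) G) x1 y1 := by
    refine simpleZero_trans a b xh yh x1 y1 xS yS hne (eqn_of hs1) (eqn_of hh) e5.1 ?_ _ G hM hz
    rw [e5.2, e5.1]
  have hzL : SimpleZero a b (Lh G D ℓ xh yh) x1 y1 := simpleZero_mul a b G _ (ℓ - 1) x1 y1 hz1 h1
  have hne' : aeval ![x1, -y1] (Lh G D ℓ xh yh) ≠ 0 := by
    unfold Lh
    rw [map_mul, map_pow, trans_at xh yh x1 (-y1) _ _ hne rfl rfl _ G hM]
    rw [hneg, gv_some] at h2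
    refine mul_ne_zero (pow_ne_zero _ h2) (mul_ne_zero (pow_ne_zero _ (sub_ne_zero.2 hne)) ?_)
    obtain ⟨hs4, e6⟩ := add_ne hns1 hh' hne _ _ _ rfl rfl rfl
    have e7 : H + H - S = Affine.Point.some _ _ hs4 := by
      rw [← e6, ← hneg, ← hHdef]
      abel
    rw [e7, gv_some] at h3
    exact h3
  have hN := norm_simple a b (Lh G D ℓ xh yh) x1 y1 hzL hne'
  have hLd := Lh_deg G D ℓ hG hℓ.pos xh yh
  have hcd := cub_natDegree a b
  have hA := evA_natDegree (cub a b) hcd (Lh G D ℓ xh yh) _ hLd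
  have hB := evB_natDegree (cub a b) hcd (Lh G D ℓ xh yh) _ hLd
  have key := weil_cover K (evA (cub a b) (Lh G D ℓ xh yh)) (evB (cub a b) (Lh G D ℓ xh yh))
    (cub a b) (8 * D * ℓ) ℓ hℓ (hA.trans (by linarith)) (hB.trans (by linarith)) hcd hℓk x1 hN
  have hset : {z : k × k × k | z.2.1 ^ 2 = (cub a b).eval z.1 ∧
      z.2.2 ^ ℓ = aeval ![z.1, z.2.1] (Lh G D ℓ xh yh)} =
      {z : k × k × k | z.2.1 ^ 2 = (cub a b).eval z.1 ∧
      z.2.2 ^ ℓ = (evA (cub a b) (Lh G D ℓ xh yh)).eval z.1 +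
        (evB (cub a b) (Lh G D ℓ xh yh)).eval z.1 * z.2.1} := by
    ext ⟨x, y, w⟩
    simp only [Set.mem_setOf_eq]
    refine and_congr_right fun hy => ?_
    rw [pair_eval (cub a b) (Lh G D ℓ xh yh) x y (by rw [Polynomial.coe_aeval_eq_eval]; exact hy),
      Polynomial.coe_aeval_eq_eval]
  rw [hset]
  exact key

end

end Pool.Agent.J4H11.RC
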