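import Pool.Agent.J4H11.RC.Spec

/-!
# A simple zero along `E_i` at some point gives one at a generic point

If `F` vanishes at a point `V` of `E_1 × ... × E_r` and its derivative along `E_i` does not, then
there is such a point (over a larger field) whose other coordinates are algebraically independent.
The proof uses the derivation and Krull's intersection theorem: a function `p` of the other
coordinates which is divisible by `F` in the local ring at `V` is divisible by all powers of `F`.
-/

set_option autoImplicit false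

namespace Pool.Agent.J4H11.RC

open MvPolynomial TrivSqZeroExt

section
variable {r : ℕ} (i : Fin r)

theorem wp_mul {R : Type} [CommRing R] (a : Fin r → R) (H H' : MvPolynomial (Fin r × Fin 2) R) :
    Wp i a (H * H') = Wp i a H * H' + H * Wp i a H' := by
  unfold Wp
  rw [pderiv_mul, pderiv_mul]
  ring

theorem wp_add {R : Type} [CommRing R] (a : Fin r → R) (H H' : MvPolynomial (Fin r × Fin 2) R) :
    Wp i a (H + H') = Wp i a H + Wp i a H' := by
  unfold Wp
  rw [map_add, map_add]
  ring

theorem wp_sub {R : Type} [CommRing R] (a : Fin r → R) (H H' : MvPolynomial (Fin r × Fin 2) R) :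
    Wp i a (H - H') = Wp i a H - Wp i a H' := by
  unfold Wp
  rw [map_sub, map_sub]
  ring

theorem wp_C {R : Type} [CommRing R] (a : Fin r → R) (c : R) :
    Wp i a (C c : MvPolynomial (Fin r × Fin 2) R) = 0 := by
  unfold Wp
  rw [pderiv_C, pderiv_C]
  ring

theorem wp_pow {R : Type} [CommRing R] (a : Fin r → R) (H : MvPolynomial (Fin r × Fin 2) R)
    (n : ℕ) : Wp i a (H ^ (n + 1)) = (n + 1 : MvPolynomial (Fin r × Fin 2) R) * H ^ n * Wp i a H := by
  induction n with
  | zero => simp
  | succ n ih =>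
    rw [pow_succ, wp_mul, ih]
    push_cast
    ring

/-- the polynomials in the other `x`-coordinates -/
noncomputable def kap (i : Fin r) : MvPolynomial (Bi i) ℤ →+* MvPolynomial (Fin r × Fin 2) ℤ :=
  (rename (fun j : Bi i => ((j : Fin r), (0 : Fin 2)))).toRingHom

theorem kap_X (j : Bi i) : kap i (X j) = X ((j : Fin r), 0) := by
  simp [kap]

theorem kap_C (n : ℤ) : kap i (C n) = C n := by
  simp [kap]

theorem wp_kap (a : Fin r → ℤ) (Ψ : MvPolynomial (Bi i) ℤ) : Wp i a (kap i Ψ) = 0 := by
  induction Ψ using MvPolynomial.induction_on with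
  | C n => rw [kap_C, wp_C]
  | add p q hp hq => rw [map_add, wp_add, hp, hq, add_zero]
  | mul_X p j hp =>
    rw [map_mul, wp_mul, hp, kap_X, zero_mul, zero_add]
    have h1 : ∀ e : Fin 2, pderiv (i, e) (X ((j : Fin r), (0 : Fin 2)) :
        MvPolynomial (Fin r × Fin 2) ℤ) = 0 := by
      intro e
      rw [pderiv_X, Pi.single_eq_of_ne]
      intro h
      have h0 := congrArg Prod.fst h
      exact j.2 h0
    have h2 : Wp i a (X ((j : Fin r), (0 : Fin 2)) : MvPolynomial (Fin r × Fin 2) ℤ) = 0 := by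
      unfold Wp
      rw [h1, h1]
      ring
    rw [h2, mul_zero]

theorem sum_tangent {K : Type} [Field K] (a : Fin r → ℤ) (z t : Fin r × Fin 2 → K)
    (ht1 : t (i, 0) = 2 * z (i, 1)) (ht2 : t (i, 1) = 3 * z (i, 0) ^ 2 + (a i : K))
    (ht3 : ∀ j e, j ≠ i → t (j, e) = 0) (F : MvPolynomial (Fin r × Fin 2) ℤ) :
    ∑ v, t v * aeval z (pderiv v F) = aeval z (Wp i a F) := by
  rw [Fintype.sum_prod_type, Finset.sum_eq_single i]
  · rw [Fin.sum_univ_two, Wp, ht1, ht2]
    simp only [map_add, map_mul, map_pow, aeval_X, aeval_C]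
    simp
  · intro j _ hj
    rw [Finset.sum_eq_zero]
    intro e _
    rw [ht3 j e hj, zero_mul]
  · intro h
    exact absurd (Finset.mem_univ _) h

/-- the derivation respects the ideal of the product of the curves -/
theorem wp_ker {Ω : Type} [Field Ω] [CharZero Ω] [Algebra ℚ Ω] (a b : Fin r → ℤ)
    (xg yg : Fin r → Ω) (hx : AlgebraicIndependent ℚ xg)
    (hy : ∀ j, yg j ^ 2 = xg j ^ 3 + (a j : Ω) * xg j + (b j : Ω))
    (H : MvPolynomial (Fin r × Fin 2) ℤ) (hH : aeval (pv xg yg) H = 0) :
    aeval (pv xg yg) (Wp i a H) = 0 := by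
  classical
  set z := pv xg yg with hz
  set x' : Fin r → TrivSqZeroExt Ω Ω := fun j => if j = i then tx (xg i) (yg i) else inl (xg j)
    with hx'
  set y' : Fin r → TrivSqZeroExt Ω Ω := fun j => if j = i then ty (a i : Ω) (xg i) (yg i)
    else inl (yg j) with hy'
  set t : Fin r × Fin 2 → Ω := fun v => if v.1 = i then
      (if v.2 = 0 then 2 * yg i else 3 * xg i ^ 2 + (a i : Ω)) else 0 with ht
  have hcurve : ∀ j, y' j ^ 2 = x' j ^ 3 + (a j : TrivSqZeroExt Ω Ω) * x' j +
      (b j : TrivSqZeroExt Ω Ω) := by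
    intro j
    have ea : ((a j : ℤ) : TrivSqZeroExt Ω Ω) = inl ((a j : ℤ) : Ω) := by simp
    have eb : ((b j : ℤ) : TrivSqZeroExt Ω Ω) = inl ((b j : ℤ) : Ω) := by simp
    rw [ea, eb]
    by_cases hj : j = i
    · subst hj
      simp only [hx', hy', if_true]
      exact tan_curve _ _ _ _ (hy j)
    · simp only [hx', hy', if_neg hj]
      rw [inl_pow, inl_pow, ← inl_mul, ← inl_add, ← inl_add, hy j]
  have h1 := ker_lemma a b xg yg hx hy H hH x' y' hcurve
  set g : MvPolynomial (Fin r × Fin 2) ℤ →+* TrivSqZeroExt Ω Ω := (aeval (pv x' y')).toRingHom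
    with hg
  have hgX : ∀ v, g (X v) = inl (z v) + inr (t v) := by
    rintro ⟨j, e⟩
    rw [hg]
    simp only [AlgHom.toRingHom_eq_coe, RingHom.coe_coe, aeval_X]
    by_cases hj : j = i
    · subst hj
      rcases fin2 e with rfl | rfl
      · rw [hz, pv_zero, pv_zero]
        simp [ht, hx', tx]
      · rw [hz, pv_one, pv_one]
        simp [ht, hy', ty]
    · rcases fin2 e with rfl | rfl
      · rw [hz, pv_zero, pv_zero]
        simp [ht, hx', hj]
      · rw [hz, pv_one, pv_one]
        simp [ht, hy', hj]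
  have h2 := hom_tangent g z t hgX H
  have h3 : g H = 0 := h1
  rw [h3] at h2
  have h4 := congrArg TrivSqZeroExt.snd h2
  rw [snd_zero, snd_add, snd_inl, snd_inr, zero_add] at h4
  rw [← sum_tangent i a z t (by simp [ht, hz, pv]) (by simp [ht, hz, pv])
    (fun j e hj => by simp [ht, hj]) H]
  exact h4.symm

/-- the induction: divisibility by `F` implies divisibility by all powers of `F` -/
theorem div_pow_step {Ω K : Type} [Field Ω] [CharZero Ω] [Algebra ℚ Ω] [Field K] [CharZero K]
    (a b : Fin r → ℤ)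
    (xg yg : Fin r → Ω) (hx : AlgebraicIndependent ℚ xg)
    (hy : ∀ j, yg j ^ 2 = xg j ^ 3 + (a j : Ω) * xg j + (b j : Ω))
    (F : MvPolynomial (Fin r × Fin 2) ℤ) (x y : Fin r → K)
    (hyc : ∀ j, y j ^ 2 = x j ^ 3 + (a j : K) * x j + (b j : K))
    (hW : aeval (pv x y) (Wp i a F) ≠ 0) (Ψ : MvPolynomial (Bi i) ℤ)
    (s h : MvPolynomial (Fin r × Fin 2) ℤ) (hs : aeval (pv x y) s ≠ 0)
    (hsh : aeval (pv xg yg) (s * kap i Ψ - F * h) = 0) (n : ℕ) :
    ∃ s' h' : MvPolynomial (Fin r × Fin 2) ℤ, aeval (pv x y) s' ≠ 0 ∧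
      aeval (pv xg yg) (s' * kap i Ψ - F ^ (n + 1) * h') = 0 := by
  induction n with
  | zero => exact ⟨s, h, hs, by rw [zero_add, pow_one]; exact hsh⟩
  | succ n ih =>
    obtain ⟨s, h, hs, hsh⟩ := ih
    have hF0 : aeval (pv xg yg) F ≠ 0 := by
      intro h0
      have h1 := wp_ker i a b xg yg hx hy F h0
      exact hW (ker_lemma a b xg yg hx hy _ h1 x y hyc)
    have hD := wp_ker i a b xg yg hx hy _ hsh
    rw [wp_sub, wp_mul, wp_mul, wp_kap, mul_zero, add_zero, wp_pow] at hD
    simp only [map_sub, map_mul, map_add, map_pow, map_natCast, map_one] at hD hsh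
    set P := aeval (pv xg yg) (kap i Ψ)
    set f := aeval (pv xg yg) F
    set df := aeval (pv xg yg) (Wp i a F)
    set S := aeval (pv xg yg) s
    set dS := aeval (pv xg yg) (Wp i a s)
    set H := aeval (pv xg yg) h
    set dH := aeval (pv xg yg) (Wp i a h)
    refine ⟨s ^ 2 * (n + 1 : MvPolynomial (Fin r × Fin 2) ℤ) * Wp i a F,
      Wp i a s * h - s * Wp i a h, ?_, ?_⟩
    · simp only [map_mul, map_pow, map_add, map_natCast, map_one]
      refine mul_ne_zero (mul_ne_zero (pow_ne_zero _ hs) ?_) hW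
      exact_mod_cast Nat.succ_ne_zero n
    · simp only [map_sub, map_mul, map_add, map_pow, map_natCast, map_one]
      have h1 : f ^ n * (S * (n + 1) * df * H - f * (dS * H - S * dH)) = 0 := by
        linear_combination (-S) * hD + dS * hsh
      have h2 : S * (n + 1) * df * H - f * (dS * H - S * dH) = 0 := by
        rcases mul_eq_zero.1 h1 with h3 | h3
        · exact absurd h3 (pow_ne_zero _ hF0)
        · exact h3
      change S ^ 2 * (n + 1) * df * P - f ^ (n + 1 + 1) * (dS * H - S * dH) = 0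
      linear_combination S * (n + 1) * df * hsh + f ^ (n + 1) * h2

end

end Pool.Agent.J4H11.RC
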