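import Pool.Agent.H437R2.Man.MWCan
import Pool.Agent.H901R3.MS.All
import Pool.Agent.H925R3.RR.Final

/-!
# Heights on `E(ℚ)`
-/

set_option autoImplicit false

namespace Pool.Agent.J4H11.RC

open WeierstrassCurve Pool.Agent.H901R3.MS

/-- the logarithmic height of the `x`-coordinate, `0` for the point at infinity -/
noncomputable def hx {a b : ℚ} : Pt a b → ℝ
  | Affine.Point.zero => 0
  | Affine.Point.some x _ _ => Real.log (max (x.num.natAbs : ℝ) (x.den : ℝ))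

theorem htp_zero (a b : ℚ) :
    Pool.Agent.H925R3.RR.htp (0 : (Pool.Agent.H925R3.DC.crv ℚ a b).Point) = 0 := by
  classical
  unfold Pool.Agent.H925R3.RR.htp
  rw [if_pos rfl]

theorem htp_some (a b : ℚ) (x y : ℚ)
    (h : (Pool.Agent.H925R3.DC.crv ℚ a b).Nonsingular x y) :
    Pool.Agent.H925R3.RR.htp (Affine.Point.some x y h : (Pool.Agent.H925R3.DC.crv ℚ a b).Point) =
      Pool.Agent.H925R3.RR.ht x := by
  classical
  unfold Pool.Agent.H925R3.RR.htp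
  rw [if_neg (by intro h; cases h)]
  rfl

theorem hx_eq {a b : ℚ} (P : Pt a b) : hx P = Pool.Agent.H925R3.RR.htp (a := a) (b := b) P := by
  rcases P with _ | ⟨x, y, h⟩
  · exact (htp_zero a b).symm
  · refine Eq.trans ?_ (htp_some a b x y h).symm
    unfold Pool.Agent.H925R3.RR.ht
    show Real.log (max (x.num.natAbs : ℝ) (x.den : ℝ)) =
      Real.log ((max |x.num| (x.den : ℤ) : ℤ) : ℝ)
    congr 1
    push_cast
    rw [Nat.cast_natAbs]
    push_cast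
    rfl

theorem hx_nonneg {a b : ℚ} (P : Pt a b) : 0 ≤ hx P := by
  rcases P with _ | ⟨x, y, h⟩
  · exact le_refl _
  · apply Real.log_nonneg
    have h1 : (1 : ℝ) ≤ (x.den : ℝ) := by exact_mod_cast x.den_pos
    exact h1.trans (le_max_right _ _)

theorem par_hx (a b : ℤ) (hD : Disc (a : ℚ) (b : ℚ)) : ∃ C : ℝ, ∀ P Q : Pt (a : ℚ) (b : ℚ),
    |hx (P + Q) + hx (P - Q) - 2 * (hx P + hx Q)| ≤ C := by
  have hD' : 4 * a ^ 3 + 27 * b ^ 2 ≠ 0 := by
    intro h0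
    apply hD
    have : (4 * (a : ℚ) ^ 3 + 27 * (b : ℚ) ^ 2) = ((4 * a ^ 3 + 27 * b ^ 2 : ℤ) : ℚ) := by
      push_cast; ring
    rw [this, h0]
    simp
  obtain ⟨C1, h1⟩ := Pool.Agent.Helper94.RRHUP.hup Pool.Agent.H678RR.fsp Pool.Agent.H678RR.fdb
    Pool.Agent.H678RR.feq a b hD'
  obtain ⟨C2, h2⟩ := Pool.Agent.H769R2.rr_hdb Pool.Agent.H678RR.fdb
    Pool.Agent.H678RR.feq a b hD'
  have h1' : ∀ P Q : Pt (a : ℚ) (b : ℚ), hx (P + Q) + hx (P - Q) ≤ 2 * hx P + 2 * hx Q + C1 := by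
    intro P Q
    rw [hx_eq, hx_eq, hx_eq, hx_eq]
    exact h1 P Q
  have h2' : ∀ P : Pt (a : ℚ) (b : ℚ), 4 * hx P ≤ hx (P + P) + C2 := by
    intro P
    rw [hx_eq, hx_eq]
    exact h2 P
  have hC2 : 0 ≤ C2 := by
    have h3 := h2' 0
    rw [add_zero] at h3
    have : hx (0 : Pt (a : ℚ) (b : ℚ)) = 0 := rfl
    rw [this] at h3
    linarith
  refine ⟨|C1| + C2, fun P Q => ?_⟩
  rw [abs_le]
  constructor
  · have h3 := h1' (P + Q) (P - Q)
    have e1 : P + Q + (P - Q) = P + P := by abel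
    have e2 : P + Q - (P - Q) = Q + Q := by abel
    rw [e1, e2] at h3
    have h4 := h2' P
    have h5 := h2' Q
    have h6 := le_abs_self C1
    have h7 := abs_nonneg C1
    linarith
  · have h3 := h1' P Q
    have h6 := le_abs_self C1
    linarith

theorem embE (a b : ℤ) (hD : Disc (a : ℚ) (b : ℚ)) :
    ∃ (n : ℕ) (ψ : Pt (a : ℚ) (b : ℚ) →+ EuclideanSpace ℝ (Fin n)) (C : ℝ), 0 ≤ C ∧
      ∀ P, |‖ψ P‖ ^ 2 - hx P| ≤ C := by
  obtain ⟨C, hC⟩ := par_hx a b hD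
  obtain ⟨q, C', hq1, hq2, hq3⟩ := Pool.Agent.H437R2.Man.MW.canon (fun P => hx P) C
    (fun P => hx_nonneg P) hC
  have hfg : AddGroup.FG (Pt (a : ℚ) (b : ℚ)) := t_M1 a b hD
  obtain ⟨n, ψ, hψ⟩ := Pool.Agent.H437R2.Man.MW.embed hfg q hq2 hq3
  exact ⟨n, ψ, C', (abs_nonneg _).trans (hq1 0), fun P => by rw [hψ P]; exact hq1 P⟩

end Pool.Agent.J4H11.RC
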