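import Mathlib

/-!
# The number of elements of a finitely generated group in a ball
-/

set_option autoImplicit false

namespace Pool.Agent.J4H11.RC

open Module

theorem fg_structure {G : Type} [AddCommGroup G] [AddGroup.FG G] :
    ∃ (r : ℕ) (T : Type) (_ : AddCommGroup T) (_ : Fintype T), Nonempty (G ≃+ (Fin r → ℤ) × T) := by
  classical
  obtain ⟨n, ι, fι, p, hp, e, ⟨f⟩⟩ := AddCommGroup.equiv_free_prod_directSum_zmod G
  have : ∀ i, NeZero (p i ^ e i) := fun i => ⟨pow_ne_zero _ (hp i).ne_zero⟩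
  have hfin : Finite (Π₀ i, ZMod (p i ^ e i)) := inferInstance
  have hfin' : Finite (DirectSum ι fun i => ZMod (p i ^ e i)) := hfin
  have := Fintype.ofFinite (DirectSum ι fun i => ZMod (p i ^ e i))
  refine ⟨n, DirectSum ι fun i => ZMod (p i ^ e i), inferInstance, inferInstance, ⟨f.trans ?_⟩⟩
  exact AddEquiv.prodCongr (Finsupp.linearEquivFunOnFinite ℤ ℤ (Fin n)).toAddEquiv (AddEquiv.refl _)

theorem finrank_prod_fin (n : ℕ) (T : Type) [AddCommGroup T] [Fintype T] :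
    finrank ℤ ((Fin n → ℤ) × T) = n := by
  have h := LinearMap.rank_eq_of_surjective (f := LinearMap.fst ℤ (Fin n → ℤ) T)
    (fun x => ⟨(x, 0), rfl⟩)
  have hk : Module.rank ℤ (LinearMap.ker (LinearMap.fst ℤ (Fin n → ℤ) T)) = 0 := by
    rw [Module.rank_eq_zero_iff_isTorsion]
    rintro ⟨⟨z, t⟩, hz⟩
    rw [LinearMap.mem_ker] at hz
    change z = 0 at hz
    subst hz
    refine ⟨⟨(Nat.card T : ℤ), ?_⟩, ?_⟩
    · rw [mem_nonZeroDivisors_iff_ne_zero]
      have : 0 < Nat.card T := Nat.card_pos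
      exact_mod_cast this.ne'
    · apply Subtype.ext
      change ((Nat.card T : ℤ) • ((0 : Fin n → ℤ), t)) = 0
      rw [Prod.smul_mk, smul_zero]
      congr 1
      rw [natCast_zsmul]
      exact card_nsmul_eq_zero'
  rw [hk, add_zero] at h
  rw [finrank, h, rank_fun']
  simp

section
variable {E : Type} [NormedAddCommGroup E] [NormedSpace ℝ E]

theorem ball_dyadic (n : ℕ) (ψ : (Fin n → ℤ) →+ E) (hfin : ∀ T : ℝ, {z | ‖ψ z‖ ≤ T}.Finite) :
    ∀ (k : ℕ) (v : E), {z | ‖ψ z - v‖ ≤ 2 ^ k}.Finite ∧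
      {z | ‖ψ z - v‖ ≤ 2 ^ k}.ncard ≤ {z | ‖ψ z‖ ≤ 2}.ncard * 2 ^ (n * k) := by
  classical
  intro k
  induction k with
  | zero =>
    intro v
    rw [mul_zero, pow_zero, pow_zero, mul_one]
    by_cases hne : {z | ‖ψ z - v‖ ≤ 1}.Nonempty
    · obtain ⟨z0, hz0⟩ := hne
      have hsub : (fun z => z - z0) '' {z | ‖ψ z - v‖ ≤ 1} ⊆ {z | ‖ψ z‖ ≤ 2} := by
        rintro _ ⟨z, hz, rfl⟩
        change ‖ψ z - v‖ ≤ 1 at hz
        change ‖ψ z0 - v‖ ≤ 1 at hz0
        change ‖ψ (z - z0)‖ ≤ 2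
        rw [map_sub]
        have : ψ z - ψ z0 = (ψ z - v) - (ψ z0 - v) := by abel
        rw [this]
        exact (norm_sub_le _ _).trans (by linarith)
      have hinj : Function.Injective (fun z : Fin n → ℤ => z - z0) := sub_left_injective
      have hf : ((fun z => z - z0) '' {z | ‖ψ z - v‖ ≤ 1}).Finite := (hfin 2).subset hsub
      refine ⟨hf.of_finite_image hinj.injOn, ?_⟩
      rw [← Set.ncard_image_of_injective _ hinj]
      exact Set.ncard_le_ncard hsub (hfin 2)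
    · rw [Set.not_nonempty_iff_eq_empty] at hne
      rw [hne]
      simp
  | succ k ih =>
    intro v
    let W : (Fin n → Fin 2) → Set (Fin n → ℤ) := fun ε =>
      (fun z i => ((ε i : ℕ) : ℤ) + 2 * z i) ''
        {z | ‖ψ z - (2 : ℝ)⁻¹ • (v - ψ (fun i => ((ε i : ℕ) : ℤ)))‖ ≤ 2 ^ k}
    have hsub : {z | ‖ψ z - v‖ ≤ 2 ^ (k + 1)} ⊆ ⋃ ε, W ε := by
      intro z hz
      change ‖ψ z - v‖ ≤ 2 ^ (k + 1) at hz
      rw [Set.mem_iUnion]
      have hlt : ∀ i, (z i % 2).toNat < 2 := fun i => by omega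
      refine ⟨fun i => ⟨(z i % 2).toNat, hlt i⟩, fun i => z i / 2, ?_, ?_⟩
      · change ‖ψ (fun i => z i / 2) - (2 : ℝ)⁻¹ • (v - ψ (fun i => (((z i % 2).toNat : ℕ) : ℤ)))‖ ≤
          2 ^ k
        have h1 : z = (fun i => (((z i % 2).toNat : ℕ) : ℤ)) +
            ((fun i => z i / 2) + (fun i => z i / 2)) := by
          funext i
          simp only [Pi.add_apply]
          omega
        have h2 : ψ z = ψ (fun i => (((z i % 2).toNat : ℕ) : ℤ)) +
            (ψ (fun i => z i / 2) + ψ (fun i => z i / 2)) := by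
          conv_lhs => rw [h1]
          rw [map_add, map_add]
        set p := ψ (fun i => z i / 2)
        set q := ψ (fun i => (((z i % 2).toNat : ℕ) : ℤ))
        have h3 : p - (2 : ℝ)⁻¹ • (v - q) = (2 : ℝ)⁻¹ • (ψ z - v) := by
          rw [h2]
          module
        rw [h3, norm_smul]
        rw [pow_succ] at hz
        have h4 : ‖(2 : ℝ)⁻¹‖ = 2⁻¹ := by norm_num
        rw [h4]
        linarith
      · funext i
        simp only
        omega
    have hinj : ∀ ε : Fin n → Fin 2,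
        Function.Injective (fun (z : Fin n → ℤ) i => ((ε i : ℕ) : ℤ) + 2 * z i) := by
      intro ε z z' h
      funext i
      have := congrFun h i
      simp only at this
      omega
    have hWf : ∀ ε, (W ε).Finite := fun ε => (ih _).1.image _
    have hWc : ∀ ε, (W ε).ncard ≤ {z | ‖ψ z‖ ≤ 2}.ncard * 2 ^ (n * k) := fun ε => by
      simp only [W]
      rw [Set.ncard_image_of_injective _ (hinj ε)]
      exact (ih _).2
    have hUf : (⋃ ε, W ε).Finite := Set.finite_iUnion hWf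
    refine ⟨hUf.subset hsub, (Set.ncard_le_ncard hsub hUf).trans ?_⟩
    have hU : (⋃ ε, W ε).ncard ≤ ∑ ε : Fin n → Fin 2, (W ε).ncard := by
      have : (⋃ ε, W ε) = ((Finset.univ : Finset (Fin n → Fin 2)).biUnion
          (fun ε => (hWf ε).toFinset) : Set (Fin n → ℤ)) := by
        ext z
        simp
      rw [this, Set.ncard_coe_finset]
      refine Finset.card_biUnion_le.trans (Finset.sum_le_sum fun ε _ => ?_)
      rw [Set.ncard_eq_toFinset_card _ (hWf ε)]
    refine hU.trans ((Finset.sum_le_sum fun ε _ => hWc ε).trans ?_)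
    rw [Finset.sum_const, Finset.card_univ, Fintype.card_fun, Fintype.card_fin, Fintype.card_fin,
      smul_eq_mul, Nat.mul_add, pow_add, mul_one]
    apply le_of_eq
    ring

theorem ball_count {A : Type} [AddCommGroup A] (hA : AddGroup.FG A) (ψ : A →+ E)
    (hfin : ∀ T : ℝ, {z | ‖ψ z‖ ≤ T}.Finite) :
    ∃ C : ℝ, 0 ≤ C ∧ ∀ (T : ℝ) (v : E), 1 ≤ T → {z | ‖ψ z - v‖ ≤ T}.Finite ∧
      ({z | ‖ψ z - v‖ ≤ T}.ncard : ℝ) ≤ C * T ^ (finrank ℤ A) := by
  classical
  obtain ⟨n, H, _, _, ⟨e⟩⟩ := @fg_structure A _ hA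
  have hn : finrank ℤ A = n := by
    rw [LinearEquiv.finrank_eq (e.toIntLinearEquiv), finrank_prod_fin]
  let ι : (Fin n → ℤ) →+ A := e.symm.toAddMonoidHom.comp (AddMonoidHom.inl (Fin n → ℤ) H)
  have hι : Function.Injective ι := by
    intro z z' h
    have h1 := e.symm.injective h
    exact congrArg Prod.fst h1
  have hfin' : ∀ T : ℝ, {z | ‖(ψ.comp ι) z‖ ≤ T}.Finite := fun T =>
    Set.Finite.preimage hι.injOn (hfin T)
  set N0 := {z | ‖(ψ.comp ι) z‖ ≤ 2}.ncard with hN0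
  refine ⟨Fintype.card H * (N0 * 2 ^ n), by positivity, fun T v hT => ?_⟩
  obtain ⟨k, hk1, hk2⟩ : ∃ k : ℕ, T ≤ 2 ^ k ∧ (2 : ℝ) ^ k ≤ 2 * T := by
    obtain ⟨k, hk1, hk2⟩ := exists_nat_pow_near hT (by norm_num : (1 : ℝ) < 2)
    exact ⟨k + 1, hk2.le, by rw [pow_succ]; linarith⟩
  let W : H → Set A := fun h => (fun z => ι z + e.symm (0, h)) ''
    {z | ‖(ψ.comp ι) z - (v - ψ (e.symm (0, h)))‖ ≤ 2 ^ k}
  have hsub : {z | ‖ψ z - v‖ ≤ T} ⊆ ⋃ h, W h := by
    intro z hz
    change ‖ψ z - v‖ ≤ T at hz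
    rw [Set.mem_iUnion]
    have h1 : ι (e z).1 + e.symm (0, (e z).2) = z := by
      change e.symm ((e z).1, 0) + e.symm (0, (e z).2) = z
      rw [← map_add]
      simp
    refine ⟨(e z).2, (e z).1, ?_, h1⟩
    change ‖ψ (ι (e z).1) - (v - ψ (e.symm (0, (e z).2)))‖ ≤ 2 ^ k
    have h2 : ψ z = ψ (ι (e z).1) + ψ (e.symm (0, (e z).2)) := by
      rw [← map_add, h1]
    have h3 : ψ (ι (e z).1) - (v - ψ (e.symm (0, (e z).2))) = ψ z - v := by
      rw [h2]; abel
    rw [h3]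
    linarith
  have hinj : ∀ h : H, Function.Injective (fun z : Fin n → ℤ => ι z + e.symm (0, h)) := by
    intro h z z' hz
    exact hι (add_left_injective _ hz)
  have hb := fun w => ball_dyadic n (ψ.comp ι) hfin' k w
  have hWf : ∀ h, (W h).Finite := fun h => (hb _).1.image _
  have hWc : ∀ h, (W h).ncard ≤ N0 * 2 ^ (n * k) := fun h => by
    simp only [W]
    rw [Set.ncard_image_of_injective _ (hinj h)]
    exact (hb _).2
  have hUf : (⋃ h, W h).Finite := Set.finite_iUnion hWf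
  refine ⟨hUf.subset hsub, ?_⟩
  have hU : (⋃ h, W h).ncard ≤ ∑ h : H, (W h).ncard := by
    have : (⋃ h, W h) = ((Finset.univ : Finset H).biUnion (fun h => (hWf h).toFinset) : Set A) := by
      ext z
      simp
    rw [this, Set.ncard_coe_finset]
    refine Finset.card_biUnion_le.trans (Finset.sum_le_sum fun h _ => ?_)
    rw [Set.ncard_eq_toFinset_card _ (hWf h)]
  have h1 : {z | ‖ψ z - v‖ ≤ T}.ncard ≤ Fintype.card H * (N0 * 2 ^ (n * k)) := by
    refine (Set.ncard_le_ncard hsub hUf).trans (hU.trans ?_)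
    refine (Finset.sum_le_sum fun h _ => hWc h).trans ?_
    rw [Finset.sum_const, Finset.card_univ, smul_eq_mul]
  rw [hn]
  have h2 : ((2 : ℝ) ^ k) ^ n ≤ (2 * T) ^ n := by
    apply pow_le_pow_left₀ (by positivity) hk2
  have h3 : (({z | ‖ψ z - v‖ ≤ T}.ncard : ℕ) : ℝ) ≤
      Fintype.card H * (N0 * (2 : ℝ) ^ (n * k)) := by exact_mod_cast h1
  rw [mul_comm n k, pow_mul] at h3
  refine h3.trans ?_
  have h4 : (Fintype.card H : ℝ) * (N0 * ((2 : ℝ) ^ k) ^ n) ≤
      Fintype.card H * (N0 * (2 * T) ^ n) := by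
    apply mul_le_mul_of_nonneg_left _ (by positivity)
    apply mul_le_mul_of_nonneg_left h2 (by positivity)
  refine h4.trans (le_of_eq ?_)
  rw [mul_pow]
  ring

end

end Pool.Agent.J4H11.RC
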