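import Pool.Agent.J4H11.RC.Ht1
import Pool.Agent.J4H11.RC.Ht2

/-!
# Northcott's theorem and primes of small order
-/

set_option autoImplicit false

namespace Pool.Agent.J4H11.RC

open WeierstrassCurve Pool.Agent.H901R3.MS Module

theorem northcott (a b : ℚ) (X : ℝ) : {P : Pt a b | hx P ≤ X}.Finite := by
  classical
  set N : ℕ := ⌈Real.exp X⌉₊ with hN
  set Sx : Set ℚ := (fun z : ℤ × ℤ => (z.1 : ℚ) / (z.2 : ℚ)) ''
    (Set.Icc (-(N : ℤ)) N ×ˢ Set.Icc (-(N : ℤ)) N) with hSx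
  have hSxf : Sx.Finite := ((Set.finite_Icc _ _).prod (Set.finite_Icc _ _)).image _
  have hsq : ∀ c : ℚ, {y : ℚ | y ^ 2 = c}.Finite := by
    intro c
    by_cases hne : ∃ y0 : ℚ, y0 ^ 2 = c
    · obtain ⟨y0, hy0⟩ := hne
      refine (Set.toFinite {y0, -y0}).subset ?_
      intro y hy
      change y ^ 2 = c at hy
      rw [← hy0] at hy
      rcases sq_eq_sq_iff_eq_or_eq_neg.1 hy with h | h
      · simp [h]
      · simp [h]
    · have : {y : ℚ | y ^ 2 = c} = ∅ := by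
        ext y
        simp only [Set.mem_ofPred_eq, Set.mem_empty_iff_false, iff_false]
        exact fun h => hne ⟨y, h⟩
      rw [this]
      exact Set.finite_empty
  let f : Pt a b → Option (ℚ × ℚ) := fun P =>
    match P with
    | Affine.Point.zero => none
    | Affine.Point.some x y _ => some (x, y)
  have hinj : Function.Injective f := by
    rintro (_ | ⟨x, y, h⟩) (_ | ⟨x', y', h'⟩) he
    · rfl
    · simp [f] at he
    · simp [f] at he
    · simp only [f, Option.some.injEq, Prod.mk.injEq] at he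
      obtain ⟨rfl, rfl⟩ := he
      rfl
  have hT : (⋃ x ∈ Sx, (fun y => (x, y)) '' {y : ℚ | y ^ 2 = x ^ 3 + a * x + b}).Finite :=
    hSxf.biUnion (fun x _ => (hsq _).image _)
  have himg : f '' {P | hx P ≤ X} ⊆ insert none (some ''
      (⋃ x ∈ Sx, (fun y => (x, y)) '' {y : ℚ | y ^ 2 = x ^ 3 + a * x + b})) := by
    rintro _ ⟨P, hP, rfl⟩
    rcases P with _ | ⟨x, y, h⟩
    · exact Set.mem_insert _ _
    · right
      refine ⟨(x, y), ?_, rfl⟩
      rw [Set.mem_iUnion₂]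
      refine ⟨x, ?_, y, eqn_of h, rfl⟩
      change Real.log (max (x.num.natAbs : ℝ) (x.den : ℝ)) ≤ X at hP
      have hpos : (0 : ℝ) < max (x.num.natAbs : ℝ) (x.den : ℝ) :=
        lt_of_lt_of_le (by exact_mod_cast x.den_pos) (le_max_right _ _)
      have h1 : max (x.num.natAbs : ℝ) (x.den : ℝ) ≤ N := by
        rw [Real.log_le_iff_le_exp hpos] at hP
        exact hP.trans (Nat.le_ceil _)
      have h2 : x.num.natAbs ≤ N := by exact_mod_cast (le_max_left _ _).trans h1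
      have h3 : x.den ≤ N := by exact_mod_cast (le_max_right _ _).trans h1
      refine ⟨(x.num, (x.den : ℤ)), ⟨?_, ?_⟩, ?_⟩
      · rw [Set.mem_Icc]
        change -(N : ℤ) ≤ x.num ∧ x.num ≤ N
        omega
      · rw [Set.mem_Icc]
        change -(N : ℤ) ≤ (x.den : ℤ) ∧ (x.den : ℤ) ≤ N
        omega
      · change (x.num : ℚ) / ((x.den : ℤ) : ℚ) = x
        exact_mod_cast Rat.num_div_den x
  exact ((hT.image _).insert _ |>.subset himg).of_finite_image hinj.injOn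

/-- the prime `p` divides the denominator of the `x`-coordinate -/
def zr {a b : ℚ} (p : ℕ) : Pt a b → Prop
  | Affine.Point.zero => True
  | Affine.Point.some x _ _ => p ∣ x.den

theorem zr_of_red {p : ℕ} [Fact p.Prime] (v : Place ℚ (ZMod p)) (a b : ℤ)
    (red : Pt (a : ℚ) (b : ℚ) → Pt (a : ZMod p) (b : ZMod p)) (hred : IsRed v a b red)
    (P : Pt (a : ℚ) (b : ℚ)) (h : red P = 0) : zr p P := by
  rcases P with _ | ⟨x, y, hP⟩
  · trivial
  · change p ∣ x.den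
    by_contra hd
    have hxA : x ∈ v.A := by
      rw [← Rat.num_div_den x]
      apply v.div_mem (v.int_mem _)
      have h1 := v.r_nat x.den
      rw [h1, Ne, ZMod.natCast_eq_zero_iff]
      exact hd
    obtain ⟨-, g, hg⟩ := hred.2.2 x y hP hxA
    rw [hg] at h
    cases h

theorem primes_zr {a b : ℚ} (P : Pt a b) (hP : P ≠ 0) (S : Finset ℕ)
    (hS : ∀ p ∈ S, p.Prime ∧ zr p P) : (S.card : ℝ) ≤ 2 * hx P := by
  rcases P with _ | ⟨x, y, h⟩
  · exact absurd rfl hP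
  · have h1 : ∏ p ∈ S, p ∣ x.den := by
      apply Finset.prod_primes_dvd
      · intro p hp
        exact (hS p hp).1.prime
      · intro p hp
        exact (hS p hp).2
    have h2 : 2 ^ S.card ≤ x.den := by
      refine le_trans ?_ (Nat.le_of_dvd x.den_pos h1)
      rw [← Finset.prod_const]
      exact Finset.prod_le_prod' fun p hp => (hS p hp).1.two_le
    have h3 : (2 : ℝ) ^ S.card ≤ max (x.num.natAbs : ℝ) (x.den : ℝ) := by
      refine le_trans ?_ (le_max_right _ _)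
      exact_mod_cast h2
    have h4 := Real.log_le_log (by positivity) h3
    rw [Real.log_pow] at h4
    change (S.card : ℝ) * Real.log 2 ≤ hx (Affine.Point.some x y h : Pt a b) at h4
    have h5 : (1 : ℝ) / 2 ≤ Real.log 2 := by
      have := Real.log_two_gt_d9
      linarith
    have h6 : (S.card : ℝ) * (1 / 2) ≤ S.card * Real.log 2 :=
      mul_le_mul_of_nonneg_left h5 (Nat.cast_nonneg _)
    linarith

theorem primes_family {a b : ℚ} {κ : Type} (K : Finset κ) (P : κ → Pt a b)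
    (hP : ∀ k ∈ K, P k ≠ 0) (M : ℝ) (hM : ∀ k ∈ K, hx (P k) ≤ M) (S : Finset ℕ)
    (hS : ∀ p ∈ S, p.Prime ∧ ∃ k ∈ K, zr p (P k)) : (S.card : ℝ) ≤ K.card * (2 * M) := by
  classical
  have h1 : S ⊆ K.biUnion (fun k => S.filter (fun p => zr p (P k))) := by
    intro p hp
    obtain ⟨k, hk, hz⟩ := (hS p hp).2
    rw [Finset.mem_biUnion]
    exact ⟨k, hk, Finset.mem_filter.2 ⟨hp, hz⟩⟩
  have h2 : (S.card : ℝ) ≤ ∑ k ∈ K, ((S.filter (fun p => zr p (P k))).card : ℝ) := by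
    exact_mod_cast (Finset.card_le_card h1).trans Finset.card_biUnion_le
  refine h2.trans ?_
  rw [← nsmul_eq_mul]
  apply Finset.sum_le_card_nsmul
  intro k hk
  refine (primes_zr (P k) (hP k hk) _ fun p hp => ?_).trans (by linarith [hM k hk])
  rw [Finset.mem_filter] at hp
  exact ⟨(hS p hp.1).1, hp.2⟩

/-- primes modulo which a point of infinite order has small order -/
theorem primes_ord (a b : ℤ) (hD : Disc (a : ℚ) (b : ℚ)) (R : Pt (a : ℚ) (b : ℚ))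
    (hR : ∀ n : ℕ, 0 < n → n • R ≠ 0) : ∃ C : ℝ, 0 ≤ C ∧ ∀ (z : ℕ), 1 ≤ z → ∀ S : Finset ℕ,
    (∀ p ∈ S, p.Prime ∧ ∃ n ∈ Finset.Icc 1 z, zr p (n • R)) → (S.card : ℝ) ≤ C * z ^ 3 := by
  obtain ⟨m, ψ, C, hC0, hC⟩ := embE a b hD
  refine ⟨2 * (‖ψ R‖ ^ 2 + C), by positivity, fun z hz S hS => ?_⟩
  have h1 := primes_family (Finset.Icc 1 z) (fun n => n • R)
    (fun n hn => hR n (Finset.mem_Icc.1 hn).1) ((‖ψ R‖ ^ 2 + C) * z ^ 2) ?_ S hS
  · rw [Nat.card_Icc] at h1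
    simp only [Nat.add_sub_cancel] at h1
    refine h1.trans (le_of_eq ?_)
    ring
  · intro n hn
    rw [Finset.mem_Icc] at hn
    have h2 := (abs_le.1 (hC (n • R))).1
    have h3 : ‖ψ (n • R)‖ = n * ‖ψ R‖ := by
      rw [map_nsmul, ← Nat.cast_smul_eq_nsmul ℝ, norm_smul, Real.norm_natCast]
    rw [h3] at h2
    have hz1 : (1 : ℝ) ≤ z := by exact_mod_cast hz
    have hn1 : (n : ℝ) ≤ z := by exact_mod_cast hn.2
    have h4 : (n * ‖ψ R‖) ^ 2 ≤ (z * ‖ψ R‖) ^ 2 := by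
      apply pow_le_pow_left₀ (by positivity)
      exact mul_le_mul_of_nonneg_right hn1 (norm_nonneg _)
    have h5 : C ≤ C * (z : ℝ) ^ 2 := by
      have : (1 : ℝ) ≤ (z : ℝ) ^ 2 := one_le_pow₀ hz1
      nlinarith
    nlinarith

/-- primes modulo which two independent points generate a small group -/
theorem primes_two (a b : ℤ) (hD : Disc (a : ℚ) (b : ℚ)) (R₁ R₂ : Pt (a : ℚ) (b : ℚ))
    (hR : ∀ m n : ℤ, (m, n) ≠ (0, 0) → m • R₁ + n • R₂ ≠ 0) : ∃ C : ℝ, 0 ≤ C ∧ ∀ (s : ℕ),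
    1 ≤ s → ∀ S : Finset ℕ,
    (∀ p ∈ S, p.Prime ∧ ∃ m n : ℤ, |m| ≤ s ∧ |n| ≤ s ∧ (m, n) ≠ (0, 0) ∧
      zr p (m • R₁ + n • R₂)) → (S.card : ℝ) ≤ C * s ^ 4 := by
  classical
  obtain ⟨k, ψ, C, hC0, hC⟩ := embE a b hD
  refine ⟨18 * ((‖ψ R₁‖ + ‖ψ R₂‖) ^ 2 + C), by positivity, fun s hs S hS => ?_⟩
  have hs1 : (1 : ℝ) ≤ s := by exact_mod_cast hs
  have h1 := primes_family
    (((Finset.Icc (-(s : ℤ)) s) ×ˢ (Finset.Icc (-(s : ℤ)) s)).filter (fun z => z ≠ (0, 0)))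
    (fun z => z.1 • R₁ + z.2 • R₂) ?_ (((‖ψ R₁‖ + ‖ψ R₂‖) ^ 2 + C) * s ^ 2) ?_ S ?_
  · refine h1.trans ?_
    have hc : ((((Finset.Icc (-(s : ℤ)) s) ×ˢ (Finset.Icc (-(s : ℤ)) s)).filter
        (fun z => z ≠ (0, 0))).card : ℝ) ≤ 9 * s ^ 2 := by
      have h2 : (((Finset.Icc (-(s : ℤ)) s) ×ˢ (Finset.Icc (-(s : ℤ)) s)).filter
        (fun z => z ≠ (0, 0))).card ≤ (2 * s + 1) * (2 * s + 1) := by
        refine (Finset.card_filter_le _ _).trans ?_
        rw [Finset.card_product, Int.card_Icc]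
        have : ((s : ℤ) + 1 - -(s : ℤ)).toNat = 2 * s + 1 := by omega
        rw [this]
      have h3 : (2 * s + 1) * (2 * s + 1) ≤ 9 * s ^ 2 := by nlinarith
      exact_mod_cast h2.trans h3
    have hM : 0 ≤ 2 * (((‖ψ R₁‖ + ‖ψ R₂‖) ^ 2 + C) * (s : ℝ) ^ 2) := by positivity
    refine (mul_le_mul_of_nonneg_right hc hM).trans (le_of_eq ?_)
    ring
  · rintro ⟨m, n⟩ hmn
    exact hR m n (Finset.mem_filter.1 hmn).2
  · rintro ⟨m, n⟩ hmn
    rw [Finset.mem_filter, Finset.mem_product, Finset.mem_Icc, Finset.mem_Icc] at hmn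
    obtain ⟨⟨⟨hm1, hm2⟩, hn1, hn2⟩, -⟩ := hmn
    change hx (m • R₁ + n • R₂) ≤ _
    have h2 := (abs_le.1 (hC (m • R₁ + n • R₂))).1
    have h3 : ‖ψ (m • R₁ + n • R₂)‖ ≤ s * (‖ψ R₁‖ + ‖ψ R₂‖) := by
      rw [map_add, map_zsmul, map_zsmul, ← Int.cast_smul_eq_zsmul ℝ, ← Int.cast_smul_eq_zsmul ℝ]
      refine (norm_add_le _ _).trans ?_
      rw [norm_smul, norm_smul, mul_add]
      have hm : ‖(m : ℝ)‖ ≤ s := by
        rw [Real.norm_eq_abs, abs_le]
        constructor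
        · exact_mod_cast hm1
        · exact_mod_cast hm2
      have hn : ‖(n : ℝ)‖ ≤ s := by
        rw [Real.norm_eq_abs, abs_le]
        constructor
        · exact_mod_cast hn1
        · exact_mod_cast hn2
      exact add_le_add (mul_le_mul_of_nonneg_right hm (norm_nonneg _))
        (mul_le_mul_of_nonneg_right hn (norm_nonneg _))
    have h4 : ‖ψ (m • R₁ + n • R₂)‖ ^ 2 ≤ (s * (‖ψ R₁‖ + ‖ψ R₂‖)) ^ 2 :=
      pow_le_pow_left₀ (norm_nonneg _) h3 2
    have h5 : C ≤ C * (s : ℝ) ^ 2 := by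
      have : (1 : ℝ) ≤ (s : ℝ) ^ 2 := one_le_pow₀ hs1
      nlinarith
    nlinarith
  · intro p hp
    obtain ⟨hp1, m, n, hm, hn, hmn, hz⟩ := hS p hp
    refine ⟨hp1, (m, n), ?_, hz⟩
    rw [Finset.mem_filter, Finset.mem_product, Finset.mem_Icc, Finset.mem_Icc]
    rw [abs_le] at hm hn
    exact ⟨⟨hm, hn⟩, hmn⟩

end Pool.Agent.J4H11.RC
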