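import Mathlib

/-!
# Products of curves `y² = x³ + a x + b` are irreducible

If the `x j` are algebraically independent and `y j ^ 2 = x j ^ 3 + a j x j + b j`, then every
integral polynomial vanishing at `(x, y)` vanishes at all points of the product of the curves.
-/

set_option autoImplicit false

namespace Pool.Agent.J4H11.RC

open Polynomial Finset

theorem step1 {L Ω : Type} [Field L] [Field Ω] [Algebra L Ω] (t u : Ω) (ht : Transcendental L t)
    (f : L[X]) (hf : f.natDegree = 3) (hu : u ^ 2 = aeval t f) (α β : Ω)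
    (hα : α ∈ Algebra.adjoin L {t}) (hβ : β ∈ Algebra.adjoin L {t}) (h : α * u + β = 0) :
    α = 0 ∧ β = 0 := by
  rw [Algebra.adjoin_singleton_eq_range_aeval] at hα hβ
  obtain ⟨A, rfl⟩ := hα
  obtain ⟨B, rfl⟩ := hβ
  have hinj := transcendental_iff_injective.1 ht
  have h1 : A ^ 2 * f = B ^ 2 := by
    apply hinj
    simp only [map_mul, map_pow, ← hu]
    change (aeval t A * u + aeval t B = 0) at h
    linear_combination (aeval t A * u - aeval t B) * h
  have hf0 : f ≠ 0 := by
    rintro rfl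
    simp at hf
  have hA : A = 0 := by
    by_contra hA
    have h2 : (A ^ 2 * f).natDegree = 2 * A.natDegree + 3 := by
      rw [natDegree_mul (pow_ne_zero 2 hA) hf0, natDegree_pow, hf]
    have h3 : (B ^ 2).natDegree = 2 * B.natDegree := natDegree_pow _ _
    rw [h1, h3] at h2
    omega
  subst hA
  change (aeval t (0 : L[X]) * u + aeval t B = 0) at h
  rw [map_zero, zero_mul, zero_add] at h
  exact ⟨by change aeval t (0 : L[X]) = 0; rw [map_zero], h⟩

section
variable {B : Type} [Fintype B] [DecidableEq B] {Ω : Type} [Field Ω] [CharZero Ω]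

theorem step2 (a b : B → ℤ) (x y : B → Ω) [Algebra ℚ Ω] (hx : AlgebraicIndependent ℚ x)
    (hy : ∀ j, y j ^ 2 = x j ^ 3 + (a j : Ω) * x j + (b j : Ω)) (j : B)
    (𝒯 : Finset (Finset B)) (c : Finset B → MvPolynomial B ℤ)
    (h : ∑ T ∈ 𝒯, MvPolynomial.aeval x (c T) * ∏ l ∈ T, y l = 0) :
    ∑ T ∈ 𝒯.filter (fun T => j ∈ T), MvPolynomial.aeval x (c T) * ∏ l ∈ T, y l = 0 ∧
    ∑ T ∈ 𝒯.filter (fun T => j ∉ T), MvPolynomial.aeval x (c T) * ∏ l ∈ T, y l = 0 := by
  let k1 := IntermediateField.adjoin ℚ (x '' {j}ᶜ)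
  let L := algebraicClosure k1 Ω
  have ht : Transcendental L (x j) := by
    have h1 : Transcendental k1 (x j) := by
      rw [IntermediateField.transcendental_adjoin_iff]
      exact hx.transcendental_adjoin (by simp)
    exact h1.extendScalars L
  have hxl : ∀ l, l ≠ j → x l ∈ L := by
    intro l hl
    rw [mem_algebraicClosure_iff]
    have h1 : x l ∈ k1 := IntermediateField.subset_adjoin _ _ ⟨l, by simpa using hl, rfl⟩
    exact isAlgebraic_algebraMap (⟨x l, h1⟩ : k1)
  have hyl : ∀ l, l ≠ j → y l ∈ L := by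
    intro l hl
    rw [mem_algebraicClosure_iff]
    have h1 : IsAlgebraic k1 (x l) := mem_algebraicClosure_iff.1 (hxl l hl)
    have h2 : IsAlgebraic k1 (y l ^ 2) := by
      rw [hy l]
      have ha : IsAlgebraic k1 ((a l : ℤ) : Ω) := isAlgebraic_int _
      have hb : IsAlgebraic k1 ((b l : ℤ) : Ω) := isAlgebraic_int _
      exact ((h1.pow 3).add (ha.mul h1)).add hb
    exact IsAlgebraic.of_pow (by norm_num) h2
  set R := Algebra.adjoin L {x j} with hR
  have hLR : ∀ z ∈ L, z ∈ R := fun z hz => R.algebraMap_mem (⟨z, hz⟩ : L)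
  have hxR : ∀ l, x l ∈ R := by
    intro l
    by_cases hl : l = j
    · rw [hl]
      exact Algebra.subset_adjoin rfl
    · exact hLR _ (hxl l hl)
  have hcR : ∀ d : MvPolynomial B ℤ, MvPolynomial.aeval x d ∈ R := by
    intro d
    induction d using MvPolynomial.induction_on with
    | C n =>
      rw [MvPolynomial.aeval_C]
      have : algebraMap ℤ Ω n = ((n : ℤ) : Ω) := by simp
      rw [this]
      exact R.intCast_mem n
    | add p q hp hq => rw [map_add]; exact R.add_mem hp hq
    | mul_X p i hp => rw [map_mul, MvPolynomial.aeval_X]; exact R.mul_mem hp (hxR i)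
  set f : L[X] := X ^ 3 + C ((a j : ℤ) : L) * X + C ((b j : ℤ) : L) with hf
  have hf3 : f.natDegree = 3 := by
    rw [hf]
    compute_degree!
  have hu : y j ^ 2 = aeval (x j) f := by
    rw [hy j, hf]
    simp
  set α : Ω := ∑ T ∈ 𝒯.filter (fun T => j ∈ T), MvPolynomial.aeval x (c T) * ∏ l ∈ T.erase j, y l
    with hα
  set β : Ω := ∑ T ∈ 𝒯.filter (fun T => j ∉ T), MvPolynomial.aeval x (c T) * ∏ l ∈ T, y l
    with hβ
  have hαR : α ∈ R := by
    refine R.sum_mem fun T hT => R.mul_mem (hcR _) (R.prod_mem fun l hl => hLR _ (hyl l ?_))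
    exact (mem_erase.1 hl).1
  have hβR : β ∈ R := by
    refine R.sum_mem fun T hT => R.mul_mem (hcR _) (R.prod_mem fun l hl => hLR _ (hyl l ?_))
    rintro rfl
    exact (mem_filter.1 hT).2 hl
  have hαy : α * y j = ∑ T ∈ 𝒯.filter (fun T => j ∈ T), MvPolynomial.aeval x (c T) *
      ∏ l ∈ T, y l := by
    rw [hα, sum_mul]
    refine sum_congr rfl fun T hT => ?_
    rw [← prod_erase_mul T y (mem_filter.1 hT).2]
    ring
  have hsum : α * y j + β = 0 := by
    rw [hαy, hβ, sum_filter_add_sum_filter_not]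
    exact h
  obtain ⟨h1, h2⟩ := step1 (x j) (y j) ht f hf3 hu α β hαR hβR hsum
  refine ⟨?_, h2⟩
  rw [← hαy, h1, zero_mul]

theorem linInd (a b : B → ℤ) (x y : B → Ω) [Algebra ℚ Ω] (hx : AlgebraicIndependent ℚ x)
    (hy : ∀ j, y j ^ 2 = x j ^ 3 + (a j : Ω) * x j + (b j : Ω)) :
    ∀ (n : ℕ) (𝒯 : Finset (Finset B)) (c : Finset B → MvPolynomial B ℤ), 𝒯.card = n →
    ∑ T ∈ 𝒯, MvPolynomial.aeval x (c T) * ∏ l ∈ T, y l = 0 → ∀ T ∈ 𝒯, c T = 0 := by
  have hy0 : ∀ j, y j ≠ 0 := by
    intro j h0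
    have h1 := hy j
    rw [h0] at h1
    have h2 : Transcendental ℚ (x j) := hx.transcendental j
    apply h2
    refine ⟨X ^ 3 + C ((a j : ℤ) : ℚ) * X + C ((b j : ℤ) : ℚ), ?_, ?_⟩
    · intro h3
      have h4 : (X ^ 3 + C ((a j : ℤ) : ℚ) * X + C ((b j : ℤ) : ℚ) : ℚ[X]).natDegree = 3 := by
        compute_degree!
      rw [h3] at h4
      simp at h4
    · have : (X ^ 3 + C ((a j : ℤ) : ℚ) * X + C ((b j : ℤ) : ℚ) : ℚ[X]).aeval (x j) = _ := rfl
      simp only [map_add, map_mul, map_pow, aeval_X, aeval_C, map_intCast]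
      linear_combination -h1
  have hxZ : AlgebraicIndependent ℤ x := hx.restrictScalars (algebraMap ℤ ℚ).injective_int
  intro n
  induction n using Nat.strong_induction_on with
  | _ n ih =>
    intro 𝒯 c hn h T hT
    by_cases h1 : ∃ T' ∈ 𝒯, T' ≠ T
    · obtain ⟨T', hT', hne⟩ := h1
      obtain ⟨j, hj⟩ : ∃ j, ¬ (j ∈ T' ↔ j ∈ T) := by
        by_contra hcon
        push Not at hcon
        exact hne (Finset.ext hcon)
      obtain ⟨e1, e2⟩ := step2 a b x y hx hy j 𝒯 c h
      by_cases hjT : j ∈ T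
      · have hjT' : j ∉ T' := fun h' => hj ⟨fun _ => hjT, fun _ => h'⟩
        refine ih (𝒯.filter (fun T => j ∈ T)).card ?_ _ c rfl e1 T (mem_filter.2 ⟨hT, hjT⟩)
        rw [← hn]
        refine card_lt_card (filter_ssubset.2 ⟨T', hT', hjT'⟩)
      · have hjT' : j ∈ T' := by
          by_contra h'
          exact hj ⟨fun h'' => absurd h'' h', fun h'' => absurd h'' hjT⟩
        refine ih (𝒯.filter (fun T => j ∉ T)).card ?_ _ c rfl e2 T (mem_filter.2 ⟨hT, hjT⟩)
        rw [← hn]
        refine card_lt_card (filter_ssubset.2 ⟨T', hT', not_not.2 hjT'⟩)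
    · have h2 : 𝒯 = {T} := by
        ext T'
        rw [mem_singleton]
        constructor
        · intro h'
          by_contra hne
          exact h1 ⟨T', h', hne⟩
        · rintro rfl
          exact hT
      rw [h2, sum_singleton] at h
      rcases mul_eq_zero.1 h with h3 | h3
      · exact (injective_iff_map_eq_zero _).1 hxZ (c T) h3
      · exact absurd h3 (prod_ne_zero_iff.2 fun j _ => hy0 j)

/-- the coordinates as a function of the variables -/
def pv {B S : Type} (x y : B → S) (v : B × Fin 2) : S := if v.2 = 0 then x v.1 else y v.1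

/-- `x j ^ 3 + a j x j + b j` -/
noncomputable def cubj (a b : B → ℤ) (j : B) : MvPolynomial B ℤ :=
  MvPolynomial.X j ^ 3 + MvPolynomial.C (a j) * MvPolynomial.X j + MvPolynomial.C (b j)

/-- the part of `H` of parity `T` in the `y j` -/
noncomputable def cT (a b : B → ℤ) (H : MvPolynomial (B × Fin 2) ℤ) (T : Finset B) :
    MvPolynomial B ℤ :=
  ∑ m ∈ H.support.filter (fun m => univ.filter (fun j => ¬ Even (m (j, 1))) = T),
    MvPolynomial.C (H.coeff m) * ∏ j, (MvPolynomial.X j ^ (m (j, 0)) *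
      cubj a b j ^ (m (j, 1) / 2))

theorem nf {S : Type} [CommRing S] (a b : B → ℤ) (x y : B → S)
    (hy : ∀ j, y j ^ 2 = x j ^ 3 + (a j : S) * x j + (b j : S))
    (H : MvPolynomial (B × Fin 2) ℤ) :
    MvPolynomial.aeval (pv x y) H =
      ∑ T : Finset B, MvPolynomial.aeval x (cT a b H T) * ∏ l ∈ T, y l := by
  have hc : ∀ j, MvPolynomial.aeval x (cubj a b j) = y j ^ 2 := by
    intro j
    rw [hy j, cubj]
    simp
  rw [MvPolynomial.aeval_def, MvPolynomial.eval₂_eq']
  have h1 : ∀ T : Finset B, MvPolynomial.aeval x (cT a b H T) * ∏ l ∈ T, y l =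
      ∑ m ∈ H.support.filter (fun m => univ.filter (fun j => ¬ Even (m (j, 1))) = T),
        algebraMap ℤ S (H.coeff m) * ∏ v, pv x y v ^ m v := by
    intro T
    rw [cT, map_sum, sum_mul]
    refine sum_congr rfl fun m hm => ?_
    rw [mem_filter] at hm
    rw [map_mul, MvPolynomial.aeval_C, map_prod, mul_assoc]
    congr 1
    rw [← hm.2, prod_filter, ← prod_mul_distrib, Fintype.prod_prod_type]
    refine prod_congr rfl fun j _ => ?_
    rw [Fin.prod_univ_two]
    have e0 : pv x y (j, 0) = x j := rfl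
    have e1 : pv x y (j, 1) = y j := rfl
    rw [e0, e1]
    simp only [map_mul, map_pow, MvPolynomial.aeval_X, hc]
    by_cases he : Even (m (j, 1))
    · rw [if_neg (not_not.2 he), mul_one]
      obtain ⟨n, hn⟩ := he
      have h2 : m (j, 1) / 2 = n := by omega
      rw [h2, ← pow_mul, hn, two_mul]
    · rw [if_pos he]
      rw [Nat.not_even_iff_odd] at he
      obtain ⟨n, hn⟩ := he
      have h2 : m (j, 1) / 2 = n := by omega
      rw [h2, ← pow_mul, hn, pow_succ]
      ring
  rw [sum_congr rfl fun T _ => h1 T]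
  rw [sum_fiberwise_of_maps_to (g := fun m : B × Fin 2 →₀ ℕ =>
    univ.filter (fun j => ¬ Even (m (j, 1)))) (fun _ _ => mem_univ _)]

theorem ker_lemma (a b : B → ℤ) (x y : B → Ω) [Algebra ℚ Ω] (hx : AlgebraicIndependent ℚ x)
    (hy : ∀ j, y j ^ 2 = x j ^ 3 + (a j : Ω) * x j + (b j : Ω))
    (H : MvPolynomial (B × Fin 2) ℤ) (hH : MvPolynomial.aeval (pv x y) H = 0) {S : Type}
    [CommRing S] (x' y' : B → S) (hy' : ∀ j, y' j ^ 2 = x' j ^ 3 + (a j : S) * x' j + (b j : S)) :
    MvPolynomial.aeval (pv x' y') H = 0 := by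
  rw [nf a b x y hy] at hH
  have h1 := linInd a b x y hx hy _ univ (cT a b H) rfl hH
  rw [nf a b x' y' hy']
  refine sum_eq_zero fun T _ => ?_
  rw [h1 T (mem_univ _), map_zero, zero_mul]

end

end Pool.Agent.J4H11.RC
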