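import Pool.Agent.TH76.LehP.GoldA
import Pool.Agent.H901R3.MS.P_SPL

set_option autoImplicit false

/-!
# Primes `p ≡ u mod Q` such that `p + 1` has a large prime factor

Goldfeld's theorem for `p + 1` in a residue class (after `Pool.Agent.N120.TC.P`, where the primes
are `≡ 1 mod M` and the shift is `p - 1`).
-/

namespace Pool.Agent.J4H11.RC

open Finset Filter
open scoped ArithmeticFunction.vonMangoldt Topology
open Pool.Agent.TH76.LehP
open Pool.Agent.H442R2.KF (piN piAP Er bv)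
open Pool.Agent.H901R3.MS (W_SPL.exists_res W_SPL.count_eq W_SPL.piN_eq)

/-- the primes `p ≤ t`, `p ≡ u mod Q`, `d ∣ p + 1` -/
def W (Q u t d : ℕ) : Finset ℕ := (Icc 1 t).filter (fun p => p.Prime ∧ p % Q = u % Q ∧ d ∣ p + 1)

lemma mem_W {Q u t d p : ℕ} : p ∈ W Q u t d ↔ p ≤ t ∧ p.Prime ∧ p % Q = u % Q ∧ d ∣ p + 1 := by
  unfold W
  rw [mem_filter, mem_Icc]
  constructor
  · rintro ⟨⟨_, h2⟩, h3⟩; exact ⟨h2, h3⟩
  · rintro ⟨h2, h3⟩; exact ⟨⟨h3.1.pos, h2⟩, h3⟩

/-- the primes `p ≤ t`, `p ≡ u mod Q`, such that `p + 1` has a prime factor larger than `y` -/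
noncomputable def PF (Q u t : ℕ) (y : ℝ) : Finset ℕ := by
  classical
  exact (Icc 1 t).filter (fun p => p.Prime ∧ p % Q = u % Q ∧
    ∃ q : ℕ, q.Prime ∧ y < q ∧ q ∣ p + 1)

lemma mem_PF {Q u t : ℕ} {y : ℝ} {p : ℕ} : p ∈ PF Q u t y ↔ p ≤ t ∧ p.Prime ∧ p % Q = u % Q ∧
    ∃ q : ℕ, q.Prime ∧ y < q ∧ q ∣ p + 1 := by
  classical
  unfold PF
  rw [mem_filter, mem_Icc]
  constructor
  · rintro ⟨⟨_, h2⟩, h3⟩; exact ⟨h2, h3⟩
  · rintro ⟨h2, h3⟩; exact ⟨⟨h3.1.pos, h2⟩, h3⟩

lemma sum_log_W (Q u t : ℕ) :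
    ∑ p ∈ W Q u t 1, Real.log ((p + 1 : ℕ) : ℝ) =
      ∑ d ∈ Icc 1 (t + 1), Λ d * ((W Q u t d).card : ℝ) := by
  have h1 : ∀ p ∈ W Q u t 1, Real.log ((p + 1 : ℕ) : ℝ) =
      ∑ d ∈ Icc 1 (t + 1), if d ∣ p + 1 then Λ d else 0 := by
    intro p hp
    rw [mem_W] at hp
    rw [← ArithmeticFunction.vonMangoldt_sum, ← Finset.sum_filter]
    apply Finset.sum_congr _ (fun _ _ => rfl)
    ext d
    rw [Nat.mem_divisors, mem_filter, mem_Icc]
    constructor
    · rintro ⟨h1, h2⟩
      have := Nat.le_of_dvd (by omega) h1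
      have := Nat.pos_of_dvd_of_pos h1 (by omega)
      exact ⟨⟨by omega, by omega⟩, h1⟩
    · rintro ⟨_, h2⟩
      exact ⟨h2, by omega⟩
  rw [Finset.sum_congr rfl h1, Finset.sum_comm]
  apply Finset.sum_congr rfl
  intro d _
  rw [← Finset.sum_filter, Finset.sum_const, nsmul_eq_mul, mul_comm]
  congr 3
  ext p
  rw [mem_filter, mem_W, mem_W]
  constructor
  · rintro ⟨⟨a, b, c, _⟩, d⟩
    exact ⟨a, b, c, d⟩
  · rintro ⟨a, b, c, d⟩
    exact ⟨⟨a, b, c, one_dvd _⟩, d⟩

lemma sum_log_W_ge (Q u t : ℕ) (ht : 2 ≤ t) :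
    (7 / 8) * Real.log t * ((W Q u t 1).card - (t : ℝ) ^ (7 / 8 : ℝ) - 1) ≤
      ∑ p ∈ W Q u t 1, Real.log ((p + 1 : ℕ) : ℝ) := by
  have ht' : (0 : ℝ) < t := by exact_mod_cast (by omega : 0 < t)
  have hL : 0 ≤ Real.log t := Real.log_nonneg (by exact_mod_cast (by omega : 1 ≤ t))
  set K : ℕ := ⌊(t : ℝ) ^ (7 / 8 : ℝ)⌋₊ with hK
  have hKle : (K : ℝ) ≤ (t : ℝ) ^ (7 / 8 : ℝ) := Nat.floor_le (by positivity)
  have hlow : ∀ p ∈ W Q u t 1, (if K + 1 < p then (7 / 8) * Real.log t else 0) ≤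
      Real.log ((p + 1 : ℕ) : ℝ) := by
    intro p hp
    rw [mem_W] at hp
    have hp2 := hp.2.1.two_le
    split_ifs with h
    · have h1 : (t : ℝ) ^ (7 / 8 : ℝ) ≤ ((p + 1 : ℕ) : ℝ) := by
        have h2 : (t : ℝ) ^ (7 / 8 : ℝ) < (K : ℝ) + 1 := Nat.lt_floor_add_one _
        have h3 : ((K + 1 : ℕ) : ℝ) ≤ ((p + 1 : ℕ) : ℝ) := by
          exact_mod_cast (by omega : K + 1 ≤ p + 1)
        push_cast at h3 ⊢
        linarith
      calc (7 / 8) * Real.log t = Real.log ((t : ℝ) ^ (7 / 8 : ℝ)) := by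
            rw [Real.log_rpow ht']
        _ ≤ _ := Real.log_le_log (by positivity) h1
    · exact Real.log_nonneg (by exact_mod_cast (by omega : 1 ≤ p + 1))
  refine le_trans ?_ (Finset.sum_le_sum hlow)
  rw [← Finset.sum_filter, Finset.sum_const, nsmul_eq_mul, mul_comm]
  apply mul_le_mul_of_nonneg_right _ (by positivity)
  have h4 : (W Q u t 1).card ≤ ((W Q u t 1).filter (fun p => K + 1 < p)).card + (K + 1) := by
    have h5 := Finset.card_filter_add_card_filter_not (s := W Q u t 1) (fun p => K + 1 < p)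
    have h6 : ((W Q u t 1).filter (fun p => ¬ K + 1 < p)).card ≤ (Icc 1 (K + 1)).card := by
      apply Finset.card_le_card
      intro p hp
      rw [mem_filter, mem_W] at hp
      rw [mem_Icc]
      have := hp.1.2.1.two_le
      omega
    rw [Nat.card_Icc] at h6
    omega
  have h7 : ((W Q u t 1).card : ℝ) ≤
      (((W Q u t 1).filter (fun p => K + 1 < p)).card : ℝ) + ((K : ℝ) + 1) := by
    exact_mod_cast h4
  linarith

lemma W_card_le (Q u t d : ℕ) (hd : 1 ≤ d) : ((W Q u t d).card : ℝ) ≤ ((t : ℝ) + 1) / d := by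
  have h1 : (W Q u t d).card ≤ (t + 1) / d := by
    have h2 : (W Q u t d).card ≤ (Icc 1 ((t + 1) / d)).card := by
      refine card_le_card_of_injOn (fun p => (p + 1) / d) ?_ ?_
      · intro p hp
        rw [Finset.mem_coe, mem_W] at hp
        simp only [coe_Icc, Set.mem_Icc]
        exact ⟨Nat.div_pos (Nat.le_of_dvd (by omega) hp.2.2.2) hd, Nat.div_le_div_right (by omega)⟩
      · intro p hp p' hp' hpp
        rw [Finset.mem_coe, mem_W] at hp hp'
        have h5 := Nat.div_mul_cancel hp.2.2.2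
        have h6 := Nat.div_mul_cancel hp'.2.2.2
        have h7 : (p + 1) / d = (p' + 1) / d := hpp
        rw [h7, h6] at h5
        omega
    rwa [Nat.card_Icc, Nat.add_sub_cancel] at h2
  calc ((W Q u t d).card : ℝ) ≤ (((t + 1) / d : ℕ) : ℝ) := by exact_mod_cast h1
    _ ≤ ((t + 1 : ℕ) : ℝ) / d := Nat.cast_div_le
    _ = _ := by push_cast; rfl

lemma W_mono (Q u t : ℕ) {a b : ℕ} (h : a ∣ b) : ((W Q u t b).card : ℝ) ≤ ((W Q u t a).card : ℝ) := by
  have : W Q u t b ⊆ W Q u t a := by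
    intro p hp
    rw [mem_W] at hp ⊢
    exact ⟨hp.1, hp.2.1, hp.2.2.1, h.trans hp.2.2.2⟩
  exact_mod_cast Finset.card_le_card this

/-- splitting of the sum over the moduli -/
lemma split_sumW (Q u t t1 D0 D y : ℕ) (ht1 : t1 = t + 1) (h0D : D0 ≤ D) (hDy : D ≤ y)
    (hyt : y ≤ t1) :
    ∑ d ∈ Icc 1 t1, Λ d * ((W Q u t d).card : ℝ) ≤
      (∑ d ∈ Icc 1 D0, Λ d) * ((W Q u t 1).card : ℝ) + t1 * ∑ d ∈ Ioc D0 t1, npf d +
      ∑ q ∈ (Ioc D0 D).filter (fun q => q.Prime), Real.log q * ((W Q u t q).card : ℝ) +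
      ∑ q ∈ (Ioc D y).filter (fun q => q.Prime), Real.log q * ((W Q u t q).card : ℝ) +
      ∑ q ∈ (Ioc y t1).filter (fun q => q.Prime), Real.log q * ((W Q u t q).card : ℝ) := by
  set f : ℕ → ℝ := fun d => Λ d * ((W Q u t d).card : ℝ) with hf
  set g : ℕ → ℝ := fun q => Real.log q * ((W Q u t q).card : ℝ) with hg
  have h1 : ∑ d ∈ Icc 1 t1, f d = ∑ d ∈ Icc 1 D0, f d + ∑ d ∈ Ioc D0 t1, f d := by
    rw [← Finset.sum_union]
    · apply Finset.sum_congr _ (fun _ _ => rfl)
      ext q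
      simp only [mem_union, mem_Icc, mem_Ioc]
      omega
    · rw [Finset.disjoint_left]
      intro q h1 h2
      simp only [mem_Icc, mem_Ioc] at h1 h2
      omega
  have h0 : ∑ d ∈ Icc 1 D0, f d ≤ (∑ d ∈ Icc 1 D0, Λ d) * ((W Q u t 1).card : ℝ) := by
    rw [Finset.sum_mul]
    apply Finset.sum_le_sum
    intro d _
    exact mul_le_mul_of_nonneg_left (W_mono Q u t (one_dvd d))
      ArithmeticFunction.vonMangoldt_nonneg
  have h2 : ∀ d ∈ Ioc D0 t1, f d ≤ t1 * npf d + (if d.Prime then g d else 0) := by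
    intro d hd
    rw [mem_Ioc] at hd
    by_cases hp : d.Prime
    · simp only [hp, if_true, hf, hg]
      rw [vm_prime_div hp]
      have := npf_nonneg d
      have : 0 ≤ (t1 : ℝ) * npf d := by positivity
      linarith
    · simp only [hp, if_false, hf, npf, add_zero]
      have h3 : ((W Q u t d).card : ℝ) ≤ t1 / d := by
        have := W_card_le Q u t d (by omega)
        rw [ht1]
        push_cast
        exact this
      have h4 : 0 ≤ Λ d := ArithmeticFunction.vonMangoldt_nonneg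
      calc Λ d * ((W Q u t d).card : ℝ) ≤ Λ d * (t1 / d) :=
            mul_le_mul_of_nonneg_left h3 h4
        _ = t1 * (Λ d / d) := by ring
  have h3 : ∑ d ∈ Ioc D0 t1, (if d.Prime then g d else 0) =
      ∑ q ∈ (Ioc D0 D).filter (fun q => q.Prime), g q +
      ∑ q ∈ (Ioc D y).filter (fun q => q.Prime), g q +
      ∑ q ∈ (Ioc y t1).filter (fun q => q.Prime), g q := by
    rw [← Finset.sum_filter, ← Finset.sum_union, ← Finset.sum_union]
    · apply Finset.sum_congr _ (fun _ _ => rfl)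
      ext q
      simp only [mem_union, mem_filter, mem_Ioc]
      constructor
      · rintro ⟨h1, h2⟩
        rcases Nat.lt_or_ge D q with h3 | h3
        · rcases Nat.lt_or_ge y q with h4 | h4
          · exact Or.inr ⟨by omega, h2⟩
          · exact Or.inl (Or.inr ⟨by omega, h2⟩)
        · exact Or.inl (Or.inl ⟨by omega, h2⟩)
      · rintro ((⟨h1, h2⟩ | ⟨h1, h2⟩) | ⟨h1, h2⟩)
        · exact ⟨by omega, h2⟩
        · exact ⟨by omega, h2⟩
        · exact ⟨by omega, h2⟩
    · rw [Finset.disjoint_left]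
      intro q h1 h2
      simp only [mem_union, mem_filter, mem_Ioc] at h1 h2
      omega
    · rw [Finset.disjoint_left]
      intro q h1 h2
      simp only [mem_filter, mem_Ioc] at h1 h2
      omega
  have h4 := Finset.sum_le_sum h2
  rw [Finset.sum_add_distrib, ← Finset.mul_sum, h3] at h4
  rw [h1]
  linarith

lemma card_PP_piN (x : ℕ) : (PP x).card = piN x := rfl

/-- the contribution of the prime moduli covered by Bombieri-Vinogradov -/
lemma bv_partW (Q u : ℕ) (hQ : 1 ≤ Q) (hu : Nat.Coprime u Q) : ∃ C : ℝ, 0 < C ∧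
    ∀ δ : ℝ, δ < 1 / 2 → ∃ C' : ℝ, 0 < C' ∧ ∀ x : ℕ, 3 ≤ x →
    ∀ D0 D : ℕ, Q ≤ D0 → 1 ≤ D → Q * D ≤ ⌊(x : ℝ) ^ δ⌋₊ → (D : ℝ) ^ 2 ≤ x →
    ∑ q ∈ (Ioc D0 D).filter (fun q => q.Prime), Real.log q * ((W Q u x q).card : ℝ) ≤
      ((PP x).card : ℝ) / (Nat.totient Q : ℝ) * ((1 / 2) * Real.log x + C) +
        C' * (x / Real.log x ^ 2) ∧
    ((PP x).card : ℝ) / (Nat.totient Q : ℝ) ≤ ((W Q u x 1).card : ℝ) + C' * (x / Real.log x ^ 3) := by
  obtain ⟨C, hC, h1⟩ := sum_vm_totient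
  refine ⟨C, hC, fun δ hδ => ?_⟩
  obtain ⟨C', hC', h2⟩ := bv δ hδ 3
  choose af haf1 haf2 using W_SPL.exists_res Q u hQ hu
  refine ⟨C', hC', fun x hx D0 D hMD0 hD1 hD2 hD4 => ?_⟩
  have hx' : (3 : ℝ) ≤ x := by exact_mod_cast hx
  have hL : 0 < Real.log x := Real.log_pos (by linarith)
  have hD1' : (1 : ℝ) ≤ D := by exact_mod_cast hD1
  have hlogD : 2 * Real.log D ≤ Real.log x := by
    have := Real.log_le_log (by positivity) hD4
    rw [Real.log_pow] at this
    exact_mod_cast this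
  have hφ : (0 : ℝ) < (Nat.totient Q : ℝ) := by exact_mod_cast Nat.totient_pos.2 hQ
  have h3 := h1 D hD1
  constructor
  · have h4 := h2 x hx af (fun d hd => haf1 d hd)
    set err : ℕ → ℝ := fun d => |Er x d (af d)| with herr
    have hterm : ∀ q ∈ (Ioc D0 D).filter (fun q => q.Prime),
        Real.log q * ((W Q u x q).card : ℝ) ≤
        ((PP x).card : ℝ) / (Nat.totient Q : ℝ) * (Λ q / (Nat.totient q : ℝ)) +
          Real.log x * err (q * Q) := by
      intro q hq
      rw [mem_filter, mem_Ioc] at hq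
      have hQq : Q < q := by omega
      obtain ⟨ha1, ha2⟩ := haf2 (q * Q) q hq.2 hQq rfl
      have hcop : Nat.Coprime q Q := by
        exact (Nat.Prime.coprime_iff_not_dvd hq.2).2 (Nat.not_dvd_of_pos_of_lt (by omega) (by omega))
      have htot : (Nat.totient (q * Q) : ℝ) = (Nat.totient Q : ℝ) * (Nat.totient q : ℝ) := by
        rw [Nat.totient_mul hcop]; push_cast; ring
      have hφq : (0 : ℝ) < (Nat.totient q : ℝ) := by exact_mod_cast Nat.totient_pos.2 hq.2.pos
      have h5 : Real.log q ≤ Real.log x := by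
        apply Real.log_le_log (by exact_mod_cast hq.2.pos)
        have : (q : ℝ) ≤ D := by exact_mod_cast hq.1.2
        nlinarith
      have h6 : 0 ≤ Real.log q := Real.log_natCast_nonneg q
      have hW : ((W Q u x q).card : ℝ) = piAP x (q * Q) (af (q * Q)) := by
        rw [← W_SPL.count_eq Q u q (af (q * Q)) x hq.2 hQq hQ ha1 ha2]
        congr 2
        ext p
        rw [mem_W, mem_filter, mem_filter, mem_Icc]
        constructor
        · rintro ⟨a, b, c, d⟩
          exact ⟨⟨⟨b.pos, a⟩, b, c⟩, d⟩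
        · rintro ⟨⟨⟨_, a⟩, b, c⟩, d⟩
          exact ⟨a, b, c, d⟩
      have h8 : 0 ≤ err (q * Q) := abs_nonneg _
      rw [vm_prime_div hq.2]
      have h9 : ((PP x).card : ℝ) / (Nat.totient Q : ℝ) * (Real.log q / (Nat.totient q : ℝ)) =
          Real.log q * (((PP x).card : ℝ) / (Nat.totient (q * Q) : ℝ)) := by
        rw [htot]; field_simp
      rw [h9]
      have h10 : ((W Q u x q).card : ℝ) ≤
          ((PP x).card : ℝ) / (Nat.totient (q * Q) : ℝ) + err (q * Q) := by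
        have h7 := le_abs_self (Er x (q * Q) (af (q * Q)))
        have e : Er x (q * Q) (af (q * Q)) = (piAP x (q * Q) (af (q * Q)) : ℝ) -
          (piN x : ℝ) / Nat.totient (q * Q) := rfl
        have e2 : err (q * Q) = |Er x (q * Q) (af (q * Q))| := rfl
        rw [e2, hW, card_PP_piN]
        linarith
      calc Real.log q * ((W Q u x q).card : ℝ)
          ≤ Real.log q * (((PP x).card : ℝ) / (Nat.totient (q * Q) : ℝ) + err (q * Q)) :=
            mul_le_mul_of_nonneg_left h10 h6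
        _ = Real.log q * (((PP x).card : ℝ) / (Nat.totient (q * Q) : ℝ)) +
            Real.log q * err (q * Q) := by ring
        _ ≤ _ := by
            have := mul_le_mul_of_nonneg_right h5 h8
            linarith
    refine (Finset.sum_le_sum hterm).trans ?_
    rw [Finset.sum_add_distrib, ← Finset.mul_sum, ← Finset.mul_sum]
    have h10 : ((PP x).card : ℝ) / (Nat.totient Q : ℝ) *
        ∑ d ∈ (Ioc D0 D).filter (fun q => q.Prime), Λ d / (Nat.totient d : ℝ) ≤
        ((PP x).card : ℝ) / (Nat.totient Q : ℝ) * ((1 / 2) * Real.log x + C) := by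
      apply mul_le_mul_of_nonneg_left _ (by positivity)
      have h11 : ∑ d ∈ (Ioc D0 D).filter (fun q => q.Prime), Λ d / (Nat.totient d : ℝ) ≤
          ∑ d ∈ Icc 1 D, Λ d / (Nat.totient d : ℝ) := by
        apply Finset.sum_le_sum_of_subset_of_nonneg
        · intro q hq
          rw [mem_filter, mem_Ioc] at hq
          rw [mem_Icc]; omega
        · intro d _ _
          exact div_nonneg ArithmeticFunction.vonMangoldt_nonneg (Nat.cast_nonneg _)
      linarith
    have h12 : ∑ q ∈ (Ioc D0 D).filter (fun q => q.Prime), err (q * Q) ≤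
        ∑ m ∈ Icc 1 ⌊(x : ℝ) ^ δ⌋₊, err m := by
      rw [← Finset.sum_image (s := (Ioc D0 D).filter (fun q => q.Prime)) (g := fun q => q * Q)
        (f := err)]
      · apply Finset.sum_le_sum_of_subset_of_nonneg
        · intro m hm
          rw [mem_image] at hm
          obtain ⟨q, hq, rfl⟩ := hm
          rw [mem_filter, mem_Ioc] at hq
          rw [mem_Icc]
          refine ⟨Nat.mul_pos hq.2.pos hQ, ?_⟩
          calc q * Q ≤ D * Q := Nat.mul_le_mul_right _ hq.1.2
            _ = Q * D := mul_comm _ _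
            _ ≤ _ := hD2
        · intro m _ _
          exact abs_nonneg _
      · intro a _ b _ hab
        exact Nat.eq_of_mul_eq_mul_right hQ hab
    have h11 : Real.log x * ∑ q ∈ (Ioc D0 D).filter (fun q => q.Prime), err (q * Q) ≤
        C' * (x / Real.log x ^ 2) := by
      calc _ ≤ Real.log x * (C' * (x / Real.log x ^ 3)) :=
            mul_le_mul_of_nonneg_left (h12.trans h4) hL.le
        _ = C' * (x / Real.log x ^ 2) := by field_simp
    linarith
  · have h4 := h2 x hx (fun d => if d = Q then u else 1) (by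
      intro d _
      by_cases hd : d = Q
      · subst hd
        simpa using hu
      · simp [hd])
    have hmem : Q ∈ Icc 1 ⌊(x : ℝ) ^ δ⌋₊ := by
      rw [mem_Icc]
      exact ⟨hQ, (Nat.le_mul_of_pos_right _ hD1).trans hD2⟩
    have h5 : |Er x Q u| ≤ C' * ((x : ℝ) / Real.log x ^ 3) := by
      refine le_trans ?_ h4
      have h6 := Finset.single_le_sum (f := fun d => |Er x d (if d = Q then u else 1)|)
        (fun d _ => abs_nonneg _) hmem
      simpa using h6
    have h6 := neg_abs_le (Er x Q u)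
    have e : Er x Q u = (piAP x Q u : ℝ) - (piN x : ℝ) / Nat.totient Q := rfl
    have hW : ((W Q u x 1).card : ℝ) = piAP x Q u := by
      congr 2
      unfold W
      ext p
      simp only [mem_filter, one_dvd, and_true]
      rfl
    rw [hW, card_PP_piN]
    linarith

/-- Brun-Titchmarsh -/
lemma bt_W (Q u : ℕ) : ∃ C : ℝ, 1 ≤ C ∧ ∀ t q : ℕ, 4 ≤ t → q.Prime →
    (q : ℝ) ≤ (t : ℝ) ^ (3 / 4 : ℝ) →
    ((W Q u t q).card : ℝ) ≤ C * (t / q) / Real.log t := by
  obtain ⟨C, hC, h⟩ := Helper923.PPS.brun_titchmarsh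
  refine ⟨12 * C, by linarith, fun t q ht hq hqt => ?_⟩
  have ht' : (4 : ℝ) ≤ t := by exact_mod_cast ht
  have ht0 : (0 : ℝ) < t := by linarith
  have hL : 0 < Real.log t := Real.log_pos (by linarith)
  have hq0 : (0 : ℝ) < q := by exact_mod_cast hq.pos
  have hq1 : (q : ℝ) < t := by
    refine hqt.trans_lt ?_
    calc (t : ℝ) ^ (3 / 4 : ℝ) < (t : ℝ) ^ (1 : ℝ) :=
          Real.rpow_lt_rpow_of_exponent_lt (by linarith) (by norm_num)
      _ = t := Real.rpow_one _
  have hqt' : q ≤ t := by exact_mod_cast hq1.le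
  set N : ℕ := (t + 1) / q + 1 with hN
  have hdiv : 1 ≤ (t + 1) / q := (Nat.one_le_div_iff hq.pos).mpr (by omega)
  have hN2 : 2 ≤ N := by omega
  have hq2 := hq.two_le
  have h1 := h (q - 1) q N hN2 (Or.inr hq)
  have h2 : (W Q u t q).card ≤
      ((Finset.range N).filter (fun k => (q - 1 + k * q).Prime)).card := by
    apply Finset.card_le_card_of_injOn (fun p => (p + 1) / q - 1)
    · intro p hp
      rw [Finset.mem_coe, mem_W] at hp
      have hp2 := hp.2.1.two_le
      rw [Finset.mem_coe, mem_filter, mem_range]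
      have h4 : (p + 1) / q * q = p + 1 := Nat.div_mul_cancel hp.2.2.2
      have h5 : 1 ≤ (p + 1) / q := (Nat.one_le_div_iff hq.pos).mpr (Nat.le_of_dvd (by omega) hp.2.2.2)
      have h3 : q - 1 + ((p + 1) / q - 1) * q = p := by
        rw [Nat.sub_mul, one_mul, h4]
        have : q ≤ p + 1 := Nat.le_of_dvd (by omega) hp.2.2.2
        omega
      refine ⟨?_, ?_⟩
      · have : (p + 1) / q ≤ (t + 1) / q := Nat.div_le_div_right (by omega)
        simp only []
        omega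
      · simp only []
        rw [h3]; exact hp.2.1
    · intro p hp p' hp' hpp
      rw [Finset.mem_coe, mem_W] at hp hp'
      simp only [] at hpp
      have h4 : (p + 1) / q * q = p + 1 := Nat.div_mul_cancel hp.2.2.2
      have h5 : 1 ≤ (p + 1) / q := (Nat.one_le_div_iff hq.pos).mpr (Nat.le_of_dvd (by omega) hp.2.2.2)
      have h4' : (p' + 1) / q * q = p' + 1 := Nat.div_mul_cancel hp'.2.2.2
      have h5' : 1 ≤ (p' + 1) / q :=
        (Nat.one_le_div_iff hq.pos).mpr (Nat.le_of_dvd (by omega) hp'.2.2.2)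
      have h6 : (p + 1) / q = (p' + 1) / q := by omega
      rw [h6] at h4
      omega
  have hN' : (t : ℝ) / q ≤ N := by
    rw [hN]; push_cast
    have h3 : ((t + 1 : ℕ) : ℝ) / q < ((t + 1) / q : ℕ) + 1 := by
      have := Nat.lt_floor_add_one (((t + 1 : ℕ) : ℝ) / q)
      rwa [Nat.floor_div_natCast, Nat.floor_natCast] at this
    have h4 : (t : ℝ) / q ≤ ((t + 1 : ℕ) : ℝ) / q := by
      push_cast
      gcongr
      linarith
    linarith
  have hNle : (N : ℝ) ≤ 3 * (t / q) := by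
    have h5 : (((t + 1) / q : ℕ) : ℝ) ≤ ((t + 1 : ℕ) : ℝ) / q := Nat.cast_div_le
    have h6 : (1 : ℝ) ≤ (t : ℝ) / q := by rw [le_div_iff₀ hq0]; linarith
    have h7 : ((t + 1 : ℕ) : ℝ) / q ≤ 2 * (t / q) := by
      push_cast
      rw [← mul_div_assoc]
      gcongr
      linarith
    rw [hN]; push_cast
    linarith
  have htq : (t : ℝ) ^ (1 / 4 : ℝ) ≤ (t : ℝ) / q := by
    rw [le_div_iff₀ hq0]
    calc (t : ℝ) ^ (1 / 4 : ℝ) * q ≤ (t : ℝ) ^ (1 / 4 : ℝ) * (t : ℝ) ^ (3 / 4 : ℝ) :=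
          mul_le_mul_of_nonneg_left hqt (by positivity)
      _ = t := by rw [← Real.rpow_add ht0]; norm_num
  have hlogN : (1 / 4) * Real.log t ≤ Real.log N := by
    rw [← Real.log_rpow ht0]
    exact Real.log_le_log (by positivity) (htq.trans hN')
  have hlogN0 : 0 < (1 / 4) * Real.log t := by positivity
  calc ((W Q u t q).card : ℝ)
      ≤ (((Finset.range N).filter (fun k => (q - 1 + k * q).Prime)).card : ℝ) := by
        exact_mod_cast h2
    _ ≤ C * N / Real.log N := h1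
    _ ≤ C * (3 * (t / q)) / ((1 / 4) * Real.log t) := by
        apply div_le_div₀ (by positivity) _ hlogN0 hlogN
        exact mul_le_mul_of_nonneg_left hNle (by linarith)
    _ = _ := by field_simp; ring

/-- the primes `q` in `(D, y]` with `D ≈ t^{1/2-κ}`, `y ≤ t^{1/2+κ}` -/
lemma mid_W (Q u : ℕ) : ∃ C : ℝ, 0 < C ∧ ∀ κ : ℝ, 0 < κ → κ ≤ 1 / 4 → ∀ t D y : ℕ, 4 ≤ t → 1 ≤ D →
    D ≤ y → (t : ℝ) ^ (1 / 2 - κ) ≤ 2 * (D : ℝ) → (y : ℝ) ≤ (t : ℝ) ^ (1 / 2 + κ) →
    ∑ q ∈ (Ioc D y).filter (fun q => q.Prime), Real.log q * ((W Q u t q).card : ℝ) ≤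
      C * (κ * t + t / Real.log t) := by
  obtain ⟨C, hC, h⟩ := bt_W Q u
  obtain ⟨C1, hC1⟩ := Helper923.HMertens.mertens_log
  have hC10 : 0 ≤ C1 := (abs_nonneg _).trans (hC1 1 le_rfl)
  refine ⟨C * (2 * C1 + 3), by positivity, fun κ hκ hκ4 t D y ht hD hDy hD2 hy => ?_⟩
  have ht' : (4 : ℝ) ≤ t := by exact_mod_cast ht
  have ht0 : (0 : ℝ) < t := by linarith
  have hL : 0 < Real.log t := Real.log_pos (by linarith)
  have hD0 : (0 : ℝ) < D := by exact_mod_cast hD
  have hy0 : (0 : ℝ) < y := by exact_mod_cast (by omega : 0 < y)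
  have hterm : ∀ q ∈ (Ioc D y).filter (fun q => q.Prime), Real.log q * ((W Q u t q).card : ℝ) ≤
      (C * t / Real.log t) * (Real.log q / q) := by
    intro q hq
    rw [mem_filter, mem_Ioc] at hq
    have hq0 : (0 : ℝ) < q := by exact_mod_cast hq.2.pos
    have h1 : (q : ℝ) ≤ (t : ℝ) ^ (3 / 4 : ℝ) := by
      have : (q : ℝ) ≤ y := by exact_mod_cast hq.1.2
      refine (this.trans hy).trans ?_
      apply Real.rpow_le_rpow_of_exponent_le (by linarith)
      linarith
    have h2 := h t q ht hq.2 h1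
    have h3 := mul_le_mul_of_nonneg_left h2 (Real.log_natCast_nonneg q)
    refine h3.trans (le_of_eq ?_)
    field_simp
  refine (Finset.sum_le_sum hterm).trans ?_
  rw [← Finset.mul_sum]
  have hsplit : ∑ q ∈ (Ioc D y).filter (fun q => q.Prime), Real.log q / (q : ℝ) =
      ∑ q ∈ (Icc 1 y).filter Nat.Prime, Real.log q / (q : ℝ) -
      ∑ q ∈ (Icc 1 D).filter Nat.Prime, Real.log q / (q : ℝ) := by
    rw [eq_sub_iff_add_eq', ← Finset.sum_union]
    · apply Finset.sum_congr _ (fun _ _ => rfl)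
      ext q
      simp only [mem_union, mem_filter, mem_Icc, mem_Ioc]
      constructor
      · rintro (⟨h1, h2⟩ | ⟨h1, h2⟩)
        · exact ⟨by omega, h2⟩
        · exact ⟨by omega, h2⟩
      · rintro ⟨h1, h2⟩
        rcases Nat.lt_or_ge D q with h3 | h3
        · exact Or.inr ⟨by omega, h2⟩
        · exact Or.inl ⟨by omega, h2⟩
    · rw [Finset.disjoint_left]
      intro q h1 h2
      simp only [mem_filter, mem_Icc, mem_Ioc] at h1 h2
      omega
  have h4 := (abs_le.mp (hC1 y (by omega))).2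
  have h5 := (abs_le.mp (hC1 D hD)).1
  have h6 : Real.log y ≤ (1 / 2 + κ) * Real.log t := by
    rw [← Real.log_rpow ht0]
    exact Real.log_le_log hy0 hy
  have h7 : (1 / 2 - κ) * Real.log t ≤ Real.log D + 1 := by
    rw [← Real.log_rpow ht0]
    have h8 := Real.log_le_log (by positivity) hD2
    rw [Real.log_mul (by norm_num) hD0.ne'] at h8
    have := Real.log_two_lt_d9
    linarith
  have h9 : ∑ q ∈ (Ioc D y).filter (fun q => q.Prime), Real.log q / (q : ℝ) ≤
      2 * κ * Real.log t + (2 * C1 + 1) := by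
    rw [hsplit]
    nlinarith
  calc (C * t / Real.log t) * ∑ q ∈ (Ioc D y).filter (fun q => q.Prime), Real.log q / (q : ℝ)
      ≤ (C * t / Real.log t) * (2 * κ * Real.log t + (2 * C1 + 1)) :=
        mul_le_mul_of_nonneg_left h9 (by positivity)
    _ = C * (2 * (κ * t) + (2 * C1 + 1) * (t / Real.log t)) := by
        field_simp
    _ ≤ C * (2 * C1 + 3) * (κ * t + t / Real.log t) := by
        rw [mul_assoc C]
        apply mul_le_mul_of_nonneg_left _ (by linarith)
        have h10 : 0 ≤ κ * t := by positivity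
        have h11 : 0 ≤ t / Real.log t := by positivity
        nlinarith [mul_nonneg hC10 h10, mul_nonneg hC10 h11]

/-- every prime is counted at most once -/
lemma count_onceW (Q u t t1 y : ℕ) (Y : ℝ) (ht1 : t1 = t + 1) (hY : 0 ≤ Y) (hy : y = ⌊Y⌋₊)
    (hYt : (t1 : ℝ) ≤ Y ^ 2) :
    ∑ q ∈ (Ioc y t1).filter (fun q => q.Prime), ((W Q u t q).card : ℝ) ≤
      ((PF Q u t Y).card : ℝ) := by
  rw [← Nat.cast_sum, Nat.cast_le, ← Finset.card_sigma]
  apply Finset.card_le_card_of_injOn (fun x : (_ : ℕ) × ℕ => x.2)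
  · rintro ⟨q, p⟩ hx
    rw [Finset.mem_coe, mem_sigma, mem_filter, mem_Ioc] at hx
    simp only [mem_W] at hx
    rw [Finset.mem_coe, mem_PF]
    obtain ⟨⟨⟨hq1, hq2⟩, hqp⟩, hp1, hp2, hp3, hp4⟩ := hx
    refine ⟨hp1, hp2, hp3, q, hqp, ?_, hp4⟩
    have h1 : Y < (⌊Y⌋₊ : ℝ) + 1 := Nat.lt_floor_add_one Y
    have h2 : ((⌊Y⌋₊ + 1 : ℕ) : ℝ) ≤ (q : ℝ) := by
      rw [← hy]; exact_mod_cast hq1
    push_cast at h2
    linarith
  · rintro ⟨q, p⟩ hx ⟨q', p'⟩ hx' hxx
    rw [Finset.mem_coe, mem_sigma, mem_filter, mem_Ioc] at hx hx'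
    simp only [mem_W] at hx hx'
    simp only at hxx
    subst hxx
    obtain ⟨⟨⟨hq1, hq2⟩, hqp⟩, hp1, hp2, hp3, hp4⟩ := hx
    obtain ⟨⟨⟨hq1', hq2'⟩, hqp'⟩, hp1', hp2', hp3', hp4'⟩ := hx'
    have hqq : q = q' := by
      by_contra hne
      have hcop : Nat.Coprime q q' := (Nat.coprime_primes hqp hqp').2 hne
      have h1 : q * q' ∣ p + 1 := hcop.mul_dvd_of_dvd_of_dvd hp4 hp4'
      have h2 := Nat.le_of_dvd (by omega) h1
      have h3 : q * q' ≤ t1 := by omega
      have h4 : Y < (⌊Y⌋₊ : ℝ) + 1 := Nat.lt_floor_add_one Y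
      have h5 : (y : ℝ) + 1 ≤ q := by exact_mod_cast hq1
      have h6 : (y : ℝ) + 1 ≤ q' := by exact_mod_cast hq1'
      rw [← hy] at h4
      have h7 : (q : ℝ) * q' ≤ t1 := by exact_mod_cast h3
      have h8 : Y * Y < (q : ℝ) * q' := by
        have h9 : Y < q := by linarith
        have h10 : Y < q' := by linarith
        nlinarith
      nlinarith
    subst hqq
    rfl

end Pool.Agent.J4H11.RC
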