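import Pool.Agent.J4H11.RC.Irr

/-!
# Functions on an elliptic curve, simple zeros

A polynomial `G(x, y)` on `y² = x³ + a x + b` is `A(x) + B(x) y`. A simple zero is a point `S` of
the curve with `G(S) = 0` at which `G` does not vanish to second order along the curve: `G` does not
vanish at the tangent vector at `S` (a point of the curve over the dual numbers).
-/

set_option autoImplicit false

namespace Pool.Agent.J4H11.RC

open Polynomial TrivSqZeroExt

/-- the cubic `x³ + a x + b` -/
noncomputable def cub {k : Type} [CommRing k] (a b : k) : k[X] := X ^ 3 + C a * X + C b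

theorem cub_natDegree {k : Type} [Field k] (a b : k) : (cub a b).natDegree = 3 := by
  unfold cub
  compute_degree!

theorem aeval_cub {k T : Type} [CommRing k] [CommRing T] [Algebra k T] (a b : k) (x : T) :
    aeval x (cub a b) = x ^ 3 + algebraMap k T a * x + algebraMap k T b := by
  simp [cub]

/-- the even part in `y` -/
noncomputable def evA {k : Type} [Field k] (f : k[X]) (G : MvPolynomial (Fin 2) k) : k[X] :=
  ∑ m ∈ G.support, if Even (m 1) then C (G.coeff m) * X ^ (m 0) * f ^ (m 1 / 2) else 0

/-- the odd part in `y` -/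
noncomputable def evB {k : Type} [Field k] (f : k[X]) (G : MvPolynomial (Fin 2) k) : k[X] :=
  ∑ m ∈ G.support, if Even (m 1) then 0 else C (G.coeff m) * X ^ (m 0) * f ^ (m 1 / 2)

theorem pair_eval {k T : Type} [Field k] [CommRing T] [Algebra k T] (f : k[X])
    (G : MvPolynomial (Fin 2) k) (x y : T) (h : y ^ 2 = aeval x f) :
    MvPolynomial.aeval ![x, y] G = aeval x (evA f G) + aeval x (evB f G) * y := by
  rw [MvPolynomial.aeval_def, MvPolynomial.eval₂_eq']
  unfold evA evB
  rw [map_sum, map_sum, Finset.sum_mul, ← Finset.sum_add_distrib]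
  refine Finset.sum_congr rfl fun m _ => ?_
  rw [Fin.prod_univ_two]
  simp only [Matrix.cons_val_zero, Matrix.cons_val_one]
  by_cases hm : Even (m 1)
  · obtain ⟨j, hj⟩ := hm
    have h1 : Even (m 1) := ⟨j, hj⟩
    rw [if_pos h1, if_pos h1]
    have h2 : m 1 / 2 = j := by omega
    rw [h2]
    simp only [map_mul, map_pow, aeval_C, aeval_X, map_zero, zero_mul, add_zero]
    rw [← h, ← pow_mul, hj, ← two_mul]
    ring
  · have h1 := hm
    rw [Nat.not_even_iff_odd] at hm
    obtain ⟨j, hj⟩ := hm
    rw [if_neg h1, if_neg h1]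
    have h2 : m 1 / 2 = j := by omega
    rw [h2]
    simp only [map_mul, map_pow, aeval_C, aeval_X, map_zero, zero_add]
    rw [← h, ← pow_mul, hj, pow_succ]
    ring

theorem deg_term {k : Type} [Field k] (f : k[X]) (hf : f.natDegree = 3) (G : MvPolynomial (Fin 2) k)
    (D : ℕ) (hG : G.totalDegree ≤ D) (m : Fin 2 →₀ ℕ) (hm : m ∈ G.support) :
    (C (G.coeff m) * X ^ (m 0) * f ^ (m 1 / 2) : k[X]).natDegree ≤ 2 * D := by
  have h1 : m 0 + m 1 ≤ D := by
    have h2 := (MvPolynomial.le_totalDegree hm).trans hG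
    rwa [Finsupp.sum_fintype _ _ (fun _ => rfl), Fin.sum_univ_two] at h2
  refine natDegree_mul_le.trans ?_
  have h3 : (C (G.coeff m) * X ^ (m 0) : k[X]).natDegree ≤ m 0 :=
    (natDegree_C_mul_le _ _).trans (natDegree_X_pow_le _)
  have h4 : (f ^ (m 1 / 2)).natDegree ≤ (m 1 / 2) * 3 := by
    rw [← hf]
    exact natDegree_pow_le
  omega

theorem evA_natDegree {k : Type} [Field k] (f : k[X]) (hf : f.natDegree = 3)
    (G : MvPolynomial (Fin 2) k) (D : ℕ) (hG : G.totalDegree ≤ D) :
    (evA f G).natDegree ≤ 2 * D := by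
  unfold evA
  refine natDegree_sum_le_of_forall_le _ _ fun m hm => ?_
  split_ifs
  · exact deg_term f hf G D hG m hm
  · simp

theorem evB_natDegree {k : Type} [Field k] (f : k[X]) (hf : f.natDegree = 3)
    (G : MvPolynomial (Fin 2) k) (D : ℕ) (hG : G.totalDegree ≤ D) :
    (evB f G).natDegree ≤ 2 * D := by
  unfold evB
  refine natDegree_sum_le_of_forall_le _ _ fun m hm => ?_
  split_ifs
  · simp
  · exact deg_term f hf G D hG m hm

/-- the `x`-coordinate of the tangent vector -/
def tx {K : Type} [Field K] (x y : K) : TrivSqZeroExt K K := inl x + inr (2 * y)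

/-- the `y`-coordinate of the tangent vector -/
def ty {K : Type} [Field K] (a x y : K) : TrivSqZeroExt K K := inl y + inr (3 * x ^ 2 + a)

@[simp] theorem fst_tx {K : Type} [Field K] (x y : K) : (tx x y).fst = x := by simp [tx]
@[simp] theorem snd_tx {K : Type} [Field K] (x y : K) : (tx x y).snd = 2 * y := by simp [tx]
@[simp] theorem fst_ty {K : Type} [Field K] (a x y : K) : (ty a x y).fst = y := by simp [ty]
@[simp] theorem snd_ty {K : Type} [Field K] (a x y : K) : (ty a x y).snd = 3 * x ^ 2 + a := by
  simp [ty]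

theorem tan_curve {K : Type} [Field K] (a b x y : K) (h : y ^ 2 = x ^ 3 + a * x + b) :
    (ty a x y) ^ 2 = (tx x y) ^ 3 + (inl a) * (tx x y) + inl b := by
  ext
  · simp only [pow_two, pow_succ, fst_mul, fst_add, fst_ty, fst_tx, fst_inl, pow_zero, one_mul]
    linear_combination h
  · simp only [pow_succ, pow_zero, one_mul, snd_mul, snd_add, fst_mul, snd_ty, snd_tx, fst_ty,
      fst_tx, snd_inl, fst_inl, smul_eq_mul, MulOpposite.smul_eq_mul_unop, MulOpposite.unop_op]
    ring

/-- `(x, y)` is a simple zero of the function `G` on `y² = x³ + a x + b` -/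
def SimpleZero {k K : Type} [Field k] [Field K] [Algebra k K] (a b : k)
    (G : MvPolynomial (Fin 2) k) (x y : K) : Prop :=
  y ^ 2 = x ^ 3 + algebraMap k K a * x + algebraMap k K b ∧
    MvPolynomial.aeval ![x, y] G = 0 ∧
    MvPolynomial.aeval ![tx x y, ty (algebraMap k K a) x y] G ≠ 0

theorem algebraMap_inl {k K : Type} [Field k] [Field K] [Algebra k K] (c : k) :
    algebraMap k (TrivSqZeroExt K K) c = inl (algebraMap k K c) := rfl

theorem fst_aeval {k K : Type} [Field k] [Field K] [Algebra k K] (P : k[X])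
    (z : TrivSqZeroExt K K) : (aeval z P).fst = aeval z.fst P := by
  have h := Polynomial.aeval_algHom_apply (fstHom k K K) z P
  exact h.symm

theorem fst_aeval_mv {k K : Type} [Field k] [Field K] [Algebra k K] (P : MvPolynomial (Fin 2) k)
    (z w : TrivSqZeroExt K K) : (MvPolynomial.aeval ![z, w] P).fst =
      MvPolynomial.aeval ![z.fst, w.fst] P := by
  have h := MvPolynomial.map_aeval ![z, w] (fstHom k K K).toRingHom P
  have h2 := MvPolynomial.comp_aeval_apply (R := k) ![z, w] (fstHom k K K) P
  have h3 : (fun i => (fstHom k K K) (![z, w] i)) = ![z.fst, w.fst] := by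
    funext i
    fin_cases i <;> rfl
  rw [h3] at h2
  exact h2

/-- the norm of a function has a simple root at the `x`-coordinate of a simple zero `S` of the
function, if `- S` is not a zero -/
theorem norm_simple {k K : Type} [Field k] [Field K] [Algebra k K] (a b : k)
    (G : MvPolynomial (Fin 2) k) (x y : K) (h : SimpleZero a b G x y)
    (h' : MvPolynomial.aeval ![x, -y] G ≠ 0) :
    (((evA (cub a b) G) ^ 2 - (evB (cub a b) G) ^ 2 * cub a b).map
      (algebraMap k K)).rootMultiplicity x = 1 := by
  classical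
  obtain ⟨h1, h2, h3⟩ := h
  set f := cub a b with hf
  set A := evA f G with hA
  set B := evB f G with hB
  set N := A ^ 2 - B ^ 2 * f with hN
  set X' := tx x y with hX'
  set Y' := ty (algebraMap k K a) x y with hY'
  have hc : Y' ^ 2 = aeval X' f := by
    rw [hf, aeval_cub, algebraMap_inl, algebraMap_inl]
    exact tan_curve _ _ x y h1
  have e1 : MvPolynomial.aeval ![X', Y'] G = aeval X' A + aeval X' B * Y' := pair_eval f G X' Y' hc
  have e2 : MvPolynomial.aeval ![X', -Y'] G = aeval X' A + aeval X' B * -Y' :=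
    pair_eval f G X' (-Y') (by rw [neg_sq]; exact hc)
  have e3 : aeval X' N = (MvPolynomial.aeval ![X', Y'] G) * (MvPolynomial.aeval ![X', -Y'] G) := by
    rw [e1, e2, hN]
    simp only [map_sub, map_mul, map_pow, ← hc]
    ring
  set g1 := MvPolynomial.aeval ![X', Y'] G with hg1
  set g2 := MvPolynomial.aeval ![X', -Y'] G with hg2
  have f1 : g1.fst = 0 := by
    rw [hg1, fst_aeval_mv, hX', hY', fst_tx, fst_ty]
    exact h2
  have f2 : g2.fst ≠ 0 := by
    rw [hg2, fst_aeval_mv, hX', hY', fst_tx, fst_neg, fst_ty]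
    exact h'
  have f3 : g1.snd ≠ 0 := by
    intro h0
    apply h3
    ext
    · exact f1
    · exact h0
  have e4 : aeval X' N ≠ 0 := by
    intro h0
    have h4 := congrArg TrivSqZeroExt.snd (e3.symm.trans h0)
    rw [snd_mul, f1, zero_smul, zero_add, snd_zero, MulOpposite.smul_eq_mul_unop,
      MulOpposite.unop_op] at h4
    exact mul_ne_zero f3 f2 h4
  have e5 : aeval x N = 0 := by
    have h4 := fst_aeval N X'
    rw [e3, fst_mul, f1, zero_mul, hX', fst_tx] at h4
    exact h4.symm
  set NK := N.map (algebraMap k K) with hNK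
  have e6 : aeval X' NK ≠ 0 := by
    rw [hNK, aeval_map_algebraMap]
    exact e4
  have hNK0 : NK ≠ 0 := by
    intro h0
    rw [h0, map_zero] at e6
    exact e6 rfl
  have hroot : NK.IsRoot x := by
    rw [IsRoot.def, hNK, eval_map_algebraMap]
    exact e5
  have hge : 1 ≤ NK.rootMultiplicity x := (rootMultiplicity_pos hNK0).2 hroot
  have hle : ¬ 2 ≤ NK.rootMultiplicity x := by
    intro h4
    rw [le_rootMultiplicity_iff hNK0] at h4
    obtain ⟨q, hq⟩ := h4
    apply e6
    rw [hq, map_mul, map_pow, map_sub, aeval_X, aeval_C]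
    have h5 : (X' - algebraMap K (TrivSqZeroExt K K) x) ^ 2 = 0 := by
      have h6 : X' - algebraMap K (TrivSqZeroExt K K) x = inr (2 * y) := by
        rw [hX']
        show inl x + inr (2 * y) - inl x = inr (2 * y)
        ring
      rw [h6, pow_two, inr_mul_inr]
    rw [h5, zero_mul]
  omega

end Pool.Agent.J4H11.RC
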