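import Pool.Agent.J4H11.RC.Elim
import Pool.Agent.J4H11.RC.Loc
import Pool.Agent.H901R3.MS.Stm

/-!
# Specialization of a polynomial function on a product of elliptic curves
-/

set_option autoImplicit false

namespace Pool.Agent.J4H11.RC

open MvPolynomial WeierstrassCurve Pool.Agent.H901R3.MS TrivSqZeroExt

section
variable {r : ℕ} (i : Fin r)

/-- the function on `E_i` obtained by fixing the other coordinates -/
noncomputable def spec {k : Type} [Field k] (F : MvPolynomial (Fin r × Fin 2) ℤ) (xb yb : Bi i → k) :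
    MvPolynomial (Fin 2) k :=
  aeval (fun v : Fin r × Fin 2 =>
    if h : v.1 = i then (X v.2 : MvPolynomial (Fin 2) k) else C (pv xb yb (⟨v.1, h⟩, v.2))) F

theorem pv_zero {B S : Type} (x y : B → S) (j : B) : pv x y (j, 0) = x j := rfl

theorem pv_one {B S : Type} (x y : B → S) (j : B) : pv x y (j, 1) = y j := rfl

theorem fin2 (e : Fin 2) : e = 0 ∨ e = 1 := by omega

theorem spec_hom {k : Type} [Field k] {T : Type} [CommRing T] [Algebra k T]
    (F : MvPolynomial (Fin r × Fin 2) ℤ) (xb yb : Bi i → k) (x0 y0 : T)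
    (g : MvPolynomial (Fin r × Fin 2) ℤ →+* T)
    (hg : ∀ v, g (X v) = pv (ext i (fun j => algebraMap k T (xb j)) x0)
        (ext i (fun j => algebraMap k T (yb j)) y0) v) :
    aeval ![x0, y0] (spec i F xb yb) = g F := by
  have h : ((aeval ![x0, y0] : MvPolynomial (Fin 2) k →ₐ[k] T).toRingHom.comp
      (aeval (fun v : Fin r × Fin 2 => if h : v.1 = i then (X v.2 : MvPolynomial (Fin 2) k)
        else C (pv xb yb (⟨v.1, h⟩, v.2))) : MvPolynomial (Fin r × Fin 2) ℤ →ₐ[ℤ] _).toRingHom) =
      g := by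
    apply MvPolynomial.ringHom_ext
    · intro n
      have h1 : g (C n) = ((n : ℤ) : T) := eq_intCast (g.comp C) n
      rw [h1]
      simp
    · rintro ⟨j, e⟩
      simp only [RingHom.comp_apply, AlgHom.toRingHom_eq_coe, RingHom.coe_coe, aeval_X]
      rw [hg]
      by_cases hj : j = i
      · rw [dif_pos hj, aeval_X]
        subst hj
        rcases fin2 e with rfl | rfl
        · rw [pv_zero, ext_self]
          rfl
        · rw [pv_one, ext_self]
          rfl
      · rw [dif_neg hj, aeval_C]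
        rcases fin2 e with rfl | rfl
        · rw [pv_zero, pv_zero]
          exact (ext_ne i (fun j => algebraMap k T (xb j)) x0 ⟨j, hj⟩).symm
        · rw [pv_one, pv_one]
          exact (ext_ne i (fun j => algebraMap k T (yb j)) y0 ⟨j, hj⟩).symm
  exact congrArg (fun g : MvPolynomial (Fin r × Fin 2) ℤ →+* T => g F) h

theorem spec_eval {k : Type} [Field k] {T : Type} [CommRing T] [Algebra k T]
    (F : MvPolynomial (Fin r × Fin 2) ℤ) (xb yb : Bi i → k) (x0 y0 : T) :
    aeval ![x0, y0] (spec i F xb yb) =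
      aeval (pv (ext i (fun j => algebraMap k T (xb j)) x0)
        (ext i (fun j => algebraMap k T (yb j)) y0)) F :=
  spec_hom i F xb yb x0 y0 (aeval (pv (ext i (fun j => algebraMap k T (xb j)) x0)
        (ext i (fun j => algebraMap k T (yb j)) y0))).toRingHom (fun v => by simp)

theorem spec_deg {k : Type} [Field k] (F : MvPolynomial (Fin r × Fin 2) ℤ) (xb yb : Bi i → k) :
    (spec i F xb yb).totalDegree ≤ F.totalDegree := by
  unfold spec
  rw [aeval_def, eval₂_eq]
  refine totalDegree_finsetSum_le fun m hm => ?_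
  refine (totalDegree_mul _ _).trans ?_
  have h1 : (algebraMap ℤ (MvPolynomial (Fin 2) k) (coeff m F)).totalDegree = 0 := by
    have : algebraMap ℤ (MvPolynomial (Fin 2) k) (coeff m F) = C ((coeff m F : ℤ) : k) := by
      simp
    rw [this, totalDegree_C]
  rw [h1, zero_add]
  refine (totalDegree_finsetProd _ _).trans ?_
  refine le_trans ?_ (le_totalDegree hm)
  rw [Finsupp.sum]
  refine Finset.sum_le_sum fun v _ => ?_
  refine (totalDegree_pow _ _).trans ?_
  have h2 : (if h : v.1 = i then (X v.2 : MvPolynomial (Fin 2) k)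
      else C (pv xb yb (⟨v.1, h⟩, v.2))).totalDegree ≤ 1 := by
    split_ifs
    · rw [totalDegree_X]
    · rw [totalDegree_C]; omega
  calc m v * _ ≤ m v * 1 := Nat.mul_le_mul_left _ h2
    _ = m v := mul_one _

theorem hom_tangent {σ K : Type} [Fintype σ] [DecidableEq σ] [Field K]
    (g : MvPolynomial σ ℤ →+* TrivSqZeroExt K K) (z t : σ → K)
    (hg : ∀ v, g (X v) = inl (z v) + inr (t v)) (F : MvPolynomial σ ℤ) :
    g F = inl (aeval z F) + inr (∑ v, t v * aeval z (pderiv v F)) := by
  induction F using MvPolynomial.induction_on with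
  | C n =>
    simp only [aeval_C, pderiv_C, map_zero, mul_zero, Finset.sum_const_zero, inr_zero, add_zero]
    have h1 : g (C n) = ((n : ℤ) : TrivSqZeroExt K K) := eq_intCast (g.comp C) n
    rw [h1]
    simp
  | add p q hp hq =>
    rw [map_add, hp, hq, map_add]
    simp only [map_add, mul_add, Finset.sum_add_distrib, inl_add, inr_add]
    abel
  | mul_X p u hp =>
    rw [map_mul, hp, hg, map_mul, aeval_X]
    have h1 : ∑ v, t v * aeval z (pderiv v (p * X u)) =
        (∑ v, t v * aeval z (pderiv v p)) * z u + t u * aeval z p := by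
      simp only [pderiv_mul, pderiv_X, map_add, map_mul, aeval_X, mul_add, Finset.sum_add_distrib]
      congr 1
      · rw [Finset.sum_mul]
        refine Finset.sum_congr rfl fun v _ => by ring
      · rw [Finset.sum_eq_single u]
        · simp
        · intro v _ hv
          rw [Pi.single_eq_of_ne hv.symm]
          simp
        · intro h
          exact absurd (Finset.mem_univ _) h
    rw [h1]
    ext
    · simp
    · simp
      ring

theorem simpleZero_spec {k K : Type} [Field k] [Field K] [Algebra k K] (a b : Fin r → ℤ)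
    (F : MvPolynomial (Fin r × Fin 2) ℤ) (xb yb : Bi i → k) (xS yS : K)
    (h1 : yS ^ 2 = xS ^ 3 + (a i : K) * xS + (b i : K))
    (h2 : aeval (pv (ext i (fun j => algebraMap k K (xb j)) xS)
        (ext i (fun j => algebraMap k K (yb j)) yS)) F = 0)
    (h3 : aeval (pv (ext i (fun j => algebraMap k K (xb j)) xS)
        (ext i (fun j => algebraMap k K (yb j)) yS)) (Wp i a F) ≠ 0) (c : k) (hc : c ≠ 0) :
    SimpleZero ((a i : ℤ) : k) ((b i : ℤ) : k) (C c * spec i F xb yb) xS yS := by
  classical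
  refine ⟨?_, ?_, ?_⟩
  · rw [map_intCast, map_intCast]
    exact h1
  · rw [map_mul, spec_eval, h2, mul_zero]
  · rw [map_mul, aeval_C, map_intCast]
    intro h0
    set g : MvPolynomial (Fin r × Fin 2) ℤ →+* TrivSqZeroExt K K :=
      eval₂Hom (Int.castRingHom (TrivSqZeroExt K K))
        (pv (ext i (fun j => algebraMap k (TrivSqZeroExt K K) (xb j)) (tx xS yS))
          (ext i (fun j => algebraMap k (TrivSqZeroExt K K) (yb j)) (ty (a i : K) xS yS))) with hg
    have hgX : ∀ v, g (X v) = pv (ext i (fun j => algebraMap k (TrivSqZeroExt K K) (xb j))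
        (tx xS yS)) (ext i (fun j => algebraMap k (TrivSqZeroExt K K) (yb j))
          (ty (a i : K) xS yS)) v := fun v => by
      rw [hg, coe_eval₂Hom, eval₂_X]
    rw [spec_hom i F xb yb _ _ g hgX] at h0
    set z := pv (ext i (fun j => algebraMap k K (xb j)) xS)
        (ext i (fun j => algebraMap k K (yb j)) yS) with hz
    set t : Fin r × Fin 2 → K := fun v => if v.1 = i then
      (if v.2 = 0 then 2 * yS else 3 * xS ^ 2 + (a i : K)) else 0 with ht
    have h4 : ∀ v, pv (ext i (fun j => algebraMap k (TrivSqZeroExt K K) (xb j)) (tx xS yS))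
        (ext i (fun j => algebraMap k (TrivSqZeroExt K K) (yb j)) (ty (a i : K) xS yS)) v =
        (inl (z v) + inr (t v) : TrivSqZeroExt K K) := by
      intro v
      obtain ⟨j, e⟩ := v
      by_cases hj : j = i
      · subst hj
        rcases fin2 e with rfl | rfl
        · rw [pv_zero, ext_self, hz, pv_zero, ext_self]
          simp [ht, tx]
        · rw [pv_one, ext_self, hz, pv_one, ext_self]
          simp [ht, ty]
      · rcases fin2 e with rfl | rfl
        · have e1 := ext_ne i (fun j => algebraMap k (TrivSqZeroExt K K) (xb j)) (tx xS yS) ⟨j, hj⟩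
          have e2 := ext_ne i (fun j => algebraMap k K (xb j)) xS ⟨j, hj⟩
          simp only at e1 e2
          rw [pv_zero, e1, hz, pv_zero, e2]
          simp [ht, hj, algebraMap_inl]
        · have e1 := ext_ne i (fun j => algebraMap k (TrivSqZeroExt K K) (yb j))
            (ty (a i : K) xS yS) ⟨j, hj⟩
          have e2 := ext_ne i (fun j => algebraMap k K (yb j)) yS ⟨j, hj⟩
          simp only at e1 e2
          rw [pv_one, e1, hz, pv_one, e2]
          simp [ht, hj, algebraMap_inl]
    have h4' := hom_tangent g z t (fun v => (hgX v).trans (h4 v)) F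
    rw [h4'] at h0
    have h5 : ∑ v, t v * aeval z (pderiv v F) = aeval z (Wp i a F) := by
      rw [Fintype.sum_prod_type, Finset.sum_eq_single i]
      · rw [Fin.sum_univ_two, Wp]
        have ezx : z (i, 0) = xS := by rw [hz, pv_zero, ext_self]
        have ezy : z (i, 1) = yS := by rw [hz, pv_one, ext_self]
        simp only [map_add, map_mul, map_pow, aeval_X, aeval_C, ezx, ezy, ht, if_true]
        simp
      · intro j _ hj
        simp [ht, hj]
      · intro h
        exact absurd (Finset.mem_univ _) h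
    rw [h5, h2] at h0
    have h6 := congrArg TrivSqZeroExt.snd h0
    have h7 : (algebraMap k (TrivSqZeroExt K K) c) = inl (algebraMap k K c) := rfl
    rw [h7] at h6
    simp only [inl_zero, zero_add, inl_mul_inr, snd_inr, snd_zero, smul_eq_mul] at h6
    rcases mul_eq_zero.1 h6 with h8 | h8
    · exact hc ((map_eq_zero _).1 h8)
    · exact h3 h8

end

/-- `P` lifts to a rational point of `δ w ^ ℓ = F`, or is not affine -/
def Lft {r : ℕ} {a b : Fin r → ℤ} (ℓ : ℕ) (F : MvPolynomial (Fin r × Fin 2) ℤ) (δ : ℚ)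
    (P : (j : Fin r) → Pt (a j : ℚ) (b j : ℚ)) : Prop :=
  (∀ j, P j ≠ 0) → ∃ w : ℚ, δ * w ^ ℓ =
    aeval (pv (fun j => (crd (P j)).1) (fun j => (crd (P j)).2)) F

theorem red_eval {r : ℕ} {a b : Fin r → ℤ} (F : MvPolynomial (Fin r × Fin 2) ℤ)
    {p : ℕ} [Fact p.Prime] (v : Place ℚ (ZMod p))
    (red : (j : Fin r) → Pt (a j : ℚ) (b j : ℚ) → Pt (a j : ZMod p) (b j : ZMod p))
    (hred : ∀ j, IsRed v (a j) (b j) (red j)) (P : (j : Fin r) → Pt (a j : ℚ) (b j : ℚ))
    (hne : ∀ j, red j (P j) ≠ 0) :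
    (∀ j, P j ≠ 0) ∧ aeval (pv (fun j => (crd (P j)).1) (fun j => (crd (P j)).2)) F ∈ v.A ∧
    v.r (aeval (pv (fun j => (crd (P j)).1) (fun j => (crd (P j)).2)) F) =
      aeval (pv (fun j => (crd (red j (P j))).1) (fun j => (crd (red j (P j))).2)) F := by
  have hcrd : ∀ j, P j ≠ 0 ∧ (crd (P j)).1 ∈ v.A ∧ (crd (P j)).2 ∈ v.A ∧
      (crd (red j (P j))).1 = v.r (crd (P j)).1 ∧ (crd (red j (P j))).2 = v.r (crd (P j)).2 := by
    intro j
    have h1 := hred j
    have h2 := hne j
    generalize P j = Pj at h2 ⊢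
    rcases Pj with _ | ⟨x, y, h⟩
    · exact absurd h1.1 h2
    · by_cases hxA : x ∈ v.A
      · obtain ⟨hyA, g, hg⟩ := h1.2.2 x y h hxA
        refine ⟨(by intro h; cases h), hxA, hyA, ?_, ?_⟩
        · rw [hg]; rfl
        · rw [hg]; rfl
      · exact absurd (h1.2.1 x y h hxA) h2
  have hmem : ∀ u : Fin r × Fin 2, pv (fun j => (crd (P j)).1) (fun j => (crd (P j)).2) u ∈ v.A := by
    rintro ⟨j, e⟩
    rcases fin2 e with rfl | rfl
    · exact (hcrd j).2.1
    · exact (hcrd j).2.2.1
  set zA : Fin r × Fin 2 → v.A := fun u => ⟨_, hmem u⟩ with hzA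
  have e1 : ((aeval zA F : v.A) : ℚ) =
      aeval (pv (fun j => (crd (P j)).1) (fun j => (crd (P j)).2)) F := by
    have h : (v.A.subtype.comp (aeval zA : MvPolynomial (Fin r × Fin 2) ℤ →ₐ[ℤ] v.A).toRingHom) =
        (aeval (pv (fun j => (crd (P j)).1) (fun j => (crd (P j)).2)) :
          MvPolynomial (Fin r × Fin 2) ℤ →ₐ[ℤ] ℚ).toRingHom := by
      apply MvPolynomial.ringHom_ext
      · intro n
        simp
      · intro u
        simp [hzA]
    exact congrArg (fun g : MvPolynomial (Fin r × Fin 2) ℤ →+* ℚ => g F) h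
  have e2 : v.ρ (aeval zA F) =
      aeval (pv (fun j => (crd (red j (P j))).1) (fun j => (crd (red j (P j))).2)) F := by
    have h : (v.ρ.comp (aeval zA : MvPolynomial (Fin r × Fin 2) ℤ →ₐ[ℤ] v.A).toRingHom) =
        (aeval (pv (fun j => (crd (red j (P j))).1) (fun j => (crd (red j (P j))).2)) :
          MvPolynomial (Fin r × Fin 2) ℤ →ₐ[ℤ] ZMod p).toRingHom := by
      apply MvPolynomial.ringHom_ext
      · intro n
        simp
      · rintro ⟨j, e⟩
        simp only [RingHom.comp_apply, AlgHom.toRingHom_eq_coe, RingHom.coe_coe, aeval_X]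
        rcases fin2 e with rfl | rfl
        · rw [pv_zero, (hcrd j).2.2.2.1, v.r_of (hcrd j).2.1]
          rfl
        · rw [pv_one, (hcrd j).2.2.2.2, v.r_of (hcrd j).2.2.1]
          rfl
    exact congrArg (fun g : MvPolynomial (Fin r × Fin 2) ℤ →+* ZMod p => g F) h
  have hFA : aeval (pv (fun j => (crd (P j)).1) (fun j => (crd (P j)).2)) F ∈ v.A := by
    rw [← e1]
    exact (aeval zA F : v.A).2
  refine ⟨fun j => (hcrd j).1, hFA, ?_⟩
  rw [v.r_of hFA, ← e2]
  congr 1
  exact Subtype.ext e1.symm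

/-- uniformly in `δ`: the values of `F` at the reductions of the points which lift to
`δ w ^ ℓ = F` are in one coset of the `ℓ`-th powers -/
theorem lft_red {r : ℕ} {a b : Fin r → ℤ} (ℓ : ℕ) (hℓ : 1 ≤ ℓ) (F : MvPolynomial (Fin r × Fin 2) ℤ)
    (δ : ℚ) {p : ℕ} [Fact p.Prime] (v : Place ℚ (ZMod p))
    (red : (j : Fin r) → Pt (a j : ℚ) (b j : ℚ) → Pt (a j : ZMod p) (b j : ZMod p))
    (hred : ∀ j, IsRed v (a j) (b j) (red j)) :
    ∃ e : ZMod p, e ≠ 0 ∧ ∀ P : (j : Fin r) → Pt (a j : ℚ) (b j : ℚ),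
      Lft ℓ F δ P → (∀ j, red j (P j) ≠ 0) → ∃ w : ZMod p, e * w ^ ℓ =
      aeval (pv (fun j => (crd (red j (P j))).1) (fun j => (crd (red j (P j))).2)) F := by
  by_cases hs : ∃ s : ℚ, s ≠ 0 ∧ v.r (δ * s ^ ℓ) ≠ 0
  · obtain ⟨s, hs0, hs1⟩ := hs
    refine ⟨v.r (δ * s ^ ℓ), hs1, fun P hP hne => ?_⟩
    obtain ⟨h1, h2, h3⟩ := red_eval F v red hred P hne
    obtain ⟨w, hw⟩ := hP h1
    set δ' := δ * s ^ ℓ with hδ'
    set w' := w / s with hw'
    have hw2 : δ' * w' ^ ℓ = aeval (pv (fun j => (crd (P j)).1) (fun j => (crd (P j)).2)) F := by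
      rw [← hw, hδ', hw', div_pow]
      field_simp
    have hδA := v.mem_of_r_ne hs1
    have hδ0 := v.ne_zero_of_r_ne hs1
    have hwA : w' ∈ v.A := by
      apply v.mem_of_pow_mem hℓ
      have h4 : w' ^ ℓ = aeval (pv (fun j => (crd (P j)).1) (fun j => (crd (P j)).2)) F * δ'⁻¹ := by
        rw [← hw2]
        field_simp
      rw [h4]
      exact v.A.mul_mem h2 (v.inv_mem hs1)
    refine ⟨v.r w', ?_⟩
    rw [← h3, ← hw2, v.r_mul hδA (v.A.pow_mem hwA ℓ), v.r_pow hwA]
  · refine ⟨1, one_ne_zero, fun P hP hne => ?_⟩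
    obtain ⟨h1, h2, h3⟩ := red_eval F v red hred P hne
    obtain ⟨w, hw⟩ := hP h1
    refine ⟨0, ?_⟩
    rw [← h3, zero_pow (by omega), mul_zero]
    by_contra h4
    apply hs
    refine ⟨w, ?_, ?_⟩
    · rintro rfl
      rw [zero_pow (by omega), mul_zero] at hw
      rw [← hw] at h4
      exact h4 v.r_zero.symm
    · rw [hw]
      exact fun h5 => h4 h5.symm

end Pool.Agent.J4H11.RC
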