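import Pool.Agent.J4H11.RC.Trans

/-!
# Simple zeros of translates
-/

set_option autoImplicit false

namespace Pool.Agent.J4H11.RC

open MvPolynomial TrivSqZeroExt

section
variable {k K : Type} [Field k] [Field K] [Algebra k K]

theorem trans_at (xh yh : k) (x y x3 y3 : K) (hne : x ≠ algebraMap k K xh)
    (hx3 : x3 = ((y - algebraMap k K yh) / (x - algebraMap k K xh)) ^ 2 - x - algebraMap k K xh)
    (hy3 : y3 = -((y - algebraMap k K yh) / (x - algebraMap k K xh) * (x3 - x) + y))
    (M : ℕ) (G : MvPolynomial (Fin 2) k) (hM : 3 * G.totalDegree ≤ M) :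
    aeval ![x, y] (trans xh yh M G) = (x - algebraMap k K xh) ^ M * aeval ![x3, y3] G := by
  have hu : x - algebraMap k K xh ≠ 0 := sub_ne_zero.2 hne
  rw [trans_eval xh yh x y (x - algebraMap k K xh)⁻¹ _ _ _ _ rfl rfl (mul_inv_cancel₀ hu) rfl rfl
    M G hM]
  congr 3
  have e1 : ((y - algebraMap k K yh) ^ 2 - (x - algebraMap k K xh) ^ 2 *
      (x + algebraMap k K xh)) * (x - algebraMap k K xh)⁻¹ ^ 2 = x3 := by
    rw [hx3]
    field_simp
    ring
  have e2 : (-(algebraMap k K yh * (x - algebraMap k K xh) ^ 3 + (y - algebraMap k K yh) *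
      (((y - algebraMap k K yh) ^ 2 - (x - algebraMap k K xh) ^ 2 *
      (x + algebraMap k K xh)) - algebraMap k K xh * (x - algebraMap k K xh) ^ 2))) *
      (x - algebraMap k K xh)⁻¹ ^ 3 = y3 := by
    rw [hy3, hx3]
    field_simp
    ring
  rw [e1, e2]

theorem simpleZero_trans (a b xh yh : k) (x y x3 y3 : K) (hne : x ≠ algebraMap k K xh)
    (h : y ^ 2 = x ^ 3 + algebraMap k K a * x + algebraMap k K b)
    (hh : yh ^ 2 = xh ^ 3 + a * xh + b)
    (hx3 : x3 = ((y - algebraMap k K yh) / (x - algebraMap k K xh)) ^ 2 - x - algebraMap k K xh)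
    (hy3 : y3 = -((y - algebraMap k K yh) / (x - algebraMap k K xh) * (x3 - x) + y))
    (M : ℕ) (G : MvPolynomial (Fin 2) k) (hM : 3 * G.totalDegree ≤ M)
    (hz : SimpleZero a b G x3 y3) : SimpleZero a b (trans xh yh M G) x y := by
  refine ⟨h, ?_, ?_⟩
  · rw [trans_at xh yh x y x3 y3 hne hx3 hy3 M G hM, hz.2.1, mul_zero]
  · have hh' : (algebraMap k K yh) ^ 2 = (algebraMap k K xh) ^ 3 +
        algebraMap k K a * algebraMap k K xh + algebraMap k K b := by
      rw [← map_pow, hh]
      simp only [map_add, map_mul, map_pow]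
    obtain ⟨v, hv, e1, e2⟩ := tan_trans (algebraMap k K a) (algebraMap k K b) x y
      (algebraMap k K xh) (algebraMap k K yh) x3 y3 h hh' hne hx3 hy3
    have key := trans_eval xh yh (tx x y) (ty (algebraMap k K a) x y) v
      (inl (algebraMap k K xh)) (inl (algebraMap k K yh)) _ _ rfl rfl hv rfl rfl M G hM
    rw [key]
    rw [e1, e2]
    intro h0
    apply hz.2.2
    have h1 : (tx x y - inl (algebraMap k K xh)) ^ M * v ^ M = 1 := by
      rw [← mul_pow, hv, one_pow]
    calc aeval ![tx x3 y3, ty (algebraMap k K a) x3 y3] G =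
        ((tx x y - inl (algebraMap k K xh)) ^ M * v ^ M) *
          aeval ![tx x3 y3, ty (algebraMap k K a) x3 y3] G := by rw [h1, one_mul]
      _ = v ^ M * ((tx x y - inl (algebraMap k K xh)) ^ M *
          aeval ![tx x3 y3, ty (algebraMap k K a) x3 y3] G) := by ring
      _ = 0 := by rw [h0, mul_zero]

theorem simpleZero_mul (a b : k) (G T : MvPolynomial (Fin 2) k) (n : ℕ) (x y : K)
    (hz : SimpleZero a b T x y) (hG : aeval ![x, y] G ≠ 0) :
    SimpleZero a b (G ^ n * T) x y := by
  refine ⟨hz.1, ?_, ?_⟩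
  · rw [map_mul, hz.2.1, mul_zero]
  · rw [map_mul, map_pow]
    set g := aeval ![tx x y, ty (algebraMap k K a) x y] G with hg
    have h1 : g.fst ≠ 0 := by
      rw [hg, fst_aeval_mv, fst_tx, fst_ty]
      exact hG
    have h2 : (g ^ n).fst ≠ 0 := by
      rw [fst_pow]
      exact pow_ne_zero _ h1
    have h3 : IsUnit (g ^ n) := by
      rw [isUnit_iff_isUnit_fst]
      exact isUnit_iff_ne_zero.2 h2
    intro h0
    exact hz.2.2 ((h3.mul_right_eq_zero).1 h0)

theorem simpleZero_ne_zero (a b : k) (G : MvPolynomial (Fin 2) k) (x y : K)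
    (hz : SimpleZero a b G x y) : (evA (cub a b) G) ^ 2 - (evB (cub a b) G) ^ 2 * cub a b ≠ 0 := by
  intro h0
  have hB : evB (cub a b) G = 0 := by
    by_contra hB
    let F := FractionRing (Polynomial k)
    have hB' : algebraMap (Polynomial k) F (evB (cub a b) G) ≠ 0 := by
      rw [Ne, map_eq_zero_iff _ (IsFractionRing.injective (Polynomial k) F)]
      exact hB
    apply cubic_not_sq (K := F) (cub a b) (cub_natDegree a b)
      (algebraMap _ F (evA (cub a b) G) / algebraMap _ F (evB (cub a b) G))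
    rw [div_pow, div_eq_iff (pow_ne_zero 2 hB'), ← map_pow, ← map_pow, ← map_mul]
    congr 1
    linear_combination h0
  have hA : evA (cub a b) G = 0 := by
    rw [hB] at h0
    have h1 : (evA (cub a b) G) ^ 2 = 0 := by linear_combination h0
    exact pow_eq_zero_iff (two_ne_zero) |>.1 h1
  apply hz.2.2
  have hc : (ty (algebraMap k K a) x y) ^ 2 = Polynomial.aeval (tx x y) (cub a b) := by
    rw [aeval_cub, algebraMap_inl, algebraMap_inl]
    exact tan_curve _ _ x y hz.1
  rw [pair_eval (cub a b) G _ _ hc, hA, hB, map_zero, zero_mul, add_zero]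

/-- the affine zeros of `G` on the curve -/
def ZZ (a b : k) (G : MvPolynomial (Fin 2) k) (K : Type) [Field K] [Algebra k K] : Set (K × K) :=
  {z | z.2 ^ 2 = z.1 ^ 3 + algebraMap k K a * z.1 + algebraMap k K b ∧ aeval ![z.1, z.2] G = 0}

theorem ZZ_card (a b : k) (G : MvPolynomial (Fin 2) k) (x y : K) (hz : SimpleZero a b G x y)
    (D : ℕ) (hD : G.totalDegree ≤ D) :
    (ZZ a b G K).Finite ∧ (ZZ a b G K).ncard ≤ 2 * (4 * D + 3) := by
  classical
  set f := cub a b with hf
  set N := (evA f G) ^ 2 - (evB f G) ^ 2 * f with hN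
  have hN0 : N ≠ 0 := simpleZero_ne_zero a b G x y hz
  set NK := N.map (algebraMap k K) with hNK
  have hNK0 : NK ≠ 0 := (Polynomial.map_ne_zero_iff (algebraMap k K).injective).2 hN0
  let S : Finset (K × K) := NK.roots.toFinset.biUnion (fun x =>
    ((Polynomial.X ^ 2 - Polynomial.C (Polynomial.aeval x f) : Polynomial K).roots.toFinset).image
      (fun y => (x, y)))
  have hS : ZZ a b G K ⊆ (S : Set (K × K)) := by
    rintro ⟨x', y'⟩ ⟨h1, h2⟩
    simp only at h1 h2
    have hc : y' ^ 2 = Polynomial.aeval x' f := by rw [hf, aeval_cub]; exact h1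
    rw [pair_eval f G x' y' hc] at h2
    simp only [S, Finset.coe_biUnion, Set.mem_iUnion, Finset.mem_coe, Multiset.mem_toFinset,
      exists_prop, Finset.coe_image, Set.mem_image]
    refine ⟨x', ?_, y', ?_, rfl⟩
    · rw [Polynomial.mem_roots hNK0, Polynomial.IsRoot.def, hNK, Polynomial.eval_map_algebraMap, hN]
      simp only [map_sub, map_mul, map_pow, ← hc]
      linear_combination (Polynomial.aeval x' (evA f G) - Polynomial.aeval x' (evB f G) * y') * h2
    · rw [Polynomial.mem_roots (Polynomial.X_pow_sub_C_ne_zero two_pos _), Polynomial.IsRoot.def]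
      simp [hc]
  have hS2 : S.card ≤ 2 * (4 * D + 3) := by
    refine Finset.card_biUnion_le.trans ?_
    refine (Finset.sum_le_card_nsmul _ _ 2 fun x _ => ?_).trans ?_
    · refine Finset.card_image_le.trans ?_
      refine (Multiset.toFinset_card_le _).trans ((Polynomial.card_roots' _).trans ?_)
      rw [Polynomial.natDegree_X_pow_sub_C]
    · rw [smul_eq_mul, mul_comm]
      apply Nat.mul_le_mul_left
      refine (Multiset.toFinset_card_le _).trans ((Polynomial.card_roots' _).trans ?_)
      rw [hNK, Polynomial.natDegree_map, hN]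
      have hA := evA_natDegree f (cub_natDegree a b) G D hD
      have hB := evB_natDegree f (cub_natDegree a b) G D hD
      refine (Polynomial.natDegree_sub_le _ _).trans (max_le ?_ ?_)
      · refine Polynomial.natDegree_pow_le.trans ?_
        have := Nat.mul_le_mul_left 2 hA
        omega
      · refine Polynomial.natDegree_mul_le.trans ?_
        have h1 : ((evB f G) ^ 2).natDegree ≤ 2 * (2 * D) :=
          Polynomial.natDegree_pow_le.trans (Nat.mul_le_mul_left 2 hB)
        rw [hf, cub_natDegree]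
        rw [hf] at h1
        omega
  refine ⟨(Finset.finite_toSet S).subset hS, ?_⟩
  calc (ZZ a b G K).ncard ≤ (S : Set (K × K)).ncard := Set.ncard_le_ncard hS (Finset.finite_toSet _)
    _ = S.card := Set.ncard_coe_finset _
    _ ≤ _ := hS2

end

end Pool.Agent.J4H11.RC
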