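import Pool.Agent.J4H11.RC.SZ
import Pool.Agent.H901R3.MS.Defs

/-!
# Translation of functions on an elliptic curve
-/

set_option autoImplicit false

namespace Pool.Agent.J4H11.RC

open MvPolynomial TrivSqZeroExt

section
variable {k : Type} [Field k] (xh yh : k)

/-- `x - x_h` -/
noncomputable def tU : MvPolynomial (Fin 2) k := X 0 - C xh

/-- numerator of the `x`-coordinate of `(x, y) + h` -/
noncomputable def tNx : MvPolynomial (Fin 2) k :=
  (X 1 - C yh) ^ 2 - (tU xh) ^ 2 * (X 0 + C xh)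

/-- numerator of the `y`-coordinate of `(x, y) + h` -/
noncomputable def tNy : MvPolynomial (Fin 2) k :=
  -(C yh * (tU xh) ^ 3 + (X 1 - C yh) * (tNx xh yh - C xh * (tU xh) ^ 2))

/-- the polynomial `(x - x_h) ^ M G ((x, y) + h)` -/
noncomputable def trans (M : ℕ) (G : MvPolynomial (Fin 2) k) : MvPolynomial (Fin 2) k :=
  ∑ m ∈ G.support, C (G.coeff m) * (tNx xh yh) ^ (m 0) * (tNy xh yh) ^ (m 1) *
    (tU xh) ^ (M - (2 * m 0 + 3 * m 1))

theorem deg_le_of_mem {G : MvPolynomial (Fin 2) k} {m : Fin 2 →₀ ℕ} (hm : m ∈ G.support) :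
    m 0 + m 1 ≤ G.totalDegree := by
  have h2 := le_totalDegree hm
  rwa [Finsupp.sum_fintype _ _ (fun _ => rfl), Fin.sum_univ_two] at h2

theorem trans_eval {T : Type} [CommRing T] [Algebra k T] (x y v xh' yh' Nx Ny : T)
    (hxh : xh' = algebraMap k T xh) (hyh : yh' = algebraMap k T yh) (hv : (x - xh') * v = 1)
    (hNx : Nx = (y - yh') ^ 2 - (x - xh') ^ 2 * (x + xh'))
    (hNy : Ny = -(yh' * (x - xh') ^ 3 + (y - yh') * (Nx - xh' * (x - xh') ^ 2)))
    (M : ℕ) (G : MvPolynomial (Fin 2) k) (hM : 3 * G.totalDegree ≤ M) :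
    aeval ![x, y] (trans xh yh M G) = (x - xh') ^ M * aeval ![Nx * v ^ 2, Ny * v ^ 3] G := by
  subst hxh hyh
  have e1 : aeval ![x, y] (tU xh) = x - algebraMap k T xh := by simp [tU]
  have e2 : aeval ![x, y] (tNx xh yh) = Nx := by
    rw [hNx, tNx]
    simp only [map_sub, map_mul, map_pow, map_add, e1, aeval_X, aeval_C, Matrix.cons_val_zero,
      Matrix.cons_val_one]
  have e3 : aeval ![x, y] (tNy xh yh) = Ny := by
    rw [hNy, tNy]
    simp only [map_neg, map_sub, map_mul, map_pow, map_add, e1, e2, aeval_X, aeval_C,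
      Matrix.cons_val_one, Matrix.cons_val_zero]
  unfold trans
  rw [map_sum]
  conv_rhs => rw [aeval_def, eval₂_eq', Finset.mul_sum]
  refine Finset.sum_congr rfl fun m hm => ?_
  simp only [map_mul, map_pow, e1, e2, e3, aeval_C, Fin.prod_univ_two, Matrix.cons_val_zero,
    Matrix.cons_val_one]
  set u := x - algebraMap k T xh with hu
  have hd := deg_le_of_mem hm
  obtain ⟨j, hj⟩ : ∃ j, M = j + (2 * m 0 + 3 * m 1) := ⟨M - (2 * m 0 + 3 * m 1), by omega⟩
  have hj2 : M - (2 * m 0 + 3 * m 1) = j := by omega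
  rw [hj2, hj]
  have h1 : u ^ (j + (2 * m 0 + 3 * m 1)) = u ^ j * (u ^ 2) ^ m 0 * (u ^ 3) ^ m 1 := by
    rw [pow_add, pow_add, pow_mul, pow_mul]
    ring
  rw [h1]
  have h2 : (Nx * v ^ 2) ^ m 0 * (u ^ 2) ^ m 0 = Nx ^ m 0 := by
    rw [← mul_pow]
    congr 1
    linear_combination Nx * (u * v + 1) * hv
  have h3 : (Ny * v ^ 3) ^ m 1 * (u ^ 3) ^ m 1 = Ny ^ m 1 := by
    rw [← mul_pow]
    congr 1
    linear_combination Ny * ((u * v) ^ 2 + u * v + 1) * hv
  rw [← h2, ← h3]
  ring

theorem totalDegree_trans (M : ℕ) (G : MvPolynomial (Fin 2) k) (hM : 3 * G.totalDegree ≤ M) :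
    (trans xh yh M G).totalDegree ≤ M + G.totalDegree := by
  have hU : (tU xh).totalDegree ≤ 1 := by
    unfold tU
    refine (totalDegree_sub _ _).trans (max_le ?_ ?_)
    · rw [totalDegree_X]
    · rw [totalDegree_C]; omega
  have hY : (X 1 - C yh : MvPolynomial (Fin 2) k).totalDegree ≤ 1 := by
    refine (totalDegree_sub _ _).trans (max_le ?_ ?_)
    · rw [totalDegree_X]
    · rw [totalDegree_C]; omega
  have hX : (X 0 + C xh : MvPolynomial (Fin 2) k).totalDegree ≤ 1 := by
    refine (totalDegree_add _ _).trans (max_le ?_ ?_)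
    · rw [totalDegree_X]
    · rw [totalDegree_C]; omega
  have hNx : (tNx xh yh).totalDegree ≤ 3 := by
    unfold tNx
    refine (totalDegree_sub _ _).trans (max_le ?_ ?_)
    · refine (totalDegree_pow _ _).trans ?_
      omega
    · refine (totalDegree_mul _ _).trans ?_
      have := totalDegree_pow (tU xh) 2
      omega
  have hNy : (tNy xh yh).totalDegree ≤ 4 := by
    unfold tNy
    rw [totalDegree_neg]
    refine (totalDegree_add _ _).trans (max_le ?_ ?_)
    · refine (totalDegree_mul _ _).trans ?_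
      have := totalDegree_pow (tU xh) 3
      rw [totalDegree_C]
      omega
    · refine (totalDegree_mul _ _).trans ?_
      have h1 : (tNx xh yh - C xh * (tU xh) ^ 2).totalDegree ≤ 3 := by
        refine (totalDegree_sub _ _).trans (max_le hNx ?_)
        refine (totalDegree_mul _ _).trans ?_
        have := totalDegree_pow (tU xh) 2
        rw [totalDegree_C]
        omega
      omega
  unfold trans
  refine totalDegree_finsetSum_le fun m hm => ?_
  have hd := deg_le_of_mem hm
  refine (totalDegree_mul _ _).trans ?_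
  have h1 := totalDegree_mul (C (G.coeff m) * (tNx xh yh) ^ (m 0)) ((tNy xh yh) ^ (m 1))
  have h2 := totalDegree_mul (C (G.coeff m)) ((tNx xh yh) ^ (m 0))
  rw [totalDegree_C] at h2
  have h3 := totalDegree_pow (tNx xh yh) (m 0)
  have h4 := totalDegree_pow (tNy xh yh) (m 1)
  have h5 := totalDegree_pow (tU xh) (M - (2 * m 0 + 3 * m 1))
  have h6 : m 0 * (tNx xh yh).totalDegree ≤ m 0 * 3 := Nat.mul_le_mul_left _ hNx
  have h7 : m 1 * (tNy xh yh).totalDegree ≤ m 1 * 4 := Nat.mul_le_mul_left _ hNy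
  have h8 : (M - (2 * m 0 + 3 * m 1)) * (tU xh).totalDegree ≤ (M - (2 * m 0 + 3 * m 1)) * 1 :=
    Nat.mul_le_mul_left _ hU
  omega

end

section
variable {K : Type} [Field K]

/-- the invariant tangent field is invariant under translation -/
theorem tan_trans (a b x y xh yh x3 y3 : K) (h : y ^ 2 = x ^ 3 + a * x + b)
    (hh : yh ^ 2 = xh ^ 3 + a * xh + b) (hne : x ≠ xh)
    (hx3 : x3 = ((y - yh) / (x - xh)) ^ 2 - x - xh)
    (hy3 : y3 = -((y - yh) / (x - xh) * (x3 - x) + y)) :
    ∃ v : TrivSqZeroExt K K, (tx x y - inl xh) * v = 1 ∧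
      ((ty a x y - inl yh) ^ 2 - (tx x y - inl xh) ^ 2 * (tx x y + inl xh)) * v ^ 2 = tx x3 y3 ∧
      (-(inl yh * (tx x y - inl xh) ^ 3 + (ty a x y - inl yh) *
        (((ty a x y - inl yh) ^ 2 - (tx x y - inl xh) ^ 2 * (tx x y + inl xh)) -
          inl xh * (tx x y - inl xh) ^ 2))) * v ^ 3 = ty a x3 y3 := by
  have hu : x - xh ≠ 0 := sub_ne_zero.2 hne
  have ha : a = (y ^ 2 - yh ^ 2) / (x - xh) - (x ^ 2 + x * xh + xh ^ 2) := by
    field_simp
    linear_combination hh - h
  refine ⟨inl (x - xh)⁻¹ + inr (-(2 * y) / (x - xh) ^ 2), ?_, ?_, ?_⟩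
  · ext
    · simp [hu]
    · simp
      field_simp
      ring
  · ext
    · simp only [pow_succ, pow_zero, one_mul, fst_mul, fst_sub, fst_add, fst_tx, fst_ty, fst_inl,
        fst_inr, add_zero]
      rw [hx3]
      field_simp
      ring
    · simp only [pow_succ, pow_zero, one_mul, snd_mul, snd_sub, snd_add, fst_mul, fst_sub, fst_add,
        snd_tx, snd_ty, fst_tx, fst_ty, snd_inl, fst_inl, fst_inr, snd_inr, add_zero, zero_add,
        sub_zero, smul_eq_mul, MulOpposite.smul_eq_mul_unop, MulOpposite.unop_op]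
      rw [hy3, hx3, ha]
      field_simp
      ring
  · ext
    · simp only [pow_succ, pow_zero, one_mul, fst_mul, fst_sub, fst_add, fst_neg, fst_tx, fst_ty,
        fst_inl, fst_inr, add_zero]
      rw [hy3, hx3]
      field_simp
      ring
    · simp only [pow_succ, pow_zero, one_mul, snd_mul, snd_sub, snd_add, snd_neg, fst_mul, fst_sub,
        fst_add, fst_neg, snd_tx, snd_ty, fst_tx, fst_ty, snd_inl, fst_inl, fst_inr, snd_inr,
        add_zero, zero_add, sub_zero, smul_eq_mul, MulOpposite.smul_eq_mul_unop,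
        MulOpposite.unop_op]
      rw [hx3, ha]
      field_simp
      ring

end

end Pool.Agent.J4H11.RC
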