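import Pool.Agent.N120.TC.V

/-!
# The large sieve for arbitrary moduli with a large prime factor

(after `Pool.Agent.N120.TC.V`, where the moduli are `p - 1`)
-/

set_option autoImplicit false

namespace Pool.Agent.J4H11.RC

open Finset

open Pool.Agent.Helper112 (ee ls_ee_add ls_conj_ee additive_large_sieve)

open Pool.Agent.N120.TC (V_.Sh V_.lower V_.upper)

/-- number of the elements of `MM` divisible by `r` -/
theorem card_dvd (MM : Finset ℕ) (Q r : ℕ) (hr : 0 < r) (h : ∀ m ∈ MM, 1 ≤ m ∧ m ≤ Q) :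
    (MM.filter (fun m => r ∣ m)).card ≤ Q / r := by
  have h1 : (MM.filter (fun m => r ∣ m)).card ≤ (Icc 1 (Q / r)).card := by
    refine card_le_card_of_injOn (fun m => m / r) ?_ ?_
    · intro m hm
      simp only [coe_filter, Set.mem_ofPred_eq] at hm
      simp only [coe_Icc, Set.mem_Icc]
      obtain ⟨h2, h3⟩ := h m hm.1
      exact ⟨Nat.div_pos (Nat.le_of_dvd (by omega) hm.2) hr, Nat.div_le_div_right (by omega)⟩
    · intro m hm m' hm' hmm
      simp only [coe_filter, Set.mem_ofPred_eq] at hm hm'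
      have h5 := Nat.div_mul_cancel hm.2
      have h6 := Nat.div_mul_cancel hm'.2
      have h7 : m / r = m' / r := hmm
      rw [h7, h6] at h5
      exact h5.symm
  rwa [Nat.card_Icc, Nat.add_sub_cancel] at h1

/-- **The sieve.** -/
theorem sieve (N Q D : ℕ) (S MM : Finset ℕ) (q : ℕ → ℕ) (hD : 1 ≤ D) (hS : S ⊆ Icc 1 N)
    (hMM : ∀ m ∈ MM, 1 ≤ m ∧ m ≤ Q ∧ (q m).Prime ∧ D ≤ q m ∧ q m ∣ m ∧ ¬ q m ∣ m / q m)
    (hcl : ∀ m ∈ MM, ∀ a : ℕ,
      3 * ((S.filter (fun n => n % (m / q m) = a)).image (fun n => n % m)).card ≤ 2 * q m) :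
    (MM.card : ℝ) * S.card * D ≤ 12 * Q * (N + (Q : ℝ) ^ 2) := by
  rcases Nat.eq_zero_or_pos S.card with h0 | hS0
  · rw [h0]
    simp only [Nat.cast_zero, mul_zero, zero_mul]
    positivity
  set F : ℕ → ℝ := fun r => ∑ a ∈ (range r).filter (fun a => a.Coprime r),
    ‖V_.Sh S ((a : ℝ) / r)‖ ^ 2 with hF
  have hF0 : ∀ r, 0 ≤ F r := fun r => sum_nonneg fun _ _ => sq_nonneg _
  have hls : ∑ r ∈ Icc 1 Q, F r ≤ 6 * (N + (Q : ℝ) ^ 2) * S.card := by
    have h := additive_large_sieve N Q (fun n => if n ∈ S then 1 else 0)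
    have e1 : ∑ n ∈ Icc 1 N, ‖(if n ∈ S then (1 : ℂ) else 0)‖ ^ 2 = S.card := by
      have : ∀ n ∈ Icc 1 N, ‖(if n ∈ S then (1 : ℂ) else 0)‖ ^ 2 = if n ∈ S then (1 : ℝ) else 0 := by
        intro n _
        split_ifs <;> simp
      rw [sum_congr rfl this, sum_boole, filter_mem_eq_inter, inter_eq_right.2 hS]
    rw [e1] at h
    refine le_trans (le_of_eq ?_) h
    refine sum_congr rfl fun r _ => sum_congr rfl fun a _ => ?_
    congr 2
    unfold V_.Sh
    have e2 : ∀ n ∈ Icc 1 N, (if n ∈ S then (1 : ℂ) else 0) * ee (n * a / r) =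
        if n ∈ S then ee ((n : ℝ) * ((a : ℝ) / r)) else 0 := by
      intro n _
      split_ifs
      · rw [one_mul, mul_div_assoc]
      · rw [zero_mul]
    rw [sum_congr rfl e2, ← sum_filter, filter_mem_eq_inter, inter_eq_right.2 hS]
  have hone : ∀ m ∈ MM, (S.card : ℝ) ^ 2 / 2 ≤ ∑ r ∈ (Icc D Q).filter (fun r => r ∣ m), F r := by
    intro m hm
    obtain ⟨hm1, hmQ, hq, hDq, hqp, hqq⟩ := hMM m hm
    have hk : q m * (m / q m) = m := Nat.mul_div_cancel' hqp
    have hk0 : 0 < m / q m := Nat.div_pos (Nat.le_of_dvd hm1 hqp) hq.pos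
    have h1 := V_.lower S (q m) (m / q m) hk0 hq.pos (by rw [hk]; exact hcl m hm)
    rw [hk] at h1
    have h2 := V_.upper (fun x => ‖V_.Sh S x‖ ^ 2) (fun _ => sq_nonneg _) D (q m) m hm1 hDq hq
      hqp hqq
    refine (h1.trans h2).trans ?_
    refine sum_le_sum_of_subset_of_nonneg ?_ (fun _ _ _ => hF0 _)
    intro r hr
    rw [mem_filter, Nat.mem_divisors] at hr
    rw [mem_filter, mem_Icc]
    exact ⟨⟨hr.2, (Nat.le_of_dvd hm1 hr.1.1).trans hmQ⟩, hr.1.1⟩
  have hsum : (MM.card : ℝ) * ((S.card : ℝ) ^ 2 / 2) ≤ (Q / D : ℝ) * ∑ r ∈ Icc 1 Q, F r := by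
    calc (MM.card : ℝ) * ((S.card : ℝ) ^ 2 / 2) = ∑ _m ∈ MM, (S.card : ℝ) ^ 2 / 2 := by
          rw [sum_const, nsmul_eq_mul]
      _ ≤ ∑ m ∈ MM, ∑ r ∈ (Icc D Q).filter (fun r => r ∣ m), F r := sum_le_sum hone
      _ = ∑ r ∈ Icc D Q, ∑ _m ∈ MM.filter (fun m => r ∣ m), F r := by
          simp only [sum_filter]
          exact sum_comm
      _ = ∑ r ∈ Icc D Q, ((MM.filter (fun m => r ∣ m)).card : ℝ) * F r := by
          refine sum_congr rfl fun r _ => ?_
          rw [sum_const, nsmul_eq_mul]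
      _ ≤ ∑ r ∈ Icc D Q, (Q / D : ℝ) * F r := by
          refine sum_le_sum fun r hr => mul_le_mul_of_nonneg_right ?_ (hF0 r)
          rw [mem_Icc] at hr
          have hr0 : 0 < r := by omega
          have h1 := card_dvd MM Q r hr0 (fun m hm => ⟨(hMM m hm).1, (hMM m hm).2.1⟩)
          have hD0 : (0 : ℝ) < D := by exact_mod_cast hD
          calc ((MM.filter (fun m => r ∣ m)).card : ℝ) ≤ ((Q / r : ℕ) : ℝ) := Nat.cast_le.2 h1
            _ ≤ (Q : ℝ) / r := Nat.cast_div_le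
            _ ≤ (Q : ℝ) / D := div_le_div_of_nonneg_left (Nat.cast_nonneg _) hD0
                (by exact_mod_cast hr.1)
      _ = (Q / D : ℝ) * ∑ r ∈ Icc D Q, F r := by rw [mul_sum]
      _ ≤ (Q / D : ℝ) * ∑ r ∈ Icc 1 Q, F r := by
          refine mul_le_mul_of_nonneg_left ?_ (by positivity)
          exact sum_le_sum_of_subset_of_nonneg (Icc_subset_Icc_left hD) (fun _ _ _ => hF0 _)
  have hD0 : (0 : ℝ) < D := by exact_mod_cast hD
  have hS0' : (0 : ℝ) < S.card := by exact_mod_cast hS0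
  have h1 : (MM.card : ℝ) * ((S.card : ℝ) ^ 2 / 2) ≤
      (Q / D : ℝ) * (6 * (N + (Q : ℝ) ^ 2) * S.card) :=
    hsum.trans (mul_le_mul_of_nonneg_left hls (by positivity))
  have h2 : ((MM.card : ℝ) * S.card * D) * (S.card / (2 * D)) ≤
      (12 * Q * (N + (Q : ℝ) ^ 2)) * (S.card / (2 * D)) := by
    have e1 : ((MM.card : ℝ) * S.card * D) * (S.card / (2 * D)) =
        (MM.card : ℝ) * ((S.card : ℝ) ^ 2 / 2) := by
      field_simp
    have e2 : (12 * Q * (N + (Q : ℝ) ^ 2)) * (S.card / (2 * D)) =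
        (Q / D : ℝ) * (6 * (N + (Q : ℝ) ^ 2) * S.card) := by
      field_simp
      ring
    rw [e1, e2]
    exact h1
  exact le_of_mul_le_mul_right h2 (by positivity)

end Pool.Agent.J4H11.RC
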